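import Pool.Agent.CRK.St

/-!
Campaign CRK, module Alt: multilinear alternating functions are multiples of the standard
polynomial.
-/

set_option autoImplicit false

namespace Pool.Agent.CRK

open Pool.Agent.CRR Pool.Agent.CRN Finset

section

variable {R : Type} [NonUnitalRing R]

theorem Alt_cons (a : R) (l : List R) (hl : l ≠ []) : wp (a :: l) = a * wp l := by
  cases l with
  | nil => exact absurd rfl hl
  | cons b l => rfl

theorem Alt_wp : ∀ (n : ℕ) (f : Fin n → R) (j : Fin n) (x y : R),
    wp (List.ofFn (Function.update f j (x + y))) =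
      wp (List.ofFn (Function.update f j x)) + wp (List.ofFn (Function.update f j y)) := by
  intro n
  induction n with
  | zero => exact fun f j => j.elim0
  | succ n ih =>
    intro f j x y
    rcases Nat.eq_zero_or_pos n with h0 | h0
    · subst h0
      have hj : j = 0 := Fin.ext (by omega)
      subst hj
      have h1 : ∀ z : R, wp (List.ofFn (Function.update f 0 z)) = z := by
        intro z
        rw [List.ofFn_succ, List.ofFn_zero, Function.update_self]
        rfl
      rw [h1, h1, h1]
    · have hne : ∀ h : Fin n → R, List.ofFn h ≠ [] := by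
        intro h hc
        have := congrArg List.length hc
        rw [List.length_ofFn, List.length_nil] at this
        omega
      refine Fin.cases ?_ (fun k => ?_) j
      · have h1 : ∀ z : R, wp (List.ofFn (Function.update f 0 z)) =
            z * wp (List.ofFn fun i : Fin n => f i.succ) := by
          intro z
          rw [List.ofFn_succ, Function.update_self, Alt_cons _ _ (hne _)]
          congr 2
        rw [h1, h1, h1, add_mul]
      · have h1 : ∀ z : R, wp (List.ofFn (Function.update f k.succ z)) =
            f 0 * wp (List.ofFn (Function.update (fun i : Fin n => f i.succ) k z)) := by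
          intro z
          rw [List.ofFn_succ, Function.update_of_ne (Fin.succ_ne_zero k).symm, Alt_cons _ _ (hne _)]
          congr 3
          funext i
          by_cases hi : i = k
          · subst hi
            rw [Function.update_self, Function.update_self]
          · rw [Function.update_of_ne hi, Function.update_of_ne fun h => hi (Fin.succ_inj.1 h)]
        rw [h1, h1, h1, ih, mul_add]

/-- multilinear functions are additive in every variable -/
theorem Alt_add {b : ℕ} {φ : (Fin b → R) → R} (h : ML b φ) (v : Fin b → R) (k : Fin b)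
    (x y : R) : φ (Function.update v k (x + y)) =
      φ (Function.update v k x) + φ (Function.update v k y) := by
  obtain ⟨c, hc⟩ := h
  rw [hc, hc, hc, ← Finset.sum_add_distrib]
  refine Finset.sum_congr rfl fun σ _ => ?_
  have h1 : ∀ z : R, (fun i => Function.update v k z (σ i)) =
      Function.update (fun i => v (σ i)) (σ.symm k) z := by
    intro z
    exact Function.update_comp_equiv v σ k z
  rw [h1, h1, h1, Alt_wp, smul_add]

theorem Alt_smul {b : ℕ} {φ : (Fin b → R) → R} (h : ML b φ) (v : Fin b → R) (k : Fin b)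
    (c : ℤ) (x : R) : φ (Function.update v k (c • x)) = c • φ (Function.update v k x) :=
  (AddMonoidHom.mk' (fun z => φ (Function.update v k z)) (Alt_add h v k)).map_zsmul c x

/-- the alternating map of an alternating function -/
noncomputable def Alt_map {b : ℕ} (φ : (Fin b → R) → R) (h : ML b φ)
    (h2 : ∀ (x : Fin b → R) (i j : Fin b), i ≠ j → x i = x j → φ x = 0) :
    AlternatingMap ℤ R R (Fin b) where
  toFun := φ
  map_update_add' := by
    intro inst v k x y
    rw [Subsingleton.elim inst (instDecidableEqFin b)]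
    exact Alt_add h v k x y
  map_update_smul' := by
    intro inst v k c x
    rw [Subsingleton.elim inst (instDecidableEqFin b)]
    exact Alt_smul h v k c x
  map_eq_zero_of_eq' := fun x i j hx hij => h2 x i j hij hx

theorem Alt_perm {b : ℕ} (φ : (Fin b → R) → R) (h : ML b φ)
    (h2 : ∀ (x : Fin b → R) (i j : Fin b), i ≠ j → x i = x j → φ x = 0) (x : Fin b → R)
    (σ : Equiv.Perm (Fin b)) :
    φ (fun i => x (σ i)) = ((Equiv.Perm.sign σ : ℤˣ) : ℤ) • φ x := by
  have h3 := (Alt_map φ h h2).map_perm x σ
  exact h3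

end

/-- `St_Alt`. -/
theorem thm_Alt : St_Alt := by
  intro R _ b φ h h2
  obtain ⟨c, hc⟩ := id h
  refine ⟨∑ τ, c τ * ((Equiv.Perm.sign τ : ℤˣ) : ℤ), fun x => ?_⟩
  have h3 : ∑ σ : Equiv.Perm (Fin b), ((Equiv.Perm.sign σ : ℤˣ) : ℤ) • φ (fun i => x (σ i)) =
      (b.factorial : ℤ) • φ x := by
    have h4 : ∀ σ ∈ (univ : Finset (Equiv.Perm (Fin b))),
        ((Equiv.Perm.sign σ : ℤˣ) : ℤ) • φ (fun i => x (σ i)) = φ x := by
      intro σ _
      rw [Alt_perm φ h h2, smul_smul]
      rcases Int.units_eq_one_or (Equiv.Perm.sign σ) with h5 | h5 <;> rw [h5] <;> simp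
    rw [Finset.sum_congr rfl h4, Finset.sum_const, card_univ, Fintype.card_perm, Fintype.card_fin]
    simp
  have h4 : ∀ τ : Equiv.Perm (Fin b), ∑ σ : Equiv.Perm (Fin b),
      ((Equiv.Perm.sign σ : ℤˣ) : ℤ) • wp (List.ofFn fun i => x (σ (τ i))) =
      ((Equiv.Perm.sign τ : ℤˣ) : ℤ) • stp x := by
    intro τ
    unfold stp
    rw [Finset.smul_sum]
    symm
    rw [← Equiv.sum_comp (Equiv.mulRight τ)]
    refine Finset.sum_congr rfl fun σ _ => ?_
    rw [Equiv.coe_mulRight, smul_smul]
    have h5 : ((Equiv.Perm.sign τ : ℤˣ) : ℤ) * ((Equiv.Perm.sign (σ * τ) : ℤˣ) : ℤ) =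
        ((Equiv.Perm.sign σ : ℤˣ) : ℤ) := by
      rw [Equiv.Perm.sign_mul]
      rcases Int.units_eq_one_or (Equiv.Perm.sign τ) with h5 | h5 <;> rw [h5] <;> simp
    rw [h5]
    rfl
  rw [← h3]
  have h5 : ∀ σ ∈ (univ : Finset (Equiv.Perm (Fin b))),
      ((Equiv.Perm.sign σ : ℤˣ) : ℤ) • φ (fun i => x (σ i)) =
      ∑ τ, c τ • (((Equiv.Perm.sign σ : ℤˣ) : ℤ) • wp (List.ofFn fun i => x (σ (τ i)))) := by
    intro σ _
    rw [hc, Finset.smul_sum]
    exact Finset.sum_congr rfl fun τ _ => smul_comm _ _ _
  rw [Finset.sum_congr rfl h5, Finset.sum_comm, Finset.sum_smul]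
  refine Finset.sum_congr rfl fun τ _ => ?_
  rw [← Finset.smul_sum, h4, smul_smul]

end Pool.Agent.CRK
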