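import Pool.Agent.CRK.St

/-!
Campaign CRK, module BAS: the least number of generators.
-/

set_option autoImplicit false

namespace Pool.Agent.CRK

open Pool.Agent.CRR Pool.Agent.CRN

private theorem Bas_cons {R : Type} [NonUnitalRing R] (x : R) {l : List R} (h : l ≠ []) :
    wp (x :: l) = x * wp l := by
  cases l with
  | nil => exact absurd rfl h
  | cons y l => rfl

/-- a product is additive in every factor -/
private theorem Bas_wp {R : Type} [NonUnitalRing R] : ∀ (n : ℕ) (y : Fin n → R) (s : Fin n)
    (a b : R), wp (List.ofFn (Function.update y s (a + b))) =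
      wp (List.ofFn (Function.update y s a)) + wp (List.ofFn (Function.update y s b)) := by
  intro n
  induction n with
  | zero => intro y s; exact s.elim0
  | succ n ih =>
    intro y s a b
    rw [List.ofFn_succ, List.ofFn_succ, List.ofFn_succ]
    refine Fin.cases ?_ (fun s' => ?_) s
    · have h1 : ∀ v : R, (fun i : Fin n => Function.update y 0 v i.succ) = fun i => y i.succ := by
        intro v
        funext i
        exact Function.update_of_ne (Fin.succ_ne_zero i) _ _
      simp only [h1, Function.update_self]
      by_cases hn : (List.ofFn fun i : Fin n => y i.succ) = []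
      · rw [hn]
        rfl
      · rw [Bas_cons _ hn, Bas_cons _ hn, Bas_cons _ hn, add_mul]
    · have h1 : ∀ v : R, (fun i : Fin n => Function.update y s'.succ v i.succ) =
          Function.update (fun i => y i.succ) s' v := by
        intro v
        funext i
        by_cases hi : i = s'
        · rw [hi, Function.update_self, Function.update_self]
        · rw [Function.update_of_ne hi, Function.update_of_ne (fun h => hi (Fin.succ_injective _ h))]
      have h2 : ∀ v : R, Function.update y s'.succ v 0 = y 0 := fun v =>
        Function.update_of_ne (Fin.succ_ne_zero s').symm _ _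
      have h3 : ∀ v : R, List.ofFn (Function.update (fun i : Fin n => y i.succ) s' v) ≠ [] := by
        intro v h
        have h4 := congrArg List.length h
        rw [List.length_ofFn] at h4
        have := s'.pos
        simp only [List.length_nil] at h4
        omega
      simp only [h1, h2]
      rw [Bas_cons _ (h3 _), Bas_cons _ (h3 _), Bas_cons _ (h3 _), ih, mul_add]

/-- multilinear functions are additive in every argument -/
private theorem Bas_add {R : Type} [NonUnitalRing R] (b : ℕ) (φ : (Fin b → R) → R) (h : ML b φ)
    (x : Fin b → R) (t : Fin b) (u v : R) : φ (Function.update x t (u + v)) =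
      φ (Function.update x t u) + φ (Function.update x t v) := by
  obtain ⟨c, hc⟩ := h
  rw [hc, hc, hc, ← Finset.sum_add_distrib]
  refine Finset.sum_congr rfl fun σ _ => ?_
  rw [← smul_add]
  congr 1
  have h1 : ∀ w : R, (fun i => Function.update x t w (σ i)) =
      Function.update (fun i => x (σ i)) (σ.symm t) w := by
    intro w
    funext i
    by_cases hi : i = σ.symm t
    · rw [hi, Function.update_self, Equiv.apply_symm_apply, Function.update_self]
    · rw [Function.update_of_ne hi, Function.update_of_ne]
      intro h
      apply hi
      rw [← h, Equiv.symm_apply_apply]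
  rw [h1, h1, h1]
  exact Bas_wp b _ _ u v

theorem thm_Bas : St_Bas := by
  classical
  intro R _ _ H b φ hφ
  have hex : ∃ g : ℕ, ∃ z : Fin g → R, NonUnitalSubring.closure (Set.range z) = ⊤ := by
    obtain ⟨n, ⟨e⟩⟩ := Finite.exists_equiv_fin R
    refine ⟨n, e.symm, ?_⟩
    rw [e.symm.surjective.range_eq]
    exact eq_top_iff.2 fun x _ => NonUnitalSubring.subset_closure (Set.mem_univ x)
  obtain ⟨g, ⟨z, hz⟩, hmin⟩ : ∃ g : ℕ, (∃ z : Fin g → R,
      NonUnitalSubring.closure (Set.range z) = ⊤) ∧ ∀ k, k < g → ∀ a : Fin k → R,
      NonUnitalSubring.closure (Set.range a) ≠ ⊤ :=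
    ⟨Nat.find hex, Nat.find_spec hex, fun k hk a h => Nat.find_min hex hk ⟨a, h⟩⟩
  refine ⟨g, ⟨z, hz⟩, ⟨hφ.ml, ?_, ?_⟩⟩
  · intro k hk a j
    refine hφ.van _ (hmin k hk a) _ fun i => ?_
    exact NonUnitalSubring.subset_closure ⟨j i, rfl⟩
  · -- every element is a combination of the generators modulo `Sq R`
    have htop : ∀ r : R, r ∈ AddSubgroup.closure (Set.range z) ⊔ Sq R := by
      intro r
      have hr : r ∈ NonUnitalSubring.closure (Set.range z) := by rw [hz]; trivial
      induction hr using NonUnitalSubring.closure_induction with
      | mem x hx => exact AddSubgroup.mem_sup_left (AddSubgroup.subset_closure hx)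
      | zero => exact zero_mem _
      | add x y _ _ hx hy => exact add_mem hx hy
      | neg x _ hx => exact neg_mem hx
      | mul x y _ _ _ _ =>
        exact AddSubgroup.mem_sup_right (AddSubgroup.subset_closure ⟨x, y, rfl⟩)
    by_contra hcon
    push Not at hcon
    -- all values on the generators are zero
    have hzero : ∀ i : Fin b → Fin g, φ (fun t => z (i t)) = 0 := by
      intro i
      by_cases hi : Function.Surjective i
      · exact hcon z i hi
      · unfold Function.Surjective at hi
        push Not at hi
        obtain ⟨k₀, hk₀⟩ := hi
        obtain ⟨g', rfl⟩ : ∃ g', g = g' + 1 := ⟨g - 1, by have := k₀.pos; omega⟩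
        refine hφ.van _ (hmin g' (by omega) fun u => z (k₀.succAbove u)) _ fun t => ?_
        obtain ⟨u, hu⟩ := Fin.exists_succAbove_eq (hk₀ t)
        exact NonUnitalSubring.subset_closure ⟨u, congrArg z hu⟩
    have key : ∀ t : ℕ, ∀ x : Fin b → R, (∀ j : Fin b, t ≤ (j : ℕ) → x j ∈ Set.range z) →
        φ x = 0 := by
      intro t
      induction t with
      | zero =>
        intro x hx
        choose i hi using fun j => hx j (Nat.zero_le _)
        have h1 : x = fun t => z (i t) := funext fun t => (hi t).symm
        rw [h1]
        exact hzero i
      | succ t ih =>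
        intro x hx
        by_cases ht : t < b
        · let F : R →+ R := AddMonoidHom.mk' (fun r => φ (Function.update x ⟨t, ht⟩ r))
            (fun u v => Bas_add b φ hφ.ml x ⟨t, ht⟩ u v)
          have hle : AddSubgroup.closure (Set.range z) ⊔ Sq R ≤ F.ker := by
            refine sup_le ?_ ?_
            · rw [AddSubgroup.closure_le]
              rintro _ ⟨k, rfl⟩
              refine AddMonoidHom.mem_ker.2 ?_
              refine ih _ fun j hj => ?_
              by_cases hjt : j = ⟨t, ht⟩
              · rw [hjt, Function.update_self]
                exact ⟨k, rfl⟩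
              · rw [Function.update_of_ne hjt]
                refine hx j ?_
                have : (j : ℕ) ≠ t := fun h => hjt (Fin.ext h)
                omega
            · intro r hr
              refine AddMonoidHom.mem_ker.2 ?_
              refine hφ.sq _ ⟨t, ht⟩ ?_
              rw [Function.update_self]
              exact hr
          have h1 : F (x ⟨t, ht⟩) = 0 := AddMonoidHom.mem_ker.1 (hle (htop _))
          have h2 : F (x ⟨t, ht⟩) = φ x := by
            show φ (Function.update x ⟨t, ht⟩ (x ⟨t, ht⟩)) = φ x
            rw [Function.update_eq_self]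
          rw [← h2, h1]
        · exact ih x fun j hj => hx j (by have := j.2; omega)
    obtain ⟨x, hx⟩ := hφ.ne
    exact hx (key b x fun j hj => absurd j.2 (by omega))

end Pool.Agent.CRK
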