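import Pool.Agent.CRK.St

/-!
Campaign CRK, module Cas: the case analysis.
-/

set_option autoImplicit false

namespace Pool.Agent.CRK

open Pool.Agent.CRR Pool.Agent.CRN

variable {R : Type} [NonUnitalRing R]

theorem Cas_out {b g : ℕ} {φ : (Fin b → R) → R} (π : Equiv.Perm (Fin b))
    (h : Out b g (fun x => φ (fun t => x (π t)))) : Out b g φ := by
  obtain ⟨hg, f, N, i, hf, hφ, hne⟩ := h
  exact ⟨hg, f, N, fun t => i (π t), hf, hφ, hne⟩

theorem Cas_fp (hPta : St_Pta) {b g : ℕ} {φ : (Fin b → R) → R} (h : Fn b g φ) (z : Fin g → R)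
    (i : Fin b → Fin g) (hne : φ (fun t => z (i t)) ≠ 0) (q : Fin b → Fin g)
    (π : Equiv.Perm (Fin b)) (τ : Equiv.Perm (Fin g)) (hπ : ∀ t, i (π t) = τ (q t)) :
    Fp b g q (fun x => φ (fun t => x (π.symm t))) := by
  refine ⟨hPta R b g φ π.symm h.ml, fun k hk a j => h.van k hk a (fun t => j (π.symm t)),
    fun t => z (τ t), ?_⟩
  have h1 : (fun t => z (τ (q (π.symm t)))) = fun t => z (i t) := by
    funext t
    rw [← hπ, Equiv.apply_symm_apply]
  show φ (fun t => z (τ (q (π.symm t)))) ≠ 0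
  rw [h1]
  exact hne

theorem thm_Cas (hPta : St_Pta) (hPtb : St_Ptb) (hCsa : St_Csa) (hCsb : St_Csb) (hCsc : St_Csc)
    (hCsd : St_Csd) (hCse : St_Cse) (hCsf : St_Csf) (hCsg : St_Csg) (hCsh : St_Csh)
    (hCsi : St_Csi) : St_Cas := by
  intro R _ hN hT b g φ hb1 hb5 hF
  obtain ⟨z, i, hi, hne⟩ := hF.ne
  have hgb : g ≤ b := by
    have := Fintype.card_le_of_surjective i hi
    simpa using this
  have hg1 : 1 ≤ g := by
    by_contra h
    have h0 : g = 0 := by omega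
    subst h0
    exact (i ⟨0, hb1⟩).elim0
  obtain ⟨p32, p42, p43, p52, p53, p54⟩ := hPtb
  by_cases h1 : g = 1
  · subst h1
    exact hCsa R hN b φ hb1 hF
  by_cases hbg : g = b
  · subst hbg
    exact hCsb R hN hT g φ hg1 hb5 hF
  have hcase : (b = 3 ∧ g = 2) ∨ (b = 4 ∧ g = 2) ∨ (b = 4 ∧ g = 3) ∨ (b = 5 ∧ g = 2) ∨
      (b = 5 ∧ g = 3) ∨ (b = 5 ∧ g = 4) := by omega
  rcases hcase with ⟨rfl, rfl⟩ | ⟨rfl, rfl⟩ | ⟨rfl, rfl⟩ | ⟨rfl, rfl⟩ | ⟨rfl, rfl⟩ | ⟨rfl, rfl⟩
  · obtain ⟨π, τ, h⟩ := p32 i hi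
    exact Cas_out π.symm (hCsc R hN _ (Cas_fp hPta hF z i hne _ π τ h))
  · obtain ⟨π, τ, h | h⟩ := p42 i hi
    · exact Cas_out π.symm ((hCsd R hN _).1 (Cas_fp hPta hF z i hne _ π τ h))
    · exact Cas_out π.symm ((hCsd R hN _).2 (Cas_fp hPta hF z i hne _ π τ h))
  · obtain ⟨π, τ, h⟩ := p43 i hi
    exact Cas_out π.symm (hCsf R hN _ (Cas_fp hPta hF z i hne _ π τ h))
  · obtain ⟨π, τ, h | h⟩ := p52 i hi
    · exact Cas_out π.symm ((hCse R hN _).1 (Cas_fp hPta hF z i hne _ π τ h))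
    · exact Cas_out π.symm ((hCse R hN _).2 (Cas_fp hPta hF z i hne _ π τ h))
  · obtain ⟨π, τ, h | h⟩ := p53 i hi
    · exact Cas_out π.symm (hCsh R hN _ (Cas_fp hPta hF z i hne _ π τ h))
    · have hfp := Cas_fp hPta hF z i hne _ π τ h
      apply Cas_out π.symm
      set φ' : (Fin 5 → R) → R := fun x => φ (fun t => x (π.symm t)) with hφ'
      by_cases hA : ∀ x y z, φ' ![x, x, x, y, z] = 0 ∧ φ' ![x, x, y, x, z] = 0
      · exact (hCsi R hN φ' hA hfp).elim
      · rw [not_forall] at hA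
        obtain ⟨x, hA⟩ := hA
        rw [not_forall] at hA
        obtain ⟨y, hA⟩ := hA
        rw [not_forall] at hA
        obtain ⟨w, hA⟩ := hA
        by_cases hB : φ' ![x, x, x, y, w] = 0
        · have hC : φ' ![x, x, y, x, w] ≠ 0 := fun hC => hA ⟨hB, hC⟩
          apply Cas_out (Equiv.swap 2 3)
          refine hCsh R hN _ ⟨hPta R 5 3 φ' _ hfp.ml,
            fun k hk a j => hfp.van k hk a (fun t => j (Equiv.swap 2 3 t)), ![x, y, w], ?_⟩
          intro h'
          apply hC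
          have h5 : (![x, x, y, x, w] : Fin 5 → R) =
              fun t => (![x, y, w] : Fin 3 → R) ((![0, 0, 0, 1, 2] : Fin 5 → Fin 3)
                (Equiv.swap 2 3 t)) := by
            funext t
            fin_cases t <;> rfl
          rw [h5]
          exact h'
        · refine hCsh R hN _ ⟨hfp.ml, hfp.van, ![x, y, w], ?_⟩
          intro h'
          apply hB
          have h5 : (![x, x, x, y, w] : Fin 5 → R) =
              fun t => (![x, y, w] : Fin 3 → R) ((![0, 0, 0, 1, 2] : Fin 5 → Fin 3) t) := by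
            funext t
            fin_cases t <;> rfl
          rw [h5]
          exact h'
  · obtain ⟨π, τ, h⟩ := p54 i hi
    exact Cas_out π.symm (hCsg R hN hT _ (Cas_fp hPta hF z i hne _ π τ h))

end Pool.Agent.CRK
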