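import Pool.Agent.CRK.St

/-! Campaign CRK, module CSA: the case `g = 1`. -/

set_option autoImplicit false

namespace Pool.Agent.CRK

open Pool.Agent.CRR Pool.Agent.CRN

private theorem Csa_wp {R : Type} [NonUnitalRing R] (y : R) (hy : y * y * y = 0) (k : ℕ) :
    wp (List.replicate (k + 3) y) = 0 := by
  have h1 : wp (List.replicate (k + 3) y) = y * (y * wp (List.replicate (k + 1) y)) := rfl
  rw [h1]
  rcases k with _ | k
  · have : wp (List.replicate (0 + 1) y) = y := rfl
    rw [this, ← mul_assoc, hy]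
  · have : wp (List.replicate (k + 1 + 1) y) = y * wp (List.replicate (k + 1) y) := rfl
    rw [this, ← mul_assoc, ← mul_assoc, hy, zero_mul]

private theorem Csa_const {R : Type} [NonUnitalRing R] {b : ℕ} {φ : (Fin b → R) → R}
    (h : ML b φ) : ∃ m : ℤ, ∀ y : R, φ (fun _ => y) = m • wp (List.replicate b y) := by
  obtain ⟨c, hc⟩ := h
  refine ⟨∑ σ, c σ, fun y => ?_⟩
  rw [hc, Finset.sum_smul]
  refine Finset.sum_congr rfl fun σ _ => ?_
  rw [List.ofFn_const]

private theorem Csa_stp {R : Type} [NonUnitalRing R] (x : Fin 1 → R) : stp x = x 0 := by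
  unfold stp
  rw [Fintype.sum_unique]
  simp [wp]

theorem thm_Csa : St_Csa := by
  intro R _ hN b φ hb hF
  obtain ⟨m, hm⟩ := Csa_const hF.ml
  obtain ⟨z, i, -, hne⟩ := hF.ne
  have hz : (fun t => z (i t)) = fun _ => z 0 := by
    funext t
    rw [Subsingleton.elim (i t) 0]
  rw [hz] at hne
  refine ⟨by norm_num, fun x => φ (fun _ => x 0), 1, fun _ => 0, ?_, fun x => by rw [one_smul], ?_⟩
  · obtain ⟨k, rfl⟩ : ∃ k, b = k + 1 := ⟨b - 1, by omega⟩
    rcases k with _ | k
    · refine Or.inl ⟨m, fun x => ?_⟩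
      show φ (fun _ => x 0) = _
      rw [hm, Csa_stp]
      rfl
    rcases k with _ | k
    · refine Or.inr (Or.inl ⟨m, 0, 0, fun x => ?_⟩)
      show φ (fun _ => x 0) = _
      rw [hm, Csa_stp, zero_smul, add_zero]
      rfl
    · exfalso
      apply hne
      rw [hm, Csa_wp _ (hN.nz _), smul_zero]
  · exact ⟨z, hne⟩

end Pool.Agent.CRK
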