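import Pool.Agent.CRK.St

/-! Campaign CRK, module CSB: the case `b = g`. -/

set_option autoImplicit false

namespace Pool.Agent.CRK

open Pool.Agent.CRR Pool.Agent.CRN

private theorem Csb_eq {R : Type} [NonUnitalRing R] {b : ℕ} {φ : (Fin b → R) → R}
    (h : Fn b b φ) (x : Fin b → R) (i j : Fin b) (hij : i ≠ j) (hx : x i = x j) : φ x = 0 := by
  obtain ⟨k, rfl⟩ : ∃ k, b = k + 1 := ⟨b - 1, by have := i.2; omega⟩
  have key : ∀ t : Fin (k + 1), ∃ s : Fin k, x (i.succAbove s) = x t := by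
    intro t
    by_cases ht : t = i
    · obtain ⟨s, hs⟩ := Fin.exists_succAbove_eq (Ne.symm hij)
      exact ⟨s, by rw [hs, ht, hx]⟩
    · obtain ⟨s, hs⟩ := Fin.exists_succAbove_eq ht
      exact ⟨s, by rw [hs]⟩
  choose s hs using key
  have := h.van k (Nat.lt_succ_self k) (fun u => x (i.succAbove u)) s
  simp only [hs] at this
  exact this

private theorem Csb_24 {R : Type} [NonUnitalRing R] (hN : N6 R) (y : R)
    (h : (24 : ℤ) • y = 0) : y = 0 := by
  apply hN.tf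
  apply hN.tf
  have : (6 : ℤ) • (6 : ℤ) • y = (36 : ℤ) • y := by rw [smul_smul]; norm_num
  have h2 : (6 : ℤ) • (4 : ℤ) • y = 0 := by rw [smul_smul]; norm_num; exact h
  have h3 : (4 : ℤ) • y = 0 := hN.tf _ h2
  rw [this]
  have : (36 : ℤ) • y = (9 : ℤ) • (4 : ℤ) • y := by rw [smul_smul]; norm_num
  rw [this, h3, smul_zero]

theorem thm_Csb (hAlt : St_Alt) (hSfi : St_Sfi) : St_Csb := by
  intro R _ hN hT b φ hb1 hb5 hF
  obtain ⟨m, hm⟩ := hAlt R b φ hF.ml (Csb_eq hF)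
  obtain ⟨z, i, -, hne⟩ := hF.ne
  have hfac : b ≤ 4 → ∀ y : R, (b.factorial : ℤ) • y = 0 → y = 0 := by
    intro hb y hy
    apply Csb_24 hN
    obtain ⟨c, hc⟩ : b.factorial ∣ 24 := Nat.factorial_dvd_factorial hb
    have : (24 : ℤ) = (c : ℤ) * (b.factorial : ℤ) := by
      have : (24 : ℤ) = ((24 : ℕ) : ℤ) := by norm_num
      rw [this, hc]
      push_cast
      ring
    rw [this, mul_smul, hy, smul_zero]
  by_cases hb : b ≤ 4
  · refine ⟨hb, fun x => (b.factorial : ℤ) • φ x, b.factorial, id, Or.inl ⟨m, hm⟩,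
      fun x => rfl, ⟨fun t => z (i t), fun h0 => hne (hfac hb _ h0)⟩⟩
  · exfalso
    obtain rfl : b = 5 := by omega
    apply hne
    have h1 := hm (fun t => z (i t))
    rw [hSfi R hN, smul_zero] at h1
    have h2 : (5 : ℤ) • (24 : ℤ) • φ (fun t => z (i t)) = 0 := by
      rw [smul_smul]
      have : ((5 : ℕ).factorial : ℤ) = 5 * 24 := by norm_num [Nat.factorial]
      rw [← this]
      exact h1
    exact Csb_24 hN _ (hT _ h2)

end Pool.Agent.CRK
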