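import Pool.Agent.CRK.St

/-! Campaign CRK, module CSC: the case `b = 3`, `g = 2`. -/

set_option autoImplicit false

namespace Pool.Agent.CRK

open Pool.Agent.CRR Pool.Agent.CRN

private theorem Csc_stp {R : Type} [NonUnitalRing R] (x : Fin 2 → R) :
    stp x = x 0 * x 1 - x 1 * x 0 := by
  unfold stp
  have : (Finset.univ : Finset (Equiv.Perm (Fin 2))) = {1, Equiv.swap 0 1} := by decide
  rw [this, Finset.sum_pair (by decide)]
  simp [wp, sub_eq_add_neg]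

theorem thm_Csc (hIda : St_Ida) (hExa : St_Exa) : St_Csc := by
  intro R _ hN φ hF
  obtain ⟨a, b, c, habc⟩ := hExa R φ hF.ml
  obtain ⟨-, h3, -, hQ⟩ := hIda R hN
  obtain ⟨z, hne⟩ := hF.ne
  have hpat : ∀ x : Fin 2 → R, (fun t => x ((![0, 0, 1] : Fin 3 → Fin 2) t)) =
      ![x 0, x 0, x 1] := by
    intro x
    funext t
    fin_cases t <;> rfl
  refine ⟨by norm_num, fun x => (3 : ℤ) • φ (fun t => x ((![0, 0, 1] : Fin 3 → Fin 2) t)), 3,
    ![0, 0, 1], Or.inr (Or.inl ⟨2 * (a - b) - (c - b), (a - b) - 2 * (c - b), 0, fun x => ?_⟩),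
    fun x => rfl, ⟨z, fun h0 => hne (h3 _ h0)⟩⟩
  show (3 : ℤ) • φ (fun t => x ((![0, 0, 1] : Fin 3 → Fin 2) t)) = _
  rw [hpat, habc, Csc_stp]
  have hq := hQ (x 0) (x 1)
  have hq' : x 0 * x 1 * x 0 = -(x 0 * x 0 * x 1) - x 1 * x 0 * x 0 := by
    rw [eq_sub_iff_add_eq, eq_neg_iff_add_eq_zero]
    rw [← hq]
    abel
  simp only [mul_sub, sub_mul, ← mul_assoc]
  rw [hq']
  module

end Pool.Agent.CRK
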