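import Pool.Agent.CRK.St

/-! Campaign CRK, module CSD: the case `b = 4`, `g = 2`. -/

set_option autoImplicit false

namespace Pool.Agent.CRK

open Pool.Agent.CRR Pool.Agent.CRN

private theorem Csd_stp {R : Type} [NonUnitalRing R] (x : Fin 2 → R) :
    stp x = x 0 * x 1 - x 1 * x 0 := by
  unfold stp
  have : (Finset.univ : Finset (Equiv.Perm (Fin 2))) = {1, Equiv.swap 0 1} := by decide
  rw [this, Finset.sum_pair (by decide)]
  simp [wp, sub_eq_add_neg]

theorem thm_Csd (hExb : St_Exb) : St_Csd := by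
  intro R _ hN φ
  constructor
  · intro hF
    obtain ⟨⟨m, hm⟩, -⟩ := hExb R hN φ hF.ml
    obtain ⟨z, hne⟩ := hF.ne
    have hpat : ∀ x : Fin 2 → R, (fun t => x ((![0, 0, 0, 1] : Fin 4 → Fin 2) t)) =
        ![x 0, x 0, x 0, x 1] := by
      intro x
      funext t
      fin_cases t <;> rfl
    refine ⟨by norm_num, fun x => φ (fun t => x ((![0, 0, 0, 1] : Fin 4 → Fin 2) t)), 1,
      ![0, 0, 0, 1], Or.inr (Or.inr (Or.inl ⟨-m, 0, fun x => ?_⟩)),
      fun x => by rw [one_smul], ⟨z, hne⟩⟩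
    show φ (fun t => x ((![0, 0, 0, 1] : Fin 4 → Fin 2) t)) = _
    rw [hpat, hm, Csd_stp]
    simp only [mul_sub, ← mul_assoc]
    rw [hN.nz, zero_mul, zero_sub, smul_neg, neg_smul, neg_neg]
  · intro hF
    obtain ⟨-, a, b, hab⟩ := hExb R hN φ hF.ml
    obtain ⟨z, hne⟩ := hF.ne
    have hpat : ∀ x : Fin 2 → R, (fun t => x ((![0, 0, 1, 1] : Fin 4 → Fin 2) t)) =
        ![x 0, x 0, x 1, x 1] := by
      intro x
      funext t
      fin_cases t <;> rfl
    refine ⟨by norm_num, fun x => φ (fun t => x ((![0, 0, 1, 1] : Fin 4 → Fin 2) t)), 1,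
      ![0, 0, 1, 1], Or.inr (Or.inr (Or.inr (Or.inl ⟨a, b, 0, 1, rfl, by decide, fun x => ?_⟩))),
      fun x => by rw [one_smul], ⟨z, hne⟩⟩
    show φ (fun t => x ((![0, 0, 1, 1] : Fin 4 → Fin 2) t)) = _
    rw [hpat, hab]

end Pool.Agent.CRK
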