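import Pool.Agent.CRK.St

/-!
# CRK, module CSF: the pattern `x, x, y, z`
-/

set_option autoImplicit false

namespace Pool.Agent.CRK

open Pool.Agent.CRR Pool.Agent.CRN

/-- [CSF] -/
theorem thm_Csf (hIda : St_Ida) (hHoa : St_Hoa) (hWia : St_Wia) (hWib : St_Wib) (hWid : St_Wid) :
    St_Csf := by
  intro R _ h6 φ F
  obtain ⟨c, hc⟩ := hHoa R h6 φ F.ml (F.van 2 (by norm_num))
  have hkey : ∀ x y z : R, (16 : ℤ) • φ ![x, x, y, z] =
      (2 * c 0 - c 1 - 3 * c 2) • (x * stp ![x, y, z]) +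
      (2 * c 3 - 3 * c 1 - c 2) • (stp ![x, y, z] * x) := by
    intro x y z
    have h1 := hc x y z
    rw [Fin.sum_univ_four] at h1
    have h2 := hWia R h6 x ![x, y, z]
    have h3 := hWib R x y z
    obtain ⟨h4, h5⟩ := hWid R 2 x ![x, y, z]
    have h5' : Wi 3 x ![x, y, z] = stp ![x, y, z] * x := h5
    rw [← h4, ← h5']
    generalize Wi 0 x ![x, y, z] = W0 at *
    generalize Wi 1 x ![x, y, z] = W1 at *
    generalize Wi 2 x ![x, y, z] = W2 at *
    generalize Wi 3 x ![x, y, z] = W3 at *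
    generalize φ ![x, x, y, z] = p at *
    have e1 : (16 : ℤ) • p = (2 : ℤ) • ((8 : ℤ) • p) := by module
    rw [e1, h1]
    linear_combination (norm := module) (c 1 + c 2) • h2 + (c 2 - c 1) • h3
  have h2t := (hIda R h6).1
  refine ⟨by norm_num, fun x => (16 : ℤ) • φ (fun t => x ((![0, 0, 1, 2] : Fin 4 → Fin 3) t)), 16,
    ![0, 0, 1, 2], Or.inr (Or.inl ⟨2 * c 0 - c 1 - 3 * c 2, 2 * c 3 - 3 * c 1 - c 2, 0, ?_⟩),
    fun x => rfl, ?_⟩
  · intro x
    have e1 : (fun t => x ((![0, 0, 1, 2] : Fin 4 → Fin 3) t)) = Matrix.vecCons (x 0) x := by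
      funext t
      fin_cases t <;> rfl
    have e2 : (![x 0, x 1, x 2] : Fin 3 → R) = x := by
      funext t
      fin_cases t <;> rfl
    have h := hkey (x 0) (x 1) (x 2)
    rw [e2] at h
    show (16 : ℤ) • φ (fun t => x ((![0, 0, 1, 2] : Fin 4 → Fin 3) t)) = _
    rw [e1]
    exact h
  · obtain ⟨z, hz⟩ := F.ne
    refine ⟨z, fun h => hz ?_⟩
    beta_reduce at h
    generalize φ (fun t => z ((![0, 0, 1, 2] : Fin 4 → Fin 3) t)) = p at *
    have e1 : (16 : ℤ) • p = (2 : ℤ) • ((2 : ℤ) • ((2 : ℤ) • ((2 : ℤ) • p))) := by module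
    have h' : (16 : ℤ) • p = 0 := h
    rw [e1] at h'
    exact h2t _ (h2t _ (h2t _ (h2t _ h')))

end Pool.Agent.CRK
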