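import Pool.Agent.CRK.St

/-!
CRK, module Csg: degree 5, four variables.
-/

set_option autoImplicit false

namespace Pool.Agent.CRK

open Pool.Agent.CRR Pool.Agent.CRN

private theorem Csg_a {R : Type} (z : Fin 4 → R) :
    (fun t => z ((![0, 0, 1, 2, 3] : Fin 5 → Fin 4) t)) = ![z 0, z 0, z 1, z 2, z 3] := by
  funext t
  fin_cases t <;> rfl

private theorem Csg_b {R : Type} (z : Fin 4 → R) : (![z 0, z 1, z 2, z 3] : Fin 4 → R) = z := by
  funext t
  fin_cases t <;> rfl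

theorem thm_Csg (hO : St_Hob) (hC : St_Wic) (hD : St_Wid) : St_Csg := by
  intro R _ hN h5 φ hF
  obtain ⟨c, hc⟩ := hO R hN φ hF.ml (fun a j => hF.van 3 (by norm_num) a j)
  refine ⟨by norm_num, fun x => (30 : ℤ) • φ (fun t => x ((![0, 0, 1, 2, 3] : Fin 5 → Fin 4) t)), 30,
    ![0, 0, 1, 2, 3], ?_, fun x => rfl, ?_⟩
  · refine Or.inr (Or.inl ⟨c 0 - 2 * c 2 + c 4, 0, 0, fun x => ?_⟩)
    show (30 : ℤ) • φ (fun t => x ((![0, 0, 1, 2, 3] : Fin 5 → Fin 4) t)) = _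
    rw [Csg_a, hc, Csg_b]
    obtain ⟨h1, h3, h2, h4⟩ := hC R hN (x 0) x
    have h0 := (hD R 3 (x 0) x).1
    simp only [Fin.sum_univ_five]
    rw [h1, h3, h2, h4, h0, smul_zero, smul_zero, smul_smul, zero_smul, add_zero, add_zero, add_zero,
      ← add_smul, ← add_smul]
    congr 1
    ring
  · obtain ⟨z, hz⟩ := hF.ne
    refine ⟨z, fun h => hz ?_⟩
    have h' : (6 : ℤ) • ((5 : ℤ) • φ (fun t => z ((![0, 0, 1, 2, 3] : Fin 5 → Fin 4) t))) = 0 := by
      rw [smul_smul]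
      exact h
    exact h5 _ (hN.tf _ h')

end Pool.Agent.CRK
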