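import Pool.Agent.CRK.St

/-!
Campaign CRK, module Csh: the pattern `x, x, x, y, z`.
-/

set_option autoImplicit false

namespace Pool.Agent.CRK

open Pool.Agent.CRR Pool.Agent.CRN

theorem Csh_univ : (Finset.univ : Finset (Equiv.Perm (Fin 3))) =
    {Equiv.refl _, Equiv.swap 0 1, Equiv.swap 0 2, Equiv.swap 1 2,
      (Equiv.swap 0 1).trans (Equiv.swap 0 2), (Equiv.swap 0 2).trans (Equiv.swap 0 1)} := by
  decide

theorem Csh_stp {R : Type} [NonUnitalRing R] (x : Fin 3 → R) : stp x =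
    x 0 * (x 1 * x 2) - x 0 * (x 2 * x 1) - x 1 * (x 0 * x 2) + x 1 * (x 2 * x 0) +
      x 2 * (x 0 * x 1) - x 2 * (x 1 * x 0) := by
  have e : ∀ σ : Equiv.Perm (Fin 3), wp (List.ofFn fun i => x (σ i)) =
      x (σ 0) * (x (σ 1) * x (σ 2)) := by
    intro σ
    simp [List.ofFn_succ, wp]
  unfold stp
  simp only [e]
  rw [Csh_univ, Finset.sum_insert (by decide), Finset.sum_insert (by decide),
    Finset.sum_insert (by decide), Finset.sum_insert (by decide), Finset.sum_insert (by decide),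
    Finset.sum_singleton]
  have s0 : ((Equiv.Perm.sign (Equiv.refl (Fin 3)) : ℤˣ) : ℤ) = 1 := by decide
  have s1 : ((Equiv.Perm.sign (Equiv.swap (0 : Fin 3) 1) : ℤˣ) : ℤ) = -1 := by decide
  have s2 : ((Equiv.Perm.sign (Equiv.swap (0 : Fin 3) 2) : ℤˣ) : ℤ) = -1 := by decide
  have s3 : ((Equiv.Perm.sign (Equiv.swap (1 : Fin 3) 2) : ℤˣ) : ℤ) = -1 := by decide
  have s4 : ((Equiv.Perm.sign ((Equiv.swap (0 : Fin 3) 1).trans (Equiv.swap 0 2)) : ℤˣ) : ℤ) = 1 := by
    decide
  have s5 : ((Equiv.Perm.sign ((Equiv.swap (0 : Fin 3) 2).trans (Equiv.swap 0 1)) : ℤˣ) : ℤ) = 1 := by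
    decide
  rw [s0, s1, s2, s3, s4, s5]
  have a0 : (Equiv.swap (0 : Fin 3) 1) 0 = 1 := by decide
  have a1 : (Equiv.swap (0 : Fin 3) 1) 1 = 0 := by decide
  have a2 : (Equiv.swap (0 : Fin 3) 1) 2 = 2 := by decide
  have b0 : (Equiv.swap (0 : Fin 3) 2) 0 = 2 := by decide
  have b1 : (Equiv.swap (0 : Fin 3) 2) 1 = 1 := by decide
  have b2 : (Equiv.swap (0 : Fin 3) 2) 2 = 0 := by decide
  have c0 : (Equiv.swap (1 : Fin 3) 2) 0 = 0 := by decide
  have c1 : (Equiv.swap (1 : Fin 3) 2) 1 = 2 := by decide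
  have c2 : (Equiv.swap (1 : Fin 3) 2) 2 = 1 := by decide
  simp only [Equiv.trans_apply, Equiv.refl_apply, a0, a1, a2, b0, b1, b2, c0, c1, c2, one_smul,
    neg_smul]
  abel

theorem thm_Csh (hIda : St_Ida) (hIdd : St_Idd) (hExd : St_Exd) : St_Csh := by
  intro R _ hN φ hφ
  obtain ⟨a, b, hab⟩ := hExd R hN φ hφ.ml
  obtain ⟨h2, _, _, _⟩ := hIda R hN
  -- the function vanishes if the last two arguments are equal
  have hz : ∀ x w : R, (a + b) • (x * x * w * x * w) = 0 := by
    intro x w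
    have h1 := hφ.van 2 (by norm_num) ![x, w] ![0, 0, 0, 1, 1]
    have h3 : (fun t => (![x, w] : Fin 2 → R) ((![0, 0, 0, 1, 1] : Fin 5 → Fin 2) t)) =
        ![x, x, x, w, w] := by
      funext t
      fin_cases t <;> rfl
    rw [h3, hab] at h1
    rw [add_smul]
    exact h1
  have hz2 : ∀ x y z : R, (a + b) • (x * x * y * x * z + x * x * z * x * y) = 0 := by
    intro x y z
    have h1 := hz x (y + z)
    have h3 := hz x y
    have h4 := hz x z
    have e : x * x * (y + z) * x * (y + z) = x * x * y * x * y + x * x * z * x * z +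
        (x * x * y * x * z + x * x * z * x * y) := by
      simp only [mul_add, add_mul]
      abel
    rw [e, smul_add, smul_add, h3, h4, zero_add, zero_add] at h1
    exact h1
  have hmain : ∀ x y z : R, (4 : ℤ) • φ ![x, x, x, y, z] = (b - a) • (x * x * stp ![x, y, z]) := by
    intro x y z
    obtain ⟨_, _, i3, _, _, _⟩ := hIdd R hN x y z
    obtain ⟨_, _, i3', _, _, _⟩ := hIdd R hN x z y
    have n1 : ∀ w : R, x * x * (x * w) = 0 := by
      intro w
      rw [← mul_assoc, hN.nz x, zero_mul]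
    have e1 : x * x * stp ![x, y, z] =
        (2 : ℤ) • (x * x * z * x * y) - (2 : ℤ) • (x * x * y * x * z) := by
      rw [Csh_stp]
      simp only [Matrix.cons_val_zero, Matrix.cons_val_one, Matrix.cons_val]
      have e2 : x * x * (x * (y * z) - x * (z * y) - y * (x * z) + y * (z * x) + z * (x * y) -
          z * (y * x)) = x * x * (x * (y * z)) - x * x * (x * (z * y)) - x * x * y * x * z +
          x * x * y * z * x + x * x * z * x * y - x * x * z * y * x := by
        simp only [mul_sub, mul_add, mul_assoc]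
      rw [e2, n1, n1, i3, i3']
      abel
    rw [e1, hab]
    have e3 := hz2 x y z
    have e4 : (4 : ℤ) • (a • (x * x * y * x * z) + b • (x * x * z * x * y)) =
        (b - a) • ((2 : ℤ) • (x * x * z * x * y) - (2 : ℤ) • (x * x * y * x * z)) +
        (2 : ℤ) • ((a + b) • (x * x * y * x * z + x * x * z * x * y)) := by
      generalize x * x * y * x * z = T
      generalize x * x * z * x * y = T'
      module
    rw [e4, e3, smul_zero, add_zero]
  have hsh : ∀ x : Fin 3 → R,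
      (fun t => x ((![0, 0, 0, 1, 2] : Fin 5 → Fin 3) t)) = ![x 0, x 0, x 0, x 1, x 2] := by
    intro x
    funext t
    fin_cases t <;> rfl
  have hst : ∀ x : Fin 3 → R, stp ![x 0, x 1, x 2] = stp x := by
    intro x
    congr 1
    funext t
    fin_cases t <;> rfl
  refine ⟨by norm_num, fun x => (4 : ℤ) • φ (fun t => x ((![0, 0, 0, 1, 2] : Fin 5 → Fin 3) t)), 4,
    ![0, 0, 0, 1, 2], ?_, fun x => rfl, ?_⟩
  · right; right; left
    refine ⟨b - a, 0, fun x => ?_⟩
    show (4 : ℤ) • φ (fun t => x ((![0, 0, 0, 1, 2] : Fin 5 → Fin 3) t)) =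
      (b - a) • (x 0 * x 0 * stp x)
    rw [hsh, hmain, hst]
  · obtain ⟨z, hz'⟩ := hφ.ne
    refine ⟨z, fun h => hz' ?_⟩
    have h4 : (4 : ℤ) • φ (fun t => z ((![0, 0, 0, 1, 2] : Fin 5 → Fin 3) t)) =
        (2 : ℤ) • ((2 : ℤ) • φ (fun t => z ((![0, 0, 0, 1, 2] : Fin 5 → Fin 3) t))) := by
      rw [smul_smul]
      norm_num
    exact h2 _ (h2 _ (h4.symm.trans h))

end Pool.Agent.CRK
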