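import Pool.Agent.CRK.St

/-!
# [CUB] The functions of the list are cubic in every variable
-/

set_option autoImplicit false

namespace Pool.Agent.CRK

open Pool.Agent.CRR Pool.Agent.CRN Finset

variable {R : Type} [NonUnitalRing R]

/-- Polynomial functions of an integer, of degree at most `n`. -/
def CubP (n : ℕ) (h : ℤ → R) : Prop :=
  ∃ c : ℕ → R, ∀ t : ℤ, h t = ∑ i ∈ range (n + 1), (t ^ i) • c i

theorem Cub_mono {n m : ℕ} (hnm : n ≤ m) {h : ℤ → R} (hh : CubP n h) : CubP m h := by
  obtain ⟨c, hc⟩ := hh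
  refine ⟨fun i => if i ≤ n then c i else 0, fun t => ?_⟩
  rw [hc t]
  have : range (n + 1) ⊆ range (m + 1) := range_subset_range.2 (by omega)
  rw [← sum_subset this]
  · refine sum_congr rfl fun i hi => ?_
    rw [mem_range] at hi
    show _ = (t ^ i) • (if i ≤ n then c i else 0)
    rw [if_pos (by omega)]
  · intro i _ hi
    rw [mem_range] at hi
    show (t ^ i) • (if i ≤ n then c i else 0) = 0
    rw [if_neg (by omega), smul_zero]

theorem Cub_add {n : ℕ} {h h' : ℤ → R} (hh : CubP n h) (hh' : CubP n h') :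
    CubP n (fun t => h t + h' t) := by
  obtain ⟨c, hc⟩ := hh
  obtain ⟨c', hc'⟩ := hh'
  refine ⟨fun i => c i + c' i, fun t => ?_⟩
  simp only [hc, hc', smul_add, sum_add_distrib]

theorem Cub_smul {n : ℕ} {h : ℤ → R} (m : ℤ) (hh : CubP n h) : CubP n (fun t => m • h t) := by
  obtain ⟨c, hc⟩ := hh
  refine ⟨fun i => m • c i, fun t => ?_⟩
  show m • h t = _
  rw [hc, smul_sum]
  exact sum_congr rfl fun i _ => smul_comm _ _ _

theorem Cub_zero (n : ℕ) : CubP n (fun _ => (0 : R)) :=
  ⟨fun _ => 0, fun t => by simp⟩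

theorem Cub_sum {ι : Type} (s : Finset ι) {n : ℕ} {h : ι → ℤ → R} (hh : ∀ i, CubP n (h i)) :
    CubP n (fun t => ∑ i ∈ s, h i t) := by
  classical
  induction s using Finset.induction_on with
  | empty => simpa using Cub_zero n
  | insert a s ha ih =>
    have := Cub_add (hh a) ih
    refine (funext fun t => ?_ : (fun t => ∑ i ∈ insert a s, h i t) =
      fun t => h a t + ∑ i ∈ s, h i t) ▸ this
    rw [sum_insert ha]

theorem Cub_mul {n m : ℕ} {h h' : ℤ → R} (hh : CubP n h) (hh' : CubP m h') :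
    CubP (n + m) (fun t => h t * h' t) := by
  obtain ⟨c, hc⟩ := hh
  obtain ⟨c', hc'⟩ := hh'
  have h1 : (fun t => h t * h' t) =
      fun t => ∑ i ∈ range (n + 1), ∑ j ∈ range (m + 1), (t ^ (i + j)) • (c i * c' j) := by
    funext t
    rw [hc, hc', sum_mul_sum]
    refine sum_congr rfl fun i _ => sum_congr rfl fun j _ => ?_
    rw [smul_mul_smul_comm, pow_add]
  rw [h1]
  have h2 : (fun t : ℤ => ∑ i ∈ range (n + 1), ∑ j ∈ range (m + 1), (t ^ (i + j)) • (c i * c' j))
      = fun t => ∑ i ∈ (range (n + 1)).attach, ∑ j ∈ (range (m + 1)).attach,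
        (t ^ (i.1 + j.1)) • (c i.1 * c' j.1) := by
    funext t
    rw [← sum_attach]
    refine sum_congr rfl fun i _ => ?_
    rw [← sum_attach]
  rw [h2]
  refine Cub_sum _ fun i => Cub_sum _ fun j => ?_
  have hi := mem_range.1 i.2
  have hj := mem_range.1 j.2
  refine ⟨fun l => if l = i.1 + j.1 then c i.1 * c' j.1 else 0, fun t => ?_⟩
  rw [sum_eq_single (i.1 + j.1)]
  · show _ = (t ^ (i.1 + j.1)) • (if i.1 + j.1 = i.1 + j.1 then c i.1 * c' j.1 else 0)
    rw [if_pos rfl]
  · intro l _ hl
    show (t ^ l) • (if l = i.1 + j.1 then c i.1 * c' j.1 else 0) = 0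
    rw [if_neg hl, smul_zero]
  · intro h
    exact absurd (mem_range.2 (by omega)) h

theorem Cub_lin (a b : R) : CubP 1 (fun t => a + t • b) := by
  refine ⟨fun i => if i = 0 then a else b, fun t => ?_⟩
  rw [sum_range_succ, sum_range_one]
  simp

theorem Cub_const (a : R) : CubP 0 (fun _ => a) := by
  refine ⟨fun _ => a, fun t => ?_⟩
  simp

theorem Cub_word : ∀ (n : ℕ) (F : Fin n → ℤ → R) (d : Fin n → ℕ), (∀ i, CubP (d i) (F i)) →
    CubP (∑ i, d i) (fun t => wp (List.ofFn fun i => F i t))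
  | 0, F, d, _ => by
    simpa [wp] using Cub_zero (R := R) (∑ i, d i)
  | 1, F, d, h => by
    have h0 := h 0
    simpa [wp] using h0
  | n + 2, F, d, h => by
    have ih := Cub_word (n + 1) (fun i => F i.succ) (fun i => d i.succ) (fun i => h i.succ)
    have h1 := Cub_mul (h 0) ih
    rw [Fin.sum_univ_succ]
    refine (funext fun t => ?_ : (fun t => wp (List.ofFn fun i => F i t)) =
      fun t => F 0 t * wp (List.ofFn fun i : Fin (n + 1) => F i.succ t)) ▸ h1
    rw [List.ofFn_succ, List.ofFn_succ]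
    rfl

/-- The line through `x` in the direction `y` of the variable `k`. -/
def CubL {g : ℕ} (x : Fin g → R) (k : Fin g) (y : R) (t : ℤ) : Fin g → R :=
  Function.update x k (x k + t • y)

theorem Cub_coord {g : ℕ} (x : Fin g → R) (k : Fin g) (y : R) (i : Fin g) :
    CubP (if i = k then 1 else 0) (fun t => CubL x k y t i) := by
  by_cases h : i = k
  · subst h
    rw [if_pos rfl]
    simpa [CubL] using Cub_lin (x i) y
  · rw [if_neg h]
    simpa [CubL, Function.update_of_ne h] using Cub_const (x i)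

theorem Cub_stp {g : ℕ} (x : Fin g → R) (k : Fin g) (y : R) :
    CubP 1 (fun t => stp (CubL x k y t)) := by
  unfold stp
  refine Cub_sum _ fun σ => Cub_smul _ ?_
  have h1 := Cub_word g (fun i t => CubL x k y t (σ i)) (fun i => if σ i = k then 1 else 0)
    (fun i => Cub_coord x k y (σ i))
  have h2 : ∑ i, (if σ i = k then 1 else 0) = 1 := by
    rw [Equiv.sum_comp σ (fun i => if i = k then 1 else 0)]
    simp
  rwa [h2] at h1

theorem thm_Cub : St_Cub := by
  intro R _ g f hf x k y
  have key : CubP 3 (fun t => f (CubL x k y t)) := by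
    have hs := Cub_stp x k y
    have hc := Cub_coord x k y
    have hc1 : ∀ i, CubP 1 (fun t => CubL x k y t i) := fun i =>
      Cub_mono (by split_ifs <;> omega) (hc i)
    rcases hf with ⟨m, hf⟩ | ⟨a, b, i, hf⟩ | ⟨m, i, hf⟩ | ⟨a, b, i, j, _, hij, hf⟩ |
      ⟨m, i, j, _, hij, hf⟩
    · simp only [hf]
      exact Cub_mono (by omega) (Cub_smul m hs)
    · simp only [hf]
      refine Cub_mono (n := 2) (by omega) (Cub_add (Cub_smul a ?_) (Cub_smul b ?_))
      · exact Cub_mul (hc1 i) hs
      · exact Cub_mul hs (hc1 i)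
    · simp only [hf]
      exact Cub_smul m (Cub_mul (Cub_mul (hc1 i) (hc1 i)) hs)
    · simp only [hf]
      refine Cub_add (Cub_smul a ?_) (Cub_smul b ?_)
      · refine Cub_mono ?_ (Cub_mul (Cub_mul (Cub_mul (hc i) (hc i)) (hc j)) (hc j))
        split_ifs with h1 h2 h2 <;> first | omega | exact absurd (h1.trans h2.symm) hij
      · refine Cub_mono ?_ (Cub_mul (Cub_mul (Cub_mul (hc i) (hc j)) (hc i)) (hc j))
        split_ifs with h1 h2 h2 <;> first | omega | exact absurd (h1.trans h2.symm) hij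
    · simp only [hf]
      refine Cub_smul m ?_
      refine Cub_mono ?_ (Cub_mul (Cub_mul (Cub_mul (Cub_mul (hc i) (hc i)) (hc j)) (hc i)) (hc j))
      split_ifs with h1 h2 h2 <;> first | omega | exact absurd (h1.trans h2.symm) hij
  obtain ⟨c, hc⟩ := key
  have h0 : f x = c 0 := by
    have := hc 0
    simp only [CubL, zero_smul, add_zero, Function.update_eq_self] at this
    rw [this]
    simp [sum_range_succ]
  refine ⟨c 1, c 2, c 3, fun t => ?_⟩
  have := hc t
  simp only [CubL] at this
  rw [this, h0]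
  simp only [sum_range_succ, range_zero, sum_empty, zero_add, pow_zero, pow_one, one_smul]
  rw [show t ^ 2 = t * t by ring, show t ^ 3 = t * t * t by ring]

end Pool.Agent.CRK
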