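import Pool.Agent.CRK.St
import Pool.Agent.CRN.Ppw
import Pool.Agent.CRN.Crg

/-!
Campaign CRK, module CVM: rings of type `MulType` are critical.
-/

set_option autoImplicit false

namespace Pool.Agent.CRK

open Pool.Agent.CRR Pool.Agent.CRN

section

variable {R : Type} [NonUnitalRing R]

omit [NonUnitalRing R] in
theorem Cvm_tail {n : ℕ} (y : Fin (n + 1) → R) (j : Fin n) (u : R) :
    (fun i : Fin n => Function.update y j.succ u i.succ) =
      Function.update (fun i : Fin n => y i.succ) j u := by
  funext i
  by_cases h : i = j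
  · subst h
    rw [Function.update_self, Function.update_self]
  · rw [Function.update_of_ne h, Function.update_of_ne]
    exact fun h' => h (Fin.succ_injective _ h')

/-- The product of a list of at least two elements given by a function. -/
theorem Cvm_succ {n : ℕ} (y : Fin (n + 2) → R) :
    wp (List.ofFn y) = y 0 * wp (List.ofFn fun i : Fin (n + 1) => y i.succ) := by
  rw [List.ofFn_succ, List.ofFn_succ]
  rfl

/-- Products are additive in every factor. -/
theorem Cvm_add : ∀ (n : ℕ) (y : Fin n → R) (j : Fin n) (u w : R),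
    wp (List.ofFn (Function.update y j (u + w))) =
      wp (List.ofFn (Function.update y j u)) + wp (List.ofFn (Function.update y j w)) := by
  intro n
  induction n with
  | zero => exact fun _ j => j.elim0
  | succ n ih =>
    intro y j u w
    cases n with
    | zero =>
      have hj : j = 0 := Fin.ext (by have := j.isLt; simp only [Fin.val_zero]; omega)
      subst hj
      simp [List.ofFn_succ, wp]
    | succ n =>
      rw [Cvm_succ, Cvm_succ, Cvm_succ]
      refine Fin.cases ?_ ?_ j
      · have h : ∀ a : R, (fun i : Fin (n + 1) => Function.update y 0 a i.succ) =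
            fun i => y i.succ := by
          intro a
          funext i
          rw [Function.update_of_ne (Fin.succ_ne_zero i)]
        rw [h, h, h, Function.update_self, Function.update_self, Function.update_self, add_mul]
      · intro j
        rw [Cvm_tail, Cvm_tail, Cvm_tail, ih, mul_add]
        have h : ∀ a : R, Function.update y j.succ a 0 = y 0 := by
          intro a
          rw [Function.update_of_ne (Fin.succ_ne_zero j).symm]
        rw [h, h, h]

/-- A multilinear polynomial function is additive in every variable. -/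
theorem Cvm_ml {b : ℕ} {φ : (Fin b → R) → R} (h : ML b φ) (x : Fin b → R) (k : Fin b) (u w : R) :
    φ (Function.update x k (u + w)) =
      φ (Function.update x k u) + φ (Function.update x k w) := by
  obtain ⟨c, hc⟩ := h
  rw [hc, hc, hc, ← Finset.sum_add_distrib]
  apply Finset.sum_congr rfl
  intro σ _
  have h : ∀ a : R, (fun i => Function.update x k a (σ i)) =
      Function.update (fun i => x (σ i)) (σ.symm k) a := by
    intro a
    have := Function.update_comp_equiv x σ k a
    exact this
  rw [h, h, h, Cvm_add, smul_add]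

/-- The multilinear map of a multilinear polynomial function. -/
theorem Cvm_map {b : ℕ} {φ : (Fin b → R) → R} (h : ML b φ) :
    ∃ F : MultilinearMap ℤ (fun _ : Fin b => R) R, ∀ x, F x = φ x := by
  refine ⟨MultilinearMap.mk' φ (fun m i x y => Cvm_ml h m i x y) ?_, fun x => rfl⟩
  intro m i c x
  let f : R →+ R := AddMonoidHom.mk' (fun x => φ (Function.update m i x))
    (fun x y => Cvm_ml h m i x y)
  exact map_zsmul f c x

theorem Cvm_tmf_nsmul {φ : (ℕ → R) → R} (h : TmF φ) (n : ℕ) : TmF (fun v => n • φ v) := by
  induction n with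
  | zero => simpa using TmF.zero (R := R)
  | succ n ih => simpa [add_smul] using ih.add h

theorem Cvm_tmf_zsmul {φ : (ℕ → R) → R} (h : TmF φ) (n : ℤ) : TmF (fun v => n • φ v) := by
  obtain ⟨m, rfl | rfl⟩ := n.eq_nat_or_neg
  · simpa using Cvm_tmf_nsmul h m
  · simpa using (Cvm_tmf_nsmul h m).neg

theorem Cvm_tmf_sum {ι : Type} (s : Finset ι) (f : ι → (ℕ → R) → R) (h : ∀ i ∈ s, TmF (f i)) :
    TmF (fun v => ∑ i ∈ s, f i v) := by
  classical
  induction s using Finset.induction_on with
  | empty => simpa using TmF.zero (R := R)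
  | insert a s ha ih =>
    have h1 := (h a (Finset.mem_insert_self a s)).add
      (ih fun i hi => h i (Finset.mem_insert_of_mem hi))
    simpa [Finset.sum_insert ha] using h1

theorem Cvm_tmf_wp (L : List ℕ) : TmF (R := R) (fun v => wp (L.map v)) := by
  induction L with
  | nil => simpa [wp] using TmF.zero (R := R)
  | cons a L ih =>
    cases L with
    | nil => exact TmF.var a
    | cons b L => exact (TmF.var a).mul ih

/-- Multilinear polynomial functions are term functions. -/
theorem Cvm_tmf {b : ℕ} {φ : (Fin b → R) → R} (h : ML b φ) :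
    TmF (fun v : ℕ → R => φ (fun i : Fin b => v i)) := by
  obtain ⟨c, hc⟩ := h
  have h1 : (fun v : ℕ → R => φ (fun i : Fin b => v i)) =
      fun v => ∑ σ : Equiv.Perm (Fin b), c σ • wp ((List.ofFn fun i => ((σ i : Fin b) : ℕ)).map v) := by
    funext v
    rw [hc]
    apply Finset.sum_congr rfl
    intro σ _
    rw [List.map_ofFn]
    rfl
  rw [h1]
  exact Cvm_tmf_sum _ _ fun σ _ => Cvm_tmf_zsmul (Cvm_tmf_wp _) _

end

theorem thm_Cvm (hLin : St_Lin) (hPhz : St_Phz) : St_Cvm := by
  intro R _ _ hM
  obtain ⟨hnil, H, hH, b, g, φ, -, -, hml, ⟨z, hz⟩, hval, hsq, hvan, x0, hx0⟩ := hM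
  obtain ⟨p, r, hp, hpr, -⟩ := thm_Ppw R H hH
  obtain ⟨F, hF⟩ := Cvm_map hml
  refine thm_Crg R H hH (fun v => φ (fun i : Fin b => v i)) (Cvm_tmf hml) (fun v => hval _) ?_ ?_
  · refine ⟨fun n => if h : n < b then x0 ⟨n, h⟩ else 0, ?_⟩
    have h1 : (fun i : Fin b => (fun n => if h : n < b then x0 ⟨n, h⟩ else 0) (i : ℕ)) = x0 := by
      funext i
      simp
    simp only
    rw [h1]
    exact hx0
  · intro S hS v hv
    obtain ⟨k, hk, a, ha⟩ := hLin R hnil p r hp hpr g z hz S hS
    choose μ y hs using fun t : Fin b => ha (v t) (hv t)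
    obtain ⟨w, hw⟩ : ∃ w : Fin b → R, w = fun t => ∑ i, μ t i • a i := ⟨_, rfl⟩
    obtain ⟨e, he⟩ : ∃ e : Fin b → R, e = fun t : Fin b => v t - w t := ⟨_, rfl⟩
    have hve : (fun i : Fin b => v i) = w + e := by
      funext t
      rw [Pi.add_apply, he]
      simp
    rw [hve, ← hF, MultilinearMap.map_add_univ]
    apply Finset.sum_eq_zero
    intro s _
    by_cases hsu : s = Finset.univ
    · subst hsu
      rw [Finset.piecewise_univ, hw, MultilinearMap.map_sum]
      apply Finset.sum_eq_zero
      intro j _
      rw [MultilinearMap.map_smul_univ, hF, hvan k hk a j, smul_zero]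
    · obtain ⟨t, ht⟩ : ∃ t, t ∉ s := by
        by_contra hc
        push Not at hc
        exact hsu (Finset.eq_univ_iff_forall.2 hc)
      obtain ⟨m, hm⟩ : ∃ m : Fin b → R, m = s.piecewise w e := ⟨_, rfl⟩
      have hmt : m t = (p : ℤ) • y t + (v t - (∑ i, μ t i • a i + (p : ℤ) • y t)) := by
        rw [hm, Finset.piecewise_eq_of_notMem _ _ _ ht, he, hw]
        simp only
        abel
      have h1 : m = Function.update m t
          ((p : ℤ) • y t + (v t - (∑ i, μ t i • a i + (p : ℤ) • y t))) := by
        rw [← hmt, Function.update_eq_self]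
      rw [← hm, h1, MultilinearMap.map_update_add, MultilinearMap.map_update_smul, hF, hF]
      have h2 : φ (Function.update m t (v t - (∑ i, μ t i • a i + (p : ℤ) • y t))) = 0 := by
        apply hsq _ t
        rw [Function.update_self]
        exact hs t
      rw [h2, add_zero]
      exact hPhz R H hH p r hpr _ (hval _)

end Pool.Agent.CRK
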