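import Pool.Agent.CRK.St
import Pool.Agent.CRN.Crg
import Pool.Agent.CRN.Ppw

/-!
Campaign CRK, module Cvn (helper6): the rings of the nilpotent type are critical.
-/

set_option autoImplicit false

namespace Pool.Agent.CRK

open Pool.Agent.CRR Pool.Agent.CRN

/-! ### Term functions -/

theorem Cvn_TmF_nsmul {R : Type} [NonUnitalRing R] {φ : (ℕ → R) → R} (h : TmF φ) (m : ℕ) :
    TmF (fun v => m • φ v) := by
  induction m with
  | zero => simpa using (TmF.zero (R := R))
  | succ m ih =>
    have h1 := ih.add h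
    simpa only [succ_nsmul] using h1

theorem Cvn_TmF_zsmul {R : Type} [NonUnitalRing R] {φ : (ℕ → R) → R} (h : TmF φ) (m : ℤ) :
    TmF (fun v => m • φ v) := by
  obtain ⟨k, rfl | rfl⟩ := m.eq_nat_or_neg
  · simpa only [natCast_zsmul] using Cvn_TmF_nsmul h k
  · simpa only [neg_smul, natCast_zsmul] using (Cvn_TmF_nsmul h k).neg

theorem Cvn_TmF_sum {R : Type} [NonUnitalRing R] {ι : Type} (s : Finset ι)
    (φ : ι → (ℕ → R) → R) (h : ∀ i, TmF (φ i)) : TmF (fun v => ∑ i ∈ s, φ i v) := by
  classical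
  induction s using Finset.induction_on with
  | empty => simpa using (TmF.zero (R := R))
  | insert a s ha ih =>
    have h1 := (h a).add ih
    simpa only [Finset.sum_insert ha] using h1

theorem Cvn_TmF_wp {R : Type} [NonUnitalRing R] (l : List ℕ) :
    TmF (R := R) (fun v => wp (l.map v)) := by
  induction l with
  | nil => exact TmF.zero
  | cons a l ih =>
    cases l with
    | nil => exact TmF.var a
    | cons b l => exact (TmF.var a).mul ih

theorem Cvn_TmF_stp (R : Type) [NonUnitalRing R] (g : ℕ) :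
    TmF (R := R) (fun v => stp (fun i : Fin g => v i)) := by
  unfold stp
  refine Cvn_TmF_sum _ _ fun σ => Cvn_TmF_zsmul ?_ _
  have h1 := Cvn_TmF_wp (R := R) (List.ofFn fun i => ((σ i : Fin g) : ℕ))
  simpa only [List.map_ofFn, Function.comp_def] using h1

theorem Cvn_TmF_fun (R : Type) [NonUnitalRing R] (g : ℕ) (f : (Fin g → R) → R)
    (hf : NilFun g f) : TmF (R := R) (fun v => f (fun i : Fin g => v i)) := by
  have hs := Cvn_TmF_stp R g
  rcases hf with ⟨m, h⟩ | ⟨a, b, i, h⟩ | ⟨m, i, h⟩ | ⟨a, b, i, j, -, -, h⟩ | ⟨m, i, j, -, -, h⟩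
  · simpa only [h] using Cvn_TmF_zsmul hs m
  · have h1 := (Cvn_TmF_zsmul ((TmF.var (R := R) i).mul hs) a).add
      (Cvn_TmF_zsmul (hs.mul (TmF.var (R := R) i)) b)
    simpa only [h] using h1
  · have h1 := Cvn_TmF_zsmul (((TmF.var (R := R) i).mul (TmF.var (R := R) i)).mul hs) m
    simpa only [h] using h1
  · have hi := TmF.var (R := R) i
    have hj := TmF.var (R := R) j
    have h1 := (Cvn_TmF_zsmul (((hi.mul hi).mul hj).mul hj) a).add
      (Cvn_TmF_zsmul (((hi.mul hj).mul hi).mul hj) b)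
    simpa only [h] using h1
  · have hi := TmF.var (R := R) i
    have hj := TmF.var (R := R) j
    have h1 := Cvn_TmF_zsmul ((((hi.mul hi).mul hj).mul hi).mul hj) m
    simpa only [h] using h1

/-! ### Linear dependence -/

/-- Fewer than `g` coordinates: one of `g` integer vectors is a combination of the others
modulo `p`. -/
theorem Cvn_dep {p g k : ℕ} (hp : p.Prime) (hk : k < g) (ν : Fin g → Fin k → ℤ) :
    ∃ (l : Fin g) (μ : Fin g → ℤ) (q : Fin k → ℤ), μ l = 0 ∧
      ∀ j, ν l j - ∑ i, μ i * ν i j = (p : ℤ) * q j := by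
  have : Fact p.Prime := ⟨hp⟩
  let w : Fin g → Fin k → ZMod p := fun i j => ((ν i j : ℤ) : ZMod p)
  have hw : ¬ LinearIndependent (ZMod p) w := by
    intro h
    have h1 := h.fintype_card_le_finrank
    rw [Fintype.card_fin, Module.finrank_fin_fun] at h1
    omega
  obtain ⟨c, hc, l, hl⟩ := Fintype.not_linearIndependent_iff.1 hw
  have hcj : ∀ j, ∑ i, c i * w i j = 0 := by
    intro j
    have h1 := congrFun hc j
    simpa [Finset.sum_apply] using h1
  let d : Fin g → ZMod p := fun i => if i = l then 0 else -(c l)⁻¹ * c i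
  have hd : ∀ j, w l j - ∑ i, d i * w i j = 0 := by
    intro j
    have h1 : ∑ i, d i * w i j = ∑ i, (-(c l)⁻¹ * (c i * w i j) + if i = l then w l j else 0) := by
      refine Finset.sum_congr rfl fun i _ => ?_
      by_cases hi : i = l
      · subst hi
        simp only [d, if_true, zero_mul]
        field_simp
        ring
      · simp only [d, if_neg hi, add_zero]
        ring
    rw [h1, Finset.sum_add_distrib, ← Finset.mul_sum, hcj, Finset.sum_ite_eq']
    simp
  have hq : ∀ j, ∃ q : ℤ, ν l j - ∑ i, ((d i).val : ℤ) * ν i j = (p : ℤ) * q := by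
    intro j
    have h1 : ((ν l j - ∑ i, ((d i).val : ℤ) * ν i j : ℤ) : ZMod p) = 0 := by
      have h2 := hd j
      push_cast
      simp only [ZMod.natCast_zmod_val]
      exact h2
    exact (ZMod.intCast_zmod_eq_zero_iff_dvd _ p).1 h1
  choose q hq using hq
  refine ⟨l, fun i => ((d i).val : ℤ), q, ?_, hq⟩
  simp [d]

/-- Linear dependence modulo `Sq R` and `p R`. -/
theorem Cvn_rel {R : Type} [NonUnitalRing R] {p g k : ℕ} (hp : p.Prime) (hk : k < g)
    (x : Fin g → R) (a : Fin k → R)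
    (h : ∀ i, ∃ (μ : Fin k → ℤ) (y : R), x i - (∑ j, μ j • a j + (p : ℤ) • y) ∈ Sq R) :
    ∃ (l : Fin g) (μ : Fin g → ℤ) (Y : R), μ l = 0 ∧
      x l - (∑ i, μ i • x i + (p : ℤ) • Y) ∈ Sq R := by
  choose ν y hν using h
  obtain ⟨l, μ, q, hl, hq⟩ := Cvn_dep hp hk ν
  refine ⟨l, μ, ∑ j, q j • a j + (y l - ∑ i, μ i • y i), hl, ?_⟩
  have key : x l - (∑ i, μ i • x i + (p : ℤ) • (∑ j, q j • a j + (y l - ∑ i, μ i • y i))) =
      (x l - (∑ j, ν l j • a j + (p : ℤ) • y l)) -
        ∑ i, μ i • (x i - (∑ j, ν i j • a j + (p : ℤ) • y i)) := by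
    have e1 : ∑ i, μ i • (x i - (∑ j, ν i j • a j + (p : ℤ) • y i)) =
        ∑ i, μ i • x i - (∑ j, (∑ i, μ i * ν i j) • a j + (p : ℤ) • ∑ i, μ i • y i) := by
      simp only [smul_sub, smul_add, Finset.sum_sub_distrib, Finset.sum_add_distrib,
        Finset.smul_sum, Finset.sum_smul, mul_smul]
      congr 2
      · exact Finset.sum_comm
      · refine Finset.sum_congr rfl fun i _ => ?_
        rw [smul_comm]
    have e2 : ∑ j, ν l j • a j = ∑ j, (∑ i, μ i * ν i j) • a j + (p : ℤ) • ∑ j, q j • a j := by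
      rw [Finset.smul_sum, ← Finset.sum_add_distrib]
      refine Finset.sum_congr rfl fun j _ => ?_
      rw [← mul_smul, ← add_smul, ← hq j]
      congr 1
      ring
    rw [e1, e2]
    simp only [smul_add, smul_sub]
    abel
  rw [key]
  exact (Sq R).sub_mem (hν l) ((Sq R).sum_mem fun i _ => (Sq R).zsmul_mem (hν i) _)

/-! ### The theorem -/

theorem thm_Cvn (hLin : St_Lin) (hPhz : St_Phz) (hPmd : St_Pmd) (hDpz : St_Dpz) : St_Cvn := by
  intro R _ _ hcop hR
  obtain ⟨hcube, H, hH, g, f, -, hf, ⟨z, hz⟩, hval, hsq, x0, hx0⟩ := hR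
  obtain ⟨p, r, hp, hpr, -⟩ := thm_Ppw R H hH
  -- `p` is not 2 or 3
  have hpd : p ∣ Nat.card R := by
    have h1 : (p : ℤ) • f x0 = 0 := hPhz R H hH p r hpr _ (hval x0)
    rw [natCast_zsmul] at h1
    have : Fact p.Prime := ⟨hp⟩
    have h2 : addOrderOf (f x0) = p := addOrderOf_eq_prime h1 hx0
    rw [← h2]
    exact addOrderOf_dvd_natCard _
  have hp6 : ¬ p ∣ 6 := by
    intro h
    have h1 : p ∣ 1 := by
      have h2 := Nat.dvd_gcd hpd h
      rwa [Nat.Coprime.gcd_eq_one hcop] at h2
    exact hp.one_lt.ne' (Nat.dvd_one.1 h1)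
  have hp2 : p ≠ 2 := by
    rintro rfl
    exact hp6 (by norm_num)
  have hp3 : p ≠ 3 := by
    rintro rfl
    exact hp6 (by norm_num)
  refine thm_Crg R H hH (fun v => f (fun i : Fin g => v i)) (Cvn_TmF_fun R g f hf)
    (fun v => hval _) ?_ ?_
  · refine ⟨fun n => if h : n < g then x0 ⟨n, h⟩ else 0, ?_⟩
    have h1 : (fun i : Fin g => (fun n : ℕ => if h : n < g then x0 ⟨n, h⟩ else 0) (i : ℕ)) = x0 := by
      funext i
      simp
    show f (fun i : Fin g => (fun n : ℕ => if h : n < g then x0 ⟨n, h⟩ else 0) (i : ℕ)) ≠ 0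
    rw [h1]
    exact hx0
  · intro S hS v hv
    obtain ⟨k, hk, a, ha⟩ := hLin R hcube p r hp hpr g z hz S hS
    obtain ⟨x, hx⟩ : ∃ x : Fin g → R, x = fun i : Fin g => v i := ⟨_, rfl⟩
    have hxS : ∀ i, x i ∈ S := by
      intro i
      rw [hx]
      exact hv i
    show f (fun i : Fin g => v i) = 0
    rw [← hx]
    obtain ⟨l, μ, Y, hl, hY⟩ := Cvn_rel hp hk x a fun i => ha _ (hxS i)
    have hx2 : ∑ j, μ j • (Function.update x l (∑ i, μ i • x i)) j = ∑ i, μ i • x i := by
      refine Finset.sum_congr rfl fun j _ => ?_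
      by_cases hj : j = l
      · subst hj
        rw [hl, zero_smul, zero_smul]
      · rw [Function.update_of_ne hj]
    have h3 : f (Function.update x l (∑ i, μ i • x i)) = 0 := by
      refine hDpz R hcube g f hf _ l μ hl ?_
      rw [hx2, Function.update_self]
    have h2 : f (Function.update x l (∑ i, μ i • x i + (p : ℤ) • Y)) =
        f (Function.update x l (∑ i, μ i • x i)) := by
      have h4 := hPmd R H hH p r hp hp2 hp3 hpr g f hf hval
        (Function.update x l (∑ i, μ i • x i)) l Y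
      rw [Function.update_self, Function.update_idem] at h4
      exact h4
    have h1 : f x = f (Function.update x l (∑ i, μ i • x i + (p : ℤ) • Y)) := by
      refine hsq _ _ fun i => ?_
      by_cases hi : i = l
      · subst hi
        rw [Function.update_self]
        exact hY
      · rw [Function.update_of_ne hi, sub_self]
        exact (Sq R).zero_mem
    rw [h1, h2, h3]

end Pool.Agent.CRK
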