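import Pool.Agent.CRK.St
import Mathlib.LinearAlgebra.Alternating.Basic
import Mathlib.LinearAlgebra.Multilinear.Basic
import Mathlib.Algebra.Algebra.Unitization

/-!
Campaign CRK, module Dpz: the functions `NilFun` vanish if the arguments are linearly dependent.
-/

set_option autoImplicit false

namespace Pool.Agent.CRK

open Pool.Agent.CRR Pool.Agent.CRN

section

variable {R : Type} [NonUnitalRing R]

theorem Dpz_inr_wp : ∀ l : List R, l ≠ [] →
    ((wp l : R) : Unitization ℤ R) = (l.map (Unitization.inr : R → Unitization ℤ R)).prod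
  | [], h => absurd rfl h
  | [x], _ => by simp [wp]
  | x :: y :: l, _ => by
      have ih := Dpz_inr_wp (y :: l) (List.cons_ne_nil _ _)
      rw [show wp (x :: y :: l) = x * wp (y :: l) from rfl, Unitization.inr_mul, ih, List.map_cons,
        List.map_cons, List.map_cons, List.prod_cons, List.prod_cons, List.prod_cons]

/-- The standard polynomial as an alternating map. -/
noncomputable def DpzA (R : Type) [NonUnitalRing R] (g : ℕ) :
    AlternatingMap ℤ (Unitization ℤ R) (Unitization ℤ R) (Fin g) :=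
  MultilinearMap.alternatization (MultilinearMap.mkPiAlgebraFin ℤ g (Unitization ℤ R))

theorem Dpz_inr_stp {g : ℕ} (hg : g ≠ 0) (x : Fin g → R) :
    ((stp x : R) : Unitization ℤ R) = DpzA R g fun i => (x i : Unitization ℤ R) := by
  have h : DpzA R g (fun i => (x i : Unitization ℤ R)) =
      ∑ σ : Equiv.Perm (Fin g), ((Equiv.Perm.sign σ : ℤˣ) : ℤ) •
        (List.ofFn fun i => (x (σ i) : Unitization ℤ R)).prod := by
    rw [DpzA, MultilinearMap.alternatization_apply]
    refine Finset.sum_congr rfl fun σ _ => ?_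
    rw [MultilinearMap.domDomCongr_apply, MultilinearMap.mkPiAlgebraFin_apply]
    rfl
  rw [h, stp]
  have h2 : ∀ s : Finset (Equiv.Perm (Fin g)), ∀ u : Equiv.Perm (Fin g) → R,
      ((∑ σ ∈ s, u σ : R) : Unitization ℤ R) = ∑ σ ∈ s, (u σ : Unitization ℤ R) := by
    intro s u
    exact map_sum (Unitization.inrHom ℤ ℤ R) u s
  rw [h2]
  refine Finset.sum_congr rfl fun σ _ => ?_
  rw [Unitization.inr_smul, Dpz_inr_wp]
  · rw [List.map_ofFn]; rfl
  · intro h0
    have := congrArg List.length h0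
    rw [List.length_ofFn] at this
    exact hg this

theorem Dpz_stp {g : ℕ} (x : Fin g → R) (k : Fin g) (μ : Fin g → ℤ) (hk : μ k = 0)
    (hx : x k = ∑ j, μ j • x j) : stp x = 0 := by
  have hg : g ≠ 0 := by
    rintro rfl
    exact k.elim0
  have hinj : Function.Injective (fun r : R => (r : Unitization ℤ R)) := Unitization.inr_injective
  apply hinj
  show ((stp x : R) : Unitization ℤ R) = ((0 : R) : Unitization ℤ R)
  rw [Dpz_inr_stp hg, Unitization.inr_zero]
  set y : Fin g → Unitization ℤ R := fun i => (x i : Unitization ℤ R) with hy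
  have hyk : y k = ∑ j, μ j • y j := by
    have h1 : y k = ((∑ j, μ j • x j : R) : Unitization ℤ R) := by rw [hy, ← hx]
    rw [h1]
    have h2 : ((∑ j, μ j • x j : R) : Unitization ℤ R) = ∑ j, ((μ j • x j : R) : Unitization ℤ R) :=
      map_sum (Unitization.inrHom ℤ ℤ R) (fun j => μ j • x j) Finset.univ
    rw [h2]
    refine Finset.sum_congr rfl fun j _ => ?_
    rw [Unitization.inr_smul]
  have h3 : y = Function.update y k (∑ j, μ j • y j) := by
    rw [← hyk, Function.update_eq_self]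
  rw [h3, AlternatingMap.map_update_sum]
  refine Finset.sum_eq_zero fun j _ => ?_
  rw [AlternatingMap.map_update_smul]
  by_cases hj : j = k
  · subst hj
    rw [hk, zero_smul]
  · rw [AlternatingMap.map_update_self _ _ (Ne.symm hj), smul_zero]

theorem Dpz_mul (hz : ∀ x : R, x * x * x = 0) (a : R) (s t u v : ℤ) :
    (s • a) * (t • a) * (u • a) * (v • a) = 0 := by
  simp only [smul_mul_assoc, mul_smul_comm, hz, zero_mul, smul_zero]

theorem Dpz_two (x : Fin 2 → R) (k : Fin 2) (μ : Fin 2 → ℤ) (hk : μ k = 0)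
    (hx : x k = ∑ j, μ j • x j) (i j : Fin 2) :
    ∃ (c : R) (s t : ℤ), x i = s • c ∧ x j = t • c := by
  rw [Fin.sum_univ_two] at hx
  have h : ∃ (c : R) (s : Fin 2 → ℤ), ∀ i, x i = s i • c := by
    fin_cases k
    · refine ⟨x 1, ![μ 1, 1], fun i => ?_⟩
      have h0 : μ 0 = 0 := hk
      have h1 : x 0 = μ 0 • x 0 + μ 1 • x 1 := hx
      fin_cases i
      · show x 0 = μ 1 • x 1
        rw [h0, zero_smul, zero_add] at h1
        exact h1
      · show x 1 = (1 : ℤ) • x 1
        rw [one_smul]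
    · refine ⟨x 0, ![1, μ 0], fun i => ?_⟩
      have h0 : μ 1 = 0 := hk
      have h1 : x 1 = μ 0 • x 0 + μ 1 • x 1 := hx
      fin_cases i
      · show x 0 = (1 : ℤ) • x 0
        rw [one_smul]
      · show x 1 = μ 0 • x 0
        rw [h0, zero_smul, add_zero] at h1
        exact h1
  obtain ⟨c, s, hs⟩ := h
  exact ⟨c, s i, s j, hs i, hs j⟩

end

theorem thm_Dpz : St_Dpz := by
  intro R _ hz g f hf x k μ hk hx
  have hs : stp x = 0 := Dpz_stp x k μ hk hx
  rcases hf with ⟨m, h⟩ | ⟨a, b, i, h⟩ | ⟨m, i, h⟩ | ⟨a, b, i, j, hg, hij, h⟩ | ⟨m, i, j, hg, hij, h⟩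
  · rw [h, hs, smul_zero]
  · rw [h, hs, mul_zero, zero_mul, smul_zero, smul_zero, add_zero]
  · rw [h, hs, mul_zero, smul_zero]
  · subst hg
    have hc : ∃ (c : R) (s t : ℤ), x i = s • c ∧ x j = t • c := Dpz_two x k μ hk hx i j
    obtain ⟨c, s, t, hi, hj⟩ := hc
    rw [h, hi, hj, Dpz_mul hz, Dpz_mul hz, smul_zero, smul_zero, add_zero]
  · subst hg
    have hc : ∃ (c : R) (s t : ℤ), x i = s • c ∧ x j = t • c := Dpz_two x k μ hk hx i j
    obtain ⟨c, s, t, hi, hj⟩ := hc
    rw [h, hi, hj, Dpz_mul hz, zero_mul, smul_zero]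

end Pool.Agent.CRK
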