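import Pool.Agent.CRK.St

/-!
Campaign CRK, statement Exa.
-/

set_option autoImplicit false

namespace Pool.Agent.CRK

open Pool.Agent.CRR Pool.Agent.CRN

/-- The functions of two variables which are combinations of the three words. -/
def ExaS (R : Type) [NonUnitalRing R] : AddSubgroup (R → R → R) where
  carrier := {F | ∃ a b c : ℤ, ∀ x y, F x y = a • (x * x * y) + b • (x * y * x) + c • (y * x * x)}
  zero_mem' := ⟨0, 0, 0, fun x y => by simp⟩
  add_mem' := by
    rintro F G ⟨a, b, c, h⟩ ⟨a', b', c', h'⟩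
    refine ⟨a + a', b + b', c + c', fun x y => ?_⟩
    rw [Pi.add_apply, Pi.add_apply, h, h']
    module
  neg_mem' := by
    rintro F ⟨a, b, c, h⟩
    refine ⟨-a, -b, -c, fun x y => ?_⟩
    rw [Pi.neg_apply, Pi.neg_apply, h]
    module

theorem Exa_word (R : Type) [NonUnitalRing R] (i j k : Fin 3) (hij : i ≠ j) (hik : i ≠ k)
    (hjk : j ≠ k) : (fun x y : R => (![x, x, y] : Fin 3 → R) i * ((![x, x, y] : Fin 3 → R) j *
      (![x, x, y] : Fin 3 → R) k)) ∈ ExaS R := by
  fin_cases i <;> fin_cases j <;> fin_cases k <;> first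
    | exact absurd rfl hij
    | exact absurd rfl hik
    | exact absurd rfl hjk
    | (refine ⟨1, 0, 0, fun x y => ?_⟩; simp [mul_assoc]; done)
    | (refine ⟨0, 1, 0, fun x y => ?_⟩; simp [mul_assoc]; done)
    | (refine ⟨0, 0, 1, fun x y => ?_⟩; simp [mul_assoc]; done)

theorem thm_Exa : St_Exa := by
  intro R _ φ hφ
  obtain ⟨c, hc⟩ := hφ
  have h1 : (fun x y : R => φ ![x, x, y]) =
      ∑ σ : Equiv.Perm (Fin 3), c σ • (fun x y : R => (![x, x, y] : Fin 3 → R) (σ 0) *
        ((![x, x, y] : Fin 3 → R) (σ 1) * (![x, x, y] : Fin 3 → R) (σ 2))) := by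
    funext x y
    rw [hc, Finset.sum_apply, Finset.sum_apply]
    rfl
  have h2 : (fun x y : R => φ ![x, x, y]) ∈ ExaS R := by
    rw [h1]
    apply AddSubgroup.sum_mem
    intro σ _
    apply AddSubgroup.zsmul_mem
    apply Exa_word
    · exact fun h => absurd (σ.injective h) (by decide)
    · exact fun h => absurd (σ.injective h) (by decide)
    · exact fun h => absurd (σ.injective h) (by decide)
  exact h2

end Pool.Agent.CRK
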