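import Pool.Agent.CRK.St

/-!
Campaign CRK, module Exb: multilinear functions of four arguments at `(x, x, x, y)`, `(x, x, y, y)`.
-/

set_option autoImplicit false

namespace Pool.Agent.CRK

open Pool.Agent.CRR Pool.Agent.CRN

theorem Exb_wp {R : Type} [NonUnitalRing R] (w : Fin 4 → R) :
    wp (List.ofFn w) = w 0 * w 1 * w 2 * w 3 := by
  have h : List.ofFn w = [w 0, w 1, w 2, w 3] := by
    simp [List.ofFn_succ]
  rw [h]
  simp only [wp, mul_assoc]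

theorem Exb_cnt (q : Fin 4 → Fin 2) (σ : Equiv.Perm (Fin 4)) :
    (q (σ 0)).val + (q (σ 1)).val + (q (σ 2)).val + (q (σ 3)).val =
      (q 0).val + (q 1).val + (q 2).val + (q 3).val := by
  have h := Equiv.sum_comp σ fun i => (q i).val
  rwa [Fin.sum_univ_four, Fin.sum_univ_four] at h

theorem Exb_one (a b c d : Fin 2) (h : a.val + b.val + c.val + d.val = 1) :
    (a = 1 ∧ b = 0 ∧ c = 0 ∧ d = 0) ∨ (a = 0 ∧ b = 1 ∧ c = 0 ∧ d = 0) ∨
      (a = 0 ∧ b = 0 ∧ c = 1 ∧ d = 0) ∨ (a = 0 ∧ b = 0 ∧ c = 0 ∧ d = 1) := by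
  revert a b c d
  decide

theorem Exb_two (a b c d : Fin 2) (h : a.val + b.val + c.val + d.val = 2) :
    (a = 1 ∧ b = 1 ∧ c = 0 ∧ d = 0) ∨ (a = 1 ∧ b = 0 ∧ c = 1 ∧ d = 0) ∨
      (a = 1 ∧ b = 0 ∧ c = 0 ∧ d = 1) ∨ (a = 0 ∧ b = 1 ∧ c = 1 ∧ d = 0) ∨
      (a = 0 ∧ b = 1 ∧ c = 0 ∧ d = 1) ∨ (a = 0 ∧ b = 0 ∧ c = 1 ∧ d = 1) := by
  revert a b c d
  decide

theorem thm_Exb (hIdb : St_Idb) : St_Exb := by
  intro R _ hR φ hφ
  obtain ⟨c, hc⟩ := hφ
  have hI := hIdb R hR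
  have v0 : ∀ x y : R, (![x, y] : Fin 2 → R) 0 = x := fun _ _ => rfl
  have v1 : ∀ x y : R, (![x, y] : Fin 2 → R) 1 = y := fun _ _ => rfl
  constructor
  · have h1 : ∀ σ : Equiv.Perm (Fin 4), ∃ m : ℤ, ∀ x y : R,
        wp (List.ofFn fun i => (![x, x, x, y] : Fin 4 → R) (σ i)) = m • (x * x * y * x) := by
      intro σ
      have hq : ∀ x y : R, (![x, x, x, y] : Fin 4 → R) =
          fun i => (![x, y] : Fin 2 → R) ((![0, 0, 0, 1] : Fin 4 → Fin 2) i) := by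
        intro x y
        funext i
        fin_cases i <;> rfl
      have hcnt := Exb_cnt ![0, 0, 0, 1] σ
      have hs : ((![0, 0, 0, 1] : Fin 4 → Fin 2) 0).val + ((![0, 0, 0, 1] : Fin 4 → Fin 2) 1).val +
          ((![0, 0, 0, 1] : Fin 4 → Fin 2) 2).val + ((![0, 0, 0, 1] : Fin 4 → Fin 2) 3).val = 1 :=
        rfl
      rw [hs] at hcnt
      simp only [Exb_wp, hq]
      rcases Exb_one _ _ _ _ hcnt with ⟨h1, h2, h3, h4⟩ | ⟨h1, h2, h3, h4⟩ | ⟨h1, h2, h3, h4⟩ |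
        ⟨h1, h2, h3, h4⟩
      · refine ⟨0, fun x y => ?_⟩
        rw [h1, h2, h3, h4, v0, v1, zero_smul, mul_assoc (y * x), mul_assoc y, ← mul_assoc x x x,
          hR.nz, mul_zero]
      · refine ⟨-1, fun x y => ?_⟩
        rw [h1, h2, h3, h4, v0, v1, neg_one_smul, (hI x y).1]
      · refine ⟨1, fun x y => ?_⟩
        rw [h1, h2, h3, h4, v0, v1, one_smul]
      · refine ⟨0, fun x y => ?_⟩
        rw [h1, h2, h3, h4, v0, v1, zero_smul, hR.nz, zero_mul]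
    choose m hm using h1
    refine ⟨∑ σ, c σ * m σ, fun x y => ?_⟩
    rw [hc, Finset.sum_smul]
    refine Finset.sum_congr rfl fun σ _ => ?_
    rw [hm, mul_smul]
  · have h1 : ∀ σ : Equiv.Perm (Fin 4), ∃ a b : ℤ, ∀ x y : R,
        wp (List.ofFn fun i => (![x, x, y, y] : Fin 4 → R) (σ i)) =
          a • (x * x * y * y) + b • (x * y * x * y) := by
      intro σ
      have hq : ∀ x y : R, (![x, x, y, y] : Fin 4 → R) =
          fun i => (![x, y] : Fin 2 → R) ((![0, 0, 1, 1] : Fin 4 → Fin 2) i) := by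
        intro x y
        funext i
        fin_cases i <;> rfl
      have hcnt := Exb_cnt ![0, 0, 1, 1] σ
      have hs : ((![0, 0, 1, 1] : Fin 4 → Fin 2) 0).val + ((![0, 0, 1, 1] : Fin 4 → Fin 2) 1).val +
          ((![0, 0, 1, 1] : Fin 4 → Fin 2) 2).val + ((![0, 0, 1, 1] : Fin 4 → Fin 2) 3).val = 2 :=
        rfl
      rw [hs] at hcnt
      simp only [Exb_wp, hq]
      rcases Exb_two _ _ _ _ hcnt with ⟨h1, h2, h3, h4⟩ | ⟨h1, h2, h3, h4⟩ | ⟨h1, h2, h3, h4⟩ |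
        ⟨h1, h2, h3, h4⟩ | ⟨h1, h2, h3, h4⟩ | ⟨h1, h2, h3, h4⟩
      · refine ⟨0, 1, fun x y => ?_⟩
        rw [h1, h2, h3, h4, v0, v1, zero_smul, one_smul, zero_add, (hI x y).2.2.1]
      · refine ⟨1, 0, fun x y => ?_⟩
        rw [h1, h2, h3, h4, v0, v1, zero_smul, one_smul, add_zero, (hI x y).2.2.2.1]
      · refine ⟨-1, -1, fun x y => ?_⟩
        rw [h1, h2, h3, h4, v0, v1, neg_one_smul, neg_one_smul, (hI x y).2.2.2.2.2]
        abel
      · refine ⟨-1, -1, fun x y => ?_⟩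
        rw [h1, h2, h3, h4, v0, v1, neg_one_smul, neg_one_smul, (hI x y).2.2.2.2.1]
        abel
      · refine ⟨0, 1, fun x y => ?_⟩
        rw [h1, h2, h3, h4, v0, v1, zero_smul, one_smul, zero_add]
      · refine ⟨1, 0, fun x y => ?_⟩
        rw [h1, h2, h3, h4, v0, v1, zero_smul, one_smul, add_zero]
    choose a b hab using h1
    refine ⟨∑ σ, c σ * a σ, ∑ σ, c σ * b σ, fun x y => ?_⟩
    rw [hc, Finset.sum_smul, Finset.sum_smul, ← Finset.sum_add_distrib]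
    refine Finset.sum_congr rfl fun σ _ => ?_
    rw [hab, mul_smul, mul_smul, smul_add]

end Pool.Agent.CRK
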