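import Pool.Agent.CRK.St

/-!
CRK, module Exc: the expansions of a multilinear function of degree 5 at `(x, x, x, x, y)` and
`(x, x, x, y, y)`.
-/

set_option autoImplicit false

namespace Pool.Agent.CRK

open Pool.Agent.CRR Pool.Agent.CRN

variable {R : Type} [NonUnitalRing R]

/-- The word with `y` at the positions `p`, `q` and `x` elsewhere. -/
private def Exc_v (p q : Fin 5) (x y : R) (i : Fin 5) : R :=
  if i = p then y else if i = q then y else x

/-- The word with `y` at the position `p` and `x` elsewhere. -/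
private def Exc_u (p : Fin 5) (x y : R) (i : Fin 5) : R :=
  if i = p then y else x

private theorem Exc_z0 (hN : N6 R) (y z x : R) : x * x * x * y * z = 0 := by
  rw [hN.nz, zero_mul, zero_mul]

private theorem Exc_z1 (hN : N6 R) (y z x : R) : y * x * x * x * z = 0 := by
  have h : y * x * x * x = y * (x * x * x) := by simp only [mul_assoc]
  rw [h, hN.nz, mul_zero, zero_mul]

private theorem Exc_z2 (hN : N6 R) (y z x : R) : y * z * x * x * x = 0 := by
  have h : y * z * x * x * x = y * z * (x * x * x) := by simp only [mul_assoc]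
  rw [h, hN.nz, mul_zero]

private theorem Exc_c0 {w T : R} (h : w = 0) : w = (0 : ℤ) • T := by
  rw [zero_smul, h]

private theorem Exc_cp {w T : R} (h : w = T) : w = (1 : ℤ) • T := by
  rw [one_smul, h]

private theorem Exc_cm {w T : R} (h : w = -T) : w = (-1 : ℤ) • T := by
  rw [neg_smul, one_smul, h]

private theorem Exc_one (hI : St_Idb) (hN : N6 R) : ∀ (p : Fin 5) (x y : R),
      Exc_u p x y 0 * Exc_u p x y 1 * Exc_u p x y 2 * Exc_u p x y 3 * Exc_u p x y 4 = 0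
  | 0, x, y => Exc_z1 hN y x x
  | 1, x, y => Exc_z2 hN x y x
  | 2, x, y => (hI R hN x y).2.1
  | 3, x, y => Exc_z0 hN y x x
  | 4, x, y => Exc_z0 hN x y x

private theorem Exc_word (hI : St_Idc) (hN : N6 R) : ∀ p q : Fin 5, p ≠ q →
    ∃ α : ℤ, ∀ x y : R,
      Exc_v p q x y 0 * Exc_v p q x y 1 * Exc_v p q x y 2 * Exc_v p q x y 3 *
        Exc_v p q x y 4 = α • (x * x * y * x * y)
  | 0, 0, h => absurd rfl h
  | 0, 1, _ => ⟨0, fun x y => Exc_c0 (w := y * y * x * x * x) (Exc_z2 hN _ _ x)⟩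
  | 0, 2, _ => ⟨-1, fun x y => Exc_cm (w := y * x * y * x * x) ((hI R hN x y).2.2.2.2.1)⟩
  | 0, 3, _ => ⟨1, fun x y => Exc_cp (w := y * x * x * y * x) ((hI R hN x y).2.2.2.2.2)⟩
  | 0, 4, _ => ⟨0, fun x y => Exc_c0 (w := y * x * x * x * y) (Exc_z1 hN _ _ x)⟩
  | 1, 0, _ => ⟨0, fun x y => Exc_c0 (w := y * y * x * x * x) (Exc_z2 hN _ _ x)⟩
  | 1, 1, h => absurd rfl h
  | 1, 2, _ => ⟨1, fun x y => Exc_cp (w := x * y * y * x * x) ((hI R hN x y).2.1)⟩
  | 1, 3, _ => ⟨0, fun x y => Exc_c0 (w := x * y * x * y * x) ((hI R hN x y).2.2.1)⟩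
  | 1, 4, _ => ⟨-1, fun x y => Exc_cm (w := x * y * x * x * y) ((hI R hN x y).1)⟩
  | 2, 0, _ => ⟨-1, fun x y => Exc_cm (w := y * x * y * x * x) ((hI R hN x y).2.2.2.2.1)⟩
  | 2, 1, _ => ⟨1, fun x y => Exc_cp (w := x * y * y * x * x) ((hI R hN x y).2.1)⟩
  | 2, 2, h => absurd rfl h
  | 2, 3, _ => ⟨-1, fun x y => Exc_cm (w := x * x * y * y * x) ((hI R hN x y).2.2.2.1)⟩
  | 2, 4, _ => ⟨1, fun x y => Exc_cp (w := x * x * y * x * y) rfl⟩
  | 3, 0, _ => ⟨1, fun x y => Exc_cp (w := y * x * x * y * x) ((hI R hN x y).2.2.2.2.2)⟩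
  | 3, 1, _ => ⟨0, fun x y => Exc_c0 (w := x * y * x * y * x) ((hI R hN x y).2.2.1)⟩
  | 3, 2, _ => ⟨-1, fun x y => Exc_cm (w := x * x * y * y * x) ((hI R hN x y).2.2.2.1)⟩
  | 3, 3, h => absurd rfl h
  | 3, 4, _ => ⟨0, fun x y => Exc_c0 (w := x * x * x * y * y) (Exc_z0 hN _ _ x)⟩
  | 4, 0, _ => ⟨0, fun x y => Exc_c0 (w := y * x * x * x * y) (Exc_z1 hN _ _ x)⟩
  | 4, 1, _ => ⟨-1, fun x y => Exc_cm (w := x * y * x * x * y) ((hI R hN x y).1)⟩
  | 4, 2, _ => ⟨1, fun x y => Exc_cp (w := x * x * y * x * y) rfl⟩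
  | 4, 3, _ => ⟨0, fun x y => Exc_c0 (w := x * x * x * y * y) (Exc_z0 hN _ _ x)⟩
  | 4, 4, h => absurd rfl h

private theorem Exc_wp (w : Fin 5 → R) : wp (List.ofFn w) = w 0 * w 1 * w 2 * w 3 * w 4 := by
  have h : List.ofFn w = [w 0, w 1, w 2, w 3, w 4] := by
    simp only [List.ofFn_succ, List.ofFn_zero]
    rfl
  rw [h]
  simp only [wp, mul_assoc]

private theorem Exc_arg (σ : Equiv.Perm (Fin 5)) (x y : R) (i : Fin 5) :
    (![x, x, x, y, y] : Fin 5 → R) (σ i) = Exc_v (σ.symm 3) (σ.symm 4) x y i := by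
  have h1 : ∀ k : Fin 5, (![x, x, x, y, y] : Fin 5 → R) k =
      if k = 3 then y else if k = 4 then y else x := by
    intro k
    fin_cases k <;> rfl
  rw [h1]
  unfold Exc_v
  simp only [Equiv.eq_symm_apply]

private theorem Exc_arg' (σ : Equiv.Perm (Fin 5)) (x y : R) (i : Fin 5) :
    (![x, x, x, x, y] : Fin 5 → R) (σ i) = Exc_u (σ.symm 4) x y i := by
  have h1 : ∀ k : Fin 5, (![x, x, x, x, y] : Fin 5 → R) k = if k = 4 then y else x := by
    intro k
    fin_cases k <;> rfl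
  rw [h1]
  unfold Exc_u
  simp only [Equiv.eq_symm_apply]

theorem thm_Exc (hB : St_Idb) (hI : St_Idc) : St_Exc := by
  intro R _ hN φ hφ
  obtain ⟨c, hc⟩ := hφ
  constructor
  · intro x y
    rw [hc]
    refine Finset.sum_eq_zero fun σ _ => ?_
    rw [Exc_wp]
    simp only [Exc_arg']
    rw [Exc_one hB hN, smul_zero]
  · have h1 : ∀ σ : Equiv.Perm (Fin 5), ∃ α : ℤ, ∀ x y : R,
        wp (List.ofFn fun i => (![x, x, x, y, y] : Fin 5 → R) (σ i)) =
          α • (x * x * y * x * y) := by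
      intro σ
      have hne : σ.symm 3 ≠ σ.symm 4 := by
        intro h
        exact absurd (σ.symm.injective h) (by decide)
      obtain ⟨α, h⟩ := Exc_word hI hN (σ.symm 3) (σ.symm 4) hne
      refine ⟨α, fun x y => ?_⟩
      rw [Exc_wp]
      simp only [Exc_arg]
      exact h x y
    choose α hα using h1
    refine ⟨∑ σ, c σ * α σ, fun x y => ?_⟩
    rw [hc, Finset.sum_smul]
    refine Finset.sum_congr rfl fun σ _ => ?_
    rw [hα, smul_smul]

end Pool.Agent.CRK
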