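import Pool.Agent.CRK.St

/-!
CRK, module Exd: the expansion of a multilinear function of degree 5 at `(x, x, x, y, z)`.
-/

set_option autoImplicit false

namespace Pool.Agent.CRK

open Pool.Agent.CRR Pool.Agent.CRN

variable {R : Type} [NonUnitalRing R]

/-- The word with `y` at position `p`, `z` at position `q` and `x` elsewhere. -/
private def Exd_v (p q : Fin 5) (x y z : R) (i : Fin 5) : R :=
  if i = p then y else if i = q then z else x

private theorem Exd_z0 (hN : N6 R) (y z x : R) : x * x * x * y * z = 0 := by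
  rw [hN.nz, zero_mul, zero_mul]

private theorem Exd_z1 (hN : N6 R) (y z x : R) : y * x * x * x * z = 0 := by
  have h : y * x * x * x = y * (x * x * x) := by simp only [mul_assoc]
  rw [h, hN.nz, mul_zero, zero_mul]

private theorem Exd_z2 (hN : N6 R) (y z x : R) : y * z * x * x * x = 0 := by
  have h : y * z * x * x * x = y * z * (x * x * x) := by simp only [mul_assoc]
  rw [h, hN.nz, mul_zero]

private theorem Exd_c0 {w T T' : R} (h : w = 0) : w = (0 : ℤ) • T + (0 : ℤ) • T' := by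
  rw [zero_smul, zero_smul, add_zero, h]

private theorem Exd_c1p {w T T' : R} (h : w = T) : w = (1 : ℤ) • T + (0 : ℤ) • T' := by
  rw [one_smul, zero_smul, add_zero, h]

private theorem Exd_c1m {w T T' : R} (h : w = -T) : w = (-1 : ℤ) • T + (0 : ℤ) • T' := by
  rw [neg_smul, one_smul, zero_smul, add_zero, h]

private theorem Exd_d1p {w T T' : R} (h : w = T') : w = (0 : ℤ) • T + (1 : ℤ) • T' := by
  rw [one_smul, zero_smul, zero_add, h]

private theorem Exd_d1m {w T T' : R} (h : w = -T') : w = (0 : ℤ) • T + (-1 : ℤ) • T' := by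
  rw [neg_smul, one_smul, zero_smul, zero_add, h]

private theorem Exd_word (hI : St_Idd) (hN : N6 R) : ∀ p q : Fin 5, p ≠ q →
    ∃ α β : ℤ, ∀ x y z : R,
      Exd_v p q x y z 0 * Exd_v p q x y z 1 * Exd_v p q x y z 2 * Exd_v p q x y z 3 *
        Exd_v p q x y z 4 = α • (x * x * y * x * z) + β • (x * x * z * x * y)
  | 0, 0, h => absurd rfl h
  | 0, 1, _ => ⟨0, 0, fun x y z => Exd_c0 (w := y * z * x * x * x) (Exd_z2 hN _ _ x)⟩
  | 0, 2, _ => ⟨-1, 0, fun x y z => Exd_c1m (w := y * x * z * x * x) ((hI R hN x y z).2.2.2.2.2)⟩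
  | 0, 3, _ => ⟨1, 0, fun x y z => Exd_c1p (w := y * x * x * z * x) ((hI R hN x y z).2.2.2.2.1)⟩
  | 0, 4, _ => ⟨0, 0, fun x y z => Exd_c0 (w := y * x * x * x * z) (Exd_z1 hN _ _ x)⟩
  | 1, 0, _ => ⟨0, 0, fun x y z => Exd_c0 (w := z * y * x * x * x) (Exd_z2 hN _ _ x)⟩
  | 1, 1, h => absurd rfl h
  | 1, 2, _ => ⟨1, 0, fun x y z => Exd_c1p (w := x * y * z * x * x) ((hI R hN x y z).2.2.2.1)⟩
  | 1, 3, _ => ⟨0, 0, fun x y z => Exd_c0 (w := x * y * x * z * x) ((hI R hN x y z).2.1)⟩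
  | 1, 4, _ => ⟨-1, 0, fun x y z => Exd_c1m (w := x * y * x * x * z) ((hI R hN x y z).1)⟩
  | 2, 0, _ => ⟨0, -1, fun x y z => Exd_d1m (w := z * x * y * x * x) ((hI R hN x z y).2.2.2.2.2)⟩
  | 2, 1, _ => ⟨0, 1, fun x y z => Exd_d1p (w := x * z * y * x * x) ((hI R hN x z y).2.2.2.1)⟩
  | 2, 2, h => absurd rfl h
  | 2, 3, _ => ⟨-1, 0, fun x y z => Exd_c1m (w := x * x * y * z * x) ((hI R hN x y z).2.2.1)⟩
  | 2, 4, _ => ⟨1, 0, fun x y z => Exd_c1p (w := x * x * y * x * z) rfl⟩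
  | 3, 0, _ => ⟨0, 1, fun x y z => Exd_d1p (w := z * x * x * y * x) ((hI R hN x z y).2.2.2.2.1)⟩
  | 3, 1, _ => ⟨0, 0, fun x y z => Exd_c0 (w := x * z * x * y * x) ((hI R hN x z y).2.1)⟩
  | 3, 2, _ => ⟨0, -1, fun x y z => Exd_d1m (w := x * x * z * y * x) ((hI R hN x z y).2.2.1)⟩
  | 3, 3, h => absurd rfl h
  | 3, 4, _ => ⟨0, 0, fun x y z => Exd_c0 (w := x * x * x * y * z) (Exd_z0 hN _ _ x)⟩
  | 4, 0, _ => ⟨0, 0, fun x y z => Exd_c0 (w := z * x * x * x * y) (Exd_z1 hN _ _ x)⟩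
  | 4, 1, _ => ⟨0, -1, fun x y z => Exd_d1m (w := x * z * x * x * y) ((hI R hN x z y).1)⟩
  | 4, 2, _ => ⟨0, 1, fun x y z => Exd_d1p (w := x * x * z * x * y) rfl⟩
  | 4, 3, _ => ⟨0, 0, fun x y z => Exd_c0 (w := x * x * x * z * y) (Exd_z0 hN _ _ x)⟩
  | 4, 4, h => absurd rfl h

private theorem Exd_wp (w : Fin 5 → R) : wp (List.ofFn w) = w 0 * w 1 * w 2 * w 3 * w 4 := by
  have h : List.ofFn w = [w 0, w 1, w 2, w 3, w 4] := by
    simp only [List.ofFn_succ, List.ofFn_zero]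
    rfl
  rw [h]
  simp only [wp, mul_assoc]

private theorem Exd_arg (σ : Equiv.Perm (Fin 5)) (x y z : R) (i : Fin 5) :
    (![x, x, x, y, z] : Fin 5 → R) (σ i) = Exd_v (σ.symm 3) (σ.symm 4) x y z i := by
  have h1 : ∀ k : Fin 5, (![x, x, x, y, z] : Fin 5 → R) k =
      if k = 3 then y else if k = 4 then z else x := by
    intro k
    fin_cases k <;> rfl
  rw [h1]
  unfold Exd_v
  simp only [Equiv.eq_symm_apply]

theorem thm_Exd (hI : St_Idd) : St_Exd := by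
  intro R _ hN φ hφ
  obtain ⟨c, hc⟩ := hφ
  have h1 : ∀ σ : Equiv.Perm (Fin 5), ∃ α β : ℤ, ∀ x y z : R,
      wp (List.ofFn fun i => (![x, x, x, y, z] : Fin 5 → R) (σ i)) =
        α • (x * x * y * x * z) + β • (x * x * z * x * y) := by
    intro σ
    have hne : σ.symm 3 ≠ σ.symm 4 := by
      intro h
      exact absurd (σ.symm.injective h) (by decide)
    obtain ⟨α, β, h⟩ := Exd_word hI hN (σ.symm 3) (σ.symm 4) hne
    refine ⟨α, β, fun x y z => ?_⟩
    rw [Exd_wp]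
    simp only [Exd_arg]
    exact h x y z
  choose α β hαβ using h1
  refine ⟨∑ σ, c σ * α σ, ∑ σ, c σ * β σ, fun x y z => ?_⟩
  rw [hc, Finset.sum_smul, Finset.sum_smul, ← Finset.sum_add_distrib]
  refine Finset.sum_congr rfl fun σ _ => ?_
  rw [hαβ, smul_add, smul_smul, smul_smul]

end Pool.Agent.CRK
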