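import Pool.Agent.CRK.HoaA

/-!
Campaign CRK: the values at `(x, x, y, y, z)` of a multilinear function of five arguments.
-/

set_option autoImplicit false

namespace Pool.Agent.CRK

open Pool.Agent.CRR Pool.Agent.CRN

section

variable {R : Type} [NonUnitalRing R]

theorem Exe_w5 (v : Fin 5 → R) : wp (List.ofFn v) = v 0 * v 1 * v 2 * v 3 * v 4 := by
  rw [Hoa_wp_ofFn_succ, Hoa_wp_ofFn_succ, Hoa_wp_ofFn_succ, Hoa_wp_ofFn_succ]
  simp only [← mul_assoc]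
  rfl

/-- The 30 words. -/
def Exe_list : List (Fin 5 → Fin 3) :=
  [![0, 0, 1, 1, 2],
   ![0, 1, 0, 1, 2],
   ![0, 1, 2, 0, 1],
   ![0, 1, 1, 0, 2],
   ![1, 0, 0, 1, 2],
   ![1, 0, 1, 0, 2],
   ![1, 1, 0, 0, 2],
   ![2, 0, 0, 1, 1],
   ![2, 0, 1, 0, 1],
   ![2, 0, 1, 1, 0],
   ![2, 1, 0, 0, 1],
   ![2, 1, 0, 1, 0],
   ![2, 1, 1, 0, 0],
   ![0, 0, 1, 2, 1],
   ![1, 1, 0, 2, 0],
   ![0, 1, 1, 2, 0],
   ![1, 0, 0, 2, 1],
   ![0, 1, 0, 2, 1],
   ![1, 0, 1, 2, 0],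
   ![0, 2, 0, 1, 1],
   ![1, 2, 1, 0, 0],
   ![0, 2, 1, 1, 0],
   ![1, 2, 0, 0, 1],
   ![0, 2, 1, 0, 1],
   ![1, 2, 0, 1, 0],
   ![0, 0, 2, 1, 1],
   ![1, 1, 2, 0, 0],
   ![0, 1, 2, 1, 0],
   ![1, 0, 2, 0, 1],
   ![1, 0, 2, 1, 0]]

theorem Exe_mem : ∀ w : Fin 5 → Fin 3, (Finset.univ.filter fun i => w i = 0).card = 2 →
    (Finset.univ.filter fun i => w i = 1).card = 2 → w ∈ Exe_list := by
  decide +kernel

end

theorem Exe_word (hIde : St_Ide) (R : Type) [NonUnitalRing R] (hR : N6 R) :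
    ∀ w ∈ Exe_list, ∃ a b c : ℤ, ∀ x y z : R,
    wp (List.ofFn fun i => ![x, y, z] (w i)) =
      a • (x * x * y * y * z) + b • (x * y * x * y * z) + c • (x * y * z * x * y) := by
  have H := fun x y z => hIde R hR x y z _ _ _ rfl rfl rfl
  refine List.forall_mem_cons.2 ⟨?_, ?_⟩
  · exact ⟨1, 0, 0, fun x y z => (Exe_w5 _).trans (by
      change x * x * y * y * z = _
      module)⟩
  refine List.forall_mem_cons.2 ⟨?_, ?_⟩
  · exact ⟨0, 1, 0, fun x y z => (Exe_w5 _).trans (by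
      change x * y * x * y * z = _
      module)⟩
  refine List.forall_mem_cons.2 ⟨?_, ?_⟩
  · exact ⟨0, 0, 1, fun x y z => (Exe_w5 _).trans (by
      change x * y * z * x * y = _
      module)⟩
  refine List.forall_mem_cons.2 ⟨?_, ?_⟩
  · exact ⟨-1, -1, 0, fun x y z => (Exe_w5 _).trans ((H x y z).1.1.trans (by module))⟩
  refine List.forall_mem_cons.2 ⟨?_, ?_⟩
  · exact ⟨-1, -1, 0, fun x y z => (Exe_w5 _).trans ((H x y z).1.2.1.trans (by module))⟩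
  refine List.forall_mem_cons.2 ⟨?_, ?_⟩
  · exact ⟨1, 0, 0, fun x y z => (Exe_w5 _).trans ((H x y z).1.2.2.1.trans (by module))⟩
  refine List.forall_mem_cons.2 ⟨?_, ?_⟩
  · exact ⟨0, 1, 0, fun x y z => (Exe_w5 _).trans ((H x y z).1.2.2.2.trans (by module))⟩
  refine List.forall_mem_cons.2 ⟨?_, ?_⟩
  · exact ⟨-1, 0, 1, fun x y z => (Exe_w5 _).trans ((H x y z).2.1.1.trans (by module))⟩
  refine List.forall_mem_cons.2 ⟨?_, ?_⟩
  · exact ⟨0, -1, -1, fun x y z => (Exe_w5 _).trans ((H x y z).2.1.2.1.trans (by module))⟩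
  refine List.forall_mem_cons.2 ⟨?_, ?_⟩
  · exact ⟨1, 1, 0, fun x y z => (Exe_w5 _).trans ((H x y z).2.1.2.2.1.trans (by module))⟩
  refine List.forall_mem_cons.2 ⟨?_, ?_⟩
  · exact ⟨1, 1, 0, fun x y z => (Exe_w5 _).trans ((H x y z).2.1.2.2.2.1.trans (by module))⟩
  refine List.forall_mem_cons.2 ⟨?_, ?_⟩
  · exact ⟨-1, 0, 1, fun x y z => (Exe_w5 _).trans ((H x y z).2.1.2.2.2.2.1.trans (by module))⟩
  refine List.forall_mem_cons.2 ⟨?_, ?_⟩
  · exact ⟨0, -1, -1, fun x y z => (Exe_w5 _).trans ((H x y z).2.1.2.2.2.2.2.trans (by module))⟩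
  refine List.forall_mem_cons.2 ⟨?_, ?_⟩
  · exact ⟨-1, 0, 0, fun x y z => (Exe_w5 _).trans ((H x y z).2.2.1.1.trans (by module))⟩
  refine List.forall_mem_cons.2 ⟨?_, ?_⟩
  · exact ⟨0, -1, 0, fun x y z => (Exe_w5 _).trans ((H x y z).2.2.1.2.1.trans (by module))⟩
  refine List.forall_mem_cons.2 ⟨?_, ?_⟩
  · exact ⟨-1, 0, 0, fun x y z => (Exe_w5 _).trans ((H x y z).2.2.1.2.2.1.trans (by module))⟩
  refine List.forall_mem_cons.2 ⟨?_, ?_⟩
  · exact ⟨0, -1, 0, fun x y z => (Exe_w5 _).trans ((H x y z).2.2.1.2.2.2.1.trans (by module))⟩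
  refine List.forall_mem_cons.2 ⟨?_, ?_⟩
  · exact ⟨1, 1, 0, fun x y z => (Exe_w5 _).trans ((H x y z).2.2.1.2.2.2.2.1.trans (by module))⟩
  refine List.forall_mem_cons.2 ⟨?_, ?_⟩
  · exact ⟨1, 1, 0, fun x y z => (Exe_w5 _).trans ((H x y z).2.2.1.2.2.2.2.2.trans (by module))⟩
  refine List.forall_mem_cons.2 ⟨?_, ?_⟩
  · exact ⟨1, 0, -1, fun x y z => (Exe_w5 _).trans ((H x y z).2.2.2.1.1.trans (by module))⟩
  refine List.forall_mem_cons.2 ⟨?_, ?_⟩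
  · exact ⟨0, 1, 1, fun x y z => (Exe_w5 _).trans ((H x y z).2.2.2.1.2.1.trans (by module))⟩
  refine List.forall_mem_cons.2 ⟨?_, ?_⟩
  · exact ⟨0, 1, 1, fun x y z => (Exe_w5 _).trans ((H x y z).2.2.2.1.2.2.1.trans (by module))⟩
  refine List.forall_mem_cons.2 ⟨?_, ?_⟩
  · exact ⟨1, 0, -1, fun x y z => (Exe_w5 _).trans ((H x y z).2.2.2.1.2.2.2.1.trans (by module))⟩
  refine List.forall_mem_cons.2 ⟨?_, ?_⟩
  · exact ⟨-1, -1, 0, fun x y z => (Exe_w5 _).trans ((H x y z).2.2.2.1.2.2.2.2.1.trans (by module))⟩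
  refine List.forall_mem_cons.2 ⟨?_, ?_⟩
  · exact ⟨-1, -1, 0, fun x y z => (Exe_w5 _).trans ((H x y z).2.2.2.1.2.2.2.2.2.trans (by module))⟩
  refine List.forall_mem_cons.2 ⟨?_, ?_⟩
  · exact ⟨0, 0, 0, fun x y z => (Exe_w5 _).trans ((H x y z).2.2.2.2.1.trans (by module))⟩
  refine List.forall_mem_cons.2 ⟨?_, ?_⟩
  · exact ⟨0, 0, 0, fun x y z => (Exe_w5 _).trans ((H x y z).2.2.2.2.2.1.trans (by module))⟩
  refine List.forall_mem_cons.2 ⟨?_, ?_⟩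
  · exact ⟨1, -1, -1, fun x y z => (Exe_w5 _).trans ((H x y z).2.2.2.2.2.2.1.trans (by module))⟩
  refine List.forall_mem_cons.2 ⟨?_, ?_⟩
  · exact ⟨-1, 1, 1, fun x y z => (Exe_w5 _).trans ((H x y z).2.2.2.2.2.2.2.1.trans (by module))⟩
  refine List.forall_mem_cons.2 ⟨?_, ?_⟩
  · exact ⟨0, 0, -1, fun x y z => (Exe_w5 _).trans ((H x y z).2.2.2.2.2.2.2.2.trans (by module))⟩
  simp

/-- [EXE]. -/
theorem thm_Exe (hIde : St_Ide) : St_Exe := by
  intro R _ hR φ hφ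
  obtain ⟨c, hc⟩ := hφ
  let q : Fin 5 → Fin 3 := ![0, 0, 1, 1, 2]
  have hcount : ∀ σ : Equiv.Perm (Fin 5), (fun i => q (σ i)) ∈ Exe_list := by
    intro σ
    refine Exe_mem _ ?_ ?_
    · rw [← Finset.card_map σ.toEmbedding, show (Finset.map σ.toEmbedding
        (Finset.univ.filter fun i => q (σ i) = 0)) = Finset.univ.filter fun i => q i = 0 from ?_]
      · decide
      · ext i
        simp only [Finset.mem_map, Finset.mem_filter, Finset.mem_univ, true_and,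
          Equiv.coe_toEmbedding]
        exact ⟨fun ⟨a, ha, h⟩ => h ▸ ha, fun h => ⟨σ.symm i, by simpa using h, by simp⟩⟩
    · rw [← Finset.card_map σ.toEmbedding, show (Finset.map σ.toEmbedding
        (Finset.univ.filter fun i => q (σ i) = 1)) = Finset.univ.filter fun i => q i = 1 from ?_]
      · decide
      · ext i
        simp only [Finset.mem_map, Finset.mem_filter, Finset.mem_univ, true_and,
          Equiv.coe_toEmbedding]
        exact ⟨fun ⟨a, ha, h⟩ => h ▸ ha, fun h => ⟨σ.symm i, by simpa using h, by simp⟩⟩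
  choose A B C h using fun σ => Exe_word hIde R hR _ (hcount σ)
  refine ⟨∑ σ, c σ * A σ, ∑ σ, c σ * B σ, ∑ σ, c σ * C σ, fun x y z => ?_⟩
  rw [hc, Finset.sum_smul, Finset.sum_smul, Finset.sum_smul, ← Finset.sum_add_distrib,
    ← Finset.sum_add_distrib]
  refine Finset.sum_congr rfl fun σ _ => ?_
  have e : (fun i => (![x, x, y, y, z] : Fin 5 → R) (σ i)) = fun i => ![x, y, z] (q (σ i)) := by
    have e' : (![x, x, y, y, z] : Fin 5 → R) = fun i => ![x, y, z] (q i) := by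
      ext i; fin_cases i <;> rfl
    rw [e']
  rw [e, h σ x y z, smul_add, smul_add, smul_smul, smul_smul, smul_smul]

end Pool.Agent.CRK
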