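import Pool.Agent.CRK.St
import Pool.Agent.CRN.Sir

/-!
Campaign CRK, module Fwm: critical nilpotent rings of order prime to 6 are of the type `MulType`.
-/

set_option autoImplicit false

namespace Pool.Agent.CRK

open Pool.Agent.CRR Pool.Agent.CRN

theorem Fwm_cop {R : Type} [NonUnitalRing R] [Finite R] {k : ℕ} (h : (Nat.card R).Coprime k)
    (x : R) (hx : (k : ℤ) • x = 0) : x = 0 := by
  have h1 : k • x = 0 := by rwa [natCast_zsmul] at hx
  have h2 := addOrderOf_dvd_of_nsmul_eq_zero h1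
  have h3 : addOrderOf x ∣ Nat.card R := addOrderOf_dvd_natCard x
  have h4 : addOrderOf x ∣ 1 := by
    rw [← h]
    exact Nat.dvd_gcd h3 h2
  exact AddMonoid.addOrderOf_eq_one_iff.1 (Nat.dvd_one.1 h4)

theorem thm_Fwm (hMlt : St_Mlt) (hBas : St_Bas) : St_Fwm := by
  intro R _ _ hnz hcop hC
  have hN : N6 R := ⟨hnz, fun x hx => Fwm_cop hcop x (by exact_mod_cast hx)⟩
  obtain ⟨H, hH⟩ := thm_Sir R hC
  obtain ⟨b, φ, hb1, hb5, hG⟩ := hMlt R hN hC H hH
  obtain ⟨g, hz, hF⟩ := hBas R H b φ hG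
  exact ⟨hnz, H, hH, b, g, φ, hb1, hb5, hG.ml, hz, hG.val, hG.sq, hF.van, hG.ne⟩

end Pool.Agent.CRK
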