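import Pool.Agent.CRK.Lib
import Pool.Agent.CRK.Fwm

/-!
Campaign CRK, module Fwn: critical nilpotent rings of order prime to 30 are of the type `NilType`.
-/

set_option autoImplicit false

namespace Pool.Agent.CRK

open Pool.Agent.CRR Pool.Agent.CRN

/-- A multilinear function which is zero if an argument is in `Sq R` depends only on the arguments
modulo `Sq R`. -/
theorem Fwn_mod {R : Type} [NonUnitalRing R] {b : ℕ} {φ : (Fin b → R) → R} (h : ML b φ)
    (hs : ∀ (x : Fin b → R) (i : Fin b), x i ∈ Sq R → φ x = 0) (x y : Fin b → R)
    (hxy : ∀ i, x i - y i ∈ Sq R) : φ x = φ y := by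
  have h1 : ∀ s : Finset (Fin b), φ (fun i => if i ∈ s then y i else x i) = φ x := by
    intro s
    induction s using Finset.induction_on with
    | empty => simp
    | insert k s hk ih =>
      rw [← ih]
      have h2 : ∀ z : R, (fun i => if i ∈ insert k s then (if i = k then z else y i) else x i) =
          Function.update (fun i => if i ∈ s then y i else x i) k z := by
        intro z
        funext i
        by_cases hi : i = k
        · subst hi
          simp
        · simp [hi]
      have h3 : (fun i => if i ∈ insert k s then y i else x i) =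
          Function.update (fun i => if i ∈ s then y i else x i) k (y k) := by
        rw [← h2]
        funext i
        by_cases hi : i = k
        · subst hi
          simp
        · simp [hi]
      have h4 : (fun i => if i ∈ s then y i else x i) =
          Function.update (fun i => if i ∈ s then y i else x i) k (x k) := by
        funext i
        by_cases hi : i = k
        · subst hi
          simp [hk]
        · simp [hi]
      have h5 := hs (Function.update (fun i => if i ∈ s then y i else x i) k (x k - y k)) k
        (by rw [Function.update_self]; exact hxy k)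
      rw [ML_sub h, sub_eq_zero] at h5
      rw [h3, ← h5, ← h4]
  have h2 := h1 Finset.univ
  rw [← h2]
  simp

theorem thm_Fwn (hMlt : St_Mlt) (hBas : St_Bas) (hCas : St_Cas) : St_Fwn := by
  intro R _ _ hnz hcop hC
  have hN : N6 R := ⟨hnz, fun x hx => Fwm_cop hcop x (by
    have h1 : ((30 : ℕ) : ℤ) • x = (5 : ℤ) • ((6 : ℤ) • x) := by
      rw [smul_smul]
      norm_num
    rw [h1, hx, smul_zero])⟩
  have hT : T5 R := fun x hx => Fwm_cop hcop x (by
    have h1 : ((30 : ℕ) : ℤ) • x = (6 : ℤ) • ((5 : ℤ) • x) := by
      rw [smul_smul]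
      norm_num
    rw [h1, hx, smul_zero])
  obtain ⟨H, hH⟩ := thm_Sir R hC
  obtain ⟨b, φ, hb1, hb5, hG⟩ := hMlt R hN hC H hH
  obtain ⟨g, hz, hF⟩ := hBas R H b φ hG
  obtain ⟨hg, f, N, i, hf, hfφ, hne⟩ := hCas R hN hT b g φ hb1 hb5 hF
  refine ⟨hnz, H, hH, g, f, hg, hf, hz, fun x => ?_, fun x y hxy => ?_, hne⟩
  · rw [hfφ]
    exact H.zsmul_mem (hG.val _) N
  · rw [hfφ, hfφ, Fwn_mod hG.ml hG.sq _ _ (fun t => hxy (i t))]

end Pool.Agent.CRK
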