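import Pool.Agent.CRK.St

/-!
Campaign CRK, module Gdb: a maximal separating term function is additive.
-/

set_option autoImplicit false

namespace Pool.Agent.CRK

open Pool.Agent.CRR Pool.Agent.CRN

theorem Gdb_comp {R : Type} [NonUnitalRing R] {φ : (ℕ → R) → R} (h : TmF φ)
    {u : ℕ → (ℕ → R) → R} (hu : ∀ i, TmF (u i)) : TmF (fun v => φ (fun i => u i v)) := by
  obtain ⟨t, ht⟩ := h
  have key : ∀ t : RTerm, ∃ t' : RTerm, ∀ v, t'.eval v = t.eval (fun i => u i v) := by
    intro t
    induction t with
    | var i =>
      obtain ⟨w, hw⟩ := hu i
      exact ⟨w, hw⟩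
    | add s t hs ht =>
      obtain ⟨s', hs'⟩ := hs
      obtain ⟨t', ht'⟩ := ht
      exact ⟨.add s' t', fun v => by simp [RTerm.eval, hs', ht']⟩
    | neg s hs =>
      obtain ⟨s', hs'⟩ := hs
      exact ⟨.neg s', fun v => by simp [RTerm.eval, hs']⟩
    | mul s t hs ht =>
      obtain ⟨s', hs'⟩ := hs
      obtain ⟨t', ht'⟩ := ht
      exact ⟨.mul s' t', fun v => by simp [RTerm.eval, hs', ht']⟩
  obtain ⟨t', ht'⟩ := key t
  exact ⟨t', fun v => by rw [ht', ht]⟩

theorem Gdb_upd {R : Type} [NonUnitalRing R] {φ F : (ℕ → R) → R} (h : TmF φ) (hF : TmF F) (i : ℕ) :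
    TmF (fun v => φ (Function.update v i (F v))) := by
  have h1 : TmF (fun v => φ (fun j => if j = i then F v else v j)) := by
    refine Gdb_comp (u := fun j v => if j = i then F v else v j) h fun j => ?_
    by_cases hj : j = i
    · simp only [hj, if_true]
      exact hF
    · simp only [hj, if_false]
      exact TmF.var j
  have h2 : (fun v => φ (Function.update v i (F v))) =
      fun v => φ (fun j => if j = i then F v else v j) := by
    funext v
    congr 1
    funext j
    rw [Function.update_apply]
  rw [h2]
  exact h1

theorem thm_Gdb : St_Gdb := by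
  intro R _ H m φ hφ hmax
  have hdep : ∀ (v w : ℕ → R) (i : ℕ) (z : R), (∀ j, j < m → j ≠ i → v j = w j) →
      φ (Function.update v i z) = φ (Function.update w i z) := by
    intro v w i z h
    refine hφ.dep _ _ fun j hj => ?_
    rw [Function.update_apply, Function.update_apply]
    by_cases hji : j = i
    · rw [if_pos hji, if_pos hji]
    · rw [if_neg hji, if_neg hji]
      exact h j hj hji
  have hz0 : ∀ (v : ℕ → R) (i : ℕ), i < m → φ (Function.update v i 0) = 0 := fun v i hi =>
    hφ.zer _ i hi (Function.update_self _ _ _)
  have hzj : ∀ (v : ℕ → R) (i j : ℕ) (z : R), j < m → j ≠ i → v j = 0 →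
      φ (Function.update v i z) = 0 := fun v i j z hj hji hv =>
    hφ.zer _ j hj (by rw [Function.update_of_ne hji, hv])
  have hvS : ∀ S : NonUnitalSubring R, S ≠ ⊤ → ∀ (v : ℕ → R) (i : ℕ) (z : R), (∀ j, v j ∈ S) →
      z ∈ S → φ (Function.update v i z) = 0 := by
    intro S hS v i z hv hz
    refine hφ.van S hS _ fun j => ?_
    rw [Function.update_apply]
    split_ifs
    · exact hz
    · exact hv j
  -- values at the special arguments
  have hw : ∀ (v : ℕ → R) (i : ℕ) (x y z : R), i < m →
      φ (Function.update (Function.update (Function.update v i x) m y) i z) =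
        φ (Function.update v i z) := by
    intro v i x y z hi
    refine hdep _ _ i z fun j hj hji => ?_
    rw [Function.update_of_ne (by omega), Function.update_of_ne hji]
  refine ⟨?_, ?_⟩
  · intro v i x y hi
    set ψ : (ℕ → R) → R := fun v => φ (Function.update v i (v i + v m)) -
      φ (Function.update v i (v i)) - φ (Function.update v i (v m)) with hψ
    have h0 : ∀ v, ψ v = 0 := by
      intro v₀
      by_contra hne
      refine hmax ψ ⟨?_, ?_, ?_, ?_, ?_, ⟨v₀, hne⟩⟩
      · exact ((Gdb_upd hφ.tm ((TmF.var i).add (TmF.var m)) i).sub
          (Gdb_upd hφ.tm (TmF.var i) i)).sub (Gdb_upd hφ.tm (TmF.var m) i)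
      · intro v v' h
        have h1 : ∀ z, φ (Function.update v i z) = φ (Function.update v' i z) := fun z =>
          hdep v v' i z fun j hj _ => h j (by omega)
        rw [hψ]
        beta_reduce
        rw [h i (by omega), h m (by omega), h1, h1, h1]
      · intro v j hj hv
        rw [hψ]
        beta_reduce
        by_cases hji : j = i
        · subst hji
          rw [hv, zero_add, hz0 v j hi]
          abel
        · by_cases hjm : j = m
          · subst hjm
            rw [hv, add_zero, hz0 v i hi]
            abel
          · have hj' : j < m := by omega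
            rw [hzj v i j _ hj' hji hv, hzj v i j _ hj' hji hv, hzj v i j _ hj' hji hv]
            abel
      · intro v
        exact H.sub_mem (H.sub_mem (hφ.val _) (hφ.val _)) (hφ.val _)
      · intro S hS v hv
        rw [hψ]
        beta_reduce
        rw [hvS S hS v i _ hv (S.add_mem (hv i) (hv m)), hvS S hS v i _ hv (hv i),
          hvS S hS v i _ hv (hv m)]
        abel
    have h1 := h0 (Function.update (Function.update v i x) m y)
    rw [hψ] at h1
    beta_reduce at h1
    have e1 : Function.update (Function.update v i x) m y i = x := by
      rw [Function.update_of_ne (by omega), Function.update_self]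
    have e2 : Function.update (Function.update v i x) m y m = y := Function.update_self _ _ _
    rw [e1, e2, hw v i x y _ hi, hw v i x y _ hi, hw v i x y _ hi] at h1
    rw [sub_sub, sub_eq_zero] at h1
    exact h1
  · intro v i x y hi
    set ψ : (ℕ → R) → R := fun v => φ (Function.update v i (v i * v m)) with hψ
    have h0 : ∀ v, ψ v = 0 := by
      intro v₀
      by_contra hne
      refine hmax ψ ⟨?_, ?_, ?_, ?_, ?_, ⟨v₀, hne⟩⟩
      · exact Gdb_upd hφ.tm ((TmF.var i).mul (TmF.var m)) i
      · intro v v' h
        have h1 : ∀ z, φ (Function.update v i z) = φ (Function.update v' i z) := fun z =>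
          hdep v v' i z fun j hj _ => h j (by omega)
        rw [hψ]
        beta_reduce
        rw [h i (by omega), h m (by omega), h1]
      · intro v j hj hv
        rw [hψ]
        beta_reduce
        by_cases hji : j = i
        · subst hji
          rw [hv, zero_mul, hz0 v j hi]
        · by_cases hjm : j = m
          · subst hjm
            rw [hv, mul_zero, hz0 v i hi]
          · have hj' : j < m := by omega
            rw [hzj v i j _ hj' hji hv]
      · intro v
        exact hφ.val _
      · intro S hS v hv
        rw [hψ]
        beta_reduce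
        rw [hvS S hS v i _ hv (S.mul_mem (hv i) (hv m))]
    have h1 := h0 (Function.update (Function.update v i x) m y)
    rw [hψ] at h1
    beta_reduce at h1
    have e1 : Function.update (Function.update v i x) m y i = x := by
      rw [Function.update_of_ne (by omega), Function.update_self]
    have e2 : Function.update (Function.update v i x) m y m = y := Function.update_self _ _ _
    rw [e1, e2, hw v i x y _ hi] at h1
    exact h1

end Pool.Agent.CRK
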