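import Pool.Agent.CRK.St

/-!
# CRK/Gdc (helper67): from combinations of words to multilinear functions
-/

set_option autoImplicit false

namespace Pool.Agent.CRK

open Pool.Agent.CRR Pool.Agent.CRN

/-- a word with exactly the letters `< m`, each once -/
theorem Gdc_word (m : ℕ) (w : List ℕ) (hn : w.Nodup) (hm : ∀ i, i ∈ w ↔ i < m) :
    ∃ σ : Equiv.Perm (Fin m), w = List.ofFn (fun i => ((σ i : Fin m) : ℕ)) := by
  have hperm : w.Perm (List.range m) :=
    (List.perm_ext_iff_of_nodup hn List.nodup_range).2 (by
      intro a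
      rw [hm, List.mem_range])
  have hlen : w.length = m := by rw [hperm.length_eq, List.length_range]
  subst hlen
  have hinj : Function.Injective
      (fun i : Fin w.length => (⟨w.get i, (hm _).1 (List.get_mem _ _)⟩ : Fin w.length)) := by
    intro i j hij
    have h1 : w.get i = w.get j := congrArg (fun z : Fin w.length => (z : ℕ)) hij
    exact (List.nodup_iff_injective_get.1 hn) h1
  refine ⟨Equiv.ofBijective _ (Finite.injective_iff_bijective.1 hinj), ?_⟩
  exact (List.ofFn_get w).symm

section

variable {R : Type} [NonUnitalRing R]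

theorem Gdc_wp_cons (x : R) {l : List R} (h : l ≠ []) : wp (x :: l) = x * wp l := by
  cases l with
  | nil => exact absurd rfl h
  | cons y l => rfl

/-- words with four equal letters -/
theorem Gdc_four (hN : N6 R) (hIdb : St_Idb) (hSxb : St_Sxb) (v : ℕ → R) (j : ℕ) (w : List ℕ)
    (h : 4 ≤ w.count j) : wp (w.map v) = 0 := by
  by_cases h6 : 6 ≤ w.length
  · exact hSxb R hN _ (by rwa [List.length_map])
  have hlen := List.count_le_length (a := j) (l := w)
  have hx : v j * (v j * v j) = 0 := by rw [← mul_assoc]; exact hN.nz (v j)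
  have hx3 : ∀ y : R, v j * (v j * (v j * y)) = 0 := by
    intro y
    rw [← mul_assoc, ← mul_assoc, hN.nz, zero_mul]
  have hx4 : ∀ y : R, v j * (v j * (y * (v j * v j))) = 0 := by
    intro y
    have := (hIdb R hN (v j) y).2.1
    rw [← this]
    simp only [mul_assoc]
  rcases w with _ | ⟨a, _ | ⟨b, _ | ⟨c, _ | ⟨d, _ | ⟨e, _ | ⟨f, l⟩⟩⟩⟩⟩⟩
  · simp at h
  · simp only [List.length_cons, List.length_nil] at hlen
    omega
  · simp only [List.length_cons, List.length_nil] at hlen
    omega
  · simp only [List.length_cons, List.length_nil] at hlen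
    omega
  · simp only [List.count_cons, List.count_nil, beq_iff_eq] at h
    simp only [List.map_cons, List.map_nil, wp]
    split_ifs at h with h1 h2 h3 h4 <;> first | omega | skip
    subst h1 h2 h3 h4
    rw [hx3]
  · simp only [List.count_cons, List.count_nil, beq_iff_eq] at h
    simp only [List.map_cons, List.map_nil, wp]
    by_cases h1 : a = j <;> by_cases h2 : b = j <;> by_cases h3 : c = j <;> by_cases h4 : d = j <;>
      by_cases h5 : e = j <;> simp only [h1, h2, h3, h4, h5, if_true, if_false] at h ⊢ <;>
      first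
        | omega
        | simp only [hx, hx3, hx4, mul_zero]
  · simp only [List.length_cons] at h6
    omega

/-- homogeneity of words -/
theorem Gdc_hom (v : ℕ → R) (j : ℕ) (k : ℤ) (w : List ℕ) :
    wp (w.map (Function.update v j (k • v j))) = k ^ (w.count j) • wp (w.map v) := by
  have hone : ∀ a : ℕ, Function.update v j (k • v j) a = k ^ (if a = j then 1 else 0) • v a := by
    intro a
    by_cases h : a = j
    · subst h
      rw [Function.update_self, if_pos rfl, pow_one]
    · rw [Function.update_of_ne h, if_neg h, pow_zero, one_smul]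
  induction w with
  | nil => simp [wp]
  | cons a l ih =>
    rcases l with _ | ⟨b, l⟩
    · simp only [List.map_cons, List.map_nil, wp]
      rw [hone, List.count_cons, List.count_nil]
      simp only [beq_iff_eq, zero_add]
    · have h1 : (List.map (Function.update v j (k • v j)) (b :: l)) ≠ [] := by simp
      have h2 : (List.map v (b :: l)) ≠ [] := by simp
      have h3 : List.count j (a :: b :: l) = List.count j (b :: l) + if a = j then 1 else 0 := by
        rw [List.count_cons]
        simp only [beq_iff_eq]
      rw [List.map_cons, Gdc_wp_cons _ h1, ih, List.map_cons (l := b :: l), Gdc_wp_cons _ h2, hone,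
        h3, smul_mul_assoc, mul_smul_comm, smul_smul, ← pow_add, add_comm]

/-- the part of degree `d` in the letter `j` -/
def Gdc_A (j d : ℕ) (L : List (ℤ × List ℕ)) (v : ℕ → R) : R :=
  (L.map fun p => if p.2.count j = d then p.1 • wp (p.2.map v) else 0).sum

theorem Gdc_ev_hom (hN : N6 R) (hIdb : St_Idb) (hSxb : St_Sxb) (v : ℕ → R) (j : ℕ) (k : ℤ)
    (L : List (ℤ × List ℕ)) (hL : ∀ p ∈ L, j ∈ p.2) :
    ev L (Function.update v j (k • v j)) =
      k • Gdc_A j 1 L v + k ^ 2 • Gdc_A j 2 L v + k ^ 3 • Gdc_A j 3 L v := by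
  induction L with
  | nil => simp [ev, Gdc_A]
  | cons p L ih =>
    have ih' := ih fun q hq => hL q (List.mem_cons_of_mem _ hq)
    unfold ev at ih'
    unfold ev
    rw [List.map_cons, List.sum_cons, ih', Gdc_hom]
    unfold Gdc_A
    simp only [List.map_cons, List.sum_cons]
    have hp : 1 ≤ p.2.count j := List.one_le_count_iff.2 (hL p List.mem_cons_self)
    by_cases h4 : 4 ≤ p.2.count j
    · rw [Gdc_four hN hIdb hSxb v j p.2 h4]
      simp
    · obtain h1 | h1 | h1 : p.2.count j = 1 ∨ p.2.count j = 2 ∨ p.2.count j = 3 := by omega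
      · rw [h1]
        simp only [if_true, OfNat.one_ne_ofNat, if_false, zero_add, pow_one, smul_add]
        rw [smul_comm]
        abel
      · rw [h1]
        simp only [if_true, OfNat.ofNat_ne_one, Nat.reduceEqDiff, if_false, zero_add, smul_add]
        rw [smul_comm]
        abel
      · rw [h1]
        simp only [if_true, OfNat.ofNat_ne_one, Nat.reduceEqDiff, if_false, zero_add, smul_add]
        rw [smul_comm]
        abel

theorem Gdc_A_filter (j : ℕ) (L : List (ℤ × List ℕ)) (v : ℕ → R) :
    ev (L.filter fun p => decide (p.2.count j = 1)) v = Gdc_A j 1 L v := by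
  unfold ev Gdc_A
  induction L with
  | nil => rfl
  | cons p L ih =>
    rw [List.filter_cons, List.map_cons, List.sum_cons, ← ih]
    by_cases h : p.2.count j = 1
    · simp [h]
    · simp [h]

end

theorem thm_Gdc (hWrd : St_Wrd) (hIdb : St_Idb) (hSxb : St_Sxb) : St_Gdc := by
  intro R _ hN m φ htm hdep hzer hadt
  have htor : ∀ x : R, (6 : ℤ) • x = 0 → x = 0 := hN.tf
  have hclaim : ∀ j, j ≤ m → ∃ L : List (ℤ × List ℕ),
      (∀ p ∈ L, p.2 ≠ [] ∧ (∀ i, i ∈ p.2 ↔ i < m) ∧ ∀ i, i < j → p.2.count i = 1) ∧
      ∀ v, φ v = ev L v := by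
    intro j
    induction j with
    | zero =>
      intro _
      obtain ⟨L, h1, h2⟩ := hWrd R m φ htm hdep hzer
      exact ⟨L, fun p hp => ⟨(h1 p hp).1, (h1 p hp).2, fun i hi => absurd hi (Nat.not_lt_zero i)⟩,
        h2⟩
    | succ j ih =>
      intro hj
      obtain ⟨L, h1, h2⟩ := ih (by omega)
      have hjm : j < m := by omega
      have hmem : ∀ p ∈ L, j ∈ p.2 := fun p hp => ((h1 p hp).2.1 j).2 hjm
      have key : ∀ (v : ℕ → R) (k : ℤ), φ (Function.update v j (k • v j)) =
          k • Gdc_A j 1 L v + k ^ 2 • Gdc_A j 2 L v + k ^ 3 • Gdc_A j 3 L v := by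
        intro v k
        rw [h2]
        exact Gdc_ev_hom hN hIdb hSxb v j k L hmem
      refine ⟨L.filter fun p => decide (p.2.count j = 1), ?_, ?_⟩
      · intro p hp
        rw [List.mem_filter] at hp
        refine ⟨(h1 p hp.1).1, (h1 p hp.1).2.1, fun i hi => ?_⟩
        rcases Nat.lt_succ_iff_lt_or_eq.1 hi with h | h
        · exact (h1 p hp.1).2.2 i h
        · rw [h]
          exact of_decide_eq_true hp.2
      · intro v
        rw [Gdc_A_filter]
        have e1 := key v 1
        have e2 := key v (-1)
        have e3 := key v 2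
        rw [one_smul, Function.update_eq_self] at e1
        have a2 : φ (Function.update v j ((-1 : ℤ) • v j)) = -(φ v) := by
          have h3 := hadt v j (v j) ((-1 : ℤ) • v j) hjm
          rw [Function.update_eq_self, neg_smul, one_smul, add_neg_cancel,
            hzer _ j hjm (Function.update_self ..)] at h3
          rw [neg_smul, one_smul]
          exact (neg_eq_of_add_eq_zero_right h3.symm).symm
        have a3 : φ (Function.update v j ((2 : ℤ) • v j)) = φ v + φ v := by
          have h3 := hadt v j (v j) (v j) hjm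
          rw [Function.update_eq_self] at h3
          rw [two_smul]
          exact h3
        rw [a2] at e2
        rw [a3] at e3
        obtain ⟨A, hA⟩ : ∃ A, A = Gdc_A j 1 L v := ⟨_, rfl⟩
        obtain ⟨B, hB⟩ : ∃ B, B = Gdc_A j 2 L v := ⟨_, rfl⟩
        obtain ⟨C, hC⟩ : ∃ C, C = Gdc_A j 3 L v := ⟨_, rfl⟩
        rw [← hA, ← hB, ← hC] at e1 e2 e3
        rw [← hA]
        have b1 : B = 0 := by
          refine htor B ?_
          have h4 : (6 : ℤ) • B = (3 : ℤ) • (φ v + -(φ v)) := by
            nth_rewrite 1 [e1]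
            rw [e2]
            module
          rw [h4, add_neg_cancel, smul_zero]
        have c1 : C = 0 := by
          refine htor C ?_
          have h4 : (6 : ℤ) • C = (φ v + φ v) - (φ v + φ v) := by
            nth_rewrite 1 [e3]
            nth_rewrite 1 [e1]
            nth_rewrite 1 [e1]
            rw [b1]
            module
          rw [h4, sub_self]
        rw [e1, b1, c1]
        simp
  obtain ⟨L, h1, h2⟩ := hclaim m le_rfl
  have hfin : ∀ L : List (ℤ × List ℕ),
      (∀ p ∈ L, p.2 ≠ [] ∧ (∀ i, i ∈ p.2 ↔ i < m) ∧ ∀ i, i < m → p.2.count i = 1) →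
      ∃ c : Equiv.Perm (Fin m) → ℤ, ∀ v : ℕ → R,
        ev L v = ∑ σ, c σ • wp (List.ofFn fun i => v ((σ i : Fin m) : ℕ)) := by
    intro L
    induction L with
    | nil =>
      intro _
      refine ⟨fun _ => 0, fun v => ?_⟩
      simp [ev]
    | cons p L ih =>
      intro h
      obtain ⟨c, hc⟩ := ih fun q hq => h q (List.mem_cons_of_mem _ hq)
      obtain ⟨-, h4, h5⟩ := h p List.mem_cons_self
      have hnd : p.2.Nodup := by
        rw [List.nodup_iff_count_le_one]
        intro a
        by_cases ha : a < m
        · exact (h5 a ha).le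
        · rw [List.count_eq_zero_of_not_mem (fun h6 => ha ((h4 a).1 h6))]
          exact Nat.zero_le _
      obtain ⟨τ, hτ⟩ := Gdc_word m p.2 hnd h4
      refine ⟨fun σ => c σ + if σ = τ then p.1 else 0, fun v => ?_⟩
      have h6 : ev (p :: L) v = p.1 • wp (p.2.map v) + ev L v := by
        unfold ev
        rw [List.map_cons, List.sum_cons]
      rw [h6, hc v]
      simp only [add_smul, Finset.sum_add_distrib, ite_smul, zero_smul, Finset.sum_ite_eq',
        Finset.mem_univ, if_true]
      rw [add_comm]
      congr 1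
      rw [hτ, List.map_ofFn]
      rfl
  obtain ⟨c, hc⟩ := hfin L h1
  exact ⟨c, fun v => by rw [h2, hc]⟩

end Pool.Agent.CRK
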