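import Pool.Agent.CRK.St

/-!
# CRK, module HIG: the identity of Higman
-/

set_option autoImplicit false
set_option linter.unusedSimpArgs false

namespace Pool.Agent.CRK

theorem thm_Hig (hIda : St_Ida) : St_Hig := by
  intro R _ h
  obtain ⟨h2, h3, hp, hq⟩ := hIda R h
  have hc := h.nz
  have e1 : ∀ x y z : R, x * x * z * (y * y) = 0 := by
    intro x y z
    have key : (3 : ℤ) • (x * x * z * (y * y)) =
        0 - (x * x * (y * y) + x * (y * y) * x + (y * y) * x * x) * z + (x * x) * (y * y * z + y
        * z * y + z * y * y) - (x * x * y + x * y * x + y * x * x) * (z * y) + x * (y * y * (x *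
        z) + y * (x * z) * y + (x * z) * y * y) + (y * y * (x * x * z) + y * (x * x * z) * y +
        (x * x * z) * y * y) := by
      simp only [mul_add, add_mul, mul_sub, sub_mul, mul_neg, neg_mul, ← mul_assoc]
      abel
    refine h3 _ ?_
    rw [key]
    simp only [hq, mul_zero, zero_mul, smul_zero, add_zero, zero_add, sub_zero, sub_self]
  have e2 : ∀ a b z y : R, (a * b + b * a) * z * (y * y) = 0 := by
    intro a b z y
    have key : (a * b + b * a) * z * (y * y) =
        (a + b) * (a + b) * z * (y * y) - a * a * z * (y * y) - b * b * z * (y * y) := by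
      simp only [mul_add, add_mul, ← mul_assoc]
      abel
    rw [key, e1, e1, e1, sub_zero, sub_zero]
  have e3 : ∀ x z c d : R, x * x * z * (c * d + d * c) = 0 := by
    intro x z c d
    have key : x * x * z * (c * d + d * c) =
        x * x * z * ((c + d) * (c + d)) - x * x * z * (c * c) - x * x * z * (d * d) := by
      simp only [mul_add, add_mul, ← mul_assoc]
      abel
    rw [key, e1, e1, e1, sub_zero, sub_zero]
  refine ⟨e1, e2, e3, fun a b z c d => ?_⟩
  have key : (a * b + b * a) * z * (c * d + d * c) =
      (a * b + b * a) * z * ((c + d) * (c + d)) - (a * b + b * a) * z * (c * c) -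
        (a * b + b * a) * z * (d * d) := by
    simp only [mul_add, add_mul, ← mul_assoc]
    abel
  rw [key, e2, e2, e2, sub_zero, sub_zero]

end Pool.Agent.CRK
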