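import Pool.Agent.CRK.HoaA

/-!
Campaign CRK: `8 φ (x, x, y, z)` is a combination of alternating sums.
-/

set_option autoImplicit false

namespace Pool.Agent.CRK

open Pool.Agent.CRR Pool.Agent.CRN

section

variable {R : Type} [NonUnitalRing R]

omit [NonUnitalRing R] in
/-- The sum over the permutations of three elements. -/
theorem Hoa_sum3 {M : Type} [AddCommGroup M] (f : (Fin 3 → R) → M) (a b c : R) :
    ∑ π : Equiv.Perm (Fin 3), ((Equiv.Perm.sign π : ℤˣ) : ℤ) • f (fun k => ![a, b, c] (π k)) =
      f ![a, b, c] - f ![a, c, b] - f ![b, a, c] + f ![b, c, a] + f ![c, a, b] - f ![c, b, a] := by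
  have hu : (Finset.univ : Finset (Equiv.Perm (Fin 3))) = {1, Equiv.swap 1 2, Equiv.swap 0 1,
      finRotate 3, (finRotate 3).symm, Equiv.swap 0 2} := by decide
  rw [hu, Finset.sum_insert (by decide), Finset.sum_insert (by decide),
    Finset.sum_insert (by decide), Finset.sum_insert (by decide), Finset.sum_insert (by decide),
    Finset.sum_singleton]
  rw [show Equiv.Perm.sign (1 : Equiv.Perm (Fin 3)) = 1 from by decide,
    show Equiv.Perm.sign (Equiv.swap 1 2 : Equiv.Perm (Fin 3)) = -1 from by decide,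
    show Equiv.Perm.sign (Equiv.swap 0 1 : Equiv.Perm (Fin 3)) = -1 from by decide,
    show Equiv.Perm.sign (finRotate 3 : Equiv.Perm (Fin 3)) = 1 from by decide,
    show Equiv.Perm.sign ((finRotate 3).symm : Equiv.Perm (Fin 3)) = 1 from by decide,
    show Equiv.Perm.sign (Equiv.swap 0 2 : Equiv.Perm (Fin 3)) = -1 from by decide]
  have e1 : (fun k => ![a, b, c] ((1 : Equiv.Perm (Fin 3)) k)) = ![a, b, c] := rfl
  have e2 : (fun k => ![a, b, c] ((Equiv.swap 1 2 : Equiv.Perm (Fin 3)) k)) = ![a, c, b] := by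
    ext k; fin_cases k <;> rfl
  have e3 : (fun k => ![a, b, c] ((Equiv.swap 0 1 : Equiv.Perm (Fin 3)) k)) = ![b, a, c] := by
    ext k; fin_cases k <;> rfl
  have e4 : (fun k => ![a, b, c] ((finRotate 3 : Equiv.Perm (Fin 3)) k)) = ![b, c, a] := by
    ext k; fin_cases k <;> rfl
  have e5 : (fun k => ![a, b, c] (((finRotate 3).symm : Equiv.Perm (Fin 3)) k)) = ![c, a, b] := by
    ext k; fin_cases k <;> rfl
  have e6 : (fun k => ![a, b, c] ((Equiv.swap 0 2 : Equiv.Perm (Fin 3)) k)) = ![c, b, a] := by
    ext k; fin_cases k <;> rfl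
  rw [e1, e2, e3, e4, e5, e6]
  simp only [Units.val_one, Units.val_neg, one_smul, neg_smul]
  abel

/-- The core computation. -/
theorem Hoa_core {M : Type} [AddCommGroup M] (h6 : ∀ m : M, (6 : ℤ) • m = 0 → m = 0)
    (F : R → R → R → R → M)
    (h0 : ∀ a a' b c d, F (a + a') b c d = F a b c d + F a' b c d)
    (h1 : ∀ a b b' c d, F a (b + b') c d = F a b c d + F a b' c d)
    (h2 : ∀ a b c c' d, F a b (c + c') d = F a b c d + F a b c' d)
    (h3 : ∀ a b c d d', F a b c (d + d') = F a b c d + F a b c d')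
    (hv : ∀ (a : Fin 2 → R) (j : Fin 4 → Fin 2), F (a (j 0)) (a (j 1)) (a (j 2)) (a (j 3)) = 0)
    (x y z : R) :
    (8 : ℤ) • F x x y z =
      (F x x y z - F x x z y - F x y x z + F x y z x + F x z x y - F x z y x) +
      (F x x y z - F x x z y - F y x x z + F y x z x + F z x x y - F z x y x) := by
  have m2 : ∀ m : M, (2 : ℤ) • m = 0 → m = 0 := fun m hm => h6 m (by
    rw [show (6 : ℤ) = 3 * 2 by norm_num, mul_smul, hm, smul_zero])
  have v0000 : ∀ p q : R, F p p p p = 0 := fun p q => hv ![p, q] ![0, 0, 0, 0]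
  have v1 : ∀ p q : R, F p p p q = 0 := fun p q => hv ![p, q] ![0, 0, 0, 1]
  have v2 : ∀ p q : R, F p p q q = 0 := fun p q => hv ![p, q] ![0, 0, 1, 1]
  have v3 : ∀ p q : R, F p q q q = 0 := fun p q => hv ![p, q] ![0, 1, 1, 1]
  -- `B x a b b = 0`
  have hB : ∀ x a b : R, F x a b b + F a x b b = 0 := by
    intro x a b
    have e := v2 (x + a) b
    rw [h0, h1, h1, v2, v2, zero_add, add_zero] at e
    exact e
  have hBa : ∀ x a b c : R, F x a b c + F a x b c + (F x a c b + F a x c b) = 0 := by
    intro x a b c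
    have e := hB x a (b + c)
    simp only [h2, h3] at e
    have e1 := hB x a b
    have e2 := hB x a c
    linear_combination (norm := module) e - e1 - e2
  have hf : ∀ x b c : R, F x x b c + F x x c b = 0 := by
    intro x b c
    have e := v2 x (b + c)
    simp only [h2, h3] at e
    have e1 := v2 x b
    have e2 := v2 x c
    linear_combination (norm := module) e - e1 - e2
  have n0 : ∀ a b c d, F (-a) b c d = - F a b c d := by
    intro a b c d
    have e := h0 a (-a) b c d
    have e' := h0 0 0 b c d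
    rw [add_zero] at e'
    rw [add_neg_cancel] at e
    linear_combination (norm := module) - e - e'
  have n1 : ∀ a b c d, F a (-b) c d = - F a b c d := by
    intro a b c d
    have e := h1 a b (-b) c d
    have e' := h1 a 0 0 c d
    rw [add_zero] at e'
    rw [add_neg_cancel] at e
    linear_combination (norm := module) - e - e'
  have n2 : ∀ a b c d, F a b (-c) d = - F a b c d := by
    intro a b c d
    have e := h2 a b c (-c) d
    have e' := h2 a b 0 0 d
    rw [add_zero] at e'
    rw [add_neg_cancel] at e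
    linear_combination (norm := module) - e - e'
  have hc : ∀ x y z : R, F x x y z + (F x y x z + F y x x z) = 0 := by
    intro x y z
    refine m2 _ ?_
    have e1 := v1 (x + y) z
    have e2 := v1 (x + -y) z
    have e3 := v1 y z
    simp only [h0, h1, h2, n0, n1, n2, neg_neg] at e1 e2
    linear_combination (norm := module) e1 - e2 - (2 : ℤ) • e3

  have a2 := hBa x y x z
  have a3 := hBa x z x y
  have a4 := hc x y z
  have a5 := hc x z y
  have a6 := hf x y z
  linear_combination (norm := module) - a2 + a3 + (2 : ℤ) • a4 - (2 : ℤ) • a5 + (4 : ℤ) • a6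

/-- [HOA]. -/
theorem thm_Hoa : St_Hoa := by
  intro R _ hR φ hφ hvan
  obtain ⟨c0, hc0⟩ := Hoa_alt hφ 0
  obtain ⟨c1, hc1⟩ := Hoa_alt hφ 1
  refine ⟨fun j => c0 j + c1 j, fun x y z => ?_⟩
  simp only [add_smul, Finset.sum_add_distrib]
  rw [← hc0, ← hc1]
  rw [Hoa_sum3 (fun v => φ (Fin.insertNth 0 x v : Fin 4 → R)) x y z,
    Hoa_sum3 (fun v => φ (Fin.insertNth 1 x v : Fin 4 → R)) x y z]
  have i0 : ∀ a b c : R, (Fin.insertNth 0 x ![a, b, c] : Fin 4 → R) = ![x, a, b, c] := by
    intro a b c
    ext k; fin_cases k <;> rfl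
  have i1 : ∀ a b c : R, (Fin.insertNth 1 x ![a, b, c] : Fin 4 → R) = ![a, x, b, c] := by
    intro a b c
    ext k; fin_cases k <;> rfl
  simp only [i0, i1]
  refine Hoa_core hR.tf (fun a b c d => φ ![a, b, c, d]) ?_ ?_ ?_ ?_ ?_ x y z
  · intro a a' b c d
    have e := Hoa_ml_add hφ ![a, b, c, d] 0 a a'
    have u : ∀ w : R, Function.update ![a, b, c, d] 0 w = ![w, b, c, d] := fun w => by
      ext k; fin_cases k <;> rfl
    rw [u, u, u] at e
    exact e
  · intro a b b' c d
    have e := Hoa_ml_add hφ ![a, b, c, d] 1 b b'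
    have u : ∀ w : R, Function.update ![a, b, c, d] 1 w = ![a, w, c, d] := fun w => by
      ext k; fin_cases k <;> rfl
    rw [u, u, u] at e
    exact e
  · intro a b c c' d
    have e := Hoa_ml_add hφ ![a, b, c, d] 2 c c'
    have u : ∀ w : R, Function.update ![a, b, c, d] 2 w = ![a, b, w, d] := fun w => by
      ext k; fin_cases k <;> rfl
    rw [u, u, u] at e
    exact e
  · intro a b c d d'
    have e := Hoa_ml_add hφ ![a, b, c, d] 3 d d'
    have u : ∀ w : R, Function.update ![a, b, c, d] 3 w = ![a, b, c, w] := fun w => by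
      ext k; fin_cases k <;> rfl
    rw [u, u, u] at e
    exact e
  · intro a j
    have e := hvan a j
    have : (fun t => a (j t)) = ![a (j 0), a (j 1), a (j 2), a (j 3)] := by
      ext k; fin_cases k <;> rfl
    rw [this] at e
    exact e

end

end Pool.Agent.CRK
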