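import Pool.Agent.CRK.Alt

/-!
Campaign CRK, module Hob: multilinear functions of degree 5 which vanish if the arguments take at
most three values.
-/

set_option autoImplicit false

namespace Pool.Agent.CRK

open Pool.Agent.CRR Pool.Agent.CRN Finset

/-- the alternating sum of a word with one fixed letter -/
theorem Hob_word {n : ℕ} (σ : Equiv.Perm (Fin (n + 1))) :
    ∃ (j : Fin (n + 1)) (s : ℤ), ∀ (R : Type) [NonUnitalRing R] (x : R) (a : Fin n → R),
      ∑ π : Equiv.Perm (Fin n), ((Equiv.Perm.sign π : ℤˣ) : ℤ) •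
        wp (List.ofFn fun i => (Fin.cons x (fun t => a (π t)) : Fin (n + 1) → R) (σ i)) =
        s • Wi j x a := by
  have hρ : ∀ i : Fin n, σ ((σ.symm 0).succAbove i) ≠ 0 := by
    intro i h
    have h1 : (σ.symm 0).succAbove i = σ.symm 0 := by
      rw [← Equiv.symm_apply_apply σ ((σ.symm 0).succAbove i), h]
    exact Fin.succAbove_ne _ _ h1
  have hr : Function.Injective fun i : Fin n => (σ ((σ.symm 0).succAbove i)).pred (hρ i) := by
    intro i i' h
    have h1 := Fin.pred_inj.1 h
    exact Fin.succAbove_right_injective (σ.injective h1)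
  set ρ : Equiv.Perm (Fin n) := Equiv.ofBijective _ (Finite.injective_iff_bijective.1 hr) with hρdef
  have hρ2 : ∀ i, σ ((σ.symm 0).succAbove i) = (ρ i).succ := by
    intro i
    exact (Fin.succ_pred _ (hρ i)).symm
  refine ⟨σ.symm 0, ((Equiv.Perm.sign ρ : ℤˣ) : ℤ), ?_⟩
  intro R _ x a
  have key : ∀ π : Equiv.Perm (Fin n),
      (fun i => (Fin.cons x (fun t => a (π t)) : Fin (n + 1) → R) (σ i)) =
      (Fin.insertNth (σ.symm 0) x (fun i => a (π (ρ i))) : Fin (n + 1) → R) := by
    intro π
    rw [Fin.eq_insertNth_iff]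
    refine ⟨?_, ?_⟩
    · rw [Equiv.apply_symm_apply]
      rfl
    · funext i
      change (Fin.cons x (fun t => a (π t)) : Fin (n + 1) → R) (σ ((σ.symm 0).succAbove i)) = _
      rw [hρ2]
      rfl
  unfold Wi
  rw [Finset.smul_sum]
  symm
  rw [← Equiv.sum_comp (Equiv.mulRight ρ)]
  refine Finset.sum_congr rfl fun π _ => ?_
  rw [key, Equiv.coe_mulRight, smul_smul]
  have h5 : ((Equiv.Perm.sign ρ : ℤˣ) : ℤ) * ((Equiv.Perm.sign (π * ρ) : ℤˣ) : ℤ) =
      ((Equiv.Perm.sign π : ℤˣ) : ℤ) := by
    rw [Equiv.Perm.sign_mul]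
    rcases Int.units_eq_one_or (Equiv.Perm.sign ρ) with h5 | h5 <;> rw [h5] <;> simp
  rw [h5]
  rfl

/-- the alternating sum of a multilinear function with one fixed letter -/
theorem Hob_lin {R : Type} [NonUnitalRing R] {n : ℕ} (c : Equiv.Perm (Fin (n + 1)) → ℤ)
    (τ : Equiv.Perm (Fin (n + 1))) :
    ∃ d : Fin (n + 1) → ℤ, ∀ (x : R) (a : Fin n → R),
      ∑ π : Equiv.Perm (Fin n), ((Equiv.Perm.sign π : ℤˣ) : ℤ) •
        ∑ σ, c σ • wp (List.ofFn fun i =>
          (Fin.cons x (fun t => a (π t)) : Fin (n + 1) → R) (τ (σ i))) =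
        ∑ j, d j • Wi j x a := by
  classical
  choose j s h using fun σ : Equiv.Perm (Fin (n + 1)) => Hob_word (τ * σ)
  refine ⟨fun l => ∑ σ, if j σ = l then c σ * s σ else 0, fun x a => ?_⟩
  have h1 : ∀ π ∈ (univ : Finset (Equiv.Perm (Fin n))), ((Equiv.Perm.sign π : ℤˣ) : ℤ) •
        ∑ σ, c σ • wp (List.ofFn fun i =>
          (Fin.cons x (fun t => a (π t)) : Fin (n + 1) → R) (τ (σ i))) =
        ∑ σ, c σ • (((Equiv.Perm.sign π : ℤˣ) : ℤ) • wp (List.ofFn fun i =>
          (Fin.cons x (fun t => a (π t)) : Fin (n + 1) → R) ((τ * σ) i))) := by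
    intro π _
    rw [Finset.smul_sum]
    exact Finset.sum_congr rfl fun σ _ => smul_comm _ _ _
  rw [Finset.sum_congr rfl h1, Finset.sum_comm]
  have h2 : ∀ σ ∈ (univ : Finset (Equiv.Perm (Fin (n + 1)))),
      ∑ π : Equiv.Perm (Fin n), c σ • (((Equiv.Perm.sign π : ℤˣ) : ℤ) • wp (List.ofFn fun i =>
          (Fin.cons x (fun t => a (π t)) : Fin (n + 1) → R) ((τ * σ) i))) =
      ∑ l, (if j σ = l then c σ * s σ else 0) • Wi l x a := by
    intro σ _
    rw [← Finset.smul_sum, h σ R x a, smul_smul]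
    simp only [ite_smul, zero_smul]
    rw [Finset.sum_ite_eq univ (j σ)]
    simp
  rw [Finset.sum_congr rfl h2, Finset.sum_comm]
  refine Finset.sum_congr rfl fun l _ => ?_
  rw [Finset.sum_smul]

theorem Hob_perm : ∀ π : Equiv.Perm (Fin 4), ((π 0, π 1, π 2, π 3, Equiv.Perm.sign π) :
    Fin 4 × Fin 4 × Fin 4 × Fin 4 × ℤˣ) ∈
    ([(0, 1, 2, 3, 1), (0, 2, 1, 3, -1), (0, 1, 3, 2, -1), (0, 3, 2, 1, -1), (0, 2, 3, 1, 1),
      (0, 3, 1, 2, 1), (1, 0, 2, 3, -1), (1, 2, 0, 3, 1), (1, 0, 3, 2, 1), (1, 3, 2, 0, 1),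
      (1, 2, 3, 0, -1), (1, 3, 0, 2, -1), (2, 0, 1, 3, 1), (2, 1, 0, 3, -1), (2, 0, 3, 1, -1),
      (2, 3, 1, 0, -1), (2, 1, 3, 0, 1), (2, 3, 0, 1, 1), (3, 0, 1, 2, -1), (3, 1, 0, 2, 1),
      (3, 0, 2, 1, 1), (3, 2, 1, 0, 1), (3, 1, 2, 0, -1), (3, 2, 0, 1, -1)] :
      List (Fin 4 × Fin 4 × Fin 4 × Fin 4 × ℤˣ)) := by
  decide

theorem Hob_cnt : ((univ : Finset (Equiv.Perm (Fin 4))).filter fun π => π 0 = 0).card = 6 := by
  decide

theorem Hob_cnt' : ((univ : Finset (Equiv.Perm (Fin 4))).filter fun π => ¬ π 0 = 0).card = 18 := by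
  decide

/-- the six orders of the last three arguments -/
theorem Hob_six {R : Type} [NonUnitalRing R] (B : R → R → R → R → R)
    (h1 : ∀ p q r s, B p q r s + B p r q s = 0) (h2 : ∀ p q r s, B p q r s + B p q s r = 0)
    (p q r s v : R) (h : B p q r s = v) :
    B p q r s = v ∧ B p r q s = -v ∧ B p q s r = -v ∧ B p s r q = -v ∧ B p r s q = v ∧
      B p s q r = v := by
  have e1 := h1 p q r s
  have e2 := h2 p q r s
  have e3 := h2 p r q s
  have e4 := h1 p q s r
  have e5 := h2 p s q r
  rw [h] at e1 e2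
  have f1 : B p r q s = -v := (neg_eq_of_add_eq_zero_right e1).symm
  have f2 : B p q s r = -v := (neg_eq_of_add_eq_zero_right e2).symm
  rw [f1] at e3
  rw [f2] at e4
  have f3 : B p r s q = v := by
    have := neg_eq_of_add_eq_zero_right e3
    rw [neg_neg] at this
    exact this.symm
  have f4 : B p s q r = v := by
    have := neg_eq_of_add_eq_zero_right e4
    rw [neg_neg] at this
    exact this.symm
  rw [f4] at e5
  exact ⟨h, f1, f2, (neg_eq_of_add_eq_zero_right e5).symm, f3, f4⟩

/-- `St_Hob`. -/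
theorem thm_Hob : St_Hob := by
  classical
  intro R _ hR φ hφ hv
  -- the function of five variables
  set F : R → R → R → R → R → R := fun a b c d e => φ ![a, b, c, d, e] with hF
  have A0 : ∀ a a' b c d e, F (a + a') b c d e = F a b c d e + F a' b c d e := by
    intro a a' b c d e
    have h := Alt_add hφ ![a, b, c, d, e] 0 a a'
    have h1 : ∀ z, Function.update ![a, b, c, d, e] 0 z = ![z, b, c, d, e] := by
      intro z; funext i; fin_cases i <;> rfl
    rw [h1, h1, h1] at h
    exact h
  have A1 : ∀ a b b' c d e, F a (b + b') c d e = F a b c d e + F a b' c d e := by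
    intro a b b' c d e
    have h := Alt_add hφ ![a, b, c, d, e] 1 b b'
    have h1 : ∀ z, Function.update ![a, b, c, d, e] 1 z = ![a, z, c, d, e] := by
      intro z; funext i; fin_cases i <;> rfl
    rw [h1, h1, h1] at h
    exact h
  have A2 : ∀ a b c c' d e, F a b (c + c') d e = F a b c d e + F a b c' d e := by
    intro a b c c' d e
    have h := Alt_add hφ ![a, b, c, d, e] 2 c c'
    have h1 : ∀ z, Function.update ![a, b, c, d, e] 2 z = ![a, b, z, d, e] := by
      intro z; funext i; fin_cases i <;> rfl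
    rw [h1, h1, h1] at h
    exact h
  have A3 : ∀ a b c d d' e, F a b c (d + d') e = F a b c d e + F a b c d' e := by
    intro a b c d d' e
    have h := Alt_add hφ ![a, b, c, d, e] 3 d d'
    have h1 : ∀ z, Function.update ![a, b, c, d, e] 3 z = ![a, b, c, z, e] := by
      intro z; funext i; fin_cases i <;> rfl
    rw [h1, h1, h1] at h
    exact h
  have A4 : ∀ a b c d e e', F a b c d (e + e') = F a b c d e + F a b c d e' := by
    intro a b c d e e'
    have h := Alt_add hφ ![a, b, c, d, e] 4 e e'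
    have h1 : ∀ z, Function.update ![a, b, c, d, e] 4 z = ![a, b, c, d, z] := by
      intro z; funext i; fin_cases i <;> rfl
    rw [h1, h1, h1] at h
    exact h
  have P1 : ∀ w b d, F w w b b d = 0 := by
    intro w b d
    have h := hv ![w, b, d] ![0, 0, 1, 1, 2]
    have h1 : (fun t => (![w, b, d] : Fin 3 → R) ((![0, 0, 1, 1, 2] : Fin 5 → Fin 3) t)) =
        ![w, w, b, b, d] := by
      funext i; fin_cases i <;> rfl
    rw [h1] at h
    exact h
  have P2 : ∀ w b d, F w w b d d = 0 := by
    intro w b d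
    have h := hv ![w, b, d] ![0, 0, 1, 2, 2]
    have h1 : (fun t => (![w, b, d] : Fin 3 → R) ((![0, 0, 1, 2, 2] : Fin 5 → Fin 3) t)) =
        ![w, w, b, d, d] := by
      funext i; fin_cases i <;> rfl
    rw [h1] at h
    exact h
  have P3 : ∀ w z u, F w w w z u = 0 := by
    intro w b d
    have h := hv ![w, b, d] ![0, 0, 0, 1, 2]
    have h1 : (fun t => (![w, b, d] : Fin 3 → R) ((![0, 0, 0, 1, 2] : Fin 5 → Fin 3) t)) =
        ![w, w, w, b, d] := by
      funext i; fin_cases i <;> rfl
    rw [h1] at h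
    exact h
  clear_value F
  -- the part of degree one
  have D1 : ∀ x y z u, F y x x z u + F x y x z u + F x x y z u = 0 := by
    intro x y z u
    have e1 := P3 (x + y) z u
    have e2 := P3 (x + y + y) z u
    simp only [A0, A1, A2, P3] at e1 e2
    have e3 : (2 : ℤ) • (F y y x z u + F y x y z u + F x y y z u) = 0 := by
      have e4 : (2 : ℤ) • (F y y x z u + F y x y z u + F x y y z u) =
        ((4 : ℤ) • (F y y x z u + F y x y z u + F x y y z u) +
          (2 : ℤ) • (F y x x z u + F x y x z u + F x x y z u)) -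
        (2 : ℤ) • ((F y y x z u + F y x y z u + F x y y z u) +
          (F y x x z u + F x y x z u + F x x y z u)) := by abel
      rw [e4]
      have e5 : (4 : ℤ) • (F y y x z u + F y x y z u + F x y y z u) +
          (2 : ℤ) • (F y x x z u + F x y x z u + F x x y z u) = 0 := by
        rw [← e2]; abel
      have e6 : (F y y x z u + F y x y z u + F x y y z u) +
          (F y x x z u + F x y x z u + F x x y z u) = 0 := by
        rw [← e1]; abel
      rw [e5, e6]
      simp
    have e7 : F y y x z u + F y x y z u + F x y y z u = 0 := by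
      apply hR.tf
      have : (6 : ℤ) • (F y y x z u + F y x y z u + F x y y z u) =
        (3 : ℤ) • ((2 : ℤ) • (F y y x z u + F y x y z u + F x y y z u)) := by
        rw [smul_smul]; norm_num
      rw [this, e3, smul_zero]
    have e8 : F y x x z u + F x y x z u + F x x y z u =
        ((F y y x z u + F y x y z u + F x y y z u) +
          (F y x x z u + F x y x z u + F x x y z u)) -
        (F y y x z u + F y x y z u + F x y y z u) := by abel
    rw [e8, e7, sub_zero]
    have e6 : (F y y x z u + F y x y z u + F x y y z u) +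
          (F y x x z u + F x y x z u + F x x y z u) = 0 := by
      rw [← e1]; abel
    rw [e7] at e6
    exact e6
  -- alternation
  have Q1 : ∀ x a b d, F x a b b d + F a x b b d = 0 := by
    intro x a b d
    have e1 := P1 (x + a) b d
    simp only [A0, A1, P1] at e1
    rw [← e1]; abel
  have Q2 : ∀ x a b d, F x a b d d + F a x b d d = 0 := by
    intro x a b d
    have e1 := P2 (x + a) b d
    simp only [A0, A1, P2] at e1
    rw [← e1]; abel
  have B1 : ∀ x p q r s, (F x p q r s + F p x q r s) + (F x p r q s + F p x r q s) = 0 := by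
    intro x p q r s
    have e1 := Q1 x p (q + r) s
    have e2 := Q1 x p q s
    have e3 := Q1 x p r s
    simp only [A2, A3] at e1
    have e4 : (F x p q r s + F p x q r s) + (F x p r q s + F p x r q s) =
        (F x p q q s + F x p q r s + (F x p r q s + F x p r r s) +
          (F p x q q s + F p x q r s + (F p x r q s + F p x r r s))) -
        (F x p q q s + F p x q q s) - (F x p r r s + F p x r r s) := by abel
    rw [e4, e1, e2, e3]
    simp
  have B2 : ∀ x p q r s, (F x p q r s + F p x q r s) + (F x p q s r + F p x q s r) = 0 := by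
    intro x p q r s
    have e1 := Q2 x p q (r + s)
    have e2 := Q2 x p q r
    have e3 := Q2 x p q s
    simp only [A3, A4] at e1
    have e4 : (F x p q r s + F p x q r s) + (F x p q s r + F p x q s r) =
        (F x p q r r + F x p q r s + (F x p q s r + F x p q s s) +
          (F p x q r r + F p x q r s + (F p x q s r + F p x q s s))) -
        (F x p q r r + F p x q r r) - (F x p q s s + F p x q s s) := by abel
    rw [e4, e1, e2, e3]
    simp
  have f1 : ∀ x q r s, F x x r q s = -F x x q r s := by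
    intro x q r s
    have e1 := P1 x (q + r) s
    simp only [A2, A3, P1] at e1
    have : F x x r q s + F x x q r s = 0 := by rw [← e1]; abel
    exact eq_neg_of_add_eq_zero_left this
  have f2 : ∀ x q r s, F x x q s r = -F x x q r s := by
    intro x q r s
    have e1 := P2 x q (r + s)
    simp only [A3, A4, P2] at e1
    have : F x x q s r + F x x q r s = 0 := by rw [← e1]; abel
    exact eq_neg_of_add_eq_zero_left this
  -- the combination
  obtain ⟨c, hc⟩ := hφ
  obtain ⟨d1, hd1⟩ := Hob_lin (R := R) c 1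
  obtain ⟨d2, hd2⟩ := Hob_lin (R := R) c (Equiv.swap 0 1)
  refine ⟨fun j => d1 j + d2 j, fun x y z u => ?_⟩
  simp only [add_smul, Finset.sum_add_distrib]
  rw [← hd1 x ![x, y, z, u], ← hd2 x ![x, y, z, u], ← Finset.sum_add_distrib]
  have hg : ∀ π ∈ (univ : Finset (Equiv.Perm (Fin 4))),
      ((Equiv.Perm.sign π : ℤˣ) : ℤ) • ∑ σ, c σ • wp (List.ofFn fun i =>
          (Fin.cons x (fun t => (![x, y, z, u] : Fin 4 → R) (π t)) : Fin 5 → R)
            ((1 : Equiv.Perm (Fin 5)) (σ i))) +
      ((Equiv.Perm.sign π : ℤˣ) : ℤ) • ∑ σ, c σ • wp (List.ofFn fun i =>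
          (Fin.cons x (fun t => (![x, y, z, u] : Fin 4 → R) (π t)) : Fin 5 → R)
            ((Equiv.swap 0 1 : Equiv.Perm (Fin 5)) (σ i))) =
      if π 0 = 0 then (2 : ℤ) • F x x y z u else F x x y z u := by
    intro π _
    have g1 : ∑ σ, c σ • wp (List.ofFn fun i =>
          (Fin.cons x (fun t => (![x, y, z, u] : Fin 4 → R) (π t)) : Fin 5 → R)
            ((1 : Equiv.Perm (Fin 5)) (σ i))) =
        F x ((![x, y, z, u] : Fin 4 → R) (π 0)) ((![x, y, z, u] : Fin 4 → R) (π 1))
          ((![x, y, z, u] : Fin 4 → R) (π 2)) ((![x, y, z, u] : Fin 4 → R) (π 3)) := by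
      rw [hF]
      simp only
      rw [hc]
      refine Finset.sum_congr rfl fun σ _ => ?_
      congr 3
      funext i
      generalize σ i = t
      fin_cases t <;> rfl
    have g2 : ∑ σ, c σ • wp (List.ofFn fun i =>
          (Fin.cons x (fun t => (![x, y, z, u] : Fin 4 → R) (π t)) : Fin 5 → R)
            ((Equiv.swap 0 1 : Equiv.Perm (Fin 5)) (σ i))) =
        F ((![x, y, z, u] : Fin 4 → R) (π 0)) x ((![x, y, z, u] : Fin 4 → R) (π 1))
          ((![x, y, z, u] : Fin 4 → R) (π 2)) ((![x, y, z, u] : Fin 4 → R) (π 3)) := by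
      rw [hF]
      simp only
      rw [hc]
      refine Finset.sum_congr rfl fun σ _ => ?_
      congr 3
      funext i
      generalize σ i = t
      fin_cases t <;> rfl
    rw [g1, g2, ← smul_add]
    have k0 := Hob_six (fun p q r s => F x p q r s + F p x q r s) (B1 x) (B2 x) x y z u
      ((2 : ℤ) • F x x y z u) (by simp only [two_smul])
    have k1 := Hob_six (fun p q r s => F x p q r s + F p x q r s) (B1 x) (B2 x) y x z u
      (-F x x y z u) (by
        have := D1 x y z u
        rw [← sub_eq_zero, ← this]; abel)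
    have k2 := Hob_six (fun p q r s => F x p q r s + F p x q r s) (B1 x) (B2 x) z x y u
      (F x x y z u) (by
        have := D1 x z y u
        rw [f1 x y z u] at this
        rw [← sub_eq_zero, ← this]; abel)
    have k3 := Hob_six (fun p q r s => F x p q r s + F p x q r s) (B1 x) (B2 x) u x y z
      (-F x x y z u) (by
        have := D1 x u y z
        rw [f1 x y u z, f2 x y z u, neg_neg] at this
        rw [← sub_eq_zero, ← this]; abel)
    obtain ⟨a1, a2, a3, a4, a5, a6⟩ := k0
    obtain ⟨b1, b2, b3, b4, b5, b6⟩ := k1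
    obtain ⟨c1, c2, c3, c4, c5, c6⟩ := k2
    obtain ⟨d1', d2', d3, d4, d5, d6⟩ := k3
    have hm := Hob_perm π
    simp only [List.mem_cons, List.not_mem_nil, or_false, Prod.mk.injEq] at hm
    rcases hm with h | h | h | h | h | h | h | h | h | h | h | h | h | h | h | h | h | h | h | h |
      h | h | h | h <;> obtain ⟨h0, h1, h2, h3, h4⟩ := h <;> rw [h0, h1, h2, h3, h4] <;>
      simp [a1, a2, a3, a4, a5, a6, b1, b2, b3, b4, b5, b6, c1, c2, c3, c4, c5, c6,
        d1', d2', d3, d4, d5, d6]
  rw [Finset.sum_congr rfl hg, Finset.sum_ite, Finset.sum_const, Finset.sum_const, Hob_cnt,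
    Hob_cnt']
  have hFx : φ ![x, x, y, z, u] = F x x y z u := by rw [hF]
  rw [hFx]
  abel

end Pool.Agent.CRK
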