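import Pool.Agent.CRK.St

/-!
# CRK, module IDA: the linearised identities `P a b c = 0` and `Q x y = 0`
-/

set_option autoImplicit false

namespace Pool.Agent.CRK

theorem thm_Ida : St_Ida := by
  intro R _ h
  have h2 : ∀ x : R, (2 : ℤ) • x = 0 → x = 0 := fun x hx => h.tf x (by
    rw [show (6 : ℤ) = 3 * 2 by norm_num, mul_smul, hx, smul_zero])
  have h3 : ∀ x : R, (3 : ℤ) • x = 0 → x = 0 := fun x hx => h.tf x (by
    rw [show (6 : ℤ) = 2 * 3 by norm_num, mul_smul, hx, smul_zero])
  have hP : ∀ a b c : R,
      a * b * c + a * c * b + b * a * c + b * c * a + c * a * b + c * b * a = 0 := by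
    intro a b c
    have key : a * b * c + a * c * b + b * a * c + b * c * a + c * a * b + c * b * a =
        (a + b + c) * (a + b + c) * (a + b + c) - (a + b) * (a + b) * (a + b)
          - (a + c) * (a + c) * (a + c) - (b + c) * (b + c) * (b + c)
          + a * a * a + b * b * b + c * c * c := by
      simp only [mul_add, add_mul]
      abel
    rw [key, h.nz, h.nz, h.nz, h.nz, h.nz, h.nz, h.nz]
    simp
  refine ⟨h2, h3, hP, fun x y => h2 _ ?_⟩
  have key : (2 : ℤ) • (x * x * y + x * y * x + y * x * x) =
      x * x * y + x * y * x + x * x * y + x * y * x + y * x * x + y * x * x := by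
    abel
  rw [key, hP]

end Pool.Agent.CRK
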