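import Pool.Agent.CRK.St

/-!
# CRK, module IDB: identities of degree four and five in two variables
-/

set_option autoImplicit false
set_option linter.unusedSimpArgs false

namespace Pool.Agent.CRK

theorem thm_Idb (hIda : St_Ida) : St_Idb := by
  intro R _ h x y
  obtain ⟨h2, h3, -, hq⟩ := hIda R h
  have hc := h.nz
  have e1 : x * y * x * x = -(x * x * y * x) := by
    have key : x * y * x * x - (-(x * x * y * x)) =
        0 - (x * x * x) * y + (x * x * (x * y) + x * (x * y) * x + (x * y) * x * x) := by
      simp only [mul_add, add_mul, mul_sub, sub_mul, mul_neg, neg_mul, ← mul_assoc]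
      abel
    rw [← sub_eq_zero, key]
    simp only [hq, hc, mul_zero, zero_mul, smul_zero, add_zero, zero_add, sub_zero, sub_self]
  have e2 : x * x * y * x * x = 0 := by
    have key : x * x * y * x * x =
        0 - (x * x * x) * (x * y) + (x * x * (x * x * y) + x * (x * x * y) * x + (x * x * y) * x
        * x) - (x * x * x) * (y * x) := by
      simp only [mul_add, add_mul, mul_sub, sub_mul, mul_neg, neg_mul, ← mul_assoc]
      abel
    rw [key]
    simp only [hc, hq, mul_zero, zero_mul, smul_zero, add_zero, zero_add, sub_zero, sub_self]
  have e3 : y * y * x * x = x * y * x * y := by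
    have key : y * y * x * x - (x * y * x * y) =
        (x * x * (y * y) + x * (y * y) * x + (y * y) * x * x) - x * (y * y * x + y * x * y + x *
        y * y) := by
      simp only [mul_add, add_mul, mul_sub, sub_mul, mul_neg, neg_mul, ← mul_assoc]
      abel
    rw [← sub_eq_zero, key]
    simp only [hq, mul_zero, zero_mul, smul_zero, add_zero, zero_add, sub_zero, sub_self]
  have e4 : y * x * y * x = x * x * y * y := by
    have key : y * x * y * x - (x * x * y * y) =
        0 - (x * x * (y * y) + x * (y * y) * x + (y * y) * x * x) + (y * y * x + y * x * y + x *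
        y * y) * x := by
      simp only [mul_add, add_mul, mul_sub, sub_mul, mul_neg, neg_mul, ← mul_assoc]
      abel
    rw [← sub_eq_zero, key]
    simp only [hq, mul_zero, zero_mul, smul_zero, add_zero, zero_add, sub_zero, sub_self]
  have e5 : x * y * y * x = -(x * x * y * y) - x * y * x * y := by
    have key : x * y * y * x - (-(x * x * y * y) - x * y * x * y) =
        x * (y * y * x + y * x * y + x * y * y) := by
      simp only [mul_add, add_mul, mul_sub, sub_mul, mul_neg, neg_mul, ← mul_assoc]
      abel
    rw [← sub_eq_zero, key]
    simp only [hq, mul_zero, zero_mul, smul_zero, add_zero, zero_add, sub_zero, sub_self]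
  have e6 : y * x * x * y = -(x * x * y * y) - x * y * x * y := by
    have key : y * x * x * y - (-(x * x * y * y) - x * y * x * y) =
        (x * x * y + x * y * x + y * x * x) * y := by
      simp only [mul_add, add_mul, mul_sub, sub_mul, mul_neg, neg_mul, ← mul_assoc]
      abel
    rw [← sub_eq_zero, key]
    simp only [hq, mul_zero, zero_mul, smul_zero, add_zero, zero_add, sub_zero, sub_self]
  exact ⟨e1, e2, e3, e4, e5, e6⟩

end Pool.Agent.CRK
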