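import Pool.Agent.CRK.St

/-!
Campaign CRK, module Idc: the words with three `x` and two `y`.
-/

set_option autoImplicit false

namespace Pool.Agent.CRK

open Pool.Agent.CRR Pool.Agent.CRN

theorem thm_Idc (hIdb : St_Idb) : St_Idc := by
  intro R _ hR x y
  obtain ⟨h1, -, h3, h4, h5, h6⟩ := hIdb R hR x y
  have hx : x * x * x = 0 := hR.nz x
  have e1 : x * y * x * x * y = -(x * x * y * x * y) := by
    rw [h1, neg_mul]
  have e2 : x * y * y * x * x = x * x * y * x * y := by
    have : x * y * y * x * x = x * (y * y * x * x) := by simp only [mul_assoc]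
    rw [this, h3]
    simp only [mul_assoc]
  have e3 : x * y * x * y * x = 0 := by
    have a1 : x * y * x * y * x = x * (y * x * y * x) := by simp only [mul_assoc]
    have a2 : x * (x * x * y * y) = (x * x * x) * y * y := by simp only [mul_assoc]
    rw [a1, h4, a2, hx, zero_mul, zero_mul]
  have e4 : x * x * y * y * x = -(x * x * y * x * y) := by
    have a1 : x * x * y * y * x = x * (x * y * y * x) := by simp only [mul_assoc]
    have a2 : x * (x * x * y * y) = (x * x * x) * y * y := by simp only [mul_assoc]
    have a3 : x * (x * y * x * y) = x * x * y * x * y := by simp only [mul_assoc]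
    rw [a1, h5, mul_sub, mul_neg, a2, hx, zero_mul, zero_mul, neg_zero, zero_sub, a3]
  have e5 : y * x * y * x * x = -(x * x * y * x * y) := by
    rw [h4, e4]
  have e6 : y * x * x * y * x = x * x * y * x * y := by
    rw [h6, sub_mul, neg_mul, e4, e3, neg_neg, sub_zero]
  exact ⟨e1, e2, e3, e4, e5, e6⟩

end Pool.Agent.CRK
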