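import Pool.Agent.CRK.St

/-!
# CRK, module IDD: identities of degree five with three equal letters
-/

set_option autoImplicit false
set_option linter.unusedSimpArgs false

namespace Pool.Agent.CRK

theorem thm_Idd (hIda : St_Ida) (_ : St_Idb) : St_Idd := by
  intro R _ h x y z
  obtain ⟨h2, h3, -, hq⟩ := hIda R h
  have hc := h.nz
  have e1 : x * y * x * x * z = -(x * x * y * x * z) := by
    have key : x * y * x * x * z - (-(x * x * y * x * z)) =
        0 - (x * x * x) * (y * z) + (x * x * (x * y) + x * (x * y) * x + (x * y) * x * x) * z := by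
      simp only [mul_add, add_mul, mul_sub, sub_mul, mul_neg, neg_mul, ← mul_assoc]
      abel
    rw [← sub_eq_zero, key]
    simp only [hq, hc, mul_zero, zero_mul, smul_zero, add_zero, zero_add, sub_zero, sub_self]
  have e2 : x * y * x * z * x = 0 := by
    have key : (3 : ℤ) • (x * y * x * z * x) =
        (3 : ℤ) • ((x * x * x) * (y * z)) - (2 : ℤ) • ((x * x * (x * y) + x * (x * y) * x + (x *
        y) * x * x) * z) - (x * x * (x * y * z) + x * (x * y * z) * x + (x * y * z) * x * x) +
        (x * x * y + x * y * x + y * x * x) * (x * z) + (x * x * (y * x * z) + x * (y * x * z) *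
        x + (y * x * z) * x * x) + (x * x * y + x * y * x + y * x * x) * (z * x) + (x * y) * (x
        * x * z + x * z * x + z * x * x) - y * (x * x * (x * z) + x * (x * z) * x + (x * z) * x
        * x) := by
      simp only [mul_add, add_mul, mul_sub, sub_mul, mul_neg, neg_mul, ← mul_assoc]
      abel
    refine h3 _ ?_
    rw [key]
    simp only [hq, hc, mul_zero, zero_mul, smul_zero, add_zero, zero_add, sub_zero, sub_self]
  have e3 : x * x * y * z * x = -(x * x * y * x * z) := by
    have key : (3 : ℤ) • (x * x * y * z * x - (-(x * x * y * x * z))) =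
        0 - (3 : ℤ) • ((x * x * x) * (y * z)) + (x * x * (x * y) + x * (x * y) * x + (x * y) * x
        * x) * z + (2 : ℤ) • ((x * x * (x * y * z) + x * (x * y * z) * x + (x * y * z) * x * x))
        + (x * x * y + x * y * x + y * x * x) * (x * z) + (x * x * (y * x * z) + x * (y * x * z)
        * x + (y * x * z) * x * x) + (x * x * y + x * y * x + y * x * x) * (z * x) - (2 : ℤ) •
        ((x * y) * (x * x * z + x * z * x + z * x * x)) - y * (x * x * (x * z) + x * (x * z) * x
        + (x * z) * x * x) := by
      simp only [mul_add, add_mul, mul_sub, sub_mul, mul_neg, neg_mul, ← mul_assoc]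
      abel
    refine sub_eq_zero.1 (h3 _ ?_)
    rw [key]
    simp only [hq, hc, mul_zero, zero_mul, smul_zero, add_zero, zero_add, sub_zero, sub_self]
  have e4 : x * y * z * x * x = x * x * y * x * z := by
    have key : (3 : ℤ) • (x * y * z * x * x - (x * x * y * x * z)) =
        0 - (x * x * (x * y) + x * (x * y) * x + (x * y) * x * x) * z + (x * x * (x * y * z) + x
        * (x * y * z) * x + (x * y * z) * x * x) - (x * x * y + x * y * x + y * x * x) * (x * z)
        - (x * x * (y * x * z) + x * (y * x * z) * x + (y * x * z) * x * x) - (x * x * y + x * y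
        * x + y * x * x) * (z * x) + (2 : ℤ) • ((x * y) * (x * x * z + x * z * x + z * x * x)) +
        y * (x * x * (x * z) + x * (x * z) * x + (x * z) * x * x) := by
      simp only [mul_add, add_mul, mul_sub, sub_mul, mul_neg, neg_mul, ← mul_assoc]
      abel
    refine sub_eq_zero.1 (h3 _ ?_)
    rw [key]
    simp only [hq, mul_zero, zero_mul, smul_zero, add_zero, zero_add, sub_zero, sub_self]
  have e5 : y * x * x * z * x = x * x * y * x * z := by
    have key : (3 : ℤ) • (y * x * x * z * x - (x * x * y * x * z)) =
        (x * x * (x * y) + x * (x * y) * x + (x * y) * x * x) * z - (x * x * (x * y * z) + x *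
        (x * y * z) * x + (x * y * z) * x * x) - (2 : ℤ) • ((x * x * y + x * y * x + y * x * x)
        * (x * z)) - (2 : ℤ) • ((x * x * (y * x * z) + x * (y * x * z) * x + (y * x * z) * x *
        x)) + (x * x * y + x * y * x + y * x * x) * (z * x) + (x * y) * (x * x * z + x * z * x +
        z * x * x) + (2 : ℤ) • (y * (x * x * (x * z) + x * (x * z) * x + (x * z) * x * x)) := by
      simp only [mul_add, add_mul, mul_sub, sub_mul, mul_neg, neg_mul, ← mul_assoc]
      abel
    refine sub_eq_zero.1 (h3 _ ?_)
    rw [key]
    simp only [hq, mul_zero, zero_mul, smul_zero, add_zero, zero_add, sub_zero, sub_self]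
  have e6 : y * x * z * x * x = -(x * x * y * x * z) := by
    have key : (3 : ℤ) • (y * x * z * x * x - (-(x * x * y * x * z))) =
        0 - (3 : ℤ) • ((x * x * x) * (y * z)) + (2 : ℤ) • ((x * x * (x * y) + x * (x * y) * x +
        (x * y) * x * x) * z) + (x * x * (x * y * z) + x * (x * y * z) * x + (x * y * z) * x *
        x) - (x * x * y + x * y * x + y * x * x) * (x * z) + (2 : ℤ) • ((x * x * (y * x * z) + x
        * (y * x * z) * x + (y * x * z) * x * x)) - (x * x * y + x * y * x + y * x * x) * (z *
        x) - (x * y) * (x * x * z + x * z * x + z * x * x) + y * (x * x * (x * z) + x * (x * z)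
        * x + (x * z) * x * x) := by
      simp only [mul_add, add_mul, mul_sub, sub_mul, mul_neg, neg_mul, ← mul_assoc]
      abel
    refine sub_eq_zero.1 (h3 _ ?_)
    rw [key]
    simp only [hq, hc, mul_zero, zero_mul, smul_zero, add_zero, zero_add, sub_zero, sub_self]
  exact ⟨e1, e2, e3, e4, e5, e6⟩

end Pool.Agent.CRK
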