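import Pool.Agent.CRK.St

/-!
# CRK, module IDE: the words with two `x`, two `y` and one `z`
-/

set_option autoImplicit false
set_option linter.unusedSimpArgs false

namespace Pool.Agent.CRK

theorem thm_Ide (hIda : St_Ida) (_ : St_Idb) (hHig : St_Hig) (hKan : St_Kan) : St_Ide := by
  rintro R _ h x y z u1 u2 u3 rfl rfl rfl
  obtain ⟨h2, h3, -, hq⟩ := hIda R h
  have hc := h.nz
  have hh := (hHig R h).1
  have hk : (x * x * y * y + y * y * x * x) * z + z * (x * x * y * y + y * y * x * x) = 0 := by
    rw [(hKan R h x y).1 z, neg_add_cancel]
  have e1 : x * y * y * x * z = -(x * x * y * y * z) - x * y * x * y * z := by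
    have key : x * y * y * x * z - (-(x * x * y * y * z) - x * y * x * y * z) =
        x * (y * y * x + y * x * y + x * y * y) * z := by
      simp only [mul_add, add_mul, mul_sub, sub_mul, mul_neg, neg_mul, ← mul_assoc]
      abel
    rw [← sub_eq_zero, key]
    simp only [hq, mul_zero, zero_mul, smul_zero, add_zero, zero_add, sub_zero, sub_self]
  have e2 : y * x * x * y * z = -(x * x * y * y * z) - x * y * x * y * z := by
    have key : y * x * x * y * z - (-(x * x * y * y * z) - x * y * x * y * z) =
        (x * x * y + x * y * x + y * x * x) * (y * z) := by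
      simp only [mul_add, add_mul, mul_sub, sub_mul, mul_neg, neg_mul, ← mul_assoc]
      abel
    rw [← sub_eq_zero, key]
    simp only [hq, mul_zero, zero_mul, smul_zero, add_zero, zero_add, sub_zero, sub_self]
  have e3 : y * x * y * x * z = x * x * y * y * z := by
    have key : y * x * y * x * z - (x * x * y * y * z) =
        y * (x * x * y + x * y * x + y * x * x) * z - (y * y * (x * x) + y * (x * x) * y + (x *
        x) * y * y) * z := by
      simp only [mul_add, add_mul, mul_sub, sub_mul, mul_neg, neg_mul, ← mul_assoc]
      abel
    rw [← sub_eq_zero, key]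
    simp only [hq, mul_zero, zero_mul, smul_zero, add_zero, zero_add, sub_zero, sub_self]
  have e4 : y * y * x * x * z = x * y * x * y * z := by
    have key : y * y * x * x * z - (x * y * x * y * z) =
        (x * x * (y * y) + x * (y * y) * x + (y * y) * x * x) * z - x * (y * y * x + y * x * y +
        x * y * y) * z := by
      simp only [mul_add, add_mul, mul_sub, sub_mul, mul_neg, neg_mul, ← mul_assoc]
      abel
    rw [← sub_eq_zero, key]
    simp only [hq, mul_zero, zero_mul, smul_zero, add_zero, zero_add, sub_zero, sub_self]
  have e5 : z * x * x * y * y = x * y * z * x * y - x * x * y * y * z := by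
    have key : z * x * x * y * y - (x * y * z * x * y - x * x * y * y * z) =
        (x * x) * (y * y * z + y * z * y + z * y * y) - (x * x * (y * z) + x * (y * z) * x + (y
        * z) * x * x) * y + (y * y * (z * x * x) + y * (z * x * x) * y + (z * x * x) * y * y) -
        (x * x * z * (y * y)) - (y * y * z * (x * x)) := by
      simp only [mul_add, add_mul, mul_sub, sub_mul, mul_neg, neg_mul, ← mul_assoc]
      abel
    rw [← sub_eq_zero, key]
    simp only [hh, hq, mul_zero, zero_mul, smul_zero, add_zero, zero_add, sub_zero, sub_self]
  have e6 : z * x * y * x * y = -(x * y * x * y * z) - x * y * z * x * y := by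
    have key : z * x * y * x * y - (-(x * y * x * y * z) - x * y * z * x * y) =
        ((x * y) * (x * y) * z + (x * y) * z * (x * y) + z * (x * y) * (x * y)) := by
      simp only [mul_add, add_mul, mul_sub, sub_mul, mul_neg, neg_mul, ← mul_assoc]
      abel
    rw [← sub_eq_zero, key]
    simp only [hq, mul_zero, zero_mul, smul_zero, add_zero, zero_add, sub_zero, sub_self]
  have e7 : z * x * y * y * x = x * x * y * y * z + x * y * x * y * z := by
    have key : z * x * y * y * x - (x * x * y * y * z + x * y * x * y * z) =
        (x * x * (y * y) + x * (y * y) * x + (y * y) * x * x) * z - x * (y * y * x + y * x * y +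
        x * y * y) * z + z * (x * x * (y * y) + x * (y * y) * x + (y * y) * x * x) - ((x * x * y
        * y + y * y * x * x) * z + z * (x * x * y * y + y * y * x * x)) := by
      simp only [mul_add, add_mul, mul_sub, sub_mul, mul_neg, neg_mul, ← mul_assoc]
      abel
    rw [← sub_eq_zero, key]
    simp only [hq, hk, mul_zero, zero_mul, smul_zero, add_zero, zero_add, sub_zero, sub_self]
  have e8 : z * y * x * x * y = x * x * y * y * z + x * y * x * y * z := by
    have key : z * y * x * x * y - (x * x * y * y * z + x * y * x * y * z) =
        (x * x * (y * y) + x * (y * y) * x + (y * y) * x * x) * z - x * (y * y * x + y * x * y +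
        x * y * y) * z + z * (y * y * (x * x) + y * (x * x) * y + (x * x) * y * y) - ((x * x * y
        * y + y * y * x * x) * z + z * (x * x * y * y + y * y * x * x)) := by
      simp only [mul_add, add_mul, mul_sub, sub_mul, mul_neg, neg_mul, ← mul_assoc]
      abel
    rw [← sub_eq_zero, key]
    simp only [hq, hk, mul_zero, zero_mul, smul_zero, add_zero, zero_add, sub_zero, sub_self]
  have e9 : z * y * x * y * x = x * y * z * x * y - x * x * y * y * z := by
    have key : z * y * x * y * x - (x * y * z * x * y - x * x * y * y * z) =
        (x * x) * (y * y * z + y * z * y + z * y * y) - (x * x * (y * z) + x * (y * z) * x + (y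
        * z) * x * x) * y + (y * y * (z * x * x) + y * (z * x * x) * y + (z * x * x) * y * y) +
        (z * y) * (x * x * y + x * y * x + y * x * x) - z * (y * y * (x * x) + y * (x * x) * y +
        (x * x) * y * y) - (x * x * z * (y * y)) - (y * y * z * (x * x)) := by
      simp only [mul_add, add_mul, mul_sub, sub_mul, mul_neg, neg_mul, ← mul_assoc]
      abel
    rw [← sub_eq_zero, key]
    simp only [hh, hq, mul_zero, zero_mul, smul_zero, add_zero, zero_add, sub_zero, sub_self]
  have e10 : z * y * y * x * x = -(x * y * x * y * z) - x * y * z * x * y := by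
    have key : z * y * y * x * x - (-(x * y * x * y * z) - x * y * z * x * y) =
        ((x * y) * (x * y) * z + (x * y) * z * (x * y) + z * (x * y) * (x * y)) - z * (x * x * y
        + x * y * x + y * x * x) * y + z * (y * y * (x * x) + y * (x * x) * y + (x * x) * y * y) := by
      simp only [mul_add, add_mul, mul_sub, sub_mul, mul_neg, neg_mul, ← mul_assoc]
      abel
    rw [← sub_eq_zero, key]
    simp only [hq, mul_zero, zero_mul, smul_zero, add_zero, zero_add, sub_zero, sub_self]
  have e11 : x * x * y * z * y = -(x * x * y * y * z) := by
    have key : x * x * y * z * y - (-(x * x * y * y * z)) =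
        (x * x) * (y * y * z + y * z * y + z * y * y) - (x * x * z * (y * y)) := by
      simp only [mul_add, add_mul, mul_sub, sub_mul, mul_neg, neg_mul, ← mul_assoc]
      abel
    rw [← sub_eq_zero, key]
    simp only [hh, hq, mul_zero, zero_mul, smul_zero, add_zero, zero_add, sub_zero, sub_self]
  have e12 : y * y * x * z * x = -(x * y * x * y * z) := by
    have key : y * y * x * z * x - (-(x * y * x * y * z)) =
        0 - (x * x * (y * y) + x * (y * y) * x + (y * y) * x * x) * z + x * (y * y * x + y * x *
        y + x * y * y) * z + (y * y) * (x * x * z + x * z * x + z * x * x) - (y * y * z * (x *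
        x)) := by
      simp only [mul_add, add_mul, mul_sub, sub_mul, mul_neg, neg_mul, ← mul_assoc]
      abel
    rw [← sub_eq_zero, key]
    simp only [hq, hh, mul_zero, zero_mul, smul_zero, add_zero, zero_add, sub_zero, sub_self]
  have e13 : x * y * y * z * x = -(x * x * y * y * z) := by
    have key : x * y * y * z * x - (-(x * x * y * y * z)) =
        (x * x * (y * y * z) + x * (y * y * z) * x + (y * y * z) * x * x) - (y * y * z * (x *
        x)) := by
      simp only [mul_add, add_mul, mul_sub, sub_mul, mul_neg, neg_mul, ← mul_assoc]
      abel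
    rw [← sub_eq_zero, key]
    simp only [hh, hq, mul_zero, zero_mul, smul_zero, add_zero, zero_add, sub_zero, sub_self]
  have e14 : y * x * x * z * y = -(x * y * x * y * z) := by
    have key : y * x * x * z * y - (-(x * y * x * y * z)) =
        0 - (x * x * (y * y) + x * (y * y) * x + (y * y) * x * x) * z + x * (y * y * x + y * x *
        y + x * y * y) * z + (y * y * (x * x * z) + y * (x * x * z) * y + (x * x * z) * y * y) -
        (x * x * z * (y * y)) := by
      simp only [mul_add, add_mul, mul_sub, sub_mul, mul_neg, neg_mul, ← mul_assoc]
      abel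
    rw [← sub_eq_zero, key]
    simp only [hq, hh, mul_zero, zero_mul, smul_zero, add_zero, zero_add, sub_zero, sub_self]
  have e15 : x * y * x * z * y = x * x * y * y * z + x * y * x * y * z := by
    have key : x * y * x * z * y - (x * x * y * y * z + x * y * x * y * z) =
        0 - x * (y * y * x + y * x * y + x * y * y) * z + x * (y * y * (x * z) + y * (x * z) * y
        + (x * z) * y * y) - (x * x * z * (y * y)) := by
      simp only [mul_add, add_mul, mul_sub, sub_mul, mul_neg, neg_mul, ← mul_assoc]
      abel
    rw [← sub_eq_zero, key]
    simp only [hh, hq, mul_zero, zero_mul, smul_zero, add_zero, zero_add, sub_zero, sub_self]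
  have e16 : y * x * y * z * x = x * x * y * y * z + x * y * x * y * z := by
    have key : y * x * y * z * x - (x * x * y * y * z + x * y * x * y * z) =
        0 - (x * x * y + x * y * x + y * x * x) * (y * z) + y * (x * x * (y * z) + x * (y * z) *
        x + (y * z) * x * x) - (y * y * z * (x * x)) := by
      simp only [mul_add, add_mul, mul_sub, sub_mul, mul_neg, neg_mul, ← mul_assoc]
      abel
    rw [← sub_eq_zero, key]
    simp only [hh, hq, mul_zero, zero_mul, smul_zero, add_zero, zero_add, sub_zero, sub_self]
  have e17 : x * z * x * y * y = x * x * y * y * z - x * y * z * x * y := by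
    have key : x * z * x * y * y - (x * x * y * y * z - x * y * z * x * y) =
        0 - (x * x * (y * y * z) + x * (y * y * z) * x + (y * y * z) * x * x) + x * (y * y * (z
        * x) + y * (z * x) * y + (z * x) * y * y) + (y * y * z * (x * x)) := by
      simp only [mul_add, add_mul, mul_sub, sub_mul, mul_neg, neg_mul, ← mul_assoc]
      abel
    rw [← sub_eq_zero, key]
    simp only [hq, hh, mul_zero, zero_mul, smul_zero, add_zero, zero_add, sub_zero, sub_self]
  have e18 : y * z * y * x * x = x * y * x * y * z + x * y * z * x * y := by
    have key : y * z * y * x * x - (x * y * x * y * z + x * y * z * x * y) =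
        0 - ((x * y) * (x * y) * z + (x * y) * z * (x * y) + z * (x * y) * (x * y)) + (y * y * z
        + y * z * y + z * y * y) * (x * x) + z * (x * x * y + x * y * x + y * x * x) * y - z *
        (y * y * (x * x) + y * (x * x) * y + (x * x) * y * y) - (y * y * z * (x * x)) := by
      simp only [mul_add, add_mul, mul_sub, sub_mul, mul_neg, neg_mul, ← mul_assoc]
      abel
    rw [← sub_eq_zero, key]
    simp only [hq, hh, mul_zero, zero_mul, smul_zero, add_zero, zero_add, sub_zero, sub_self]
  have e19 : x * z * y * y * x = x * y * x * y * z + x * y * z * x * y := by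
    have key : x * z * y * y * x - (x * y * x * y * z + x * y * z * x * y) =
        (x * x * (z * y * y) + x * (z * y * y) * x + (z * y * y) * x * x) - ((x * y) * (x * y) *
        z + (x * y) * z * (x * y) + z * (x * y) * (x * y)) + z * (x * x * y + x * y * x + y * x
        * x) * y - z * (y * y * (x * x) + y * (x * x) * y + (x * x) * y * y) - (x * x * z * (y *
        y)) := by
      simp only [mul_add, add_mul, mul_sub, sub_mul, mul_neg, neg_mul, ← mul_assoc]
      abel
    rw [← sub_eq_zero, key]
    simp only [hq, hh, mul_zero, zero_mul, smul_zero, add_zero, zero_add, sub_zero, sub_self]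
  have e20 : y * z * x * x * y = x * x * y * y * z - x * y * z * x * y := by
    have key : y * z * x * x * y - (x * x * y * y * z - x * y * z * x * y) =
        0 - (x * x) * (y * y * z + y * z * y + z * y * y) + (x * x * (y * z) + x * (y * z) * x +
        (y * z) * x * x) * y + (x * x * z * (y * y)) := by
      simp only [mul_add, add_mul, mul_sub, sub_mul, mul_neg, neg_mul, ← mul_assoc]
      abel
    rw [← sub_eq_zero, key]
    simp only [hq, hh, mul_zero, zero_mul, smul_zero, add_zero, zero_add, sub_zero, sub_self]
  have e21 : x * z * y * x * y = -(x * x * y * y * z) - x * y * x * y * z := by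
    have key : x * z * y * x * y - (-(x * x * y * y * z) - x * y * x * y * z) =
        0 - (x * x * (y * y) + x * (y * y) * x + (y * y) * x * x) * z + (x * x * (z * y) + x *
        (z * y) * x + (z * y) * x * x) * y + x * (y * y * x + y * x * y + x * y * y) * z - z *
        (y * y * (x * x) + y * (x * x) * y + (x * x) * y * y) - (x * x * z * (y * y)) + ((x * x
        * y * y + y * y * x * x) * z + z * (x * x * y * y + y * y * x * x)) := by
      simp only [mul_add, add_mul, mul_sub, sub_mul, mul_neg, neg_mul, ← mul_assoc]
      abel
    rw [← sub_eq_zero, key]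
    simp only [hq, hh, hk, mul_zero, zero_mul, smul_zero, add_zero, zero_add, sub_zero, sub_self]
  have e22 : y * z * x * y * x = -(x * x * y * y * z) - x * y * x * y * z := by
    have key : y * z * x * y * x - (-(x * x * y * y * z) - x * y * x * y * z) =
        0 - (x * x * (y * y) + x * (y * y) * x + (y * y) * x * x) * z + x * (y * y * x + y * x *
        y + x * y * y) * z + (y * y * (z * x) + y * (z * x) * y + (z * x) * y * y) * x - z * (x
        * x * (y * y) + x * (y * y) * x + (y * y) * x * x) - (y * y * z * (x * x)) + ((x * x * y
        * y + y * y * x * x) * z + z * (x * x * y * y + y * y * x * x)) := by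
      simp only [mul_add, add_mul, mul_sub, sub_mul, mul_neg, neg_mul, ← mul_assoc]
      abel
    rw [← sub_eq_zero, key]
    simp only [hq, hk, hh, mul_zero, zero_mul, smul_zero, add_zero, zero_add, sub_zero, sub_self]
  have e23 : x * x * z * y * y = 0 := by
    rw [mul_assoc (x * x * z)]
    exact hh x y z
  have e24 : y * y * z * x * x = 0 := by
    rw [mul_assoc (y * y * z)]
    exact hh y x z
  have e25 : x * y * z * y * x = x * x * y * y * z - x * y * x * y * z - x * y * z * x * y := by
    have key : x * y * z * y * x - (x * x * y * y * z - x * y * x * y * z - x * y * z * x * y) =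
        0 - (x * x) * (y * y * z + y * z * y + z * y * y) + (x * x * (y * z * y) + x * (y * z *
        y) * x + (y * z * y) * x * x) + ((x * y) * (x * y) * z + (x * y) * z * (x * y) + z * (x
        * y) * (x * y)) - (y * y * z + y * z * y + z * y * y) * (x * x) - z * (x * x * y + x * y
        * x + y * x * x) * y + z * (y * y * (x * x) + y * (x * x) * y + (x * x) * y * y) + (x *
        x * z * (y * y)) + (y * y * z * (x * x)) := by
      simp only [mul_add, add_mul, mul_sub, sub_mul, mul_neg, neg_mul, ← mul_assoc]
      abel
    rw [← sub_eq_zero, key]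
    simp only [hq, hh, mul_zero, zero_mul, smul_zero, add_zero, zero_add, sub_zero, sub_self]
  have e26 : y * x * z * x * y = x * y * x * y * z + x * y * z * x * y - x * x * y * y * z := by
    have key : y * x * z * x * y - (x * y * x * y * z + x * y * z * x * y - x * x * y * y * z) =
        (x * x * (y * y) + x * (y * y) * x + (y * y) * x * x) * z + (x * x) * (y * y * z + y * z
        * y + z * y * y) - (x * x * (y * z) + x * (y * z) * x + (y * z) * x * x) * y - x * (y *
        y * x + y * x * y + x * y * y) * z + y * (x * x * z + x * z * x + z * x * x) * y - (y *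
        y * (x * x * z) + y * (x * x * z) * y + (x * x * z) * y * y) := by
      simp only [mul_add, add_mul, mul_sub, sub_mul, mul_neg, neg_mul, ← mul_assoc]
      abel
    rw [← sub_eq_zero, key]
    simp only [hq, mul_zero, zero_mul, smul_zero, add_zero, zero_add, sub_zero, sub_self]
  have e27 : y * x * z * y * x = -(x * y * z * x * y) := by
    have key : y * x * z * y * x - (-(x * y * z * x * y)) =
        0 - (x * x) * (y * y * z + y * z * y + z * y * y) + (x * x * (y * z) + x * (y * z) * x +
        (y * z) * x * x) * y + y * (x * x * (z * y) + x * (z * y) * x + (z * y) * x * x) - (y *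
        y * (x * x * z) + y * (x * x * z) * y + (x * x * z) * y * y) - (y * y * z + y * z * y +
        z * y * y) * (x * x) - (y * y * (z * x * x) + y * (z * x * x) * y + (z * x * x) * y * y)
        + (2 : ℤ) • ((x * x * z * (y * y))) + (2 : ℤ) • ((y * y * z * (x * x))) + ((x * x * y *
        y + y * y * x * x) * z + z * (x * x * y * y + y * y * x * x)) := by
      simp only [mul_add, add_mul, mul_sub, sub_mul, mul_neg, neg_mul, ← mul_assoc]
      abel
    rw [← sub_eq_zero, key]
    simp only [hk, hq, hh, mul_zero, zero_mul, smul_zero, add_zero, zero_add, sub_zero, sub_self]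
  exact ⟨⟨e1, e2, e3, e4⟩, ⟨e5, e6, e7, e8, e9, e10⟩, ⟨e11, e12, e13, e14, e15, e16⟩,
    ⟨e17, e18, e19, e20, e21, e22⟩, ⟨e23, e24, e25, e26, e27⟩⟩

end Pool.Agent.CRK
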