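import Pool.Agent.CRK.St

/-!
# CRK, module KAN: the element `xxyy + yyxx`
-/

set_option autoImplicit false
set_option linter.unusedSimpArgs false

namespace Pool.Agent.CRK

private theorem Kan_gen {R : Type} [NonUnitalRing R] (h2 : ∀ x : R, (2 : ℤ) • x = 0 → x = 0)
    (k : R) (hk : ∀ z, k * z = -(z * k)) (a b : R) :
    a * b * k = 0 ∧ a * k * b = 0 ∧ k * a * b = 0 := by
  have s1 : k * a * b = a * b * k := by
    rw [hk a, neg_mul, mul_assoc, hk b, mul_neg, neg_neg, ← mul_assoc]
  have s2 : k * a * b = -(a * b * k) := by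
    rw [mul_assoc, hk (a * b)]
  have s3 : a * b * k = 0 := by
    apply h2
    have s4 : a * b * k = -(a * b * k) := by rw [← s2, s1]
    rw [two_zsmul]
    nth_rw 1 [s4]
    rw [neg_add_cancel]
  refine ⟨s3, ?_, by rw [s1, s3]⟩
  rw [mul_assoc, hk b, mul_neg, ← mul_assoc, s3, neg_zero]

theorem thm_Kan (hIda : St_Ida) (hHig : St_Hig) : St_Kan := by
  intro R _ h x y
  obtain ⟨h2, h3, -, hq⟩ := hIda R h
  have hc := h.nz
  have hh := (hHig R h).1
  have e1 : ∀ z : R, (x * x * y * y + y * y * x * x) * z = -(z * (x * x * y * y + y * y * x * x)) := by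
    intro z
    have key : (x * x * y * y + y * y * x * x) * z - (-(z * (x * x * y * y + y * y * x * x))) =
        (x * x * (z * y * y) + x * (z * y * y) * x + (z * y * y) * x * x) - y * (x * x * y + x *
        y * x + y * x * x) * z + ((y * x) * (y * x) * z + (y * x) * z * (y * x) + z * (y * x) *
        (y * x)) + (y * y * (x * x) + y * (x * x) * y + (x * x) * y * y) * z + (y * y) * (x * x
        * z + x * z * x + z * x * x) - (y * y * (x * z) + y * (x * z) * y + (x * z) * y * y) * x
        - (z * y) * (x * x * y + x * y * x + y * x * x) + z * (y * y * (x * x) + y * (x * x) * y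
        + (x * x) * y * y) - (x * x * z * (y * y)) - (y * y * z * (x * x)) := by
      simp only [mul_add, add_mul, mul_sub, sub_mul, mul_neg, neg_mul, ← mul_assoc]
      abel
    rw [← sub_eq_zero, key]
    simp only [hq, hh, mul_zero, zero_mul, smul_zero, add_zero, zero_add, sub_zero, sub_self]
  exact ⟨e1, Kan_gen h2 _ e1⟩

end Pool.Agent.CRK
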