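import Pool.Agent.CRK.St
import Pool.Agent.CRN.Jnl
import Pool.Agent.CRN.Nak

/-!
Campaign CRK, module Lin: the elements of a proper subring are combinations of fewer than `g` elements
modulo `R^2 + p R`.
-/

set_option autoImplicit false

namespace Pool.Agent.CRK

open Pool.Agent.CRR Pool.Agent.CRN

/-- The group `R^2 + p R`. -/
def LinN (R : Type) [NonUnitalRing R] (p : ℕ) : AddSubgroup R :=
  Sq R ⊔ (zsmulAddGroupHom (p : ℤ) : R →+ R).range

theorem Lin_mem {R : Type} [NonUnitalRing R] {p : ℕ} {x : R} :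
    x ∈ LinN R p ↔ ∃ y : R, x - (p : ℤ) • y ∈ Sq R := by
  unfold LinN
  rw [AddSubgroup.mem_sup]
  constructor
  · rintro ⟨s, hs, t, ⟨y, hy⟩, h⟩
    refine ⟨y, ?_⟩
    have h1 : (p : ℤ) • y = t := hy
    rw [← h, h1, add_sub_cancel_right]
    exact hs
  · rintro ⟨y, hy⟩
    exact ⟨_, hy, (p : ℤ) • y, ⟨y, rfl⟩, sub_add_cancel _ _⟩

theorem Lin_mul {R : Type} [NonUnitalRing R] {p : ℕ} (a b : R) : a * b ∈ LinN R p :=
  Lin_mem.2 ⟨0, by
    rw [smul_zero, sub_zero]
    exact AddSubgroup.subset_closure ⟨a, b, rfl⟩⟩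

theorem Lin_smul {R : Type} [NonUnitalRing R] {p : ℕ} (a : R) : p • a ∈ LinN R p :=
  Lin_mem.2 ⟨a, by
    rw [natCast_zsmul, sub_self]
    exact zero_mem _⟩

/-- Elements of `R^2 + p R` are in `fr S ⊤ p`. -/
theorem Lin_fr {R : Type} [NonUnitalRing R] {p : ℕ} (S : NonUnitalSubring R) {x : R}
    (hx : x ∈ LinN R p) : x ∈ fr S ⊤ p := by
  obtain ⟨y, hy⟩ := Lin_mem.1 hx
  have h1 : Sq R ≤ fr S ⊤ p := by
    unfold Sq
    rw [AddSubgroup.closure_le]
    rintro _ ⟨a, b, rfl⟩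
    exact AddSubgroup.subset_closure (Or.inl (Or.inr ⟨a, AddSubgroup.mem_top a, b,
      AddSubgroup.mem_top b, rfl⟩))
  have h2 : (p : ℤ) • y ∈ fr S ⊤ p :=
    AddSubgroup.subset_closure (Or.inr ⟨y, AddSubgroup.mem_top y, natCast_zsmul y p⟩)
  have h3 := add_mem (h1 hy) h2
  rwa [sub_add_cancel] at h3

theorem Lin_aux {R V : Type} [NonUnitalRing R] [Finite R] {p : ℕ} [Fact p.Prime]
    [AddCommGroup V] [Module (ZMod p) V] (π : R →+ V) (hπ : Function.Surjective π)
    (hk : ∀ x, π x = 0 ↔ x ∈ LinN R p) {g : ℕ}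
    {z : Fin g → R} (hz : NonUnitalSubring.closure (Set.range z) = ⊤) {S : NonUnitalSubring R}
    (hS : ∃ x, x ∉ fr S ⊤ p) :
    ∃ k, k < g ∧ ∃ a : Fin k → R, ∀ x ∈ S, ∃ (μ : Fin k → ℤ) (y : R),
    x - (∑ i, μ i • a i + (p : ℤ) • y) ∈ Sq R := by
  classical
  have hfin : Finite V := Finite.of_surjective π hπ
  have hfin' : Module.Finite (ZMod p) V := Module.Finite.of_finite
  -- the generators span
  have hspan : Submodule.span (ZMod p) (Set.range fun i => π (z i)) = ⊤ := by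
    rw [eq_top_iff]
    intro v _
    obtain ⟨x, rfl⟩ := hπ v
    have hx : x ∈ NonUnitalSubring.closure (Set.range z) := by
      rw [hz]
      exact trivial
    induction hx using NonUnitalSubring.closure_induction with
    | mem x hx =>
      obtain ⟨i, rfl⟩ := hx
      exact Submodule.subset_span ⟨i, rfl⟩
    | zero =>
      rw [map_zero]
      exact zero_mem _
    | add x y _ _ hx hy =>
      rw [map_add]
      exact add_mem (hx trivial) (hy trivial)
    | neg x _ hx =>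
      rw [map_neg]
      exact neg_mem (hx trivial)
    | mul x y _ _ _ _ =>
      rw [(hk (x * y)).2 (Lin_mul x y)]
      exact zero_mem _
  have hdim : Module.finrank (ZMod p) V ≤ g := by
    have h1 := finrank_range_le_card (R := ZMod p) (fun i => π (z i))
    rw [Set.finrank, hspan, finrank_top, Fintype.card_fin] at h1
    exact h1
  -- the classes of the elements of `S`
  obtain ⟨W, hWd⟩ : ∃ W : Submodule (ZMod p) V, W = Submodule.span (ZMod p) (π '' (S : Set R)) :=
    ⟨_, rfl⟩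
  have hWS : ∀ v ∈ W, ∃ s ∈ S, π s = v := by
    intro v hv
    rw [hWd] at hv
    induction hv using Submodule.span_induction with
    | mem v hv =>
      obtain ⟨s, hs, rfl⟩ := hv
      exact ⟨s, hs, rfl⟩
    | zero => exact ⟨0, zero_mem _, map_zero π⟩
    | add v w _ _ hv hw =>
      obtain ⟨s, hs, rfl⟩ := hv
      obtain ⟨t, ht, rfl⟩ := hw
      exact ⟨s + t, add_mem hs ht, map_add π s t⟩
    | smul c v _ hv =>
      obtain ⟨s, hs, rfl⟩ := hv
      obtain ⟨n, rfl⟩ := ZMod.intCast_surjective c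
      refine ⟨n • s, zsmul_mem hs n, ?_⟩
      rw [Int.cast_smul_eq_zsmul, map_zsmul]
  have hW : W < ⊤ := by
    rw [lt_top_iff_ne_top]
    intro htop
    obtain ⟨x, hx⟩ := hS
    obtain ⟨s, hs, hsx⟩ := hWS (π x) (by rw [htop]; trivial)
    refine hx ?_
    have h1 : x - s ∈ LinN R p := by
      rw [← hk, map_sub, hsx, sub_self]
    have h2 : s ∈ fr S ⊤ p :=
      AddSubgroup.subset_closure (Or.inl (Or.inl ⟨hs, AddSubgroup.mem_top s⟩))
    have h3 := add_mem (Lin_fr S h1) h2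
    rwa [sub_add_cancel] at h3
  have hlt := Submodule.finrank_lt hW.ne
  let b := Module.finBasis (ZMod p) W
  choose a ha using fun i => hπ (b i : V)
  refine ⟨Module.finrank (ZMod p) W, lt_of_lt_of_le hlt hdim, a, fun x hx => ?_⟩
  have hxW : π x ∈ W := by
    rw [hWd]
    exact Submodule.subset_span ⟨x, hx, rfl⟩
  have hrep := b.sum_repr ⟨π x, hxW⟩
  choose μ hμ using fun i => ZMod.intCast_surjective (b.repr ⟨π x, hxW⟩ i)
  have h1 : x - ∑ i, μ i • a i ∈ LinN R p := by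
    rw [← hk, map_sub, sub_eq_zero, map_sum]
    have h2 : (((∑ i, b.repr ⟨π x, hxW⟩ i • b i : W)) : V) = π x := congrArg Subtype.val hrep
    rw [← h2, AddSubmonoidClass.coe_finsetSum]
    refine Finset.sum_congr rfl fun i _ => ?_
    rw [map_zsmul, ha i, ← hμ i, Submodule.coe_smul, Int.cast_smul_eq_zsmul]
  obtain ⟨y, hy⟩ := Lin_mem.1 h1
  refine ⟨μ, y, ?_⟩
  rwa [← sub_sub]

theorem thm_Lin : St_Lin := by
  intro R _ _ hnil p r hp hpr g z hz S hS
  have : Fact p.Prime := ⟨hp⟩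
  have hp0 : ∀ x : R ⧸ LinN R p, p • x = 0 := by
    intro x
    obtain ⟨x, rfl⟩ := QuotientAddGroup.mk_surjective x
    rw [← QuotientAddGroup.mk_nsmul, QuotientAddGroup.eq_zero_iff]
    exact Lin_smul x
  let _ : Module (ZMod p) (R ⧸ LinN R p) := AddCommGroup.zmodModule hp0
  refine Lin_aux (QuotientAddGroup.mk' (LinN R p)) (QuotientAddGroup.mk'_surjective _)
    (fun x => QuotientAddGroup.eq_zero_iff x) hz ?_
  by_contra hcon
  push Not at hcon
  have hI : Idl R ⊤ := fun r x _ => ⟨AddSubgroup.mem_top _, AddSubgroup.mem_top _⟩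
  have h1 := thm_Jnl R ⊤ hI fun x _ => hnil x
  exact hS ((thm_Nak R ⊤ hI h1 p r hpr S fun x => ⟨0, zero_mem _, AddSubgroup.mem_top _⟩).2
    fun x _ => hcon x)

end Pool.Agent.CRK
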