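import Pool.Agent.CRK.St
import Pool.Agent.CRK.Fwm
import Pool.Agent.CRN.Pws

/-!
Campaign CRK, module Mai: the theorem from the other modules.
-/

set_option autoImplicit false

namespace Pool.Agent.CRK

open Pool.Agent.CRR Pool.Agent.CRN

theorem Mai_mat {R : Type} [NonUnitalRing R] (h : MatType R 1) : ∃ g : R, g * g = g ∧ g ≠ 0 := by
  obtain ⟨F, _, _, ⟨e⟩⟩ := h
  refine ⟨e.symm 1, by rw [← map_mul, mul_one], fun h0 => ?_⟩
  have h1 : (1 : Matrix (Fin 1) (Fin 1) F) = 0 := by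
    rw [← e.apply_symm_apply 1, h0, map_zero]
  exact one_ne_zero (congrFun (congrFun h1 0) 0)

theorem Mai_fam {R : Type} [NonUnitalRing R] {s : ℕ} {e : Fin s → R} (h : Fam R s e)
    (i : Fin s) : ∃ g : R, g * g = g ∧ g ≠ 0 :=
  ⟨e i, (h.fld i).1, (h.fld i).2.1⟩

theorem Mai_types {R : Type} [NonUnitalRing R]
    (h : MatType R 1 ∨ TyA R ∨ TyB R ∨ TyC R ∨ TyC Rᵐᵒᵖ ∨ TyD R) :
    ∃ g : R, g * g = g ∧ g ≠ 0 := by
  rcases h with h | ⟨_, s, e, i, j, z, hf, _⟩ | ⟨_, s, e, α, β, γ, z, z', hf, hab, _⟩ |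
    ⟨_, e, z, k, a, hf, _⟩ | ⟨_, e, z, k, a, hf, _⟩ | ⟨_, e, b, c, k, a, hf, _⟩
  · exact Mai_mat h
  · exact Mai_fam hf i
  · rcases α with _ | i
    · rcases β with _ | j
      · exact (hab rfl).elim
      · exact Mai_fam hf j
    · exact Mai_fam hf i
  · exact Mai_fam hf 0
  · obtain ⟨g, hg, hg0⟩ := Mai_fam hf 0
    refine ⟨g.unop, ?_, fun h0 => hg0 ?_⟩
    · rw [← MulOpposite.unop_mul, hg]
    · rw [← MulOpposite.op_unop g, h0, MulOpposite.op_zero]
  · exact Mai_fam hf 0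

theorem thm_Mai (hFwm : St_Fwm) (hFwn : St_Fwn) (hCvm : St_Cvm) (hCvn : St_Cvn) (hNab : St_Nab)
    (hAsm : CRN.St_Asm) : St_Mai := by
  intro n hn R _ _ hM hcop
  have hnil : (∀ g : R, g * g = g → g = 0) → (Critical R ↔ MulType R) := by
    intro h0
    have hnz : ∀ x : R, x * x * x = 0 := by
      intro x
      obtain ⟨h1, _, _, h4, _⟩ := thm_Pws n hn R hM x
      exact h4 (h0 _ h1)
    exact ⟨fun hc => hFwm R hnz hcop hc, fun h => hCvm R h⟩
  refine ⟨hnil, fun hev => ?_, fun h5 => ?_, fun hc => hNab n hn R hM hc⟩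
  · by_cases h0 : ∀ g : R, g * g = g → g = 0
    · rw [hnil h0]
      constructor
      · exact fun h => Or.inl h
      · rintro (h | h)
        · exact h
        · obtain ⟨g, hg, hg0⟩ := Mai_types h
          exact (hg0 (h0 g hg)).elim
    · push Not at h0
      obtain ⟨g, hg, hg0⟩ := h0
      obtain ⟨_, a2, a3⟩ := hAsm n hn R hM
      obtain ⟨hF, hT⟩ := a3 hev
      rw [a2 hT hF ⟨g, hg, hg0⟩]
      constructor
      · exact fun h => Or.inr h
      · rintro (h | h)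
        · exfalso
          apply hg0
          have h1 := h.1 g
          rwa [hg, hg] at h1
        · exact h
  · have h30 : (Nat.card R).Coprime 30 := by
      have : (30 : ℕ) = 6 * 5 := rfl
      rw [this]
      exact Nat.Coprime.mul_right hcop h5
    exact ⟨fun h => hFwn R h.1 h30 (hCvm R h), fun h => hFwm R h.1 hcop (hCvn R hcop h)⟩

end Pool.Agent.CRK
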