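import Pool.Agent.CRK.St

/-!
Campaign CRK, module Mlt: a critical ring has a multilinear function of at most five variables.
-/

set_option autoImplicit false

namespace Pool.Agent.CRK

open Pool.Agent.CRR Pool.Agent.CRN

/-- there are at most five variables -/
theorem Mlt_le (hWrd : St_Wrd) (hSxb : St_Sxb) {R : Type} [NonUnitalRing R] (hN : N6 R)
    (H : AddSubgroup R) (m : ℕ) (φ : (ℕ → R) → R) (h : Gd H m φ) : m ≤ 5 := by
  by_contra hm
  have hm6 : 6 ≤ m := by omega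
  obtain ⟨L, hL, hev⟩ := hWrd R m φ h.tm h.dep h.zer
  obtain ⟨v, hv⟩ := h.ne
  apply hv
  rw [hev]
  unfold ev
  have h0 : ∀ x ∈ L.map (fun p => p.1 • wp (p.2.map v)), x = 0 := by
    intro x hx
    obtain ⟨p, hp, rfl⟩ := List.mem_map.1 hx
    obtain ⟨_, hp2⟩ := hL p hp
    have h1 : Finset.range m ⊆ p.2.toFinset := by
      intro i hi
      rw [List.mem_toFinset]
      exact (hp2 i).2 (Finset.mem_range.1 hi)
    have h2 : m ≤ p.2.length := by
      have h3 := Finset.card_le_card h1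
      rw [Finset.card_range] at h3
      exact h3.trans (List.toFinset_card_le _)
    rw [hSxb R hN (p.2.map v) (by rw [List.length_map]; omega), smul_zero]
  exact List.sum_eq_zero h0

/-- the extension by zero -/
def Mlt_ext {R : Type} [NonUnitalRing R] (m : ℕ) (x : Fin m → R) : ℕ → R :=
  fun i => if h : i < m then x ⟨i, h⟩ else 0

theorem Mlt_ext_fin {R : Type} [NonUnitalRing R] (m : ℕ) (x : Fin m → R) (i : Fin m) :
    Mlt_ext m x (i : ℕ) = x i := by
  unfold Mlt_ext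
  rw [dif_pos i.isLt]

theorem thm_Mlt (hGda : St_Gda) (hGdb : St_Gdb) (hWrd : St_Wrd) (hGdc : St_Gdc)
    (hSxb : St_Sxb) : St_Mlt := by
  intro R _ hN hC H hH
  classical
  obtain ⟨m₀, φ₀, hm₀, hφ₀⟩ := hGda R hC H hH
  have hle : ∀ (m : ℕ) (φ : (ℕ → R) → R), Gd H m φ → m ≤ 5 := fun m φ h =>
    Mlt_le hWrd hSxb hN H m φ h
  obtain ⟨m, hm1, ⟨φ, hφ⟩, hmax⟩ : ∃ m, 1 ≤ m ∧ (∃ φ : (ℕ → R) → R, Gd H m φ) ∧
      ∀ ψ : (ℕ → R) → R, ¬ Gd H (m + 1) ψ := by
    have hP : ∃ φ : (ℕ → R) → R, Gd H m₀ φ := ⟨φ₀, hφ₀⟩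
    have h5 : m₀ ≤ 5 := hle m₀ φ₀ hφ₀
    refine ⟨Nat.findGreatest (fun k => ∃ φ : (ℕ → R) → R, Gd H k φ) 5, ?_, ?_, ?_⟩
    · exact hm₀.trans (Nat.le_findGreatest h5 hP)
    · exact Nat.findGreatest_spec (P := fun k => ∃ φ : (ℕ → R) → R, Gd H k φ) h5 hP
    · intro ψ hψ
      have h6 := hle _ ψ hψ
      have h7 := Nat.le_findGreatest (P := fun k => ∃ φ : (ℕ → R) → R, Gd H k φ) h6 ⟨ψ, hψ⟩
      omega
  obtain ⟨hAdt, hmul⟩ := hGdb R H m φ hφ hmax
  obtain ⟨c, hc⟩ := hGdc R hN m φ hφ.tm hφ.dep hφ.zer hAdt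
  refine ⟨m, fun x => φ (Mlt_ext m x), hm1, hle m φ hφ, ?_⟩
  have hsq : ∀ (v : ℕ → R) (i : ℕ), i < m → ∀ y ∈ Sq R, φ (Function.update v i y) = 0 := by
    intro v i hi y hy
    have hz : φ (Function.update v i 0) = 0 :=
      hφ.zer _ i hi (Function.update_self i 0 v)
    unfold Sq at hy
    induction hy using AddSubgroup.closure_induction with
    | mem y hy =>
      obtain ⟨a, b, rfl⟩ := hy
      exact hmul v i a b hi
    | zero => exact hz
    | add y y' _ _ h1 h2 => rw [hAdt v i y y' hi, h1, h2, add_zero]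
    | neg y _ h1 =>
      have h2 := hAdt v i y (-y) hi
      rw [add_neg_cancel, hz, h1, zero_add] at h2
      exact h2.symm
  constructor
  · refine ⟨c, fun x => ?_⟩
    show φ (Mlt_ext m x) = _
    rw [hc]
    refine Finset.sum_congr rfl fun σ _ => ?_
    simp only [Mlt_ext_fin]
  · intro x
    exact hφ.val _
  · intro S hS x hx
    refine hφ.van S hS _ fun i => ?_
    unfold Mlt_ext
    split_ifs with h
    · exact hx _
    · exact S.zero_mem
  · intro x i hi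
    have h1 := hsq (Mlt_ext m x) (i : ℕ) i.isLt (x i) hi
    have h2 : Function.update (Mlt_ext m x) (i : ℕ) (x i) = Mlt_ext m x := by
      rw [← Mlt_ext_fin m x i, Function.update_eq_self]
    rw [h2] at h1
    exact h1
  · obtain ⟨v, hv⟩ := hφ.ne
    refine ⟨fun i => v (i : ℕ), ?_⟩
    have h1 : φ (Mlt_ext m (fun i : Fin m => v (i : ℕ))) = φ v := by
      refine hφ.dep _ _ fun i hi => ?_
      unfold Mlt_ext
      rw [dif_pos hi]
    show φ (Mlt_ext m (fun i : Fin m => v (i : ℕ))) ≠ 0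
    rw [h1]
    exact hv

end Pool.Agent.CRK
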