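import Pool.Agent.CRK.St

/-!
CRK, module Nab: types A and B do not occur if the order is prime to `n - 3`.
-/

set_option autoImplicit false

namespace Pool.Agent.CRK

open Pool.Agent.CRR Pool.Agent.CRN

theorem Nab_pw {R : Type} [NonUnitalRing R] {E x : R} (hE : E * E = E) (h1 : E * x = x)
    (h2 : x * E = x) (h3 : x * x = 0) (k : ℕ) : pw (E + x) k = E + (k + 1) • x := by
  induction k with
  | zero => simp [pw]
  | succ k ih =>
    have h4 : pw (E + x) (k + 1) = pw (E + x) k * (E + x) := rfl
    rw [h4, ih, add_mul, mul_add, mul_add, smul_mul_assoc, smul_mul_assoc, hE, h1, h2, h3,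
      smul_zero, add_zero, add_assoc, succ_nsmul' x (k + 1)]

theorem Nab_zero {n : ℕ} (hn : 4 ≤ n) {R : Type} [NonUnitalRing R] [Finite R] (hM : InM n R)
    (hc : (Nat.card R).Coprime (n - 3)) {s : ℕ} {e : Fin s → R} (hF : Fam R s e) {i j : Fin s}
    (hij : i ≠ j) {x : R} (h1 : e i * x = x) (h2 : x * e j = x) : x = 0 := by
  have hi := (hF.fld i).1
  have hj := (hF.fld j).1
  have a1 : e j * x = 0 := by rw [← h1, ← mul_assoc, hF.orth j i hij.symm, zero_mul]
  have a2 : x * e i = 0 := by rw [← h2, mul_assoc, hF.orth j i hij.symm, mul_zero]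
  have a3 : x * x = 0 := by
    calc x * x = (x * e j) * x := by rw [h2]
      _ = 0 := by rw [mul_assoc, a1, mul_zero]
  have hE : (e i + e j) * (e i + e j) = e i + e j := by
    rw [add_mul, mul_add, mul_add, hi, hj, hF.orth i j hij, hF.orth j i hij.symm, add_zero,
      zero_add]
  have hp := Nab_pw hE (by rw [add_mul, h1, a1, add_zero]) (by rw [mul_add, h2, a2, zero_add]) a3
  have h3 := hM (e i + e j + x)
  rw [hp, hp, add_right_inj, show n - 1 + 1 = (n - 3) + 3 by omega, add_nsmul (a := x) (n - 3) 3]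
    at h3
  have h4 : (n - 3) • x = 0 := by
    have h5 : (n - 3) • x + 3 • x = 0 + 3 • x := by rw [zero_add]; exact h3.symm
    exact add_right_cancel h5
  have h5 : addOrderOf x ∣ n - 3 := addOrderOf_dvd_of_nsmul_eq_zero h4
  have h6 : addOrderOf x ∣ Nat.card R := addOrderOf_dvd_natCard x
  have h7 : addOrderOf x ∣ 1 := by
    have := Nat.dvd_gcd h6 h5
    rwa [hc] at this
  exact AddMonoid.addOrderOf_eq_one_iff.1 (Nat.dvd_one.1 h7)

theorem thm_Nab : St_Nab := by
  intro n hn R _ _ hM hc
  constructor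
  · rintro ⟨-, s, e, i, j, z, hF, hij, hz, hP, -⟩
    exact hz (Nab_zero hn hM hc hF hij (by rw [hP.1 i, if_pos rfl]) (by rw [hP.2 j, if_pos rfl]))
  · rintro ⟨-, s, e, α, β, γ, z, z', hF, hab, hbc, hac, hz, hP, hP', -⟩
    rcases α with _ | i
    · rcases β with _ | j
      · exact hab rfl
      · rcases γ with _ | l
        · exact hac rfl
        · refine hz ?_
          rw [Nab_zero hn hM hc hF (i := j) (j := l) (fun h => hbc (by rw [h]))
            (by rw [hP'.1 j, if_pos rfl]) (by rw [hP'.2 l, if_pos rfl] : z' * e l = z'), mul_zero]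
    · rcases β with _ | j
      · rcases γ with _ | l
        · exact hbc rfl
        · refine hz (Nab_zero hn hM hc hF (i := i) (j := l) (fun h => hac (by rw [h])) ?_ ?_)
          · rw [← mul_assoc, hP.1 i, if_pos rfl]
          · rw [mul_assoc, hP'.2 l, if_pos rfl]
      · refine hz ?_
        rw [Nab_zero hn hM hc hF (i := i) (j := j) (fun h => hab (by rw [h]))
          (by rw [hP.1 i, if_pos rfl]) (by rw [hP.2 j, if_pos rfl] : z * e j = z), zero_mul]

end Pool.Agent.CRK
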