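import Pool.Agent.CRK.St

/-!
Campaign CRK, module Phz: the least nonzero ideal has exponent `p`.
-/

set_option autoImplicit false

namespace Pool.Agent.CRK

open Pool.Agent.CRR Pool.Agent.CRN

theorem thm_Phz : St_Phz := by
  intro R _ H hH p r hpr
  obtain ⟨hI, hne, hmin⟩ := hH
  by_contra hcon
  push Not at hcon
  obtain ⟨h₀, hh₀, hph⟩ := hcon
  obtain ⟨K, hK⟩ : ∃ K : AddSubgroup R, K = H.map (zsmulAddGroupHom (p : ℤ)) := ⟨_, rfl⟩
  have hmem : ∀ x, x ∈ K ↔ ∃ h ∈ H, (p : ℤ) • h = x := by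
    intro x
    rw [hK, AddSubgroup.mem_map]
    rfl
  have hKI : Idl R K := by
    intro a x hx
    obtain ⟨h, hh, rfl⟩ := (hmem x).1 hx
    obtain ⟨e1, e2⟩ := hI a h hh
    refine ⟨(hmem _).2 ⟨_, e1, ?_⟩, (hmem _).2 ⟨_, e2, ?_⟩⟩
    · rw [mul_smul_comm]
    · rw [smul_mul_assoc]
  have hKne : K ≠ ⊥ := by
    intro hb
    have h1 : (p : ℤ) • h₀ ∈ K := (hmem _).2 ⟨h₀, hh₀, rfl⟩
    rw [hb, AddSubgroup.mem_bot] at h1
    exact hph h1
  have hHK : H ≤ K := hmin K hKI hKne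
  have hind : ∀ k : ℕ, ∀ h ∈ H, ∃ h' ∈ H, (p ^ k) • h' = h := by
    intro k
    induction k with
    | zero => exact fun h hh => ⟨h, hh, by rw [pow_zero, one_smul]⟩
    | succ k ih =>
      intro h hh
      obtain ⟨h', hh', he⟩ := ih h hh
      obtain ⟨h'', hh'', he'⟩ := (hmem h').1 (hHK hh')
      refine ⟨h'', hh'', ?_⟩
      rw [natCast_zsmul] at he'
      rw [pow_succ, mul_smul, he', he]
  refine hne ?_
  rw [eq_bot_iff]
  intro h hh
  obtain ⟨h', hh', he⟩ := hind r h hh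
  rw [hpr h'] at he
  rw [AddSubgroup.mem_bot]
  exact he.symm

end Pool.Agent.CRK
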