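import Pool.Agent.CRK.St

/-!
Campaign CRK, module PMD: the functions of the list do not change modulo `p R`.
-/

set_option autoImplicit false

namespace Pool.Agent.CRK

open Pool.Agent.CRR Pool.Agent.CRN

theorem thm_Pmd (hCub : St_Cub) (hPhz : St_Phz) : St_Pmd := by
  intro R _ H hH p r hp hp2 hp3 hpr g f hN hval x k y
  obtain ⟨B, C, D, h⟩ := hCub R g f hN x k y
  have hF : ∀ t : ℤ, t • B + (t * t) • C + (t * t * t) • D ∈ H := by
    intro t
    have h1 := H.sub_mem (hval (Function.update x k (x k + t • y))) (hval x)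
    rw [h t] at h1
    convert h1 using 1
    abel
  have h2C : (2 : ℤ) • C ∈ H := by
    have h1 := H.add_mem (hF 1) (hF (-1))
    convert h1 using 1
    module
  have h6D : (6 : ℤ) • D ∈ H := by
    have h1 := H.sub_mem (H.sub_mem (hF 2) (H.zsmul_mem (hF 1) 2)) h2C
    convert h1 using 1
    module
  have h6B : (6 : ℤ) • B ∈ H := by
    have h1 := H.sub_mem (H.sub_mem (H.zsmul_mem (hF 1) 6) (H.zsmul_mem h2C 3)) h6D
    convert h1 using 1
    module
  have hz := hPhz R H hH p r hpr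
  have e1 := hz _ h6B
  have e2 := hz _ h2C
  have e3 := hz _ h6D
  obtain ⟨X, hX⟩ : ∃ X : R, X = (p : ℤ) • B + ((p : ℤ) * p) • C + ((p : ℤ) * p * p) • D := ⟨_, rfl⟩
  have h6X : (6 : ℤ) • X = 0 := by
    have h1 : (6 : ℤ) • X = (p : ℤ) • (6 : ℤ) • B + (3 * p : ℤ) • (p : ℤ) • (2 : ℤ) • C +
        (p * p : ℤ) • (p : ℤ) • (6 : ℤ) • D := by
      rw [hX]
      module
    rw [h1, e1, e2, e3, smul_zero, smul_zero, add_zero, add_zero]
  have hpX : ((p ^ r : ℕ) : ℤ) • X = 0 := by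
    rw [natCast_zsmul]
    exact hpr X
  have hcop : IsCoprime (6 : ℤ) ((p ^ r : ℕ) : ℤ) := by
    have h1 : Nat.Coprime 6 (p ^ r) := by
      apply Nat.Coprime.pow_right
      rw [Nat.coprime_comm, Nat.Prime.coprime_iff_not_dvd hp]
      intro hd
      rw [show (6 : ℕ) = 2 * 3 by norm_num, hp.dvd_mul] at hd
      rcases hd with hd | hd
      · exact hp2 ((Nat.prime_dvd_prime_iff_eq hp Nat.prime_two).1 hd)
      · exact hp3 ((Nat.prime_dvd_prime_iff_eq hp Nat.prime_three).1 hd)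
    exact_mod_cast (Nat.isCoprime_iff_coprime.2 h1)
  obtain ⟨u, v, huv⟩ := hcop
  have hX0 : X = 0 := by
    calc X = (1 : ℤ) • X := (one_smul _ _).symm
      _ = (u * 6 + v * ((p ^ r : ℕ) : ℤ)) • X := by rw [huv]
      _ = u • (6 : ℤ) • X + v • ((p ^ r : ℕ) : ℤ) • X := by
        rw [add_smul, mul_smul, mul_smul]
      _ = 0 := by rw [h6X, hpX, smul_zero, smul_zero, add_zero]
  rw [h (p : ℤ), add_assoc, add_assoc, ← add_assoc ((p : ℤ) • B), ← hX, hX0, add_zero]

end Pool.Agent.CRK
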