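import Pool.Agent.CRK.St

/-!
Campaign CRK: module `Pta`, multilinear functions and permutations of the arguments.
-/

set_option autoImplicit false

namespace Pool.Agent.CRK

open Pool.Agent.CRR Pool.Agent.CRN

theorem thm_Pta : St_Pta := by
  intro R _ b g φ π h
  obtain ⟨c, hc⟩ := h
  refine ⟨fun τ => c (π⁻¹ * τ), fun x => ?_⟩
  show φ (fun t => x (π t)) = _
  rw [hc]
  refine Fintype.sum_equiv (Equiv.mulLeft π) _ _ fun σ => ?_
  show c σ • wp (List.ofFn fun i => x (π (σ i))) =
    c (π⁻¹ * (π * σ)) • wp (List.ofFn fun i => x ((π * σ) i))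
  rw [inv_mul_cancel_left]
  rfl

end Pool.Agent.CRK
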