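import Pool.Agent.CRK.St

set_option autoImplicit false

namespace Pool.Agent.CRK

open Finset

/-- the size of the fibre -/
private def Ptb_s {b g : ℕ} (i : Fin b → Fin g) (k : Fin g) : ℕ :=
  (univ.filter fun t => i t = k).card

private theorem Ptb_perm {b g : ℕ} (i j : Fin b → Fin g) (h : ∀ k, Ptb_s i k = Ptb_s j k) :
    ∃ π : Equiv.Perm (Fin b), ∀ t, i (π t) = j t := by
  classical
  have h' : ∀ k : Fin g, Fintype.card {t // j t = k} = Fintype.card {t // i t = k} := by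
    intro k
    rw [Fintype.card_subtype, Fintype.card_subtype]
    exact (h k).symm
  let e : ∀ k : Fin g, {t // j t = k} ≃ {t // i t = k} := fun k => Fintype.equivOfCardEq (h' k)
  refine ⟨((Equiv.sigmaFiberEquiv j).symm.trans (Equiv.sigmaCongrRight e)).trans
    (Equiv.sigmaFiberEquiv i), fun t => ?_⟩
  have : (((Equiv.sigmaFiberEquiv j).symm.trans (Equiv.sigmaCongrRight e)).trans
    (Equiv.sigmaFiberEquiv i)) t = (e (j t) ⟨t, rfl⟩).1 := rfl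
  rw [this]
  exact (e (j t) ⟨t, rfl⟩).2

private theorem Ptb_use {b g : ℕ} (i q : Fin b → Fin g) (τ : Equiv.Perm (Fin g))
    (h : ∀ k, Ptb_s i (τ k) = Ptb_s q k) :
    ∃ π : Equiv.Perm (Fin b), ∀ t, i (π t) = τ (q t) := by
  apply Ptb_perm
  intro k
  have h1 := h (τ.symm k)
  rw [Equiv.apply_symm_apply] at h1
  rw [h1]
  unfold Ptb_s
  congr 1
  ext t
  simp only [mem_filter, mem_univ, true_and]
  constructor
  · intro h2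
    rw [h2, Equiv.apply_symm_apply]
  · intro h2
    rw [← h2, Equiv.symm_apply_apply]

private theorem Ptb_sum {b g : ℕ} (i : Fin b → Fin g) : ∑ k, Ptb_s i k = b := by
  classical
  unfold Ptb_s
  have := Finset.card_eq_sum_card_fiberwise (f := i) (s := (univ : Finset (Fin b)))
    (t := (univ : Finset (Fin g))) (fun _ _ => mem_coe.2 (mem_univ _))
  rw [← this, card_univ, Fintype.card_fin]

private theorem Ptb_pos {b g : ℕ} (i : Fin b → Fin g) (hi : Function.Surjective i) (k : Fin g) :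
    1 ≤ Ptb_s i k := by
  obtain ⟨t, ht⟩ := hi k
  exact card_pos.2 ⟨t, mem_filter.2 ⟨mem_univ _, ht⟩⟩

private theorem Ptb_two {b : ℕ} (i q : Fin b → Fin 2)
    (h : (Ptb_s i 0 = Ptb_s q 0 ∧ Ptb_s i 1 = Ptb_s q 1) ∨
      (Ptb_s i 1 = Ptb_s q 0 ∧ Ptb_s i 0 = Ptb_s q 1)) :
    ∃ (π : Equiv.Perm (Fin b)) (τ : Equiv.Perm (Fin 2)), ∀ t, i (π t) = τ (q t) := by
  rcases h with ⟨h0, h1⟩ | ⟨h0, h1⟩
  · obtain ⟨π, hπ⟩ := Ptb_use i q 1 (Fin.forall_fin_two.2 ⟨h0, h1⟩)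
    exact ⟨π, 1, hπ⟩
  · obtain ⟨π, hπ⟩ := Ptb_use i q (Equiv.swap 0 1) (Fin.forall_fin_two.2 ⟨h0, h1⟩)
    exact ⟨π, Equiv.swap 0 1, hπ⟩

private theorem Ptb_three {b : ℕ} (i q : Fin b → Fin 3)
    (h : (Ptb_s i 0 = Ptb_s q 0 ∧ Ptb_s i 1 = Ptb_s q 1 ∧ Ptb_s i 2 = Ptb_s q 2) ∨
      (Ptb_s i 1 = Ptb_s q 0 ∧ Ptb_s i 0 = Ptb_s q 1 ∧ Ptb_s i 2 = Ptb_s q 2) ∨
      (Ptb_s i 2 = Ptb_s q 0 ∧ Ptb_s i 1 = Ptb_s q 1 ∧ Ptb_s i 0 = Ptb_s q 2) ∨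
      (Ptb_s i 0 = Ptb_s q 0 ∧ Ptb_s i 2 = Ptb_s q 1 ∧ Ptb_s i 1 = Ptb_s q 2)) :
    ∃ (π : Equiv.Perm (Fin b)) (τ : Equiv.Perm (Fin 3)), ∀ t, i (π t) = τ (q t) := by
  have key : ∀ τ : Equiv.Perm (Fin 3), Ptb_s i (τ 0) = Ptb_s q 0 → Ptb_s i (τ 1) = Ptb_s q 1 →
      Ptb_s i (τ 2) = Ptb_s q 2 →
      ∃ (π : Equiv.Perm (Fin b)) (τ : Equiv.Perm (Fin 3)), ∀ t, i (π t) = τ (q t) := by
    intro τ h0 h1 h2
    obtain ⟨π, hπ⟩ := Ptb_use i q τ (by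
      intro k
      fin_cases k
      · exact h0
      · exact h1
      · exact h2)
    exact ⟨π, τ, hπ⟩
  rcases h with ⟨h0, h1, h2⟩ | ⟨h0, h1, h2⟩ | ⟨h0, h1, h2⟩ | ⟨h0, h1, h2⟩
  · exact key 1 h0 h1 h2
  · exact key (Equiv.swap 0 1) h0 h1 h2
  · exact key (Equiv.swap 0 2) h0 h1 h2
  · exact key (Equiv.swap 1 2) h0 h1 h2

theorem thm_Ptb : St_Ptb := by
  refine ⟨?_, ?_, ?_, ?_, ?_, ?_⟩
  · intro i hi
    have hs := Ptb_sum i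
    rw [Fin.sum_univ_two] at hs
    have h0 := Ptb_pos i hi 0
    have h1 := Ptb_pos i hi 1
    have q0 : Ptb_s (![0, 0, 1] : Fin 3 → Fin 2) 0 = 2 := by decide
    have q1 : Ptb_s (![0, 0, 1] : Fin 3 → Fin 2) 1 = 1 := by decide
    apply Ptb_two
    rw [q0, q1]
    omega
  · intro i hi
    have hs := Ptb_sum i
    rw [Fin.sum_univ_two] at hs
    have h0 := Ptb_pos i hi 0
    have h1 := Ptb_pos i hi 1
    have q0 : Ptb_s (![0, 0, 0, 1] : Fin 4 → Fin 2) 0 = 3 := by decide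
    have q1 : Ptb_s (![0, 0, 0, 1] : Fin 4 → Fin 2) 1 = 1 := by decide
    have r0 : Ptb_s (![0, 0, 1, 1] : Fin 4 → Fin 2) 0 = 2 := by decide
    have r1 : Ptb_s (![0, 0, 1, 1] : Fin 4 → Fin 2) 1 = 2 := by decide
    by_cases hc : Ptb_s i 0 = 2
    · obtain ⟨π, τ, h⟩ := Ptb_two i (![0, 0, 1, 1] : Fin 4 → Fin 2) (by rw [r0, r1]; omega)
      exact ⟨π, τ, Or.inr h⟩
    · obtain ⟨π, τ, h⟩ := Ptb_two i (![0, 0, 0, 1] : Fin 4 → Fin 2) (by rw [q0, q1]; omega)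
      exact ⟨π, τ, Or.inl h⟩
  · intro i hi
    have hs := Ptb_sum i
    rw [Fin.sum_univ_three] at hs
    have h0 := Ptb_pos i hi 0
    have h1 := Ptb_pos i hi 1
    have h2 := Ptb_pos i hi 2
    have q0 : Ptb_s (![0, 0, 1, 2] : Fin 4 → Fin 3) 0 = 2 := by decide
    have q1 : Ptb_s (![0, 0, 1, 2] : Fin 4 → Fin 3) 1 = 1 := by decide
    have q2 : Ptb_s (![0, 0, 1, 2] : Fin 4 → Fin 3) 2 = 1 := by decide
    apply Ptb_three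
    rw [q0, q1, q2]
    omega
  · intro i hi
    have hs := Ptb_sum i
    rw [Fin.sum_univ_two] at hs
    have h0 := Ptb_pos i hi 0
    have h1 := Ptb_pos i hi 1
    have q0 : Ptb_s (![0, 0, 0, 0, 1] : Fin 5 → Fin 2) 0 = 4 := by decide
    have q1 : Ptb_s (![0, 0, 0, 0, 1] : Fin 5 → Fin 2) 1 = 1 := by decide
    have r0 : Ptb_s (![0, 0, 0, 1, 1] : Fin 5 → Fin 2) 0 = 3 := by decide
    have r1 : Ptb_s (![0, 0, 0, 1, 1] : Fin 5 → Fin 2) 1 = 2 := by decide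
    by_cases hc : Ptb_s i 0 = 2 ∨ Ptb_s i 0 = 3
    · obtain ⟨π, τ, h⟩ := Ptb_two i (![0, 0, 0, 1, 1] : Fin 5 → Fin 2) (by rw [r0, r1]; omega)
      exact ⟨π, τ, Or.inr h⟩
    · obtain ⟨π, τ, h⟩ := Ptb_two i (![0, 0, 0, 0, 1] : Fin 5 → Fin 2) (by rw [q0, q1]; omega)
      exact ⟨π, τ, Or.inl h⟩
  · intro i hi
    have hs := Ptb_sum i
    rw [Fin.sum_univ_three] at hs
    have h0 := Ptb_pos i hi 0
    have h1 := Ptb_pos i hi 1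
    have h2 := Ptb_pos i hi 2
    have q0 : Ptb_s (![0, 0, 0, 1, 2] : Fin 5 → Fin 3) 0 = 3 := by decide
    have q1 : Ptb_s (![0, 0, 0, 1, 2] : Fin 5 → Fin 3) 1 = 1 := by decide
    have q2 : Ptb_s (![0, 0, 0, 1, 2] : Fin 5 → Fin 3) 2 = 1 := by decide
    have r0 : Ptb_s (![0, 0, 1, 1, 2] : Fin 5 → Fin 3) 0 = 2 := by decide
    have r1 : Ptb_s (![0, 0, 1, 1, 2] : Fin 5 → Fin 3) 1 = 2 := by decide
    have r2 : Ptb_s (![0, 0, 1, 1, 2] : Fin 5 → Fin 3) 2 = 1 := by decide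
    by_cases hc : Ptb_s i 0 = 3 ∨ Ptb_s i 1 = 3 ∨ Ptb_s i 2 = 3
    · obtain ⟨π, τ, h⟩ := Ptb_three i (![0, 0, 0, 1, 2] : Fin 5 → Fin 3)
        (by rw [q0, q1, q2]; omega)
      exact ⟨π, τ, Or.inl h⟩
    · obtain ⟨π, τ, h⟩ := Ptb_three i (![0, 0, 1, 1, 2] : Fin 5 → Fin 3)
        (by rw [r0, r1, r2]; omega)
      exact ⟨π, τ, Or.inr h⟩
  · intro i hi
    have hs := Ptb_sum i
    rw [Fin.sum_univ_four] at hs
    have h0 := Ptb_pos i hi 0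
    have h1 := Ptb_pos i hi 1
    have h2 := Ptb_pos i hi 2
    have h3 := Ptb_pos i hi 3
    have q0 : Ptb_s (![0, 0, 1, 2, 3] : Fin 5 → Fin 4) 0 = 2 := by decide
    have q1 : Ptb_s (![0, 0, 1, 2, 3] : Fin 5 → Fin 4) 1 = 1 := by decide
    have q2 : Ptb_s (![0, 0, 1, 2, 3] : Fin 5 → Fin 4) 2 = 1 := by decide
    have q3 : Ptb_s (![0, 0, 1, 2, 3] : Fin 5 → Fin 4) 3 = 1 := by decide
    have key : ∀ τ : Equiv.Perm (Fin 4), Ptb_s i (τ 0) = 2 → Ptb_s i (τ 1) = 1 →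
        Ptb_s i (τ 2) = 1 → Ptb_s i (τ 3) = 1 →
        ∃ (π : Equiv.Perm (Fin 5)) (τ : Equiv.Perm (Fin 4)),
          ∀ t, i (π t) = τ ((![0, 0, 1, 2, 3] : Fin 5 → Fin 4) t) := by
      intro τ g0 g1 g2 g3
      obtain ⟨π, hπ⟩ := Ptb_use i (![0, 0, 1, 2, 3] : Fin 5 → Fin 4) τ (by
        intro k
        fin_cases k
        · exact g0.trans q0.symm
        · exact g1.trans q1.symm
        · exact g2.trans q2.symm
        · exact g3.trans q3.symm)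
      exact ⟨π, τ, hπ⟩
    have hcases : (Ptb_s i 0 = 2 ∧ Ptb_s i 1 = 1 ∧ Ptb_s i 2 = 1 ∧ Ptb_s i 3 = 1) ∨
        (Ptb_s i 1 = 2 ∧ Ptb_s i 0 = 1 ∧ Ptb_s i 2 = 1 ∧ Ptb_s i 3 = 1) ∨
        (Ptb_s i 2 = 2 ∧ Ptb_s i 1 = 1 ∧ Ptb_s i 0 = 1 ∧ Ptb_s i 3 = 1) ∨
        (Ptb_s i 3 = 2 ∧ Ptb_s i 1 = 1 ∧ Ptb_s i 2 = 1 ∧ Ptb_s i 0 = 1) := by
      omega
    rcases hcases with ⟨g0, g1, g2, g3⟩ | ⟨g0, g1, g2, g3⟩ | ⟨g0, g1, g2, g3⟩ | ⟨g0, g1, g2, g3⟩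
    · exact key 1 g0 g1 g2 g3
    · exact key (Equiv.swap 0 1) g0 g1 g2 g3
    · exact key (Equiv.swap 0 2) g0 g1 g2 g3
    · exact key (Equiv.swap 0 3) g0 g1 g2 g3

end Pool.Agent.CRK
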