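import Pool.Agent.CRK.St

/-!
Campaign CRK, module Sfi: the standard polynomial of degree five vanishes (helper18).
-/

set_option autoImplicit false

namespace Pool.Agent.CRK

open Pool.Agent.CRR Pool.Agent.CRN

def SfiT1 : Equiv.Perm (Fin 5) := ⟨![0, 1, 4, 2, 3], ![0, 1, 3, 4, 2], by decide, by decide⟩
def SfiT2 : Equiv.Perm (Fin 5) := ⟨![2, 3, 0, 1, 4], ![2, 3, 0, 1, 4], by decide, by decide⟩
def SfiT3 : Equiv.Perm (Fin 5) := ⟨![2, 3, 4, 0, 1], ![3, 4, 0, 1, 2], by decide, by decide⟩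
def SfiT4 : Equiv.Perm (Fin 5) := ⟨![4, 0, 1, 2, 3], ![1, 2, 3, 4, 0], by decide, by decide⟩
def SfiT5 : Equiv.Perm (Fin 5) := ⟨![4, 2, 3, 0, 1], ![3, 4, 1, 2, 0], by decide, by decide⟩

theorem SfiS : Equiv.Perm.sign SfiT1 = 1 ∧ Equiv.Perm.sign SfiT2 = 1 ∧ Equiv.Perm.sign SfiT3 = 1 ∧
    Equiv.Perm.sign SfiT4 = 1 ∧ Equiv.Perm.sign SfiT5 = 1 := by decide

theorem SfiW {R : Type} [NonUnitalRing R] (y : Fin 5 → R) :
    wp (List.ofFn y) = y 0 * (y 1 * (y 2 * (y 3 * y 4))) := by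
  rfl

theorem SfiC {R : Type} [NonUnitalRing R] (x : Fin 5 → R) (τ : Equiv.Perm (Fin 5))
    (hτ : Equiv.Perm.sign τ = 1) :
    ∑ σ : Equiv.Perm (Fin 5), ((Equiv.Perm.sign σ : ℤˣ) : ℤ) •
      wp (List.ofFn fun i => x (σ (τ i))) = stp x := by
  have h := Equiv.sum_comp (Equiv.mulRight τ) (fun σ : Equiv.Perm (Fin 5) =>
    ((Equiv.Perm.sign σ : ℤˣ) : ℤ) • wp (List.ofFn fun i => x (σ i)))
  change _ = ∑ σ : Equiv.Perm (Fin 5), ((Equiv.Perm.sign σ : ℤˣ) : ℤ) •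
    wp (List.ofFn fun i => x (σ i))
  rw [← h]
  refine Finset.sum_congr rfl fun σ _ => ?_
  have h2 : Equiv.Perm.sign ((Equiv.mulRight τ) σ) = Equiv.Perm.sign σ := by
    rw [Equiv.coe_mulRight, Equiv.Perm.sign_mul, hτ, mul_one]
  rw [h2]
  rfl

theorem thm_Sfi (hIda : St_Ida) : St_Sfi := by
  intro R _ hR x
  obtain ⟨-, -, hP, -⟩ := hIda R hR
  apply hR.tf
  obtain ⟨s1, s2, s3, s4, s5⟩ := SfiS
  have h6 : (6 : ℤ) • stp x = stp x + stp x + stp x + stp x + stp x + stp x := by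
    have : (6 : ℤ) = 1 + 1 + 1 + 1 + 1 + 1 := by norm_num
    rw [this]
    simp only [add_smul, one_smul]
  rw [h6]
  have e0 : ∑ σ : Equiv.Perm (Fin 5), ((Equiv.Perm.sign σ : ℤˣ) : ℤ) •
      wp (List.ofFn fun i => x (σ i)) = stp x := rfl
  have key : ∑ σ : Equiv.Perm (Fin 5), ((Equiv.Perm.sign σ : ℤˣ) : ℤ) •
      (wp (List.ofFn fun i => x (σ i)) + wp (List.ofFn fun i => x (σ (SfiT1 i))) +
        wp (List.ofFn fun i => x (σ (SfiT2 i))) + wp (List.ofFn fun i => x (σ (SfiT3 i))) +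
        wp (List.ofFn fun i => x (σ (SfiT4 i))) + wp (List.ofFn fun i => x (σ (SfiT5 i)))) = 0 := by
    refine Finset.sum_eq_zero fun σ _ => ?_
    have h1 := hP (x (σ 0) * x (σ 1)) (x (σ 2) * x (σ 3)) (x (σ 4))
    have h2 : wp (List.ofFn fun i => x (σ i)) + wp (List.ofFn fun i => x (σ (SfiT1 i))) +
        wp (List.ofFn fun i => x (σ (SfiT2 i))) + wp (List.ofFn fun i => x (σ (SfiT3 i))) +
        wp (List.ofFn fun i => x (σ (SfiT4 i))) + wp (List.ofFn fun i => x (σ (SfiT5 i))) = 0 := by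
      rw [SfiW, SfiW, SfiW, SfiW, SfiW, SfiW]
      rw [← h1]
      simp only [mul_assoc]
      rfl
    rw [h2, smul_zero]
  simp only [smul_add, Finset.sum_add_distrib] at key
  rw [e0, SfiC x SfiT1 s1, SfiC x SfiT2 s2, SfiC x SfiT3 s3, SfiC x SfiT4 s4, SfiC x SfiT5 s5] at key
  exact key

end Pool.Agent.CRK
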