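import Pool.Agent.CRK.St

/-!
# CRK, module SRA: `xx y a b c = 0` and its mirror image
-/

set_option autoImplicit false

namespace Pool.Agent.CRK

theorem thm_Sra (hIda : St_Ida) (hHig : St_Hig) : St_Sra := by
  intro R _ h
  obtain ⟨h2, -, -, -⟩ := hIda R h
  obtain ⟨g1, g2, g3, g4⟩ := hHig R h
  have e1 : ∀ x y a b c : R, x * x * y * a * b * c = 0 := by
    intro x y a b c
    have key : (2 : ℤ) • (x * x * y * a * b * c) =
        x * x * y * ((a * b) * c + c * (a * b)) - x * x * y * (a * c + c * a) * b +
          x * x * (y * a) * (b * c + c * b) := by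
      simp only [mul_add, add_mul, ← mul_assoc]
      abel
    apply h2
    rw [key, g3, g3, g3, zero_mul, sub_zero, add_zero]
  have e2 : ∀ x y a b c : R, a * b * c * y * x * x = 0 := by
    intro x y a b c
    have key : (2 : ℤ) • (a * b * c * y * x * x) =
        ((a * b) * c + c * (a * b)) * y * (x * x) - (a * c + c * a) * (b * y) * (x * x) +
          a * ((b * c + c * b) * y * (x * x)) := by
      simp only [mul_add, add_mul, ← mul_assoc]
      abel
    apply h2
    rw [key, g2, g2, g2, mul_zero, sub_zero, add_zero]
  refine ⟨e1, e2, fun x u y a b c => ?_, fun x u y a b c => ?_⟩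
  · rw [eq_neg_iff_add_eq_zero]
    have key : x * u * y * a * b * c + u * x * y * a * b * c =
        (x + u) * (x + u) * y * a * b * c - x * x * y * a * b * c - u * u * y * a * b * c := by
      simp only [mul_add, add_mul]
      abel
    rw [key, e1, e1, e1, sub_zero, sub_zero]
  · rw [eq_neg_iff_add_eq_zero]
    have key : a * b * c * y * x * u + a * b * c * y * u * x =
        a * b * c * y * (x + u) * (x + u) - a * b * c * y * x * x - a * b * c * y * u * u := by
      simp only [mul_add, add_mul]
      abel
    rw [key, e2, e2, e2, sub_zero, sub_zero]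

end Pool.Agent.CRK
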