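import Pool.Agent.CRK.St

/-!
Campaign CRK, statement Sxa.
-/

set_option autoImplicit false

namespace Pool.Agent.CRK

open Pool.Agent.CRR Pool.Agent.CRN

theorem thm_Sxa (hIda : St_Ida) (hSra : St_Sra) (hSxe : St_Sxe) : St_Sxa := by
  intro R _ hN
  obtain ⟨t2, t3, hP, _⟩ := hIda R hN
  obtain ⟨_, _, s12, s56'⟩ := hSra R hN
  have s56 : ∀ a b c d e f : R, a * b * c * d * e * f = -(a * b * c * d * f * e) :=
    fun a b c d e f => s56' e f d a b c
  -- transpositions
  have s23 : ∀ a b c d e f : R, a * b * c * d * e * f = -(a * c * b * d * e * f) := by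
    intro a b c d e f
    have h1 := (hSxe R hN a (b + c) d e f).1
    have h2 := (hSxe R hN a b d e f).1
    have h3 := (hSxe R hN a c d e f).1
    simp only [mul_add, add_mul] at h1
    linear_combination (norm := module) h1 - h2 - h3
  have s45 : ∀ a b c d e f : R, a * b * c * d * e * f = -(a * b * c * e * d * f) := by
    intro a b c d e f
    have h1 := (hSxe R hN a (d + e) b c f).2
    have h2 := (hSxe R hN a d b c f).2
    have h3 := (hSxe R hN a e b c f).2
    simp only [mul_add, add_mul] at h1
    linear_combination (norm := module) h1 - h2 - h3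
  -- the exchange of the first and the fourth factor
  have s14 : ∀ a b c d e f : R, a * b * c * d * e * f = -(d * b * c * a * e * f) := by
    intro a b c d e f
    have h0 := congrArg (fun z => z * e * f) (hP a (b * c) d)
    simp only [add_mul, zero_mul, ← mul_assoc] at h0
    have h1 : d * a * b * c * e * f = -(a * d * b * c * e * f) := s12 d a b c e f
    have h2 : b * c * a * d * e * f = a * b * c * d * e * f := by
      rw [s23 b c a d e f, s12 b a c d e f, neg_neg]
    have h3 : d * b * c * a * e * f = b * c * d * a * e * f := by
      rw [s12 d b c a e f, s23 b d c a e f, neg_neg]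
    rw [h1, h2] at h0
    rw [← sub_eq_zero]
    apply t2
    linear_combination (norm := module) h0 + h3
  have s34 : ∀ a b c d e f : R, a * b * c * d * e * f = -(a * b * d * c * e * f) := by
    intro a b c d e f
    rw [s12 a b c d e f, s23 b a c d e f, s12 b c a d e f, s14 c b a d e f, s12 d b a c e f,
      s23 b d a c e f, s12 b a d c e f]
    abel
  intro a b c d e f
  have h0 := hP (a * b) (c * d) (e * f)
  simp only [← mul_assoc] at h0
  -- the orders of the three blocks
  have b23 : ∀ a b c d e f : R, a * b * e * f * c * d = a * b * c * d * e * f := by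
    intro a b c d e f
    rw [s45 a b e f c d, s34 a b e c f d, s56 a b c e f d, s45 a b c e d f]
    abel
  have b12 : ∀ a b c d e f : R, c * d * a * b * e * f = a * b * c * d * e * f := by
    intro a b c d e f
    rw [s23 c d a b e f, s12 c a d b e f, s34 a c d b e f, s23 a c b d e f]
    abel
  have e1 : a * b * e * f * c * d = a * b * c * d * e * f := b23 a b c d e f
  have e2 : c * d * a * b * e * f = a * b * c * d * e * f := b12 a b c d e f
  have e3 : c * d * e * f * a * b = a * b * c * d * e * f := by rw [b23 c d a b e f, e2]
  have e4 : e * f * a * b * c * d = a * b * c * d * e * f := by rw [b12 a b e f c d, e1]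
  have e5 : e * f * c * d * a * b = a * b * c * d * e * f := by rw [b23 e f a b c d, e4]
  rw [e1, e2, e3, e4, e5] at h0
  apply hN.tf
  linear_combination (norm := module) h0

end Pool.Agent.CRK
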