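import Pool.Agent.CRK.St

/-!
Campaign CRK, statement Sxb.
-/

set_option autoImplicit false

namespace Pool.Agent.CRK

open Pool.Agent.CRR Pool.Agent.CRN

theorem thm_Sxb (hSxa : St_Sxa) : St_Sxb := by
  intro R _ hN l hl
  match l, hl with
  | a :: b :: c :: d :: e :: f :: l, _ =>
    change a * (b * (c * (d * (e * wp (f :: l))))) = 0
    have h := hSxa R hN a b c d e (wp (f :: l))
    simpa only [mul_assoc] using h

end Pool.Agent.CRK
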