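import Pool.Agent.CRK.St

/-!
# CRK, module SXD: `a xx yy f = 0`
-/

set_option autoImplicit false

namespace Pool.Agent.CRK

theorem thm_Sxd (hIda : St_Ida) (_ : St_Idb) (hHig : St_Hig) (hKan : St_Kan) (hSra : St_Sra) :
    St_Sxd := by
  intro R _ h a x y f
  obtain ⟨-, -, -, hq⟩ := hIda R h
  obtain ⟨-, -, g3, -⟩ := hHig R h
  obtain ⟨s1, s2, s3, -⟩ := hSra R h
  have hk := ((hKan R h x y).2 a f).2.1
  have s3' : a * y * x * f * x * y + y * a * x * f * x * y = 0 := by
    rw [s3, neg_add_cancel]
  have key : a * x * x * y * y * f =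
      a * (y * y * (x * f * x) + y * (x * f * x) * y + (x * f * x) * y * y)
        + (y * y * (a * x * f * x) + y * (a * x * f * x) * y + (a * x * f * x) * y * y)
        - a * (y * y * x * (f * x + x * f))
        + a * (x * x * y * y + y * y * x * x) * f
        - (2 : ℤ) • (a * x * f * x * y * y)
        - (a * y * x * f * x * y + y * a * x * f * x * y) - y * y * a * x * f * x := by
    simp only [mul_add, add_mul, ← mul_assoc]
    abel
  rw [key, hq, hq, g3, hk, s2, s3', s1]
  simp only [mul_zero, smul_zero, add_zero, sub_self]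

end Pool.Agent.CRK
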