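import Pool.Agent.CRK.St

/-!
# CRK, module SXE: `a xx d e f = 0` and `a d e xx f = 0`
-/

set_option autoImplicit false

namespace Pool.Agent.CRK

theorem thm_Sxe (hIda : St_Ida) (_ : St_Hig) (hSra : St_Sra) (_ : St_Sxd) : St_Sxe := by
  intro R _ h a x d e f
  obtain ⟨-, h3, -, hq⟩ := hIda R h
  obtain ⟨g1, g2, g3, g4⟩ := hSra R h
  have k1 : a * d * e * x * x * f = a * x * d * e * x * f := by
    have key : a * d * e * x * x * f - a * x * d * e * x * f =
        (x * x * (a * d * e) + x * (a * d * e) * x + a * d * e * x * x) * f -
          x * x * a * d * e * f - (x * a * d * e * x * f + a * x * d * e * x * f) := by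
      simp only [mul_add, add_mul, ← mul_assoc]
      abel
    rw [← sub_eq_zero, key, hq, g1, g3 x a d e x f, neg_add_cancel, zero_mul, sub_zero, sub_zero]
  have k2 : a * x * x * d * e * f = a * x * d * e * x * f := by
    have key : a * x * x * d * e * f - a * x * d * e * x * f =
        a * (x * x * (d * e * f) + x * (d * e * f) * x + d * e * f * x * x) -
          a * d * e * f * x * x - (a * x * d * e * f * x + a * x * d * e * x * f) := by
      simp only [mul_add, ← mul_assoc]
      abel
    rw [← sub_eq_zero, key, hq, g2, g4 f x e (a) (x) (d), mul_zero, sub_zero, neg_add_cancel,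
      sub_zero]
  have k3 : a * x * x * d * e * f + a * x * d * e * x * f + a * d * e * x * x * f = 0 := by
    have key : a * x * x * d * e * f + a * x * d * e * x * f + a * d * e * x * x * f =
        a * (x * x * (d * e) + x * (d * e) * x + d * e * x * x) * f := by
      simp only [mul_add, add_mul, ← mul_assoc]
    rw [key, hq, mul_zero, zero_mul]
  have k4 : a * x * d * e * x * f = 0 := by
    apply h3
    rw [k1, k2] at k3
    have : (3 : ℤ) • (a * x * d * e * x * f) =
        a * x * d * e * x * f + a * x * d * e * x * f + a * x * d * e * x * f := by abel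
    rw [this, k3]
  exact ⟨by rw [k2, k4], by rw [k1, k4]⟩

end Pool.Agent.CRK
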