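import Pool.Agent.CRK.St

/-!
Campaign CRK, statement Wib.
-/

set_option autoImplicit false

namespace Pool.Agent.CRK

open Pool.Agent.CRR Pool.Agent.CRN

theorem Wib_univ : (Finset.univ : Finset (Equiv.Perm (Fin 3))) =
    {1, Equiv.swap 0 1, Equiv.swap 0 2, Equiv.swap 1 2, Equiv.swap 0 1 * Equiv.swap 1 2,
      Equiv.swap 1 2 * Equiv.swap 0 1} := by decide

theorem Wib_sum {M : Type} [AddCommGroup M] (f : Equiv.Perm (Fin 3) → M) :
    ∑ π : Equiv.Perm (Fin 3), ((Equiv.Perm.sign π : ℤˣ) : ℤ) • f π =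
      f 1 - f (Equiv.swap 0 1) - f (Equiv.swap 0 2) - f (Equiv.swap 1 2) +
        f (Equiv.swap 0 1 * Equiv.swap 1 2) + f (Equiv.swap 1 2 * Equiv.swap 0 1) := by
  rw [Wib_univ, Finset.sum_insert (by decide), Finset.sum_insert (by decide),
    Finset.sum_insert (by decide), Finset.sum_insert (by decide), Finset.sum_insert (by decide),
    Finset.sum_singleton]
  have h1 : ((Equiv.Perm.sign (1 : Equiv.Perm (Fin 3)) : ℤˣ) : ℤ) = 1 := by decide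
  have h2 : ((Equiv.Perm.sign (Equiv.swap 0 1 : Equiv.Perm (Fin 3)) : ℤˣ) : ℤ) = -1 := by decide
  have h3 : ((Equiv.Perm.sign (Equiv.swap 0 2 : Equiv.Perm (Fin 3)) : ℤˣ) : ℤ) = -1 := by decide
  have h4 : ((Equiv.Perm.sign (Equiv.swap 1 2 : Equiv.Perm (Fin 3)) : ℤˣ) : ℤ) = -1 := by decide
  have h5 : ((Equiv.Perm.sign (Equiv.swap 0 1 * Equiv.swap 1 2 : Equiv.Perm (Fin 3)) : ℤˣ) : ℤ) = 1 := by
    decide
  have h6 : ((Equiv.Perm.sign (Equiv.swap 1 2 * Equiv.swap 0 1 : Equiv.Perm (Fin 3)) : ℤˣ) : ℤ) = 1 := by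
    decide
  rw [h1, h2, h3, h4, h5, h6]
  simp only [one_smul, neg_smul]
  abel

/-- The expansion of the four sums. -/
theorem Wib_exp {R : Type} [NonUnitalRing R] (x : R) (a : Fin 3 → R) :
    Wi 0 x a = x * (a 0 * (a 1 * a 2)) - x * (a 1 * (a 0 * a 2)) - x * (a 2 * (a 1 * a 0)) -
      x * (a 0 * (a 2 * a 1)) + x * (a 1 * (a 2 * a 0)) + x * (a 2 * (a 0 * a 1)) ∧
    Wi 1 x a = a 0 * (x * (a 1 * a 2)) - a 1 * (x * (a 0 * a 2)) - a 2 * (x * (a 1 * a 0)) -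
      a 0 * (x * (a 2 * a 1)) + a 1 * (x * (a 2 * a 0)) + a 2 * (x * (a 0 * a 1)) ∧
    Wi 2 x a = a 0 * (a 1 * (x * a 2)) - a 1 * (a 0 * (x * a 2)) - a 2 * (a 1 * (x * a 0)) -
      a 0 * (a 2 * (x * a 1)) + a 1 * (a 2 * (x * a 0)) + a 2 * (a 0 * (x * a 1)) ∧
    Wi 3 x a = a 0 * (a 1 * (a 2 * x)) - a 1 * (a 0 * (a 2 * x)) - a 2 * (a 1 * (a 0 * x)) -
      a 0 * (a 2 * (a 1 * x)) + a 1 * (a 2 * (a 0 * x)) + a 2 * (a 0 * (a 1 * x)) := by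
  refine ⟨?_, ?_, ?_, ?_⟩
  · exact Wib_sum (fun π => wp (List.ofFn (Fin.insertNth 0 x (fun i => a (π i)) : Fin 4 → R)))
  · exact Wib_sum (fun π => wp (List.ofFn (Fin.insertNth 1 x (fun i => a (π i)) : Fin 4 → R)))
  · exact Wib_sum (fun π => wp (List.ofFn (Fin.insertNth 2 x (fun i => a (π i)) : Fin 4 → R)))
  · exact Wib_sum (fun π => wp (List.ofFn (Fin.insertNth 3 x (fun i => a (π i)) : Fin 4 → R)))

theorem thm_Wib : St_Wib := by
  intro R _ x y z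
  obtain ⟨h0, h1, h2, h3⟩ := Wib_exp x ![x, y, z]
  rw [h0, h1, h2, h3]
  simp only [Matrix.cons_val_zero, Matrix.cons_val_one, Matrix.cons_val_two,
    Matrix.head_cons, Matrix.tail_cons]
  abel

end Pool.Agent.CRK
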