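import Pool.Agent.CRK.St

/-!
Campaign CRK, statement Wic.
-/

set_option autoImplicit false

namespace Pool.Agent.CRK

open Pool.Agent.CRR Pool.Agent.CRN

/-- The word of `b` with `x` at position `j`. -/
def WicW {R : Type} [NonUnitalRing R] (j : Fin 5) (x : R) (b : Fin 4 → R) : R :=
  wp (List.ofFn (Fin.insertNth j x b : Fin 5 → R))

theorem Wic_re {R : Type} [NonUnitalRing R] (j : Fin 5) (x : R) (a : Fin 4 → R)
    (ρ : Equiv.Perm (Fin 4)) :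
    ∑ π : Equiv.Perm (Fin 4), ((Equiv.Perm.sign π : ℤˣ) : ℤ) •
      WicW j x (fun i => a (π (ρ i))) = ((Equiv.Perm.sign ρ : ℤˣ) : ℤ) • Wi j x a := by
  unfold Wi
  rw [Finset.smul_sum]
  rw [← Equiv.sum_comp (Equiv.mulRight ρ) (fun π : Equiv.Perm (Fin 4) =>
    ((Equiv.Perm.sign ρ : ℤˣ) : ℤ) • ((Equiv.Perm.sign π : ℤˣ) : ℤ) •
      wp (List.ofFn (Fin.insertNth j x (fun i => a (π i)) : Fin 5 → R)))]
  refine Finset.sum_congr rfl ?_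
  intro π _
  rw [Equiv.coe_mulRight, smul_smul, Equiv.Perm.sign_mul]
  have h1 : ((Equiv.Perm.sign ρ : ℤˣ) : ℤ) * (((Equiv.Perm.sign π * Equiv.Perm.sign ρ : ℤˣ)) : ℤ) =
      ((Equiv.Perm.sign π : ℤˣ) : ℤ) := by
    push_cast
    have h2 : ((Equiv.Perm.sign ρ : ℤˣ) : ℤ) * ((Equiv.Perm.sign ρ : ℤˣ) : ℤ) = 1 := by
      rw [← Units.val_mul, Int.units_mul_self, Units.val_one]
    linear_combination ((Equiv.Perm.sign π : ℤˣ) : ℤ) * h2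
  rw [h1]
  rfl

/-- The signed sum of an identity. -/
theorem Wic_id {R : Type} [NonUnitalRing R] (x : R) (a : Fin 4 → R) (k : ℕ)
    (j : Fin k → Fin 5) (ρ : Fin k → Equiv.Perm (Fin 4))
    (h : ∀ b : Fin 4 → R, ∑ l, WicW (j l) x (fun i => b (ρ l i)) = 0) :
    ∑ l, ((Equiv.Perm.sign (ρ l) : ℤˣ) : ℤ) • Wi (j l) x a = 0 := by
  have h1 : ∑ l, ((Equiv.Perm.sign (ρ l) : ℤˣ) : ℤ) • Wi (j l) x a =
      ∑ l, ∑ π : Equiv.Perm (Fin 4), ((Equiv.Perm.sign π : ℤˣ) : ℤ) •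
        WicW (j l) x (fun i => a (π (ρ l i))) :=
    Finset.sum_congr rfl (fun l _ => (Wic_re (j l) x a (ρ l)).symm)
  rw [h1, Finset.sum_comm]
  apply Finset.sum_eq_zero
  intro π _
  rw [← Finset.smul_sum, h (fun i => a (π i)), smul_zero]

def Wic0 : Equiv.Perm (Fin 4) := ⟨![0, 1, 2, 3], ![0, 1, 2, 3], by decide, by decide⟩
def Wic1 : Equiv.Perm (Fin 4) := ⟨![0, 1, 3, 2], ![0, 1, 3, 2], by decide, by decide⟩
def Wic2 : Equiv.Perm (Fin 4) := ⟨![2, 0, 1, 3], ![1, 2, 0, 3], by decide, by decide⟩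
def Wic3 : Equiv.Perm (Fin 4) := ⟨![2, 3, 0, 1], ![2, 3, 0, 1], by decide, by decide⟩
def Wic4 : Equiv.Perm (Fin 4) := ⟨![3, 0, 1, 2], ![1, 2, 3, 0], by decide, by decide⟩
def Wic5 : Equiv.Perm (Fin 4) := ⟨![3, 2, 0, 1], ![2, 3, 1, 0], by decide, by decide⟩
def Wic6 : Equiv.Perm (Fin 4) := ⟨![1, 2, 3, 0], ![3, 0, 1, 2], by decide, by decide⟩

theorem Wic_s0 : ((Equiv.Perm.sign Wic0 : ℤˣ) : ℤ) = 1 := by decide
theorem Wic_s1 : ((Equiv.Perm.sign Wic1 : ℤˣ) : ℤ) = -1 := by decide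
theorem Wic_s2 : ((Equiv.Perm.sign Wic2 : ℤˣ) : ℤ) = 1 := by decide
theorem Wic_s3 : ((Equiv.Perm.sign Wic3 : ℤˣ) : ℤ) = 1 := by decide
theorem Wic_s4 : ((Equiv.Perm.sign Wic4 : ℤˣ) : ℤ) = -1 := by decide
theorem Wic_s5 : ((Equiv.Perm.sign Wic5 : ℤˣ) : ℤ) = -1 := by decide
theorem Wic_s6 : ((Equiv.Perm.sign Wic6 : ℤˣ) : ℤ) = -1 := by decide

theorem Wic_I0 {R : Type} [NonUnitalRing R] (x : R)
    (hP : ∀ a b c : R, a * b * c + a * c * b + b * a * c + b * c * a + c * a * b + c * b * a = 0)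
    (a : Fin 4 → R) : (2 : ℤ) • Wi 4 x a + (2 : ℤ) • Wi 2 x a + (2 : ℤ) • Wi 0 x a = 0 := by
  have h := Wic_id x a 6 ![4, 2, 4, 2, 0, 0] ![Wic0, Wic0, Wic3, Wic3, Wic0, Wic3] ?_
  · simp only [Fin.sum_univ_succ, Fin.sum_univ_zero] at h
    change ((Equiv.Perm.sign Wic0 : ℤˣ) : ℤ) • Wi 4 x a + (((Equiv.Perm.sign Wic0 : ℤˣ) : ℤ) • Wi 2 x a +
      (((Equiv.Perm.sign Wic3 : ℤˣ) : ℤ) • Wi 4 x a + (((Equiv.Perm.sign Wic3 : ℤˣ) : ℤ) • Wi 2 x a +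
      (((Equiv.Perm.sign Wic0 : ℤˣ) : ℤ) • Wi 0 x a + (((Equiv.Perm.sign Wic3 : ℤˣ) : ℤ) • Wi 0 x a + 0)))))
      = 0 at h
    rw [Wic_s0, Wic_s3] at h
    linear_combination (norm := module) h
  · intro b
    have e := hP (b 0 * b 1) (b 2 * b 3) x
    simp only [Fin.sum_univ_succ, Fin.sum_univ_zero]
    change b 0 * (b 1 * (b 2 * (b 3 * x))) + (b 0 * (b 1 * (x * (b 2 * b 3))) +
      (b 2 * (b 3 * (b 0 * (b 1 * x))) + (b 2 * (b 3 * (x * (b 0 * b 1))) +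
      (x * (b 0 * (b 1 * (b 2 * b 3))) + (x * (b 2 * (b 3 * (b 0 * b 1))) + 0))))) = 0
    simp only [mul_assoc] at e
    linear_combination (norm := module) e

theorem Wic_I1 {R : Type} [NonUnitalRing R] (x : R)
    (hP : ∀ a b c : R, a * b * c + a * c * b + b * a * c + b * c * a + c * a * b + c * b * a = 0)
    (a : Fin 4 → R) : (2 : ℤ) • Wi 4 x a - Wi 3 x a + Wi 2 x a - (2 : ℤ) • Wi 1 x a = 0 := by
  have h := Wic_id x a 6 ![4, 3, 4, 2, 1, 1] ![Wic0, Wic1, Wic2, Wic3, Wic4, Wic5] ?_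
  · simp only [Fin.sum_univ_succ, Fin.sum_univ_zero] at h
    change ((Equiv.Perm.sign Wic0 : ℤˣ) : ℤ) • Wi 4 x a + (((Equiv.Perm.sign Wic1 : ℤˣ) : ℤ) • Wi 3 x a +
      (((Equiv.Perm.sign Wic2 : ℤˣ) : ℤ) • Wi 4 x a + (((Equiv.Perm.sign Wic3 : ℤˣ) : ℤ) • Wi 2 x a +
      (((Equiv.Perm.sign Wic4 : ℤˣ) : ℤ) • Wi 1 x a + (((Equiv.Perm.sign Wic5 : ℤˣ) : ℤ) • Wi 1 x a + 0)))))
      = 0 at h
    rw [Wic_s0, Wic_s1, Wic_s2, Wic_s3, Wic_s4, Wic_s5] at h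
    linear_combination (norm := module) h
  · intro b
    have e := hP (b 0 * b 1) (b 2) (b 3 * x)
    simp only [Fin.sum_univ_succ, Fin.sum_univ_zero]
    change b 0 * (b 1 * (b 2 * (b 3 * x))) + (b 0 * (b 1 * (b 3 * (x * b 2))) +
      (b 2 * (b 0 * (b 1 * (b 3 * x))) + (b 2 * (b 3 * (x * (b 0 * b 1))) +
      (b 3 * (x * (b 0 * (b 1 * b 2))) + (b 3 * (x * (b 2 * (b 0 * b 1))) + 0))))) = 0
    simp only [mul_assoc] at e
    linear_combination (norm := module) e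

theorem Wic_I2 {R : Type} [NonUnitalRing R] (x : R)
    (hP : ∀ a b c : R, a * b * c + a * c * b + b * a * c + b * c * a + c * a * b + c * b * a = 0)
    (a : Fin 4 → R) : (2 : ℤ) • Wi 3 x a - Wi 2 x a + Wi 1 x a - (2 : ℤ) • Wi 0 x a = 0 := by
  have h := Wic_id x a 6 ![3, 2, 3, 1, 0, 0] ![Wic0, Wic1, Wic2, Wic3, Wic4, Wic5] ?_
  · simp only [Fin.sum_univ_succ, Fin.sum_univ_zero] at h
    change ((Equiv.Perm.sign Wic0 : ℤˣ) : ℤ) • Wi 3 x a + (((Equiv.Perm.sign Wic1 : ℤˣ) : ℤ) • Wi 2 x a +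
      (((Equiv.Perm.sign Wic2 : ℤˣ) : ℤ) • Wi 3 x a + (((Equiv.Perm.sign Wic3 : ℤˣ) : ℤ) • Wi 1 x a +
      (((Equiv.Perm.sign Wic4 : ℤˣ) : ℤ) • Wi 0 x a + (((Equiv.Perm.sign Wic5 : ℤˣ) : ℤ) • Wi 0 x a + 0)))))
      = 0 at h
    rw [Wic_s0, Wic_s1, Wic_s2, Wic_s3, Wic_s4, Wic_s5] at h
    linear_combination (norm := module) h
  · intro b
    have e := hP (b 0 * b 1) (b 2) (x * b 3)
    simp only [Fin.sum_univ_succ, Fin.sum_univ_zero]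
    change b 0 * (b 1 * (b 2 * (x * b 3))) + (b 0 * (b 1 * (x * (b 3 * b 2))) +
      (b 2 * (b 0 * (b 1 * (x * b 3))) + (b 2 * (x * (b 3 * (b 0 * b 1))) +
      (x * (b 3 * (b 0 * (b 1 * b 2))) + (x * (b 3 * (b 2 * (b 0 * b 1))) + 0))))) = 0
    simp only [mul_assoc] at e
    linear_combination (norm := module) e

theorem Wic_I3 {R : Type} [NonUnitalRing R] (x : R)
    (hP : ∀ a b c : R, a * b * c + a * c * b + b * a * c + b * c * a + c * a * b + c * b * a = 0)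
    (a : Fin 4 → R) : Wi 1 x a - Wi 3 x a = 0 := by
  have h := Wic_id x a 6 ![0, 0, 1, 4, 3, 4] ![Wic0, Wic6, Wic0, Wic0, Wic6, Wic6] ?_
  · simp only [Fin.sum_univ_succ, Fin.sum_univ_zero] at h
    change ((Equiv.Perm.sign Wic0 : ℤˣ) : ℤ) • Wi 0 x a + (((Equiv.Perm.sign Wic6 : ℤˣ) : ℤ) • Wi 0 x a +
      (((Equiv.Perm.sign Wic0 : ℤˣ) : ℤ) • Wi 1 x a + (((Equiv.Perm.sign Wic0 : ℤˣ) : ℤ) • Wi 4 x a +
      (((Equiv.Perm.sign Wic6 : ℤˣ) : ℤ) • Wi 3 x a + (((Equiv.Perm.sign Wic6 : ℤˣ) : ℤ) • Wi 4 x a + 0)))))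
      = 0 at h
    rw [Wic_s0, Wic_s6] at h
    linear_combination (norm := module) h
  · intro b
    have e := hP x (b 0) (b 1 * (b 2 * b 3))
    simp only [Fin.sum_univ_succ, Fin.sum_univ_zero]
    change x * (b 0 * (b 1 * (b 2 * b 3))) + (x * (b 1 * (b 2 * (b 3 * b 0))) +
      (b 0 * (x * (b 1 * (b 2 * b 3))) + (b 0 * (b 1 * (b 2 * (b 3 * x))) +
      (b 1 * (b 2 * (b 3 * (x * b 0))) + (b 1 * (b 2 * (b 3 * (b 0 * x))) + 0))))) = 0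
    simp only [mul_assoc] at e
    linear_combination (norm := module) e

theorem thm_Wic (hIda : St_Ida) : St_Wic := by
  intro R _ hN x a
  obtain ⟨h2, _, hP, _⟩ := hIda R hN
  have e0 := Wic_I0 x hP a
  have e1 := Wic_I1 x hP a
  have e2 := Wic_I2 x hP a
  have e3 := Wic_I3 x hP a
  have w1 : Wi 1 x a = 0 := by
    apply hN.tf
    linear_combination (norm := module) e0 - e1 + e2 + (3 : ℤ) • e3
  have w3 : Wi 3 x a = 0 := by
    linear_combination (norm := module) w1 - e3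
  have w2 : Wi 2 x a = (-2 : ℤ) • Wi 0 x a := by
    linear_combination (norm := module) (2 : ℤ) • w3 + w1 - e2
  refine ⟨w1, w3, w2, ?_⟩
  rw [← sub_eq_zero]
  apply h2
  linear_combination (norm := module) e1 + w3 - w2 + (2 : ℤ) • w1

end Pool.Agent.CRK
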