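import Pool.Agent.CRK.St

/-!
Campaign CRK, statement Wid.
-/

set_option autoImplicit false

namespace Pool.Agent.CRK

open Pool.Agent.CRR Pool.Agent.CRN

theorem Wid_wp_cons {R : Type} [NonUnitalRing R] (x : R) (l : List R) (hl : l ≠ []) :
    wp (x :: l) = x * wp l := by
  cases l with
  | nil => exact absurd rfl hl
  | cons y l => rfl

theorem Wid_wp_append {R : Type} [NonUnitalRing R] (x : R) (l : List R) (hl : l ≠ []) :
    wp (l ++ [x]) = wp l * x := by
  induction l with
  | nil => exact absurd rfl hl
  | cons y l ih =>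
    by_cases h : l = []
    · subst h
      rfl
    · rw [List.cons_append, Wid_wp_cons y (l ++ [x]) (by simp), ih h, Wid_wp_cons y l h, mul_assoc]

theorem thm_Wid : St_Wid := by
  intro R _ n x a
  refine ⟨?_, ?_⟩
  · unfold Wi stp
    rw [Finset.mul_sum]
    refine Finset.sum_congr rfl ?_
    intro π _
    rw [mul_smul_comm, Fin.insertNth_zero, ← Wid_wp_cons x _ (by simp)]
    congr 2
    rw [List.ofFn_succ]
    simp only [Fin.cons_zero, Fin.cons_succ]
    rfl
  · unfold Wi stp
    rw [Finset.sum_mul]
    refine Finset.sum_congr rfl ?_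
    intro π _
    rw [smul_mul_assoc, Fin.insertNth_last, ← Wid_wp_append x _ (by simp)]
    congr 2
    rw [List.ofFn_succ']
    simp only [Fin.snoc_castSucc, Fin.snoc_last, List.concat_eq_append]
    rfl

end Pool.Agent.CRK
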