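import Pool.Agent.CRK.St

/-!
Campaign CRK: module `Wrd`, term functions as combinations of words which contain all letters.
-/

set_option autoImplicit false

namespace Pool.Agent.CRK

open Pool.Agent.CRR Pool.Agent.CRN

theorem Wrd_wp_append {R : Type} [NonUnitalRing R] (w w' : List R) (h : w ≠ []) (h' : w' ≠ []) :
    wp (w ++ w') = wp w * wp w' := by
  induction w with
  | nil => exact absurd rfl h
  | cons x l ih =>
    cases l with
    | nil =>
      cases w' with
      | nil => exact absurd rfl h'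
      | cons y l' => rfl
    | cons y l =>
      have h1 := ih (by simp)
      show x * wp (y :: l ++ w') = (x * wp (y :: l)) * wp w'
      rw [h1, mul_assoc]

theorem Wrd_wp_zero {R : Type} [NonUnitalRing R] (w : List R) (h : (0 : R) ∈ w) : wp w = 0 := by
  induction w with
  | nil => rfl
  | cons x l ih =>
    cases l with
    | nil =>
      rw [List.mem_singleton] at h
      exact h.symm
    | cons y l =>
      show x * wp (y :: l) = 0
      rcases List.mem_cons.1 h with h1 | h1
      · rw [← h1, zero_mul]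
      · rw [ih h1, mul_zero]

theorem Wrd_ev_nil {R : Type} [NonUnitalRing R] (v : ℕ → R) : ev [] v = 0 := rfl

theorem Wrd_ev_cons {R : Type} [NonUnitalRing R] (p : ℤ × List ℕ) (L : List (ℤ × List ℕ))
    (v : ℕ → R) : ev (p :: L) v = p.1 • wp (p.2.map v) + ev L v := by
  unfold ev
  rw [List.map_cons, List.sum_cons]

theorem Wrd_ev_append {R : Type} [NonUnitalRing R] (L L' : List (ℤ × List ℕ)) (v : ℕ → R) :
    ev (L ++ L') v = ev L v + ev L' v := by
  unfold ev
  rw [List.map_append, List.sum_append]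

theorem Wrd_ev_filter {R : Type} [NonUnitalRing R] (P : ℤ × List ℕ → Bool)
    (L : List (ℤ × List ℕ)) (v : ℕ → R) :
    ev L v = ev (L.filter P) v + ev (L.filter (fun p => !P p)) v := by
  induction L with
  | nil => simp [Wrd_ev_nil]
  | cons p L ih =>
    rw [Wrd_ev_cons, ih]
    cases h : P p
    · rw [List.filter_cons_of_neg (by simp [h]), List.filter_cons_of_pos (by simp [h]),
        Wrd_ev_cons]
      abel
    · rw [List.filter_cons_of_pos (by simp [h]), List.filter_cons_of_neg (by simp [h]),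
        Wrd_ev_cons]
      abel

theorem Wrd_ev_zero {R : Type} [NonUnitalRing R] (L : List (ℤ × List ℕ)) (v : ℕ → R)
    (h : ∀ p ∈ L, ∃ i ∈ p.2, v i = 0) : ev L v = 0 := by
  induction L with
  | nil => rfl
  | cons p L ih =>
    rw [Wrd_ev_cons, ih fun q hq => h q (List.mem_cons_of_mem _ hq)]
    obtain ⟨i, h1, h2⟩ := h p List.mem_cons_self
    rw [Wrd_wp_zero, smul_zero, zero_add]
    rw [← h2]
    exact List.mem_map.2 ⟨i, h1, rfl⟩

theorem Wrd_ev_congr {R : Type} [NonUnitalRing R] (L : List (ℤ × List ℕ)) (v v' : ℕ → R)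
    (h : ∀ p ∈ L, ∀ i ∈ p.2, v i = v' i) : ev L v = ev L v' := by
  induction L with
  | nil => rfl
  | cons p L ih =>
    rw [Wrd_ev_cons, Wrd_ev_cons, ih fun q hq => h q (List.mem_cons_of_mem _ hq),
      List.map_congr_left (h p List.mem_cons_self)]

theorem Wrd_ev_neg {R : Type} [NonUnitalRing R] (L : List (ℤ × List ℕ)) (v : ℕ → R) :
    ev (L.map fun p => (-p.1, p.2)) v = -(ev L v) := by
  induction L with
  | nil => simp [Wrd_ev_nil]
  | cons p L ih =>
    rw [List.map_cons, Wrd_ev_cons, Wrd_ev_cons, ih]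
    simp only [neg_smul]
    abel

theorem Wrd_ev_mul_one {R : Type} [NonUnitalRing R] (p : ℤ × List ℕ) (hp : p.2 ≠ [])
    (L : List (ℤ × List ℕ)) (hL : ∀ q ∈ L, q.2 ≠ []) (v : ℕ → R) :
    ev (L.map fun q => (p.1 * q.1, p.2 ++ q.2)) v = (p.1 • wp (p.2.map v)) * ev L v := by
  induction L with
  | nil => simp [Wrd_ev_nil]
  | cons q L ih =>
    have h1 : ∀ a b : R, (p.1 * q.1) • (a * b) = (p.1 • a) * (q.1 • b) := fun a b => by
      rw [mul_smul, smul_mul_assoc, mul_smul_comm]
    rw [List.map_cons, Wrd_ev_cons, Wrd_ev_cons, ih fun q hq => hL q (List.mem_cons_of_mem _ hq),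
      mul_add, List.map_append, Wrd_wp_append _ _ (by simpa using hp)
        (by simpa using hL q List.mem_cons_self), h1]

theorem Wrd_ev_mul {R : Type} [NonUnitalRing R] (L L' : List (ℤ × List ℕ))
    (hL : ∀ p ∈ L, p.2 ≠ []) (hL' : ∀ q ∈ L', q.2 ≠ []) (v : ℕ → R) :
    ev (L.flatMap fun p => L'.map fun q => (p.1 * q.1, p.2 ++ q.2)) v = ev L v * ev L' v := by
  induction L with
  | nil => simp [Wrd_ev_nil]
  | cons p L ih =>
    rw [List.flatMap_cons, Wrd_ev_append, Wrd_ev_cons, add_mul,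
      Wrd_ev_mul_one p (hL p List.mem_cons_self) L' hL',
      ih fun q hq => hL q (List.mem_cons_of_mem _ hq)]

theorem Wrd_term (t : RTerm) : ∃ L : List (ℤ × List ℕ), (∀ p ∈ L, p.2 ≠ []) ∧
    ∀ (R : Type) [NonUnitalRing R] (v : ℕ → R), t.eval v = ev L v := by
  induction t with
  | var i =>
    refine ⟨[(1, [i])], by simp, fun R _ v => ?_⟩
    rw [Wrd_ev_cons, Wrd_ev_nil, add_zero, one_smul]
    rfl
  | add s t hs ht =>
    obtain ⟨L, h1, h2⟩ := hs
    obtain ⟨L', h1', h2'⟩ := ht
    refine ⟨L ++ L', fun p hp => ?_, fun R _ v => ?_⟩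
    · rcases List.mem_append.1 hp with h | h
      · exact h1 p h
      · exact h1' p h
    · rw [Wrd_ev_append, ← h2, ← h2']
      rfl
  | neg s hs =>
    obtain ⟨L, h1, h2⟩ := hs
    refine ⟨L.map fun p => (-p.1, p.2), fun p hp => ?_, fun R _ v => ?_⟩
    · obtain ⟨q, hq, rfl⟩ := List.mem_map.1 hp
      exact h1 q hq
    · rw [Wrd_ev_neg, ← h2]
      rfl
  | mul s t hs ht =>
    obtain ⟨L, h1, h2⟩ := hs
    obtain ⟨L', h1', h2'⟩ := ht
    refine ⟨L.flatMap fun p => L'.map fun q => (p.1 * q.1, p.2 ++ q.2), fun p hp => ?_,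
      fun R _ v => ?_⟩
    · obtain ⟨q, hq, hq'⟩ := List.mem_flatMap.1 hp
      obtain ⟨r, hr, rfl⟩ := List.mem_map.1 hq'
      have := h1 q hq
      simp [this]
    · rw [Wrd_ev_mul L L' h1 h1', ← h2, ← h2']
      rfl

theorem thm_Wrd : St_Wrd := by
  intro R _ m φ hφ hdep hzer
  obtain ⟨t, ht⟩ := hφ
  obtain ⟨L₀, h1, h2⟩ := Wrd_term t
  -- the words without letters `≥ m`
  have step1 : ∃ L : List (ℤ × List ℕ), (∀ p ∈ L, p.2 ≠ [] ∧ ∀ i ∈ p.2, i < m) ∧
      ∀ v, φ v = ev L v := by
    refine ⟨L₀.filter (fun p => decide (∀ i ∈ p.2, i < m)), ?_, fun v => ?_⟩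
    · intro p hp
      obtain ⟨h3, h4⟩ := List.mem_filter.1 hp
      exact ⟨h1 p h3, of_decide_eq_true h4⟩
    · have h3 : φ v = φ (fun i => if i < m then v i else 0) :=
        hdep _ _ fun i hi => by rw [if_pos hi]
      rw [h3, ← ht, h2, Wrd_ev_filter (fun p => decide (∀ i ∈ p.2, i < m)),
        Wrd_ev_zero (L₀.filter (fun p => !decide (∀ i ∈ p.2, i < m))), add_zero]
      · refine Wrd_ev_congr _ _ _ fun p hp i hi => ?_
        have h5 : ∀ i ∈ p.2, i < m := of_decide_eq_true (List.mem_filter.1 hp).2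
        rw [if_pos (h5 i hi)]
      · intro p hp
        have h5 := (List.mem_filter.1 hp).2
        simp only [Bool.not_eq_true', decide_eq_false_iff_not, not_forall] at h5
        obtain ⟨i, hi, h6⟩ := h5
        exact ⟨i, hi, by rw [if_neg h6]⟩
  -- induction over the letters
  have step2 : ∀ k, k ≤ m → ∃ L : List (ℤ × List ℕ), (∀ p ∈ L, p.2 ≠ [] ∧ (∀ i ∈ p.2, i < m) ∧
      ∀ i, i < k → i ∈ p.2) ∧ ∀ v, φ v = ev L v := by
    intro k
    induction k with
    | zero =>
      intro _
      obtain ⟨L, h3, h4⟩ := step1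
      exact ⟨L, fun p hp => ⟨(h3 p hp).1, (h3 p hp).2, fun i hi => absurd hi (Nat.not_lt_zero i)⟩,
        h4⟩
    | succ k ih =>
      intro hk
      obtain ⟨L, h3, h4⟩ := ih (by omega)
      refine ⟨L.filter (fun p => decide (k ∈ p.2)), ?_, fun v => ?_⟩
      · intro p hp
        obtain ⟨h5, h6⟩ := List.mem_filter.1 hp
        have h7 : k ∈ p.2 := of_decide_eq_true h6
        obtain ⟨h8, h9, h10⟩ := h3 p h5
        refine ⟨h8, h9, fun i hi => ?_⟩
        rcases Nat.lt_succ_iff_lt_or_eq.1 hi with h | h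
        · exact h10 i h
        · rw [h]
          exact h7
      · have h5 : ev (L.filter (fun p => !decide (k ∈ p.2))) v = 0 := by
          have h6 : φ (Function.update v k 0) = 0 :=
            hzer _ k (by omega) (Function.update_self _ _ _)
          rw [h4, Wrd_ev_filter (fun p => decide (k ∈ p.2)),
            Wrd_ev_zero (L.filter (fun p => decide (k ∈ p.2))), zero_add] at h6
          · rw [← h6]
            refine Wrd_ev_congr _ _ _ fun p hp i hi => ?_
            have h7 := (List.mem_filter.1 hp).2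
            simp only [Bool.not_eq_true', decide_eq_false_iff_not] at h7
            rw [Function.update_of_ne]
            rintro rfl
            exact h7 hi
          · intro p hp
            exact ⟨k, of_decide_eq_true (List.mem_filter.1 hp).2, Function.update_self _ _ _⟩
        rw [h4, Wrd_ev_filter (fun p => decide (k ∈ p.2)), h5, add_zero]
  obtain ⟨L, h3, h4⟩ := step2 m le_rfl
  exact ⟨L, fun p hp => ⟨(h3 p hp).1, fun i => ⟨(h3 p hp).2.1 i, (h3 p hp).2.2 i⟩⟩, h4⟩

end Pool.Agent.CRK
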