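import Pool.Agent.CRK.Gda
import Pool.Agent.CRK.Gdb
import Pool.Agent.CRK.Wrd
import Pool.Agent.CRK.Gdc
import Pool.Agent.CRK.Mlt
import Pool.Agent.CRK.Bas
import Pool.Agent.CRK.Ida
import Pool.Agent.CRK.Idb
import Pool.Agent.CRK.Idc
import Pool.Agent.CRK.Idd
import Pool.Agent.CRK.Hig
import Pool.Agent.CRK.Kan
import Pool.Agent.CRK.Ide
import Pool.Agent.CRK.Sra
import Pool.Agent.CRK.Sxd
import Pool.Agent.CRK.Sxe
import Pool.Agent.CRK.Sxa
import Pool.Agent.CRK.Sxb
import Pool.Agent.CRK.Wia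
import Pool.Agent.CRK.Wib
import Pool.Agent.CRK.Wic
import Pool.Agent.CRK.Wid
import Pool.Agent.CRK.Sfi
import Pool.Agent.CRK.Exa
import Pool.Agent.CRK.Exb
import Pool.Agent.CRK.Exc
import Pool.Agent.CRK.Exd
import Pool.Agent.CRK.Exe
import Pool.Agent.CRK.Alt
import Pool.Agent.CRK.Hoa
import Pool.Agent.CRK.Hob
import Pool.Agent.CRK.Pta
import Pool.Agent.CRK.Ptb
import Pool.Agent.CRK.Csa
import Pool.Agent.CRK.Csb
import Pool.Agent.CRK.Csc
import Pool.Agent.CRK.Csd
import Pool.Agent.CRK.Cse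
import Pool.Agent.CRK.Csf
import Pool.Agent.CRK.Csg
import Pool.Agent.CRK.Csh
import Pool.Agent.CRK.Csi
import Pool.Agent.CRK.Cas
import Pool.Agent.CRK.Fwm
import Pool.Agent.CRK.Fwn
import Pool.Agent.CRK.Lin
import Pool.Agent.CRK.Phz
import Pool.Agent.CRK.Cvm
import Pool.Agent.CRK.Cub
import Pool.Agent.CRK.Pmd
import Pool.Agent.CRK.Dpz
import Pool.Agent.CRK.Cvn
import Pool.Agent.CRK.Nab
import Pool.Agent.CRK.Mai
import Pool.Agent.CRN.All

/-!
Campaign CRK: the theorem (problem MP_1bb14d_al).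
-/

set_option autoImplicit false

namespace Pool.Agent.CRK

open Pool.Agent.CRR Pool.Agent.CRN

theorem ida : St_Ida := thm_Ida

theorem idb : St_Idb := thm_Idb ida

theorem idc : St_Idc := thm_Idc idb

theorem idd : St_Idd := thm_Idd ida idb

theorem hig : St_Hig := thm_Hig ida

theorem kan : St_Kan := thm_Kan ida hig

theorem ide : St_Ide := thm_Ide ida idb hig kan

theorem sra : St_Sra := thm_Sra ida hig

theorem sxd : St_Sxd := thm_Sxd ida idb hig kan sra

theorem sxe : St_Sxe := thm_Sxe ida hig sra sxd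

theorem sxa : St_Sxa := thm_Sxa ida sra sxe

theorem sxb : St_Sxb := thm_Sxb sxa

theorem mlt : St_Mlt := thm_Mlt thm_Gda thm_Gdb thm_Wrd (thm_Gdc thm_Wrd idb sxb) sxb

theorem csb : St_Csb := thm_Csb thm_Alt (thm_Sfi ida)

theorem csc : St_Csc := thm_Csc ida thm_Exa

theorem csd : St_Csd := thm_Csd (thm_Exb idb)

theorem cse : St_Cse := thm_Cse (thm_Exc idb idc)

theorem csf : St_Csf := thm_Csf ida thm_Hoa (thm_Wia ida) thm_Wib thm_Wid

theorem csg : St_Csg := thm_Csg thm_Hob (thm_Wic ida) thm_Wid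

theorem csh : St_Csh := thm_Csh ida idd (thm_Exd idd)

theorem csi : St_Csi := thm_Csi ida idc idd ide (thm_Exe ide)

theorem cas : St_Cas := thm_Cas thm_Pta thm_Ptb thm_Csa csb csc csd cse csf csg csh csi

theorem fwm : St_Fwm := thm_Fwm mlt thm_Bas

theorem fwn : St_Fwn := thm_Fwn mlt thm_Bas cas

theorem cvm : St_Cvm := thm_Cvm thm_Lin thm_Phz

theorem cvn : St_Cvn := thm_Cvn thm_Lin thm_Phz (thm_Pmd thm_Cub thm_Phz) thm_Dpz

/-- The theorem. -/
theorem mai : St_Mai := thm_Mai fwm fwn cvm cvn thm_Nab CRN.asm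

theorem all_pw {R : Type} [NonUnitalRing R] {g : R} (hg : g * g = g) (k : ℕ) :
    pw (-g) (2 * k) = -g ∧ pw (-g) (2 * k + 1) = g := by
  have h1 : g * -g = -g := by rw [mul_neg, hg]
  have h2 : -g * -g = g := by rw [neg_mul_neg, hg]
  induction k with
  | zero => exact ⟨rfl, h2⟩
  | succ k ih =>
    have h3 : pw (-g) (2 * (k + 1)) = -g := by
      show pw (-g) (2 * k + 1) * -g = -g
      rw [ih.2, h1]
    refine ⟨h3, ?_⟩
    show pw (-g) (2 * (k + 1)) * -g = g
    rw [h3, h2]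

/-- For even `n` a ring of odd order in the variety has no nonzero idempotent. -/
theorem all_even {n : ℕ} (hn : 4 ≤ n) {R : Type} [NonUnitalRing R] [Finite R] (hM : InM n R)
    (h6 : (Nat.card R).Coprime 6) (hev : Even n) (g : R) (hg : g * g = g) : g = 0 := by
  obtain ⟨m, hm⟩ := hev
  have h1 := hM (-g)
  have h2 : n - 1 = 2 * (m - 1) + 1 := by omega
  rw [h2, (all_pw hg (m - 1)).2, (all_pw hg 1).1] at h1
  refine Fwm_cop (k := 2) (Nat.Coprime.coprime_dvd_right ⟨3, rfl⟩ h6) g ?_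
  rw [Nat.cast_ofNat, two_zsmul]
  nth_rewrite 1 [← h1]
  exact neg_add_cancel g

/-- The classification for order prime to 6. -/
theorem main (n : ℕ) (hn : 4 ≤ n) (R : Type) [NonUnitalRing R] [Finite R] (hM : InM n R)
    (h6 : (Nat.card R).Coprime 6) :
    ((Even n ∨ ∀ g : R, g * g = g → g = 0) → (Critical R ↔ MulType R)) ∧
    ((Nat.card R).Coprime (n - 3) →
      (Critical R ↔ MulType R ∨ MatType R 1 ∨ TyC R ∨ TyC Rᵐᵒᵖ ∨ TyD R)) ∧
    ((Nat.card R).Coprime 5 → (MulType R ↔ NilType R)) := by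
  obtain ⟨a1, a2, a3, a4⟩ := mai n hn R hM h6
  refine ⟨?_, fun hc => ?_, a3⟩
  · rintro (hev | h0)
    · exact a1 (all_even hn hM h6 hev)
    · exact a1 h0
  · obtain ⟨hA, hB⟩ := a4 hc
    rw [a2 (Or.inr hc)]
    constructor
    · rintro (h | h | h | h | h | h | h)
      · exact Or.inl h
      · exact Or.inr (Or.inl h)
      · exact (hA h).elim
      · exact (hB h).elim
      · exact Or.inr (Or.inr (Or.inl h))
      · exact Or.inr (Or.inr (Or.inr (Or.inl h)))
      · exact Or.inr (Or.inr (Or.inr (Or.inr h)))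
    · rintro (h | h | h | h | h)
      · exact Or.inl h
      · exact Or.inr (Or.inl h)
      · exact Or.inr (Or.inr (Or.inr (Or.inr (Or.inl h))))
      · exact Or.inr (Or.inr (Or.inr (Or.inr (Or.inr (Or.inl h)))))
      · exact Or.inr (Or.inr (Or.inr (Or.inr (Or.inr (Or.inr h)))))

end Pool.Agent.CRK
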