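import Pool.Agent.CRK.St

/-!
CRK, module Cse: degree 5, two variables.
-/

set_option autoImplicit false

namespace Pool.Agent.CRK

open Pool.Agent.CRR Pool.Agent.CRN

private theorem Cse_a {R : Type} (z : Fin 2 → R) :
    (fun t => z ((![0, 0, 0, 0, 1] : Fin 5 → Fin 2) t)) = ![z 0, z 0, z 0, z 0, z 1] := by
  funext t
  fin_cases t <;> rfl

private theorem Cse_b {R : Type} (z : Fin 2 → R) :
    (fun t => z ((![0, 0, 0, 1, 1] : Fin 5 → Fin 2) t)) = ![z 0, z 0, z 0, z 1, z 1] := by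
  funext t
  fin_cases t <;> rfl

theorem thm_Cse (hE : St_Exc) : St_Cse := by
  intro R _ hN φ
  refine ⟨fun hF => ?_, fun hF => ?_⟩
  · obtain ⟨z, hz⟩ := hF.ne
    exfalso
    apply hz
    rw [Cse_a]
    exact (hE R hN φ hF.ml).1 (z 0) (z 1)
  · obtain ⟨m, hm⟩ := (hE R hN φ hF.ml).2
    refine ⟨by norm_num, fun x => φ (fun t => x ((![0, 0, 0, 1, 1] : Fin 5 → Fin 2) t)), 1,
      ![0, 0, 0, 1, 1], ?_, fun x => (one_smul ℤ _).symm, hF.ne⟩
    refine Or.inr (Or.inr (Or.inr (Or.inr ⟨m, 0, 1, rfl, by decide, fun x => ?_⟩)))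
    show φ (fun t => x ((![0, 0, 0, 1, 1] : Fin 5 → Fin 2) t)) = _
    rw [Cse_b]
    exact hm (x 0) (x 1)

end Pool.Agent.CRK
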