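import Pool.Agent.CRN.Defs

/-!
Campaign CRK: critical nilpotent rings of order prime to 30 in the varieties `x^3 = x^n` (problem
MP_1bb14d_al).  Definitions.
-/

set_option autoImplicit false

namespace Pool.Agent.CRK

open Pool.Agent.CRR Pool.Agent.CRN

section defs

variable (R : Type) [NonUnitalRing R]

/-- The group generated by the products `a b`. -/
def Sq : AddSubgroup R := AddSubgroup.closure {x | ∃ a b : R, x = a * b}

variable {R}

/-- The standard polynomial: the sum of the `sign(σ) x_(σ 0) x_(σ 1) ... x_(σ (g-1))`. -/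
def stp {g : ℕ} (x : Fin g → R) : R :=
  ∑ σ : Equiv.Perm (Fin g), ((Equiv.Perm.sign σ : ℤˣ) : ℤ) • wp (List.ofFn fun i => x (σ i))

/-- The functions of the list: `m s_g`; `a x_i s_g + b s_g x_i`; `m x_i^2 s_g`; for `g = 2` also
`a x^2 y^2 + b x y x y` and `m x^2 y x y`, where `{x, y} = {x_0, x_1}`. -/
def NilFun (g : ℕ) (f : (Fin g → R) → R) : Prop :=
  (∃ m : ℤ, ∀ x, f x = m • stp x) ∨
  (∃ (a b : ℤ) (i : Fin g), ∀ x, f x = a • (x i * stp x) + b • (stp x * x i)) ∨
  (∃ (m : ℤ) (i : Fin g), ∀ x, f x = m • (x i * x i * stp x)) ∨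
  (∃ (a b : ℤ) (i j : Fin g), g = 2 ∧ i ≠ j ∧
    ∀ x, f x = a • (x i * x i * x j * x j) + b • (x i * x j * x i * x j)) ∨
  (∃ (m : ℤ) (i j : Fin g), g = 2 ∧ i ≠ j ∧ ∀ x, f x = m • (x i * x i * x j * x i * x j))

/-- Multilinear polynomial functions: combinations of the products `x_(σ 0) ... x_(σ (b-1))`. -/
def ML (b : ℕ) (φ : (Fin b → R) → R) : Prop :=
  ∃ c : Equiv.Perm (Fin b) → ℤ, ∀ x, φ x = ∑ σ, c σ • wp (List.ofFn fun i => x (σ i))

variable (R)

/-- The nilpotent type for order prime to 6: `x^3 = 0`, there is a least nonzero ideal `H`, and for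
some `b ≤ 5` and `g` the ring is generated by `g` elements and there is a multilinear polynomial
function `φ` of `b` arguments with values in `H`, not zero, which vanishes if an argument is in `R^2`
and if the arguments take less than `g` values. -/
def MulType : Prop := (∀ x : R, x * x * x = 0) ∧ ∃ H : AddSubgroup R, Lst R H ∧
  ∃ (b g : ℕ) (φ : (Fin b → R) → R), 1 ≤ b ∧ b ≤ 5 ∧ ML b φ ∧
    (∃ z : Fin g → R, NonUnitalSubring.closure (Set.range z) = ⊤) ∧
    (∀ x, φ x ∈ H) ∧ (∀ (x : Fin b → R) (i : Fin b), x i ∈ Sq R → φ x = 0) ∧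
    (∀ k, k < g → ∀ (a : Fin k → R) (j : Fin b → Fin k), φ (fun t => a (j t)) = 0) ∧ ∃ x, φ x ≠ 0

/-- The nilpotent type: `x^3 = 0`, there is a least nonzero ideal `H`, and for some `g ≤ 4` the ring
is generated by `g` elements and one of the functions `NilFun g` has values in `H`, is not zero, and
depends only on the arguments modulo `R^2`. -/
def NilType : Prop := (∀ x : R, x * x * x = 0) ∧ ∃ H : AddSubgroup R, Lst R H ∧
  ∃ (g : ℕ) (f : (Fin g → R) → R), g ≤ 4 ∧ NilFun g f ∧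
    (∃ z : Fin g → R, NonUnitalSubring.closure (Set.range z) = ⊤) ∧
    (∀ x, f x ∈ H) ∧ (∀ x y, (∀ i, x i - y i ∈ Sq R) → f x = f y) ∧ ∃ x, f x ≠ 0

/-! ### Definitions used only in the proofs -/

/-- `x^3 = 0` for all `x` and no 6-torsion. -/
structure N6 : Prop where
  nz : ∀ x : R, x * x * x = 0
  tf : ∀ x : R, (6 : ℤ) • x = 0 → x = 0

/-- No 5-torsion. -/
def T5 : Prop := ∀ x : R, (5 : ℤ) • x = 0 → x = 0

variable {R}

/-- The alternating sum over the permutations `π` of the arguments `a` of the products of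
`a_(π 0), a_(π 1), ...` with `x` inserted at position `j`. -/
def Wi {n : ℕ} (j : Fin (n + 1)) (x : R) (a : Fin n → R) : R :=
  ∑ π : Equiv.Perm (Fin n), ((Equiv.Perm.sign π : ℤˣ) : ℤ) •
    wp (List.ofFn (Fin.insertNth j x (fun i => a (π i)) : Fin (n + 1) → R))

/-- A term function of `m` variables which separates `R` from its proper factors. -/
structure Gd (H : AddSubgroup R) (m : ℕ) (φ : (ℕ → R) → R) : Prop where
  tm : TmF φ
  dep : ∀ v v' : ℕ → R, (∀ i, i < m → v i = v' i) → φ v = φ v'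
  zer : ∀ (v : ℕ → R) (i : ℕ), i < m → v i = 0 → φ v = 0
  val : ∀ v, φ v ∈ H
  van : ∀ S : NonUnitalSubring R, S ≠ ⊤ → ∀ v : ℕ → R, (∀ i, v i ∈ S) → φ v = 0
  ne : ∃ v, φ v ≠ 0

/-- `φ` is additive in the variables `i < m`. -/
def Adt (m : ℕ) (φ : (ℕ → R) → R) : Prop := ∀ (v : ℕ → R) (i : ℕ) (x y : R), i < m →
  φ (Function.update v i (x + y)) = φ (Function.update v i x) + φ (Function.update v i y)

/-- The value of a combination of words. -/
def ev (L : List (ℤ × List ℕ)) (v : ℕ → R) : R := (L.map fun p => p.1 • wp (p.2.map v)).sum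

/-- The properties of the multilinear function `φ`. -/
structure Gm (H : AddSubgroup R) (b : ℕ) (φ : (Fin b → R) → R) : Prop where
  ml : ML b φ
  val : ∀ x, φ x ∈ H
  van : ∀ S : NonUnitalSubring R, S ≠ ⊤ → ∀ x : Fin b → R, (∀ i, x i ∈ S) → φ x = 0
  sq : ∀ (x : Fin b → R) (i : Fin b), x i ∈ Sq R → φ x = 0
  ne : ∃ x, φ x ≠ 0

/-- `φ` vanishes if its arguments take less than `g` values, and not always if they take `g`. -/
structure Fn (b g : ℕ) (φ : (Fin b → R) → R) : Prop where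
  ml : ML b φ
  van : ∀ k, k < g → ∀ (a : Fin k → R) (j : Fin b → Fin k), φ (fun t => a (j t)) = 0
  ne : ∃ (z : Fin g → R) (i : Fin b → Fin g), Function.Surjective i ∧ φ (fun t => z (i t)) ≠ 0

/-- The same with a fixed pattern `q`. -/
structure Fp (b g : ℕ) (q : Fin b → Fin g) (φ : (Fin b → R) → R) : Prop where
  ml : ML b φ
  van : ∀ k, k < g → ∀ (a : Fin k → R) (j : Fin b → Fin k), φ (fun t => a (j t)) = 0
  ne : ∃ z : Fin g → R, φ (fun t => z (q t)) ≠ 0

/-- The result of the case analysis. -/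
def Out (b g : ℕ) (φ : (Fin b → R) → R) : Prop := g ≤ 4 ∧
  ∃ (f : (Fin g → R) → R) (N : ℤ) (i : Fin b → Fin g), NilFun g f ∧
    (∀ x, f x = N • φ (fun t => x (i t))) ∧ ∃ x, f x ≠ 0

end defs

end Pool.Agent.CRK
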