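import Pool.Agent.CRK.St
import Pool.Agent.CRN.Sir

/-!
# CRK/Gda (helper52): a critical ring has a separating term function
-/

set_option autoImplicit false

namespace Pool.Agent.CRK

open Pool.Agent.CRR Pool.Agent.CRN

/-- a term depends on finitely many variables -/
theorem Gda_bound {R : Type} [NonUnitalRing R] (t : RTerm) :
    ∃ N : ℕ, ∀ v v' : ℕ → R, (∀ i, i < N → v i = v' i) → t.eval v = t.eval v' := by
  induction t with
  | var i => exact ⟨i + 1, fun v v' h => h i (Nat.lt_succ_self i)⟩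
  | add s t hs ht =>
    obtain ⟨N, hN⟩ := hs
    obtain ⟨N', hN'⟩ := ht
    refine ⟨max N N', fun v v' h => ?_⟩
    show s.eval v + t.eval v = s.eval v' + t.eval v'
    rw [hN v v' (fun i hi => h i (lt_of_lt_of_le hi (le_max_left _ _))),
      hN' v v' (fun i hi => h i (lt_of_lt_of_le hi (le_max_right _ _)))]
  | neg s hs =>
    obtain ⟨N, hN⟩ := hs
    refine ⟨N, fun v v' h => ?_⟩
    show -(s.eval v) = -(s.eval v')
    rw [hN v v' h]
  | mul s t hs ht =>
    obtain ⟨N, hN⟩ := hs
    obtain ⟨N', hN'⟩ := ht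
    refine ⟨max N N', fun v v' h => ?_⟩
    show s.eval v * t.eval v = s.eval v' * t.eval v'
    rw [hN v v' (fun i hi => h i (lt_of_lt_of_le hi (le_max_left _ _))),
      hN' v v' (fun i hi => h i (lt_of_lt_of_le hi (le_max_right _ _)))]

/-- the value at zero -/
theorem Gda_zero {R : Type} [NonUnitalRing R] (t : RTerm) : t.eval (fun _ => (0 : R)) = 0 := by
  induction t with
  | var i => rfl
  | add s t hs ht => simp [RTerm.eval, hs, ht]
  | neg s hs => simp [RTerm.eval, hs]
  | mul s t hs ht => simp [RTerm.eval, hs, ht]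

/-- substitution -/
theorem Gda_subst {R : Type} [NonUnitalRing R] (σ : ℕ → (ℕ → R) → R) (hσ : ∀ j, TmF (σ j))
    (t : RTerm) : TmF (fun v => t.eval (fun j => σ j v)) := by
  induction t with
  | var i => exact hσ i
  | add s t hs ht => exact hs.add ht
  | neg s hs => exact hs.neg
  | mul s t hs ht => exact hs.mul ht

theorem thm_Gda : St_Gda := by
  intro R _ hc H hH
  classical
  have hfin := hc.1
  obtain ⟨s, t, h1, h2⟩ := critical_exists hc
  obtain ⟨f0, hf0⟩ : ∃ f0 : (ℕ → R) → R, f0 = fun v => s.eval v - t.eval v := ⟨_, rfl⟩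
  -- values in `H`
  have hval : ∀ v, f0 v ∈ H := by
    intro v
    obtain ⟨F, _, f, hf, hk⟩ := Sir_exists_quotient H hH.1
    have e1 := h1 F (isFactor_image f hf) (Sir_card_lt f hf H hk hH.2.1)
    rw [hf0, ← hk, map_sub, eval_map, eval_map, e1, sub_self]
  -- zero on subrings
  have hvan : ∀ S : NonUnitalSubring R, S ≠ ⊤ → ∀ v : ℕ → R, (∀ i, v i ∈ S) → f0 v = 0 := by
    intro S hS v hv
    have e1 := h1 S (isFactor_subring S) (subring_card_lt S hS)
    rw [holds_subring_iff] at e1
    rw [hf0]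
    exact sub_eq_zero.2 (e1 v hv)
  have hzero : f0 (fun _ => 0) = 0 := by
    rw [hf0]
    show s.eval (fun _ => (0 : R)) - t.eval (fun _ => (0 : R)) = 0
    rw [Gda_zero, Gda_zero, sub_self]
  -- restriction
  obtain ⟨res, hres⟩ : ∃ res : Finset ℕ → (ℕ → R) → ℕ → R,
    ∀ B v i, res B v i = if i ∈ B then v i else 0 := ⟨fun B v i => if i ∈ B then v i else 0,
      fun _ _ _ => rfl⟩
  have hex : ∃ m : ℕ, ∃ B : Finset ℕ, B.card = m ∧ ∃ v, f0 (res B v) ≠ 0 := by
    obtain ⟨N, hN⟩ := Gda_bound (R := R) s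
    obtain ⟨N', hN'⟩ := Gda_bound (R := R) t
    have h3 : ∃ v : ℕ → R, s.eval v ≠ t.eval v := by
      by_contra hcon
      push Not at hcon
      exact h2 hcon
    obtain ⟨v, hv⟩ := h3
    refine ⟨_, Finset.range (max N N'), rfl, v, ?_⟩
    have h4 : ∀ i, i < max N N' → res (Finset.range (max N N')) v i = v i := by
      intro i hi
      rw [hres, if_pos (Finset.mem_range.2 hi)]
    rw [hf0]
    show s.eval _ - t.eval _ ≠ 0
    rw [hN _ v (fun i hi => h4 i (lt_of_lt_of_le hi (le_max_left _ _))),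
      hN' _ v (fun i hi => h4 i (lt_of_lt_of_le hi (le_max_right _ _)))]
    exact sub_ne_zero.2 hv
  obtain ⟨B, hBm, v₀, hv₀⟩ := Nat.find_spec hex
  set m := Nat.find hex with hm
  have hmin : ∀ B' : Finset ℕ, B'.card < m → ∀ v, f0 (res B' v) = 0 := by
    intro B' hB' v
    by_contra hne
    exact Nat.find_min hex hB' ⟨B', rfl, v, hne⟩
  have hm1 : 1 ≤ m := by
    rcases Nat.eq_zero_or_pos m with h0 | h0
    · exfalso
      rw [h0, Finset.card_eq_zero] at hBm
      apply hv₀
      have : res B v₀ = fun _ => 0 := by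
        funext i
        rw [hres, hBm]
        simp
      rw [this]
      exact hzero
    · exact h0
  let e : B ≃ Fin m := B.equivFinOfCardEq hBm
  obtain ⟨idx, hidx⟩ : ∃ idx : ℕ → ℕ, ∀ j, ∀ h : j ∈ B, idx j = (e ⟨j, h⟩ : ℕ) :=
    ⟨fun j => if h : j ∈ B then (e ⟨j, h⟩ : ℕ) else 0, fun j h => by simp [h]⟩
  obtain ⟨w, hw⟩ : ∃ w : (ℕ → R) → ℕ → R, ∀ v j, w v j = if j ∈ B then v (idx j) else 0 :=
    ⟨fun v j => if j ∈ B then v (idx j) else 0, fun _ _ => rfl⟩
  refine ⟨m, fun v => f0 (w v), hm1, ?_, ?_, ?_, ?_, ?_, ?_⟩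
  · -- a term function
    have h3 : ∀ j, TmF (fun v : ℕ → R => w v j) := by
      intro j
      by_cases hj : j ∈ B
      · have e1 : (fun v : ℕ → R => w v j) = fun v => v (idx j) := by
          funext v
          rw [hw, if_pos hj]
        rw [e1]
        exact TmF.var _
      · have e1 : (fun v : ℕ → R => w v j) = fun _ => 0 := by
          funext v
          rw [hw, if_neg hj]
        rw [e1]
        exact TmF.zero
    have h4 := (Gda_subst (fun j v => w v j) h3 s).sub (Gda_subst (fun j v => w v j) h3 t)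
    rw [hf0]
    exact h4
  · intro v v' h
    have e1 : w v = w v' := by
      funext j
      rw [hw, hw]
      by_cases hj : j ∈ B
      · rw [if_pos hj, if_pos hj]
        apply h
        rw [hidx j hj]
        exact (e ⟨j, hj⟩).2
      · rw [if_neg hj, if_neg hj]
    show f0 (w v) = f0 (w v')
    rw [e1]
  · intro v i hi hvi
    show f0 (w v) = 0
    obtain ⟨j, hj⟩ : ∃ j : B, e j = ⟨i, hi⟩ := ⟨e.symm ⟨i, hi⟩, e.apply_symm_apply _⟩
    have hwj : w v j.1 = 0 := by
      rw [hw, if_pos j.2, hidx j.1 j.2]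
      have : (e ⟨j.1, j.2⟩ : ℕ) = i := by
        rw [show (⟨j.1, j.2⟩ : B) = j from rfl, hj]
      rw [this]
      exact hvi
    have e1 : w v = res (B.erase j.1) (w v) := by
      funext l
      rw [hres]
      by_cases hl : l ∈ B.erase j.1
      · rw [if_pos hl]
      · rw [if_neg hl]
        by_cases hlj : l = j.1
        · rw [hlj]
          exact hwj
        · have : l ∉ B := fun h => hl (Finset.mem_erase.2 ⟨hlj, h⟩)
          rw [hw, if_neg this]
    rw [e1]
    apply hmin
    rw [Finset.card_erase_of_mem j.2, hBm]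
    omega
  · intro v
    exact hval _
  · intro S hS v hv
    apply hvan S hS
    intro j
    rw [hw]
    split_ifs
    · exact hv _
    · exact S.zero_mem
  · refine ⟨fun i => if h : i < m then v₀ (e.symm ⟨i, h⟩ : ℕ) else 0, ?_⟩
    have e1 : w (fun i => if h : i < m then v₀ (e.symm ⟨i, h⟩ : ℕ) else 0) = res B v₀ := by
      funext j
      rw [hw, hres]
      by_cases hj : j ∈ B
      · rw [if_pos hj, if_pos hj, hidx j hj]
        have h3 : (e ⟨j, hj⟩ : ℕ) < m := (e ⟨j, hj⟩).2
        rw [dif_pos h3]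
        simp
      · rw [if_neg hj, if_neg hj]
    show f0 (w _) ≠ 0
    rw [e1]
    exact hv₀

end Pool.Agent.CRK
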