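import Pool.Agent.CRK.St

/-!
Campaign CRK: multilinear functions are additive in every argument; alternating sums over all
arguments but one are combinations of the `Wi j`.
-/

set_option autoImplicit false

namespace Pool.Agent.CRK

open Pool.Agent.CRR Pool.Agent.CRN

section

variable {R : Type} [NonUnitalRing R]

theorem Hoa_wp_ofFn_succ {n : ℕ} (v : Fin (n + 2) → R) :
    wp (List.ofFn v) = v 0 * wp (List.ofFn fun i : Fin (n + 1) => v i.succ) := by
  rw [List.ofFn_succ, List.ofFn_succ]
  rfl

theorem Hoa_wp_add : ∀ {n : ℕ} (v : Fin n → R) (i : Fin n) (x y : R),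
    wp (List.ofFn (Function.update v i (x + y))) =
      wp (List.ofFn (Function.update v i x)) + wp (List.ofFn (Function.update v i y))
  | 0, _, i, _, _ => i.elim0
  | 1, v, i, x, y => by
    obtain rfl : i = 0 := Subsingleton.elim _ _
    simp [List.ofFn_succ, wp]
  | n + 2, v, i, x, y => by
    rw [Hoa_wp_ofFn_succ, Hoa_wp_ofFn_succ, Hoa_wp_ofFn_succ]
    refine Fin.cases ?_ (fun j => ?_) i
    · simp only [Function.update_self, Function.update_of_ne (Fin.succ_ne_zero _)]
      rw [add_mul]
    · have h : ∀ a : R, (fun i : Fin (n + 1) => Function.update v j.succ a i.succ) =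
          Function.update (fun i => v i.succ) j a := fun a =>
        Function.update_comp_eq_of_injective v (Fin.succ_injective _) j a
      have h0 : ∀ a : R, Function.update v j.succ a 0 = v 0 := fun a =>
        Function.update_of_ne (Fin.succ_ne_zero j).symm _ _
      rw [h, h, h, h0, h0, h0, Hoa_wp_add, mul_add]

theorem Hoa_ml_add {b : ℕ} {φ : (Fin b → R) → R} (h : ML b φ) (v : Fin b → R) (i : Fin b)
    (x y : R) : φ (Function.update v i (x + y)) =
      φ (Function.update v i x) + φ (Function.update v i y) := by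
  obtain ⟨c, hc⟩ := h
  rw [hc, hc, hc, ← Finset.sum_add_distrib]
  refine Finset.sum_congr rfl fun σ _ => ?_
  rw [← smul_add]
  congr 1
  have h1 : ∀ a : R, (fun k => Function.update v i a (σ k)) =
      Function.update (fun k => v (σ k)) (σ.symm i) a := fun a =>
    Function.update_comp_equiv v σ i a
  rw [h1, h1, h1, Hoa_wp_add]

/-- The alternating sum over the arguments other than the `i`-th. -/
theorem Hoa_alt {n : ℕ} {φ : (Fin (n + 1) → R) → R} (h : ML (n + 1) φ) (i : Fin (n + 1)) :
    ∃ c : Fin (n + 1) → ℤ, ∀ (x : R) (a : Fin n → R),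
      ∑ π : Equiv.Perm (Fin n), ((Equiv.Perm.sign π : ℤˣ) : ℤ) •
        φ (Fin.insertNth i x (fun k => a (π k)) : Fin (n + 1) → R) = ∑ j, c j • Wi j x a := by
  classical
  obtain ⟨c, hc⟩ := h
  have hρ : ∀ σ : Equiv.Perm (Fin (n + 1)), ∃ ρ : Equiv.Perm (Fin n),
      ∀ k, σ ((σ.symm i).succAbove k) = i.succAbove (ρ k) := by
    intro σ
    have h1 : ∀ k, ∃ l, i.succAbove l = σ ((σ.symm i).succAbove k) := fun k =>
      Fin.exists_succAbove_eq fun h => Fin.succAbove_ne (σ.symm i) k
        ((Equiv.eq_symm_apply σ).2 h)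
    choose r hr using h1
    have hinj : Function.Injective r := by
      intro k l hkl
      have h2 : σ ((σ.symm i).succAbove k) = σ ((σ.symm i).succAbove l) := by
        rw [← hr, ← hr, hkl]
      exact Fin.succAbove_right_injective (σ.injective h2)
    exact ⟨Equiv.ofBijective r (Finite.injective_iff_bijective.1 hinj), fun k => (hr k).symm⟩
  choose ρ hρ using hρ
  refine ⟨fun j => ∑ σ with σ.symm i = j, c σ * ((Equiv.Perm.sign (ρ σ) : ℤˣ) : ℤ), ?_⟩
  intro x a
  have key : ∀ σ : Equiv.Perm (Fin (n + 1)),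
      ∑ π : Equiv.Perm (Fin n), ((Equiv.Perm.sign π : ℤˣ) : ℤ) •
        wp (List.ofFn fun k => (Fin.insertNth i x (fun k => a (π k)) : Fin (n + 1) → R) (σ k)) =
      ((Equiv.Perm.sign (ρ σ) : ℤˣ) : ℤ) • Wi (σ.symm i) x a := by
    intro σ
    have h1 : ∀ π : Equiv.Perm (Fin n),
        (fun k => (Fin.insertNth i x (fun k => a (π k)) : Fin (n + 1) → R) (σ k)) =
        (Fin.insertNth (σ.symm i) x (fun k => a ((π * ρ σ) k)) : Fin (n + 1) → R) := by
      intro π
      rw [Fin.eq_insertNth_iff]
      refine ⟨?_, ?_⟩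
      · rw [Equiv.apply_symm_apply, Fin.insertNth_apply_same]
      · ext k
        simp only [Fin.removeNth]
        rw [hρ, Fin.insertNth_apply_succAbove]
        rfl
    rw [Wi, Finset.smul_sum]
    refine Fintype.sum_equiv (Equiv.mulRight (ρ σ)) _ _ fun π => ?_
    rw [h1, Equiv.coe_mulRight, smul_smul, Equiv.Perm.sign_mul]
    congr 1
    rw [Units.val_mul, mul_comm ((Equiv.Perm.sign π : ℤˣ) : ℤ), ← mul_assoc, ← Units.val_mul,
      Int.units_mul_self, Units.val_one, one_mul]
  simp only [hc, Finset.smul_sum]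
  rw [Finset.sum_comm]
  simp only [Finset.sum_smul]
  rw [← Finset.sum_fiberwise Finset.univ (fun σ : Equiv.Perm (Fin (n + 1)) => σ.symm i)]
  refine Finset.sum_congr rfl fun j _ => ?_
  refine Finset.sum_congr rfl fun σ hσ => ?_
  rw [← (Finset.mem_filter.1 hσ).2, mul_smul, ← key, Finset.smul_sum]
  refine Finset.sum_congr rfl fun π _ => ?_
  rw [smul_comm]

end

end Pool.Agent.CRK
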