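import Pool.Agent.CRK.St

/-!
Campaign CRK: multilinear functions are additive in every variable.
-/

set_option autoImplicit false

namespace Pool.Agent.CRK

open Pool.Agent.CRR Pool.Agent.CRN

variable {R : Type} [NonUnitalRing R]

theorem Lib_cons (a : R) {l : List R} (hl : l ≠ []) : wp (a :: l) = a * wp l := by
  cases l with
  | nil => exact absurd rfl hl
  | cons b l => rfl

theorem Lib_ofFn {n : ℕ} (y : Fin n → R) (j : Fin n) (a b : R) :
    wp (List.ofFn (Function.update y j (a + b))) =
      wp (List.ofFn (Function.update y j a)) + wp (List.ofFn (Function.update y j b)) := by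
  induction n with
  | zero => exact j.elim0
  | succ n ih =>
    rcases Fin.eq_zero_or_eq_succ j with rfl | ⟨i, rfl⟩
    · have h1 : ∀ z : R, List.ofFn (Function.update y 0 z) =
          z :: List.ofFn (fun i : Fin n => y i.succ) := by
        intro z
        rw [List.ofFn_succ, Function.update_self]
        congr 2
      rw [h1, h1, h1]
      cases n with
      | zero => simp [wp]
      | succ n =>
        have h2 : List.ofFn (fun i : Fin (n + 1) => y i.succ) ≠ [] := by simp
        rw [Lib_cons _ h2, Lib_cons _ h2, Lib_cons _ h2, add_mul]
    · have h1 : ∀ z : R, wp (List.ofFn (Function.update y i.succ z)) =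
          y 0 * wp (List.ofFn (Function.update (fun i : Fin n => y i.succ) i z)) := by
        intro z
        rw [List.ofFn_succ]
        have h3 : (fun k : Fin n => Function.update y i.succ z k.succ) =
            Function.update (fun i : Fin n => y i.succ) i z := by
          funext k
          by_cases hk : k = i
          · subst hk
            simp
          · rw [Function.update_of_ne hk, Function.update_of_ne (by simpa using hk)]
        have h4 : Function.update y i.succ z 0 = y 0 :=
          Function.update_of_ne (Fin.succ_ne_zero i).symm _ _
        rw [h3, h4, Lib_cons]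
        intro h5
        have h6 := congrArg List.length h5
        rw [List.length_ofFn, List.length_nil] at h6
        have := i.2
        omega
      rw [h1, h1, h1, ih, mul_add]

omit [NonUnitalRing R] in
theorem Lib_comp {n : ℕ} (σ : Equiv.Perm (Fin n)) (x : Fin n → R) (k : Fin n) (a : R) :
    (fun i => Function.update x k a (σ i)) = Function.update (fun i => x (σ i)) (σ.symm k) a := by
  funext i
  by_cases h : i = σ.symm k
  · subst h
    simp
  · rw [Function.update_of_ne h, Function.update_of_ne]
    intro h'
    apply h
    rw [← h', Equiv.symm_apply_apply]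

/-- Multilinear functions are additive in every variable. -/
theorem ML_add {b : ℕ} {φ : (Fin b → R) → R} (h : ML b φ) (x : Fin b → R) (k : Fin b) (u v : R) :
    φ (Function.update x k (u + v)) = φ (Function.update x k u) + φ (Function.update x k v) := by
  obtain ⟨c, hc⟩ := h
  rw [hc, hc, hc, ← Finset.sum_add_distrib]
  refine Finset.sum_congr rfl fun σ _ => ?_
  rw [Lib_comp, Lib_comp, Lib_comp, Lib_ofFn, smul_add]

theorem ML_zero {b : ℕ} {φ : (Fin b → R) → R} (h : ML b φ) (x : Fin b → R) (k : Fin b) :
    φ (Function.update x k 0) = 0 := by
  have h1 := ML_add h x k 0 0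
  rw [add_zero] at h1
  exact left_eq_add.1 h1

theorem ML_neg {b : ℕ} {φ : (Fin b → R) → R} (h : ML b φ) (x : Fin b → R) (k : Fin b) (u : R) :
    φ (Function.update x k (-u)) = -φ (Function.update x k u) := by
  have h1 := ML_add h x k (-u) u
  rw [neg_add_cancel, ML_zero h] at h1
  exact eq_neg_of_add_eq_zero_left h1.symm

theorem ML_sub {b : ℕ} {φ : (Fin b → R) → R} (h : ML b φ) (x : Fin b → R) (k : Fin b) (u v : R) :
    φ (Function.update x k (u - v)) = φ (Function.update x k u) - φ (Function.update x k v) := by
  rw [sub_eq_add_neg, ML_add h, ML_neg h, sub_eq_add_neg]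

/-- The function `φ` as a multilinear map. -/
noncomputable def MLmap {b : ℕ} {φ : (Fin b → R) → R} (h : ML b φ) :
    MultilinearMap ℤ (fun _ : Fin b => R) R where
  toFun := φ
  map_update_add' := fun {inst} x k u v => by
    have : inst = instDecidableEqFin b := Subsingleton.elim _ _
    subst this
    exact ML_add h x k u v
  map_update_smul' := fun {inst} x k n u => by
    have : inst = instDecidableEqFin b := Subsingleton.elim _ _
    subst this
    let F : R →+ R := AddMonoidHom.mk' (fun w => φ (Function.update x k w))
      (fun u v => ML_add h x k u v)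
    exact map_zsmul F n u

@[simp] theorem MLmap_apply {b : ℕ} {φ : (Fin b → R) → R} (h : ML b φ) (x : Fin b → R) :
    MLmap h x = φ x := rfl

end Pool.Agent.CRK
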