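import Pool.Agent.CRK.All

/-!
MP_1bb14d_al: critical rings of order prime to 6 in the variety of rings given by the identity
`x^3 = x^n`, `n ≥ 4`.
-/

namespace Pool.Agent.CRK.PrimeToSix

open Pool.Agent.CRR Pool.Agent.CRN Pool.Agent.CRK

/-- Let `n ≥ 4` and let `R` be a finite ring (associative, identity not assumed) which satisfies
`x^3 = x^n`, of order prime to 6.

(1) If `n` is even or `R` is nilpotent (has no nonzero idempotent), then `R` is critical if and only if it
is of type `MulType`: `x^3 = 0`, there is a least nonzero ideal `H`, and for some `b ≤ 5` and `g` the ring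
is generated by `g` elements and there is a multilinear polynomial function of `b` arguments with values
in `H` which is not zero, vanishes if an argument is in `R^2`, and vanishes if the arguments take less than
`g` values.

(2) If the order of `R` is prime to `n - 3` then `R` is critical if and only if it is of type `MulType`, or a
finite field, or has a least nonzero ideal and is generated by a field `eRe` (`e` an idempotent, no nonzero
idempotent is orthogonal to `e`) and either elements `z ∈ e R (1 - e)`,
`a_0, ..., a_(k-1) ∈ (1 - e) R (1 - e)` with `z a_0 ... a_(k-1) ≠ 0` (`TyC`; or the opposite of such a ring), or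
elements `b ∈ (1 - e) R e`, `c ∈ e R (1 - e)`, `a_0, ..., a_(k-1) ∈ (1 - e) R (1 - e)` with
`a_(k-1) ... a_0 b c ≠ 0` (`TyD`).

(3) If the order of `R` is prime to 5 then `MulType` is the explicit type `NilType`: `x^3 = 0`, there is a
least nonzero ideal `H`, and for some `g ≤ 4` the ring is generated by `g` elements and one of the
functions `m s_g`, `a x_i s_g + b s_g x_i`, `m x_i^2 s_g` (`s_g` the standard polynomial) or, for `g = 2`,
`a x^2 y^2 + b x y x y`, `m x^2 y x y` has values in `H`, is not zero, and depends only on the arguments
modulo `R^2`. -/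
theorem result (n : ℕ) (hn : 4 ≤ n) (R : Type) [NonUnitalRing R] [Finite R] (hM : InM n R)
    (h6 : (Nat.card R).Coprime 6) :
    ((Even n ∨ ∀ g : R, g * g = g → g = 0) → (Critical R ↔ MulType R)) ∧
    ((Nat.card R).Coprime (n - 3) →
      (Critical R ↔ MulType R ∨ MatType R 1 ∨ TyC R ∨ TyC Rᵐᵒᵖ ∨ TyD R)) ∧
    ((Nat.card R).Coprime 5 → (MulType R ↔ NilType R)) :=
  main n hn R hM h6

end Pool.Agent.CRK.PrimeToSix
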