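import Pool.Agent.CRK.Defs
import Pool.Agent.CRN.St

/-!
Campaign CRK (problem MP_1bb14d_al, stage 2): critical nilpotent rings of order prime to 6 and to 30
in the varieties `x^3 = x^n`.  Frozen statements.

Every module `Pool/Agent/CRK/<X>.lean` imports this file (and `Pool.Agent.CRN.<Y>` if a theorem of
campaign CRN is used) and proves `theorem thm_<X> : St_<X>`; the hypotheses (other statements
`St_<Y>`) named in the docstring may be used as arguments (`theorem thm_<X> (hY : St_<Y>) : St_<X>`).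
Own lemmas have names which start with the name of the module.  The docstrings contain the proofs.

All theorems `thm_<Y>` of campaign CRN are proved (`CRN/<Y>.lean`); in particular `thm_Sir`, `thm_Ppw`,
`thm_Crg`, `thm_Jnl` (nil ideals are nilpotent), `thm_Nak`, `Sir_exists_quotient`, `Sir_card_lt`.

Notation of the docstrings: `P a b c = abc + acb + bac + bca + cab + cba`, `Q x y = xxy + xyx + yxx`; both
are `0` (`St_Ida`), also for products in the place of `a, b, c, x, y`.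
-/

set_option autoImplicit false

namespace Pool.Agent.CRK

open Pool.Agent.CRR Pool.Agent.CRN

/-! ### Part A: from critical rings to multilinear functions -/

/-- **GDA.**  PROOF.  `critical_exists`: terms `s, t` with `Holds F s t` for all factors of smaller order, not
`Holds R s t`; `φ₀ v = s.eval v - t.eval v`.  `φ₀ v ∈ H` (the quotient `R / H`, `Sir_exists_quotient`,
`Sir_card_lt`, `isFactor_image`), `φ₀ v = 0` if `v` is in a subring `S ≠ ⊤` (`isFactor_subring`,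
`subring_card_lt`, `holds_subring_iff`).  For a finite set `B` of natural numbers let
`v|B i = v i` if `i ∈ B`, `0` otherwise.  `φ₀` depends only on the variables of `s, t`, so for a large
`B` `φ₀ (v|B) ≠ 0` for some `v`.  Take `B` of minimal cardinality with `φ₀ (v|B) ≠ 0` for some `v`.  Then
`φ₀ (v|B) = 0` if `v i = 0` for some `i ∈ B` (`v|B = v|(B \ {i})`).  `B ≠ ∅` (`φ₀ 0 = 0`).  Let `m` be the
cardinality of `B`, `B = {β 0, ..., β (m-1)}`, `φ v = φ₀ (w)` with `w (β i) = v i` for `i < m` and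
`w j = 0` for `j ∉ B` (substitute terms for the variables, `0` is the term `x_0 - x_0`). -/
def St_Gda : Prop := ∀ (R : Type) [NonUnitalRing R], Critical R → ∀ H : AddSubgroup R, Lst R H →
  ∃ (m : ℕ) (φ : (ℕ → R) → R), 1 ≤ m ∧ Gd H m φ

/-- **GDB.**  PROOF.  `ψ v = φ (v[i := v i + v m]) - φ (v[i := v i]) - φ (v[i := v m])` is a term function which
depends on `v j`, `j < m + 1`; it is zero if `v j = 0` for some `j < m`, `j ≠ i` (all three terms are), if
`v i = 0` or `v m = 0` (`φ (v[i := 0]) = 0`); values in `H`; zero on `S ≠ ⊤`.  So `ψ` has a nonzero value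
only if `Gd H (m+1) ψ`; so `ψ = 0`.  Then apply this to `v[i := x][m := y]` (`φ` does not depend on `v m`).
Second part: `ψ v = φ (v[i := v i * v m])` in the same way. -/
def St_Gdb : Prop := ∀ (R : Type) [NonUnitalRing R] (H : AddSubgroup R) (m : ℕ) (φ : (ℕ → R) → R),
  Gd H m φ → (∀ ψ, ¬ Gd H (m + 1) ψ) → Adt m φ ∧
  ∀ (v : ℕ → R) (i : ℕ) (x y : R), i < m → φ (Function.update v i (x * y)) = 0

/-- **WRD.**  PROOF.  (1) For every term `t` there is a list `L` with nonempty words such that `t.eval v = ev L v`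
for all `v` (induction; for products the list of all products of a word of the first and one of
the second list; `wp (l ++ l') = wp l * wp l'` for nonempty `l, l'`).  (2) Remove the words with a
letter `≥ m`: apply (1) to `v'`, `v' i = v i` for `i < m` and `0` otherwise; a word with a zero factor is
zero.  (3) For every `j < m` remove the words without the letter `j`: their sum at `v` is the value of
`ev L` at `v[j := 0]` (the words with `j` vanish), so it is `φ (v[j := 0]) = 0`. -/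
def St_Wrd : Prop := ∀ (R : Type) [NonUnitalRing R] (m : ℕ) (φ : (ℕ → R) → R), TmF φ →
  (∀ v v' : ℕ → R, (∀ i, i < m → v i = v' i) → φ v = φ v') →
  (∀ (v : ℕ → R) (i : ℕ), i < m → v i = 0 → φ v = 0) →
  ∃ L : List (ℤ × List ℕ), (∀ p ∈ L, p.2 ≠ [] ∧ ∀ i, i ∈ p.2 ↔ i < m) ∧ ∀ v, φ v = ev L v

/-- **GDC** (from `St_Wrd`, `St_Idb`, `St_Sxb`).  PROOF.  Claim by induction on `j ≤ m`: there is `L` as in `St_Wrd`
such that moreover every letter `i < j` occurs exactly once in every word of `L`.  Step from `j` to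
`j + 1`: let `φ_d` be the part of `ev L` of the words in which `j` occurs `d` times, `d ≥ 1`.  The parts with
`d ≥ 4` are `0`: words of length `≥ 6` are `0` (`St_Sxb`), words `xxxx`, `xxxxx` are `0`, and a word with
4 letters `x` and one `y` contains `xxx` or is `xxyxx = 0` (`St_Idb`).  So `φ = φ_1 + φ_2 + φ_3`, and
`φ_d (v[j := k • v j]) = k^d • φ_d v`, `φ (v[j := k • v j]) = k • φ v` (`Adt`).  `k = -1`: `2 • φ_2 = 0`, so
`φ_2 = 0`; `k = 2`: `6 • φ_3 = 0`, `φ_3 = 0`.  So the words with `d ≠ 1` can be removed.  At the end the words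
are `List.ofFn (fun i => (σ i : ℕ))` for permutations `σ` of `Fin m`; `c σ` is the sum of the coefficients
of this word. -/
def St_Gdc : Prop := ∀ (R : Type) [NonUnitalRing R], N6 R → ∀ (m : ℕ) (φ : (ℕ → R) → R), TmF φ →
  (∀ v v' : ℕ → R, (∀ i, i < m → v i = v' i) → φ v = φ v') →
  (∀ (v : ℕ → R) (i : ℕ), i < m → v i = 0 → φ v = 0) → Adt m φ →
  ∃ c : Equiv.Perm (Fin m) → ℤ, ∀ v : ℕ → R,
    φ v = ∑ σ, c σ • wp (List.ofFn fun i => v ((σ i : Fin m) : ℕ))

/-- **MLT** (from `St_Gda`, `St_Gdb`, `St_Wrd`, `St_Gdc`, `St_Sxb`).  PROOF.  `Gd H m φ` implies `m ≤ 5`: by `St_Wrd` `φ v` is a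
combination of words which contain all letters `< m`, so have length `≥ m`, and for `m ≥ 6` they are
zero (`St_Sxb`).  Take `m` maximal such that `Gd H m φ` for some `φ` (`St_Gda`), so `St_Gdb` and `St_Gdc`
apply.  `φ' x = φ (v)`, `v i = x i` for `i < m`, `v i = 0` for `i ≥ m`.  Arguments in `Sq R`: `φ'` is additive in
every variable and zero if an argument is a product (`AddSubgroup.closure_induction`). -/
def St_Mlt : Prop := ∀ (R : Type) [NonUnitalRing R], N6 R → Critical R → ∀ H : AddSubgroup R,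
  Lst R H → ∃ (b : ℕ) (φ : (Fin b → R) → R), 1 ≤ b ∧ b ≤ 5 ∧ Gm H b φ

/-- **BAS.**  PROOF.  Let `g` be minimal such that `R` is generated by `g` elements, `z` such elements.  `Fn.van`:
for `k < g` the subring generated by the `a i` is not `⊤`; `Gm.van`.  `Fn.ne`: let `φ x ≠ 0`.  Every element
of `R` is a combination of the `z i` plus an element of `Sq R` (these elements are a subring which
contains the `z i`); `φ` is additive in every variable and zero if an argument is in `Sq R`, so `φ x` is a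
combination of the `φ (z ∘ i)`, `i : Fin b → Fin g`, and one of them is not `0`.  If `i` is not surjective then
the `z (i t)` are in the subring generated by the `z k`, `k ≠ k₀`, which is not `⊤` by minimality of `g`. -/
def St_Bas : Prop := ∀ (R : Type) [NonUnitalRing R] [Finite R] (H : AddSubgroup R) (b : ℕ)
  (φ : (Fin b → R) → R), Gm H b φ →
  ∃ g : ℕ, (∃ z : Fin g → R, NonUnitalSubring.closure (Set.range z) = ⊤) ∧ Fn b g φ

/-! ### Part B: identities of rings with `x^3 = 0` without 6-torsion -/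

/-- **IDA.**  PROOF.  (1) `(6 : ℤ) • x = 3 • (2 • x)`.  (2) `P a b c` is the sum of the cubes of `a + b + c`, `a`, `b`, `c` minus
the cubes of `a + b`, `a + c`, `b + c`.  (3) `P x x y = 2 • Q x y`. -/
def St_Ida : Prop := ∀ (R : Type) [NonUnitalRing R], N6 R →
  (∀ x : R, (2 : ℤ) • x = 0 → x = 0) ∧ (∀ x : R, (3 : ℤ) • x = 0 → x = 0) ∧
  (∀ a b c : R, a * b * c + a * c * b + b * a * c + b * c * a + c * a * b + c * b * a = 0) ∧
  ∀ x y : R, x * x * y + x * y * x + y * x * x = 0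

/-- **IDB** (from `St_Ida`).  PROOF.  (1) `x (Q x y) = xxxy + xxyx + xyxx`, `xxx = 0`.  (2) `x (Q x y) x = xxxyx + xxyxx +
xyxxx`.  Let `A = xxyy`, `B = xyxy`, `C = xyyx`, `D = yxxy`, `E = yxyx`, `F = yyxx`.  `Q x (yy)`: `A + C + F = 0`; `Q y (xx)`:
`F + D + A = 0`; `(Q x y) y`: `A + B + D = 0`; `y (Q x y)`: `D + E + F = 0`; `x (Q y x)`: `C + B + A = 0`; (here
`Q y x = yyx + yxy + xyy`, so `x (Q y x) = xyyx + xyxy + xxyy`).  So `F = B` (first minus fifth), `C = D`,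
`D = - A - B`, `E = - D - F = A`. -/
def St_Idb : Prop := ∀ (R : Type) [NonUnitalRing R], N6 R → ∀ x y : R,
  x * y * x * x = -(x * x * y * x) ∧ x * x * y * x * x = 0 ∧
  y * y * x * x = x * y * x * y ∧ y * x * y * x = x * x * y * y ∧
  x * y * y * x = -(x * x * y * y) - x * y * x * y ∧ y * x * x * y = -(x * x * y * y) - x * y * x * y

/-- **IDC** (from `St_Idb`).  PROOF.  `w = xxyxy`.  `xyxx = - xxyx` times `y` on the right: `xyxxy = - w`.  `x` times the
last four items of `St_Idb`: `xyyxx = xxyxy = w`; `xyxyx = xxxyy = 0`; `xxyyx = - xxxyy - xxyxy = - w`.  The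
items times `x` on the right: `yxyxx = xxyyx = - w`, `yxxyx = - xxyyx - xyxyx = w`. -/
def St_Idc : Prop := ∀ (R : Type) [NonUnitalRing R], N6 R → ∀ x y : R,
  x * y * x * x * y = -(x * x * y * x * y) ∧ x * y * y * x * x = x * x * y * x * y ∧
  x * y * x * y * x = 0 ∧ x * x * y * y * x = -(x * x * y * x * y) ∧
  y * x * y * x * x = -(x * x * y * x * y) ∧ y * x * x * y * x = x * x * y * x * y

/-- **IDD** (from `St_Ida`, `St_Idb`).  PROOF.  `T = xxyxz`, `A = xyxzx`, `B = xxyzx`, `C = xyzxx`, `D = yxxzx`, `E = yxzxx`, `G = xyxxz`.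
`St_Idb` (1) times `z`: `G = - T`.  `x (Q x (yz))`: `B + C = 0`.  `y (St_Idb (1) for z)`: `E = - D`.  `(Q x y) z x`:
`B + A + D = 0`.  `x y (Q x z)`: `G + A + C = 0`.  `Q x (y x z)`: `T + A + E = 0`.  So `C = - B`, `A = T + B`,
`D = - A - B = - T - 2 B`, `E = - T - A = - 2 T - B`, `E = - D`: `3 (T + B) = 0`, so `B = - T`, `A = 0`, `C = T`, `D = T`,
`E = - T`. -/
def St_Idd : Prop := ∀ (R : Type) [NonUnitalRing R], N6 R → ∀ x y z : R,
  x * y * x * x * z = -(x * x * y * x * z) ∧ x * y * x * z * x = 0 ∧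
  x * x * y * z * x = -(x * x * y * x * z) ∧ x * y * z * x * x = x * x * y * x * z ∧
  y * x * x * z * x = x * x * y * x * z ∧ y * x * z * x * x = -(x * x * y * x * z)

/-- **HIG** (from `St_Ida`).  PROOF.  (1) (Higman) `∑_k (Q x (z y^k)) y^(2-k) = 0`, `k = 0, 1, 2`, is
`3 xxzyy + x z (xyy + yxy + yyx) + z (xxyy + yxxy + yyxx)`; the brackets are `Q y x` and `Q y (xx)`.  (2) polarize:
`(a+b)^2 - a^2 - b^2 = ab + ba`. -/
def St_Hig : Prop := ∀ (R : Type) [NonUnitalRing R], N6 R →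
  (∀ x y z : R, x * x * z * (y * y) = 0) ∧ (∀ a b z y : R, (a * b + b * a) * z * (y * y) = 0) ∧
  (∀ x z c d : R, x * x * z * (c * d + d * c) = 0) ∧
  ∀ a b z c d : R, (a * b + b * a) * z * (c * d + d * c) = 0

/-- **KAN** (from `St_Ida`, `St_Hig`).  PROOF.  `s = xx`, `t = yy`, `k = s t + t s`.  `Q (s + t) z = 0`; in it
`(s + t)(s + t) = k` (`s s = x x x x = 0`) and `(s + t) z (s + t) = 0` (`St_Hig`: `s z t = 0`, also with `t = s`).  So
`k z = - z k` (*).  `a a' k = - a k a' = k a a'` by (*) for `a'` and `a`; and (*) for `z = a a'`: `k a a' = - a a' k`.  So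
`2 a a' k = 0`. -/
def St_Kan : Prop := ∀ (R : Type) [NonUnitalRing R], N6 R → ∀ x y : R,
  (∀ z, (x * x * y * y + y * y * x * x) * z = -(z * (x * x * y * y + y * y * x * x))) ∧
  ∀ a b, a * b * (x * x * y * y + y * y * x * x) = 0 ∧
    a * (x * x * y * y + y * y * x * x) * b = 0 ∧ (x * x * y * y + y * y * x * x) * a * b = 0

/-- **IDE** (from `St_Ida`, `St_Idb`, `St_Hig`, `St_Kan`).  The words with two `x`, two `y`, one `z`.  PROOF.  `u1 = xxyyz`,
`u2 = xyxyz`, `u3 = xyzxy`.  (`z` last) `St_Idb` times `z`: `xyyxz = yxxyz = - u1 - u2`, `yxyxz = u1`, `yyxxz = u2`.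
`xxzyy = 0 = yyzxx` (`St_Hig`).  (`z` first) `v1 = zxxyy`, `v2 = zxyxy`: `zxyyx = zyxxy = - v1 - v2`, `zyxyx = v1`,
`zyyxx = v2`.  `Q (xy) z`: `u2 + u3 + v2 = 0`, so `v2 = - u2 - u3`.  `St_Kan` (1): `(u1 + u2) + (v1 + v2) = 0`, so
`v1 = u3 - u1`.  (`z` fourth) `xx (Q y z)`: `xxyzy = - u1`; `yy (Q x z)`: `yyxzx = - u2`; `Q x (yyz)`: `xyyzx = - u1`;
`Q y (xxz)`: `yxxzy = - u2`; `(Q x y) z y`: `xyxzy = - xxyzy - yxxzy = u1 + u2`; `(Q y x) z x`: `yxyzx = u1 + u2`.
(`z` second) `(Q x z) yy`: `xzxyy = - v1`; `(Q y z) xx`: `yzyxx = - v2`; `Q x (zyy)`: `xzyyx = - v2`; `Q y (zxx)`: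
`yzxxy = - v1`; `x z (Q y x)`: `xzyxy = v1 + v2`; `y z (Q x y)`: `yzxyx = v1 + v2`.  (middle) `x (Q y z) x`:
`xyzyx = - xyyzx - xzyyx = u1 + v2`; `y (Q x z) y`: `yxzxy = u2 + v1`; `Q (yx) z`: `yxzyx = - u1 - v1`. -/
def St_Ide : Prop := ∀ (R : Type) [NonUnitalRing R], N6 R → ∀ x y z u1 u2 u3 : R,
  u1 = x * x * y * y * z → u2 = x * y * x * y * z → u3 = x * y * z * x * y →
  (x * y * y * x * z = -u1 - u2 ∧ y * x * x * y * z = -u1 - u2 ∧ y * x * y * x * z = u1 ∧
    y * y * x * x * z = u2) ∧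
  (z * x * x * y * y = u3 - u1 ∧ z * x * y * x * y = -u2 - u3 ∧ z * x * y * y * x = u1 + u2 ∧
    z * y * x * x * y = u1 + u2 ∧ z * y * x * y * x = u3 - u1 ∧ z * y * y * x * x = -u2 - u3) ∧
  (x * x * y * z * y = -u1 ∧ y * y * x * z * x = -u2 ∧ x * y * y * z * x = -u1 ∧
    y * x * x * z * y = -u2 ∧ x * y * x * z * y = u1 + u2 ∧ y * x * y * z * x = u1 + u2) ∧
  (x * z * x * y * y = u1 - u3 ∧ y * z * y * x * x = u2 + u3 ∧ x * z * y * y * x = u2 + u3 ∧
    y * z * x * x * y = u1 - u3 ∧ x * z * y * x * y = -u1 - u2 ∧ y * z * x * y * x = -u1 - u2) ∧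
  (x * x * z * y * y = 0 ∧ y * y * z * x * x = 0 ∧ x * y * z * y * x = u1 - u2 - u3 ∧
    y * x * z * x * y = u2 + u3 - u1 ∧ y * x * z * y * x = -u3)

/-- **SRA** (from `St_Hig`).  PROOF.  `2 abc = ((ab)c + c(ab)) - (ac + ca) b + a (bc + cb)`, and
`xxy ((ab)c + c(ab)) = 0`, `xxy (ac + ca) = 0`, `xx (ya) (bc + cb) = 0` (`St_Hig`, `z = y`, `y`, `y a`).  The mirror image in
the same way: `2 abc` on the left of `y xx`: `((ab)c + c(ab)) y xx = 0`, `(ac + ca) (b y) xx = 0`,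
`a (bc + cb) y xx = 0`.  (3), (4): polarize `x`. -/
def St_Sra : Prop := ∀ (R : Type) [NonUnitalRing R], N6 R →
  (∀ x y a b c : R, x * x * y * a * b * c = 0) ∧ (∀ x y a b c : R, a * b * c * y * x * x = 0) ∧
  (∀ x u y a b c : R, x * u * y * a * b * c = -(u * x * y * a * b * c)) ∧
  ∀ x u y a b c : R, a * b * c * y * x * u = -(a * b * c * y * u * x)

/-- **SXD** (from `St_Ida`, `St_Idb`, `St_Hig`, `St_Kan`, `St_Sra`).  `a xx yy f = 0`.  PROOF.  `t = a xx yy f`, `k = xxyy + yyxx`.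
The sum over the orders of the factors `xa`, `xy`, `fy` is `0` (`P`).
(D1) `xa xy fy = t`: `a xx = - xx a - x a x`, `xx a yy = 0` (`St_Hig`), so `t = - x a x yy f`; `yy f = - f yy - y f y`, so
`t = x a x f yy + x a x y f y`; `x a x f yy = - xx (a f) yy - a xx f yy = 0`.
(D2) `xa fy xy = 0`: `x (afy) x = - xx (afy) - (afy) xx`; times `y`: `xx (af) yy = 0`; `a f (y xx y) = - a f k = 0` (`Q y (xx)` is
`k + y xx y = 0`; `St_Kan`).
(D3) `xy xa fy = 0`: `x y x = - xx y - y xx`; `xx y a f y = 0` (`St_Sra`); `y (xx a f) y = - yy xx a f - xx (a f) yy`, both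
are `0` (`St_Sra` for `yy x (x a f)`, `St_Hig`).
(D4) `xy fy xa = 0`: `y f y = - yy f - f yy`.  `x yy f x a = - x yy f a x` (`St_Sra` (4)), `x (yyfa) x = - xx yy f a -
yy (f a) xx = 0` (`St_Sra` for `xx y (y f a)`, `St_Hig`).  `x f yy x a = - x f yy a x` (`St_Sra` (4)), `x (f yy a) x =
- xx f yy a - f yy a xx = 0` (`St_Hig`).
(D5) `fy xa xy = f yy xx a`: `x a x = - xx a - a xx`; `f y (xx a) y = - f yy xx a - f xx a yy = - f yy xx a`;
`f y (a xx) y = - f yy a xx - f a xx yy = 0` (`St_Hig`; `St_Sra` (2) for `(f a x) x yy`).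
(D6) `fy xy xa = f (yxyx) a = f xx yy a` (`St_Idb`).
Sum: `t + f k a = t = 0` (`St_Kan`). -/
def St_Sxd : Prop := ∀ (R : Type) [NonUnitalRing R], N6 R → ∀ a x y f : R,
  a * x * x * y * y * f = 0

/-- **SXE** (from `St_Ida`, `St_Hig`, `St_Sra`, `St_Sxd`).  `t = a xx d e f`, `t' = a d e xx f`; both are `0`.  PROOF.
`Q x (ade)` times `f`: `xx a d e f + x a d e x f + t' = 0`, the first is `0` (`St_Sra`), so `t' = - x a d e x f =
a x d e x f` (`St_Sra` (3)).  `a (Q x (def))`: `t + a x d e f x + a d e f xx = 0`, the last is `0` (`St_Sra` (2)), so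
`t = - a x d e f x = a x d e x f` (`St_Sra` (4)).  `a (Q x (de)) f`: `t + a x d e x f + t' = 0`.  So `t = t'` and
`3 t = 0`. -/
def St_Sxe : Prop := ∀ (R : Type) [NonUnitalRing R], N6 R → ∀ a x d e f : R,
  a * x * x * d * e * f = 0 ∧ a * d * e * x * x * f = 0

/-- **SXA** (from `St_Ida`, `St_Sra`, `St_Sxe`).  PROOF.  `F = abcdef` changes its sign if two of the first three
factors or two of the last three factors are exchanged (`St_Sra` (3), `St_Sxe` polarized, `St_Sra` (4)).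
`P a (bc) d` times `e f`: `abcd + adbc + bcad + bcda + dabc + dbca` (times `ef`); `adbc + dabc` gives `0`,
`bcad` gives `abcd`, `dbca` gives `bcda`; so `2 (abcdef + bcdaef) = 0`, `abcdef = - bcdaef = - dbcaef`: `F` changes its
sign if the first and the fourth factor are exchanged, so for every transposition.
`P (ab) (cd) (ef) = 6 F`. -/
def St_Sxa : Prop := ∀ (R : Type) [NonUnitalRing R], N6 R → ∀ a b c d e f : R,
  a * b * c * d * e * f = 0

/-- **SXB** (from `St_Sxa`).  PROOF.  A list of length `≥ 6` is `a :: b :: c :: d :: e :: l` with `l ≠ []`; its product is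
`a (b (c (d (e (wp l)))))`. -/
def St_Sxb : Prop := ∀ (R : Type) [NonUnitalRing R], N6 R → ∀ l : List R, 6 ≤ l.length → wp l = 0

/-- **WIA** (from `St_Ida`).  PROOF.  Write `a_π` for `a (π 0), a (π 1), ...`.  For fixed `ρ` one has
`∑_π sign π (word a_(π ρ) with x at position j) = sign ρ W_j`.  (1) `∑_π sign π P (a_π0) (a_π1 a_π2) x = 0`: the six
orders give `W_3`, `W_1` (`a0 x a1 a2`), `W_3` (`a1 a2 a0 x`, even), `W_2` (`a1 a2 x a0`, even), `W_0`, `W_0`. -/
def St_Wia : Prop := ∀ (R : Type) [NonUnitalRing R], N6 R → ∀ (x : R) (a : Fin 3 → R),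
  (2 : ℤ) • Wi 0 x a + Wi 1 x a + Wi 2 x a + (2 : ℤ) • Wi 3 x a = 0

/-- **WIB.**  PROOF.  The six words of every `W_j` (with `a = (x, y, z)`); they cancel. -/
def St_Wib : Prop := ∀ (R : Type) [NonUnitalRing R] (x y z : R),
  Wi 0 x ![x, y, z] - Wi 1 x ![x, y, z] + Wi 2 x ![x, y, z] - Wi 3 x ![x, y, z] = 0

/-- **WIC** (from `St_Ida`).  PROOF.  As in `St_Wia` (sums over the permutations `π` of `Fin 4` of `sign π` times `P`).
(I0) `P (a0 a1) (a2 a3) x`: `2 (W_4 + W_2 + W_0) = 0`.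
(I1) `P (a0 a1) a2 (a3 x)`: `a0a1a2a3x` `+W_4`; `a0a1a3xa2` `-W_3`; `a2a0a1a3x` `+W_4`; `a2a3xa0a1` `+W_2`; `a3xa0a1a2` `-W_1`;
`a3xa2a0a1` `-W_1`: `2 W_4 - W_3 + W_2 - 2 W_1 = 0`.
(I2) `P (a0 a1) a2 (x a3)`: `a0a1a2xa3` `+W_3`; `a0a1xa3a2` `-W_2`; `a2a0a1xa3` `+W_3`; `a2xa3a0a1` `+W_1`; `xa3a0a1a2` `-W_0`;
`xa3a2a0a1` `-W_0`: `2 W_3 - W_2 + W_1 - 2 W_0 = 0`.
(I3) `P x a0 (a1a2a3)`: `xa0a1a2a3` `+W_0`; `xa1a2a3a0` `-W_0`; `a0xa1a2a3` `+W_1`; `a0a1a2a3x` `+W_4`; `a1a2a3xa0` `-W_3`;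
`a1a2a3a0x` `-W_4`: `W_1 = W_3`.
So `W_2 = 3 W_1 - 2 W_0` (I2), `2 W_4 = 2 W_0` (I1), and (I0) gives `3 W_1 = 0`. -/
def St_Wic : Prop := ∀ (R : Type) [NonUnitalRing R], N6 R → ∀ (x : R) (a : Fin 4 → R),
  Wi 1 x a = 0 ∧ Wi 3 x a = 0 ∧ Wi 2 x a = (-2 : ℤ) • Wi 0 x a ∧ Wi 4 x a = Wi 0 x a

/-- **WID.**  PROOF.  `Fin.insertNth 0 x a = Fin.cons x a`, `Fin.insertNth (Fin.last n) x a = Fin.snoc a x`;
`wp (x :: l) = x * wp l`, `wp (l ++ [x]) = wp l * x` for `l ≠ []`. -/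
def St_Wid : Prop := ∀ (R : Type) [NonUnitalRing R] (n : ℕ) (x : R) (a : Fin (n + 1) → R),
  Wi 0 x a = x * stp a ∧ Wi (Fin.last (n + 1)) x a = stp a * x

/-- **SFI** (from `St_Ida`).  PROOF.  `∑_σ sign σ P (x_σ0 x_σ1) (x_σ2 x_σ3) (x_σ4) = 0`, `σ` over the permutations of
`Fin 5`; the six orders `01234, 01423, 23014, 23401, 40123, 42301` are even permutations, so the sum is
`6 stp x` (`Equiv.sum_comp` with right multiplication by the permutation). -/
def St_Sfi : Prop := ∀ (R : Type) [NonUnitalRing R], N6 R → ∀ x : Fin 5 → R, stp x = 0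

/-! ### Part C: expansions of multilinear functions -/

/-- **EXA.**  PROOF.  The value at `(x, x, y)` of the product for the permutation `σ` is one of the three words. -/
def St_Exa : Prop := ∀ (R : Type) [NonUnitalRing R] (φ : (Fin 3 → R) → R), ML 3 φ →
  ∃ a b c : ℤ, ∀ x y, φ ![x, x, y] = a • (x * x * y) + b • (x * y * x) + c • (y * x * x)

/-- **EXB** (from `St_Idb`).  PROOF.  The words in `x, x, x, y` are `xxxy = 0`, `yxxx = 0`, `xxyx`, `xyxx = - xxyx`; the words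
in `x, x, y, y` are in `St_Idb`. -/
def St_Exb : Prop := ∀ (R : Type) [NonUnitalRing R], N6 R → ∀ φ : (Fin 4 → R) → R, ML 4 φ →
  (∃ m : ℤ, ∀ x y, φ ![x, x, x, y] = m • (x * x * y * x)) ∧
  ∃ a b : ℤ, ∀ x y, φ ![x, x, y, y] = a • (x * x * y * y) + b • (x * y * x * y)

/-- **EXC** (from `St_Idb`, `St_Idc`).  PROOF.  The words with four `x` and one `y` contain `xxx` or are `xxyxx = 0`.  The
words with three `x` and two `y`: `xxxyy`, `yxxxy`, `yyxxx` are `0`, the others are in `St_Idc`. -/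
def St_Exc : Prop := ∀ (R : Type) [NonUnitalRing R], N6 R → ∀ φ : (Fin 5 → R) → R, ML 5 φ →
  (∀ x y, φ ![x, x, x, x, y] = 0) ∧
  ∃ m : ℤ, ∀ x y, φ ![x, x, x, y, y] = m • (x * x * y * x * y)

/-- **EXD** (from `St_Idd`).  PROOF.  Of the 20 words 6 contain `xxx`, the others are `± xxyxz`, `± xxzxy` or `0` by `St_Idd`
for `y, z` and for `z, y`. -/
def St_Exd : Prop := ∀ (R : Type) [NonUnitalRing R], N6 R → ∀ φ : (Fin 5 → R) → R, ML 5 φ →
  ∃ a b : ℤ, ∀ x y z, φ ![x, x, x, y, z] = a • (x * x * y * x * z) + b • (x * x * z * x * y)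

/-- **EXE** (from `St_Ide`).  PROOF.  The 30 words are in `St_Ide`. -/
def St_Exe : Prop := ∀ (R : Type) [NonUnitalRing R], N6 R → ∀ φ : (Fin 5 → R) → R, ML 5 φ →
  ∃ a b c : ℤ, ∀ x y z, φ ![x, x, y, y, z] =
    a • (x * x * y * y * z) + b • (x * y * x * y * z) + c • (x * y * z * x * y)

/-- **ALT.**  PROOF.  `φ` is multilinear and zero if two arguments are equal, so `φ (x ∘ σ) = sign σ φ x`.
`b! φ x = ∑_σ sign σ φ (x ∘ σ) = ∑_τ c τ ∑_σ sign σ wp (x ∘ σ ∘ τ) = ∑_τ c τ sign τ stp x`. -/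
def St_Alt : Prop := ∀ (R : Type) [NonUnitalRing R] (b : ℕ) (φ : (Fin b → R) → R), ML b φ →
  (∀ (x : Fin b → R) (i j : Fin b), i ≠ j → x i = x j → φ x = 0) →
  ∃ m : ℤ, ∀ x, (b.factorial : ℤ) • φ x = m • stp x

/-- **HOA.**  PROOF.  `φ` vanishes if its arguments take at most two values.  `B x a b c = φ (x, a, b, c) + φ (a, x, b, c)`.
(1) `B x a b b = 0` (`φ (x+a, x+a, b, b) = φ (x, x, b, b) = φ (a, a, b, b) = 0`), so `B` changes its sign if `b, c` are
exchanged; the same for `f x y z = φ (x, x, y, z)`.  (2) `B y x x z = B x y x z = - f x y z` (`φ (w, w, w, z) = 0` for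
`w = x, y, x + y, x - y` or: the part of degree one in `y` of `φ (x+y, x+y, x+y, z)`; use 6-torsion or
better `φ (x+y, x+y, x+y, z) - φ (x-y, x-y, x-y, z)`, `2 • (..) = 0`, and `N6`).
(3) `Ā x a b c = B x a b c - B x a c b - B x b a c + B x b c a + B x c a b - B x c b a` (sum over the
permutations with signs) is a combination of the `Wi j x (a, b, c)`: every product `x_σ` occurring in
`B x a b c` is a word in `a, b, c` (in some order `ρ`) with `x` at position `j`, and the alternating sum over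
the orders is `± Wi j`.  (4) `Ā x x y z = 2 (B x x y z - B x y x z + B x z x y)` by (1), and `B x x y z = 2 f x y z`,
`B x y x z = - f x y z`, `B x z x y = - f x z y = f x y z`.  So `Ā x x y z = 8 f x y z`. -/
def St_Hoa : Prop := ∀ (R : Type) [NonUnitalRing R], N6 R → ∀ φ : (Fin 4 → R) → R, ML 4 φ →
  (∀ (a : Fin 2 → R) (j : Fin 4 → Fin 2), φ (fun t => a (j t)) = 0) →
  ∃ c : Fin 4 → ℤ, ∀ x y z, (8 : ℤ) • φ ![x, x, y, z] = ∑ j, c j • Wi j x ![x, y, z]

/-- **HOB.**  PROOF.  As `St_Hoa`.  `φ` vanishes if its arguments take at most three values.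
`B x a b c d = φ (x, a, b, c, d) + φ (a, x, b, c, d)` is alternating in `b, c, d`, `f x y z u = φ (x, x, y, z, u)` in
`y, z, u`; `B x y x z u = - f x y z u` (the part of degree one in `y` of `φ (x+y, x+y, x+y, z, u)`).  `Ā` is the
alternating sum of `B x a b c d` over the 24 orders of `a, b, c, d`: a combination of the
`Wi j x (a, b, c, d)`.  `Ā x x y z u = 6 (B x x y z u - B x y x z u + B x z x y u - B x u x y z)
= 6 (2 f + f + f + f) = 30 f x y z u`: `B x z x y u = - f x z y u = f x y z u`, `B x u x y z = - f x u y z =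
- f x y z u`. -/
def St_Hob : Prop := ∀ (R : Type) [NonUnitalRing R], N6 R → ∀ φ : (Fin 5 → R) → R, ML 5 φ →
  (∀ (a : Fin 3 → R) (j : Fin 5 → Fin 3), φ (fun t => a (j t)) = 0) →
  ∃ c : Fin 5 → ℤ, ∀ x y z u, (30 : ℤ) • φ ![x, x, y, z, u] = ∑ j, c j • Wi j x ![x, y, z, u]

/-! ### Part D: the case analysis -/

/-- **PTA.**  PROOF.  `ML` for `x ↦ φ (x ∘ π)`: substitute `σ ↦ π σ`. -/
def St_Pta : Prop := ∀ (R : Type) [NonUnitalRing R] (b g : ℕ) (φ : (Fin b → R) → R)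
  (π : Equiv.Perm (Fin b)), ML b φ → ML b (fun x => φ (fun t => x (π t)))

/-- **PTB.**  Patterns.  PROOF.  Combinatorics: for `i : Fin b → Fin g` surjective the fibres have `≥ 1` elements,
sum `b`; if two maps `i, j` have fibres of the same sizes over every `k : Fin g`, there is `π` with `i (π t) = j t`
for all `t` (`Equiv.sigmaFiberEquiv`).  Choose `τ` such that the sizes of the fibres over `τ 0, τ 1, ...` do not
increase.  (The small cases also by `decide`.) -/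
def St_Ptb : Prop :=
  (∀ i : Fin 3 → Fin 2, Function.Surjective i → ∃ (π : Equiv.Perm (Fin 3)) (τ : Equiv.Perm (Fin 2)),
    ∀ t, i (π t) = τ ((![0, 0, 1] : Fin 3 → Fin 2) t)) ∧
  (∀ i : Fin 4 → Fin 2, Function.Surjective i → ∃ (π : Equiv.Perm (Fin 4)) (τ : Equiv.Perm (Fin 2)),
    (∀ t, i (π t) = τ ((![0, 0, 0, 1] : Fin 4 → Fin 2) t)) ∨
    ∀ t, i (π t) = τ ((![0, 0, 1, 1] : Fin 4 → Fin 2) t)) ∧
  (∀ i : Fin 4 → Fin 3, Function.Surjective i → ∃ (π : Equiv.Perm (Fin 4)) (τ : Equiv.Perm (Fin 3)),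
    ∀ t, i (π t) = τ ((![0, 0, 1, 2] : Fin 4 → Fin 3) t)) ∧
  (∀ i : Fin 5 → Fin 2, Function.Surjective i → ∃ (π : Equiv.Perm (Fin 5)) (τ : Equiv.Perm (Fin 2)),
    (∀ t, i (π t) = τ ((![0, 0, 0, 0, 1] : Fin 5 → Fin 2) t)) ∨
    ∀ t, i (π t) = τ ((![0, 0, 0, 1, 1] : Fin 5 → Fin 2) t)) ∧
  (∀ i : Fin 5 → Fin 3, Function.Surjective i → ∃ (π : Equiv.Perm (Fin 5)) (τ : Equiv.Perm (Fin 3)),
    (∀ t, i (π t) = τ ((![0, 0, 0, 1, 2] : Fin 5 → Fin 3) t)) ∨
    ∀ t, i (π t) = τ ((![0, 0, 1, 1, 2] : Fin 5 → Fin 3) t)) ∧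
  ∀ i : Fin 5 → Fin 4, Function.Surjective i → ∃ (π : Equiv.Perm (Fin 5)) (τ : Equiv.Perm (Fin 4)),
    ∀ t, i (π t) = τ ((![0, 0, 1, 2, 3] : Fin 5 → Fin 4) t)

/-- **CSA.**  `g = 1`.  PROOF.  `φ (x, ..., x)` is a multiple of `x^b`; `b ≥ 3` gives `0`, a contradiction.  `b = 1`:
`stp x = x 0` for `x : Fin 1 → R`, the first item of `NilFun`; `b = 2`: `a • (x 0 * stp x)`.  `i = fun _ => 0`, `N = 1`. -/
def St_Csa : Prop := ∀ (R : Type) [NonUnitalRing R], N6 R → ∀ (b : ℕ) (φ : (Fin b → R) → R),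
  1 ≤ b → Fn b 1 φ → Out b 1 φ

/-- **CSB** (from `St_Alt`, `St_Sfi`).  `b = g`.  PROOF.  If two arguments are equal they take less than `b` values, so
`φ x = 0`; `St_Alt`.  `b! = 1, 2, 6, 24, 120`.  For `b = 5` `120 φ x = m stp x = 0`, a contradiction (`N6`, `T5`).
Otherwise `i = id`, `N = b!`, `f x = m • stp x`. -/
def St_Csb : Prop := ∀ (R : Type) [NonUnitalRing R], N6 R → T5 R → ∀ (b : ℕ) (φ : (Fin b → R) → R),
  1 ≤ b → b ≤ 5 → Fn b b φ → Out b b φ

/-- **CSC** (from `St_Ida`, `St_Exa`).  PROOF.  `φ (x, x, y) = a xxy + b xyx + c yxx = α xxy + β yxx` with `α = a - b`,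
`β = c - b` (`Q x y = 0`).  `x s_2 = xxy - xyx = 2 xxy + yxx`, `s_2 x = xyx - yxx = - xxy - 2 yxx` (`s_2 = xy - yx`), so
`3 φ (x, x, y) = (2 α - β) x s_2 + (α - 2 β) s_2 x`.  `N = 3`, `i = ![0, 0, 1]`. -/
def St_Csc : Prop := ∀ (R : Type) [NonUnitalRing R], N6 R → ∀ φ : (Fin 3 → R) → R,
  Fp 3 2 ![0, 0, 1] φ → Out 3 2 φ

/-- **CSD** (from `St_Exb`).  PROOF.  First: `φ (x, x, x, y) = m xxyx = - m xx s_2` (`xx (xy - yx) = - xxyx`).  Second:
the fourth item of `NilFun` with `i = 0`, `j = 1`. -/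
def St_Csd : Prop := ∀ (R : Type) [NonUnitalRing R], N6 R → ∀ φ : (Fin 4 → R) → R,
  (Fp 4 2 ![0, 0, 0, 1] φ → Out 4 2 φ) ∧ (Fp 4 2 ![0, 0, 1, 1] φ → Out 4 2 φ)

/-- **CSE** (from `St_Exc`).  PROOF.  First: `φ (x, x, x, x, y) = 0`, a contradiction.  Second: the fifth item of `NilFun`. -/
def St_Cse : Prop := ∀ (R : Type) [NonUnitalRing R], N6 R → ∀ φ : (Fin 5 → R) → R,
  (Fp 5 2 ![0, 0, 0, 0, 1] φ → Out 5 2 φ) ∧ (Fp 5 2 ![0, 0, 0, 1, 1] φ → Out 5 2 φ)

/-- **CSF** (from `St_Ida`, `St_Hoa`, `St_Wia`, `St_Wib`, `St_Wid`).  PROOF.  `8 φ (x, x, y, z) = ∑ c_j W_j`.  `St_Wia` and `St_Wib` at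
`(x; x, y, z)`: `W_1 + W_2 = - 2 W_0 - 2 W_3`, `W_2 - W_1 = W_3 - W_0`, so `2 W_2 = - 3 W_0 - W_3`,
`2 W_1 = - W_0 - 3 W_3`.  So `16 φ (x, x, y, z) = (2 c_0 - c_1 - 3 c_2) W_0 + (2 c_3 - 3 c_1 - c_2) W_3`; `St_Wid`;
the second item of `NilFun` with `i = 0`.  `N = 16`. -/
def St_Csf : Prop := ∀ (R : Type) [NonUnitalRing R], N6 R → ∀ φ : (Fin 4 → R) → R,
  Fp 4 3 ![0, 0, 1, 2] φ → Out 4 3 φ

/-- **CSG** (from `St_Hob`, `St_Wic`, `St_Wid`).  PROOF.  `30 φ (x, x, y, z, u) = (c_0 - 2 c_2 + c_4) x s_4`.  `N = 30`, `N6`, `T5`. -/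
def St_Csg : Prop := ∀ (R : Type) [NonUnitalRing R], N6 R → T5 R → ∀ φ : (Fin 5 → R) → R,
  Fp 5 4 ![0, 0, 1, 2, 3] φ → Out 5 4 φ

/-- **CSH** (from `St_Ida`, `St_Idd`, `St_Exd`).  PROOF.  `f = φ (x, x, x, y, z) = a T + b T'`, `T = xxyxz`, `T' = xxzxy`.
`φ (x, x, x, y, y) = 0`, so `f` changes its sign if `y, z` are exchanged: `2 f = (a - b) (T - T')`.
`xx s_3 = - xxyxz + xxyzx + xxzxy - xxzyx = - 2 T + 2 T'` (the terms with `xxx` vanish; `St_Idd`).  So
`4 f = (b - a) xx s_3`, `N = 4`, the third item of `NilFun`. -/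
def St_Csh : Prop := ∀ (R : Type) [NonUnitalRing R], N6 R → ∀ φ : (Fin 5 → R) → R,
  Fp 5 3 ![0, 0, 0, 1, 2] φ → Out 5 3 φ

/-- **CSI** (from `St_Ida`, `St_Idc`, `St_Idd`, `St_Ide`, `St_Exe`).  PROOF.  `f = φ (x, x, y, y, z) = a u1 + b u2 + c u3` (`u1 = xxyyz`,
`u2 = xyxyz`, `u3 = xyzxy`).  `T = T x y z = xxyxz`, `T' = T x z y`, `w = w x y = xxyxy = T x y y`.
(1) The part of degree one in `x` of `φ (x', x', y + x, y + x, z)` at `x' = x` is `φ (x,x,x,y,z) + φ (x,x,y,x,z) = 0` by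
hypothesis (also `φ (x,x,x,x,z) = 0`, so simply take `f` at `(x, y + x, z)` minus `f` at `(x, y, z)`); the same part of `u1` is
`xx(xy + yx)z = T`, of `u2` it is `xxxyz + xyxxz = - T`, of `u3` it is `xxzxy + xyzxx = T' + T`.  So
`(a - b + c) T + c T' = 0`; exchange `y, z` and subtract: `(a - b) (T - T') = 0`.
(2) `z = x`: `0 = a xxyyx + b xyxyx + c xyxxy = - (a + c) w`.  (3) `z = y`: `0 = a xxyyy + b xyxyy + c xyyxy =
(c - b) w y x` (`St_Idc` with `x, y` exchanged: `xyxyy = - w y x`, `xyyxy = w y x`).  So `(a + c) w = 0`,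
`(c - b) w = 0` for all arguments.
(4) If `m w = 0` (all arguments) then `m u3 = 0` and `m (u1 + u2) = 0`: the part of degree one in `z` of
`w (x+z) y` is `zxyxy + xzyxy + xxyzy = - 2 u1 - 2 u2 - u3`, that of `w (y+z) x` is `zyxyx + yzxyx + yyxzx =
- 2 u1 - 2 u2 + u3` (`St_Ide`; `w` has degree 3 in the first variable: the part of degree one is obtained from the
values at `x + z`, `x - z`, `x + 2z`, `x - 2z` by 6-torsion).  (5) If `m (T - T') = 0` then `m (u1 - u2 - u3) = 0`: the part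
of degree one in `y` of `T (x+y) y' z - T (x+y) z y'` at `y' = y`: `yxyxz + xyyxz + xxyyz = u1 - u2`;
`yxzxy + xyzxy + xxzyy = u2 + 2 u3 - u1`; the difference is `2 (u1 - u2 - u3)`.
(6) `a + b = (a + c) - (c - b)`, `2c + a - b = (a + c) + (c - b)`; so `2 f = (a + b)(u1 + u2) + (a - b)(u1 - u2 - u3) +
(2c + a - b) u3 = 0`, a contradiction. -/
def St_Csi : Prop := ∀ (R : Type) [NonUnitalRing R], N6 R → ∀ φ : (Fin 5 → R) → R,
  (∀ x y z, φ ![x, x, x, y, z] = 0 ∧ φ ![x, x, y, x, z] = 0) →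
  Fp 5 3 ![0, 0, 1, 1, 2] φ → False

/-- **CAS** (from all statements of part D).  PROOF.  `b` and `g ≤ b` (surjectivity), `1 ≤ g`.  `g = 1`: `St_Csa`; `g = b`: `St_Csb`.
Otherwise `St_Ptb`: `φ (z ∘ i) ≠ 0`, `i (π t) = τ (q t)`; let `φ' x = φ (x ∘ π⁻¹)` (`St_Pta`), then `φ' ((z ∘ τ) ∘ q) = φ (z ∘ i) ≠ 0`,
so `Fp b g q φ'`; `Out b g φ'` implies `Out b g φ`.  For `b = 5`, `g = 3` and `q = ![0, 0, 1, 1, 2]`: if
`φ'' ![x, x, x, y, z] ≠ 0` for some `x, y, z` and some `φ'' x = φ (x ∘ ρ)`, `ρ` a permutation, use `St_Csh` for `φ''`, otherwise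
the hypothesis of `St_Csi` holds (`φ' ![x, x, y, x, z] = φ'' ![x, x, x, y, z]` with a transposition) and we get a
contradiction. -/
def St_Cas : Prop := ∀ (R : Type) [NonUnitalRing R], N6 R → T5 R → ∀ (b g : ℕ)
  (φ : (Fin b → R) → R), 1 ≤ b → b ≤ 5 → Fn b g φ → Out b g φ

/-! ### Part E: the theorems -/

/-- **FWM** (from `St_Mlt`, `St_Bas`).  PROOF.  `N6 R`: the order of `R` is prime to 6.  `thm_Sir` (CRN), `St_Mlt`, `St_Bas`. -/
def St_Fwm : Prop := ∀ (R : Type) [NonUnitalRing R] [Finite R], (∀ x : R, x * x * x = 0) →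
  (Nat.card R).Coprime 6 → Critical R → MulType R

/-- **FWN** (from `St_Mlt`, `St_Bas`, `St_Cas`).  PROOF.  `N6 R`, `T5 R`: the order of `R` is prime to 30.  `thm_Sir` (CRN), `St_Mlt`,
`St_Bas`, `St_Cas` give `g`, `z` and `f x = N • φ (x ∘ i)`: values in `H`; `f x = f y` if `x i - y i ∈ Sq R` for all `i` because
`φ` is additive in every variable and zero if an argument is in `Sq R`. -/
def St_Fwn : Prop := ∀ (R : Type) [NonUnitalRing R] [Finite R], (∀ x : R, x * x * x = 0) →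
  (Nat.card R).Coprime 30 → Critical R → NilType R

/-- **LIN.**  PROOF.  `R` is nilpotent (`thm_Jnl` for `⊤`).  `N` the subgroup generated by the products and the
`p • a`.  `V = R ⧸ N` is a vector space over `ZMod p`, generated by the classes of the `z i`, so of dimension
`≤ g`.  By `thm_Nak` (`J = ⊤`) there is an element not in `fr S ⊤ p`, so the classes of the elements of `S` do
not span `V`: they span a subspace of dimension `k < g`.  Choose representatives `a 0, .., a (k-1)` in `R`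
of a basis of this subspace.  Then every `x ∈ S` is a combination of the `a i` modulo `N`, and the elements of `N` are
`s + p • y`, `s ∈ Sq R`. -/
def St_Lin : Prop := ∀ (R : Type) [NonUnitalRing R] [Finite R], (∀ x : R, x * x * x = 0) →
  ∀ p r : ℕ, p.Prime → (∀ x : R, (p ^ r) • x = 0) → ∀ (g : ℕ) (z : Fin g → R),
  NonUnitalSubring.closure (Set.range z) = ⊤ → ∀ S : NonUnitalSubring R, S ≠ ⊤ →
  ∃ k, k < g ∧ ∃ a : Fin k → R, ∀ x ∈ S, ∃ (μ : Fin k → ℤ) (y : R),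
    x - (∑ i, μ i • a i + (p : ℤ) • y) ∈ Sq R

/-- **PHZ.**  PROOF.  The elements `p • h`, `h ∈ H`, are an ideal contained in `H`; if it is not `⊥` it is `H`, and
then `H = p^r H = 0`, a contradiction. -/
def St_Phz : Prop := ∀ (R : Type) [NonUnitalRing R] (H : AddSubgroup R), Lst R H →
  ∀ p r : ℕ, (∀ x : R, (p ^ r) • x = 0) → ∀ h ∈ H, (p : ℤ) • h = 0

/-- **CVM** (from `St_Lin`, `St_Phz`).  PROOF.  `thm_Ppw` (CRN) gives `p, r`.  `thm_Crg` with the term function `v ↦ φ (fun i => v i)`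
(`TmF`: products, sums, integer multiples).  Let `S ≠ ⊤`, `v` in `S`.  By `St_Lin` the arguments of `φ` are
combinations of `a 0, .., a (k-1)`, `k < g`, plus `p • y`, plus elements of `Sq R`.  `φ` is additive in every
variable, zero if an argument is in `Sq R` or is `p • y` (`p • φ = 0` by `St_Phz`); so `φ x` is a combination of
values `φ (a ∘ j)`, which are `0`. -/
def St_Cvm : Prop := ∀ (R : Type) [NonUnitalRing R] [Finite R], MulType R → Critical R

/-- **CUB.**  PROOF.  `stp` is additive in every variable.  Every item of `NilFun` has degree `≤ 3` in `x k`. -/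
def St_Cub : Prop := ∀ (R : Type) [NonUnitalRing R] (g : ℕ) (f : (Fin g → R) → R), NilFun g f →
  ∀ (x : Fin g → R) (k : Fin g) (y : R), ∃ B C D : R, ∀ t : ℤ,
    f (Function.update x k (x k + t • y)) = f x + t • B + (t * t) • C + (t * t * t) • D

/-- **PMD** (from `St_Cub`, `St_Phz`).  PROOF.  `F t = f (update x k (x k + t • y)) - f x = t B + t^2 C + t^3 D ∈ H` for all
integers `t`.  `F 1 + F (-1) = 2 C`, `F 2 - 2 F 1 = 2 C + 6 D`; so `2 C, 6 D ∈ H`, and `C, D ∈ H` because 6 is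
invertible modulo `p^r`, so `B ∈ H`; `F p = p B + p^2 C + p^3 D = 0` (`St_Phz`). -/
def St_Pmd : Prop := ∀ (R : Type) [NonUnitalRing R] (H : AddSubgroup R), Lst R H →
  ∀ p r : ℕ, p.Prime → p ≠ 2 → p ≠ 3 → (∀ x : R, (p ^ r) • x = 0) →
  ∀ (g : ℕ) (f : (Fin g → R) → R), NilFun g f → (∀ x, f x ∈ H) →
  ∀ (x : Fin g → R) (k : Fin g) (y : R), f (Function.update x k (x k + (p : ℤ) • y)) = f x

/-- **DPZ.**  PROOF.  `stp` is additive in every variable and zero if two arguments are equal, so `stp x = 0`.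
In the fourth and fifth item (`g = 2`): one of `x 0`, `x 1` is a multiple of the other (`x k = μ • x j`, `j ≠ k`), and
`f x` is a multiple of `x_j^4` or `x_j^5`. -/
def St_Dpz : Prop := ∀ (R : Type) [NonUnitalRing R], (∀ x : R, x * x * x = 0) →
  ∀ (g : ℕ) (f : (Fin g → R) → R), NilFun g f → ∀ (x : Fin g → R) (k : Fin g) (μ : Fin g → ℤ),
  μ k = 0 → x k = ∑ j, μ j • x j → f x = 0

/-- **CVN** (from `St_Lin`, `St_Phz`, `St_Pmd`, `St_Dpz`).  PROOF.  `thm_Ppw` gives `p, r`; `p ≠ 2, 3`.  `thm_Crg` with `v ↦ f (fun i => v i)`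
(`TmF`).  Let `S ≠ ⊤`, `v` in `S`, `x i = v i`.  By `St_Lin` the `x i`, `i : Fin g`, are combinations of `k < g` elements
`a` modulo `Sq R` and `p R`; so their classes modulo `N` (subgroup generated by products and `p • a`) are
linearly dependent over `ZMod p` (`k < g`): there is an index `l` and integers `μ j`, `μ l = 0`, and `y` with
`x l - (∑ μ j • x j + p • y) ∈ Sq R` (an integer relation `∑ λ j • x j ≡ 0`, `λ l` prime to `p`, multiplied by an
inverse of `λ l` modulo `p`).  Then `f x = f (x[l := ∑ μ j • x j + p • y]) = f (x[l := ∑ μ j • x j]) = 0` by the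
hypothesis of `NilType`, `St_Pmd` and `St_Dpz`. -/
def St_Cvn : Prop := ∀ (R : Type) [NonUnitalRing R] [Finite R], (Nat.card R).Coprime 6 →
  NilType R → Critical R

/-- **NAB.**  PROOF.  Let `i ≠ j`, `x = e i * x = x * e j`, `E = e i + e j`: `E` idempotent, `E x = x = x E`, `x x = 0`, so
`pw (E + x) k = E + (k + 1) • x`.  `InM`: `3 • x = n • x`, `(n - 3) • x = 0`, so `x = 0`.  `TyA`: `z = 0`, a contradiction.
`TyB`: at most one of `α, β, γ` is `none`.  If `α, β` are not `none`, `z = 0`; if `β, γ` are not `none`, `z' = 0`; if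
`α, γ` are not `none`, `z * z' = 0`. -/
def St_Nab : Prop := ∀ n : ℕ, 4 ≤ n → ∀ (R : Type) [NonUnitalRing R] [Finite R], InM n R →
  (Nat.card R).Coprime (n - 3) → ¬ TyA R ∧ ¬ TyB R

/-- **MAI** (from `St_Fwm`, `St_Fwn`, `St_Cvm`, `St_Cvn`, `St_Nab`).  The theorem.  PROOF.  If `R` has no idempotent `≠ 0`: `om n x = 0` for
all `x`, so `x * x * x = 0` (`thm_Pws` of CRN); all types with fields contain a nonzero idempotent.  Otherwise
`x * x * x = 0` does not hold, and `St_Asm` of CRN. -/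
def St_Mai : Prop := ∀ n : ℕ, 4 ≤ n → ∀ (R : Type) [NonUnitalRing R] [Finite R], InM n R →
  (Nat.card R).Coprime 6 →
  ((∀ g : R, g * g = g → g = 0) → (Critical R ↔ MulType R)) ∧
  ((Even n ∨ (Nat.card R).Coprime (n - 3)) →
    (Critical R ↔ MulType R ∨ MatType R 1 ∨ TyA R ∨ TyB R ∨ TyC R ∨ TyC Rᵐᵒᵖ ∨ TyD R)) ∧
  ((Nat.card R).Coprime 5 → (MulType R ↔ NilType R)) ∧
  ((Nat.card R).Coprime (n - 3) → ¬ TyA R ∧ ¬ TyB R)

end Pool.Agent.CRK
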