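import Pool.Agent.CRK.Wib

/-!
Campaign CRK, statement Wia.
-/

set_option autoImplicit false

namespace Pool.Agent.CRK

open Pool.Agent.CRR Pool.Agent.CRN

theorem thm_Wia (hIda : St_Ida) : St_Wia := by
  intro R _ hN x a
  obtain ⟨h0, h1, h2, h3⟩ := Wib_exp x a
  obtain ⟨_, _, hP, _⟩ := hIda R hN
  have e1 := hP (a 0) (a 1 * a 2) x
  have e2 := hP (a 1) (a 0 * a 2) x
  have e3 := hP (a 2) (a 1 * a 0) x
  have e4 := hP (a 0) (a 2 * a 1) x
  have e5 := hP (a 1) (a 2 * a 0) x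
  have e6 := hP (a 2) (a 0 * a 1) x
  rw [h0, h1, h2, h3]
  simp only [mul_assoc] at e1 e2 e3 e4 e5 e6
  linear_combination (norm := module) e1 - e2 - e3 - e4 + e5 + e6

end Pool.Agent.CRK
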